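import Pool.Agent.TotallySkew.Ori.MO
import Pool.Agent.TotallySkew.Open.MT
import Pool.Agent.TotallySkew.Open.LOC

/-!
GS: the glued map is smooth.

φ x := Ψ j p for a choice of j ∈ S, p with |p.2| < ε', A j p = f x. If A k q = f x with |q.2| < ε' too then
PlumbRel, so Ψ j p = Ψ k q. Near x: let g be the local inverse of A j at p (IsLocalDiffeomorphAt, as in
Open/MT and Open/LOC), then for x' near x, q' = g (f x') is near p, |q'.2| < ε', A j q' = f x', so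
φ x' = Ψ j (g (f x')). So φ is smooth at x and mvfderiv φ x u = fderiv (Ψ j) p (L u) with
L = mfderiv (g ∘ f) x, injective because mfderiv f x is and mfderiv g is bijective.
-/

open scoped Manifold ContDiff Quaternion Topology
open Function Set Filter

namespace Pool.Agent.TotallySkew.Ori

variable {E H M M' V : Type*} [NormedAddCommGroup E] [NormedSpace ℝ E]
  [TopologicalSpace H] {I : ModelWithCorners ℝ E H}
  [TopologicalSpace M] [ChartedSpace H M] [TopologicalSpace M'] [ChartedSpace H M']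
  [NormedAddCommGroup V] [NormedSpace ℝ V]

theorem glue_smooth [IsManifold I ∞ M] [IsManifold I ∞ M'] {S : Set ℕ}
    {A : ℕ → ℝ × ℝ → M'} {δ ε ε' : ℝ}
    (hl : ∀ j ∈ S, IsLocalDiffeomorph 𝓘(ℝ, ℝ × ℝ) I ∞ (A j))
    (hA : ∀ j ∈ S, ∀ k ∈ S, ∀ p q : ℝ × ℝ, |p.2| < δ → |q.2| < δ →
      (A j p = A k q ↔ PlumbRel j p k q))
    {Ψ : ℕ → ℝ × ℝ → V} (hΨ : IsChainModel Ψ ε) (h1 : ε' < δ) (h2 : ε' < ε)
    {f : M → M'} (hf : ContMDiff I I ∞ f) (hfi : ∀ x, Injective (mfderiv I I f x))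
    (hr : ∀ x, ∃ j ∈ S, ∃ p : ℝ × ℝ, |p.2| < ε' ∧ A j p = f x) :
    ∃ φ : M → V, ContMDiff I 𝓘(ℝ, V) ∞ φ ∧
      ∀ x, ∃ j ∈ S, ∃ p : ℝ × ℝ, |p.2| < ε' ∧ A j p = f x ∧ φ x = Ψ j p ∧
        ∃ L : TangentSpace I x →L[ℝ] ℝ × ℝ, Injective L ∧
          ∀ u, mvfderiv I φ x u = fderiv ℝ (Ψ j) p (L u) := by
  choose j hjS p hp hAp using hr
  have hεδ : ∀ {y : ℝ}, |y| < ε' → |y| < δ := fun h => h.trans h1
  have hεε : ∀ {y : ℝ}, |y| < ε' → |y| < ε := fun h => h.trans h2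
  -- the value does not depend on the choice
  have key : ∀ x, ∀ k ∈ S, ∀ q : ℝ × ℝ, |q.2| < ε' → A k q = f x → Ψ (j x) (p x) = Ψ k q := by
    intro x k hk q hq hAq
    have h3 := (hA (j x) (hjS x) k hk (p x) q (hεδ (hp x)) (hεδ hq)).1 (by rw [hAp x, hAq])
    exact hΨ.eq _ _ _ _ (hεε (hp x)) (hεε hq) h3
  -- local lifts
  have loc : ∀ x₀, ∃ h : M → ℝ × ℝ, ContMDiffAt I 𝓘(ℝ, ℝ × ℝ) ∞ h x₀ ∧ h x₀ = p x₀ ∧
      (∀ᶠ x in 𝓝 x₀, A (j x₀) (h x) = f x) ∧ ∀ᶠ x in 𝓝 x₀, |(h x).2| < ε' := by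
    intro x₀
    have hβ := hl (j x₀) (hjS x₀) (p x₀)
    have hfx : f x₀ = A (j x₀) (p x₀) := (hAp x₀).symm
    have hfc : ContinuousAt f x₀ := hf.continuous.continuousAt
    have hg : ContMDiffAt I 𝓘(ℝ, ℝ × ℝ) ∞ hβ.localInverse (f x₀) := by
      rw [hfx]
      exact hβ.localInverse_contMDiffAt
    have hh : ContMDiffAt I 𝓘(ℝ, ℝ × ℝ) ∞ (fun x => hβ.localInverse (f x)) x₀ :=
      hg.comp x₀ (hf x₀)
    have hv : hβ.localInverse (f x₀) = p x₀ := by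
      rw [hfx]
      exact hβ.localInverse_eventuallyEq_left.eq_of_nhds
    refine ⟨fun x => hβ.localInverse (f x), hh, hv, ?_, ?_⟩
    · have h3 := hβ.localInverse_eventuallyEq_right
      rw [← hfx] at h3
      exact hfc.eventually h3
    · have hc : ContinuousAt (fun x => |(hβ.localInverse (f x)).2|) x₀ :=
        (continuous_snd.continuousAt.comp hh.continuousAt).abs
      have h4 : |(hβ.localInverse (f x₀)).2| < ε' := by rw [hv]; exact hp x₀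
      exact hc.eventually_lt continuousAt_const h4
  have hφeq : ∀ x₀, ∀ h : M → ℝ × ℝ, (∀ᶠ x in 𝓝 x₀, A (j x₀) (h x) = f x) →
      (∀ᶠ x in 𝓝 x₀, |(h x).2| < ε') →
      (fun x => Ψ (j x) (p x)) =ᶠ[𝓝 x₀] (Ψ (j x₀) ∘ h) := by
    intro x₀ h ha hb
    filter_upwards [ha, hb] with x hxa hxb
    exact key x (j x₀) (hjS x₀) (h x) hxb hxa
  refine ⟨fun x => Ψ (j x) (p x), ?_, ?_⟩
  · intro x₀
    obtain ⟨h, hh, -, ha, hb⟩ := loc x₀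
    have h3 : ContMDiffAt I 𝓘(ℝ, V) ∞ (Ψ (j x₀) ∘ h) x₀ :=
      ((hΨ.smooth (j x₀)).contDiffAt.contMDiffAt).comp x₀ hh
    exact h3.congr_of_eventuallyEq (hφeq x₀ h ha hb)
  · intro x₀
    obtain ⟨h, hh, hv, ha, hb⟩ := loc x₀
    refine ⟨j x₀, hjS x₀, p x₀, hp x₀, hAp x₀, rfl, ?_⟩
    have hhd : MDifferentiableAt I 𝓘(ℝ, ℝ × ℝ) h x₀ := hh.mdifferentiableAt (by simp)
    have hAd : MDifferentiableAt 𝓘(ℝ, ℝ × ℝ) I (A (j x₀)) (h x₀) := by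
      rw [hv]
      exact (hl (j x₀) (hjS x₀) (p x₀)).mdifferentiableAt (by simp)
    have hΨd : MDifferentiableAt 𝓘(ℝ, ℝ × ℝ) 𝓘(ℝ, V) (Ψ (j x₀)) (h x₀) :=
      ((hΨ.smooth (j x₀)).differentiable (by simp) (h x₀)).mdifferentiableAt
    refine ⟨mfderiv I 𝓘(ℝ, ℝ × ℝ) h x₀, ?_, ?_⟩
    · have e1 := mfderiv_comp x₀ hAd hhd
      have e2 : (A (j x₀) ∘ h) =ᶠ[𝓝 x₀] f := ha
      have e3 := e2.mfderiv_eq (I := I) (I' := I)
      intro u v huv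
      apply hfi x₀
      have e4 : ∀ z, (mfderiv I I (A (j x₀) ∘ h) x₀) z =
          (mfderiv 𝓘(ℝ, ℝ × ℝ) I (A (j x₀)) (h x₀)) (mfderiv I 𝓘(ℝ, ℝ × ℝ) h x₀ z) := by
        intro z
        rw [e1]
        rfl
      have e5 : (mfderiv I I (A (j x₀) ∘ h) x₀) u = (mfderiv I I (A (j x₀) ∘ h) x₀) v := by
        rw [e4, e4]
        exact congrArg _ huv
      have e6 : ∀ z, (mfderiv I I (A (j x₀) ∘ h) x₀ : E →L[ℝ] E) z =
          (mfderiv I I f x₀ : E →L[ℝ] E) z := fun z =>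
        congrArg (fun L : E →L[ℝ] E => L z) e3
      exact ((e6 u).symm.trans e5).trans (e6 v)
    · intro u
      have e2 := hφeq x₀ h ha hb
      have e3 := e2.mfderiv_eq (I := I) (I' := 𝓘(ℝ, V))
      have e1 := mfderiv_comp x₀ hΨd hhd
      have e4 : mfderiv 𝓘(ℝ, ℝ × ℝ) 𝓘(ℝ, V) (Ψ (j x₀)) (h x₀) = fderiv ℝ (Ψ (j x₀)) (h x₀) :=
        mfderiv_eq_fderiv
      show (mfderiv I 𝓘(ℝ, V) (fun x => Ψ (j x) (p x)) x₀ : E →L[ℝ] V) u = _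
      have e5 : (mfderiv I 𝓘(ℝ, V) (fun x => Ψ (j x) (p x)) x₀ : E →L[ℝ] V) =
          (mfderiv I 𝓘(ℝ, V) (Ψ (j x₀) ∘ h) x₀ : E →L[ℝ] V) := e3
      have e6 : (mfderiv I 𝓘(ℝ, V) (Ψ (j x₀) ∘ h) x₀ : E →L[ℝ] V) u =
          (fderiv ℝ (Ψ (j x₀)) (h x₀)) (mfderiv I 𝓘(ℝ, ℝ × ℝ) h x₀ u) := by
        rw [e1, e4]
        rfl
      have e7 : (mfderiv I 𝓘(ℝ, V) (fun x => Ψ (j x) (p x)) x₀ : E →L[ℝ] V) u =
          (mfderiv I 𝓘(ℝ, V) (Ψ (j x₀) ∘ h) x₀ : E →L[ℝ] V) u :=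
        congrArg (fun L : E →L[ℝ] V => L u) e5
      have e8 : (fderiv ℝ (Ψ (j x₀)) (h x₀)) (mfderiv I 𝓘(ℝ, ℝ × ℝ) h x₀ u) =
          (fderiv ℝ (Ψ (j x₀)) (p x₀)) (mfderiv I 𝓘(ℝ, ℝ × ℝ) h x₀ u) := by rw [hv]
      exact (e7.trans e6).trans e8

end Pool.Agent.TotallySkew.Ori
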