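import Pool.Agent.TotallySkew.Ori.GE
import Pool.Agent.TotallySkew.Ori.GS
import Pool.Agent.TotallySkew.Open.LA

/-!
GL: assembly. With strips A, δ of M', a chain model Ψ, ε and 0 < ε' < ε'' < min δ ε: the set
U' = ⋃ (j ∈ S) A j '' {|y| < ε'} is open and contains the cores, so there is f₁ : M' → M' with range in
U'; f = f₁ ∘ f₀ is a smooth embedding of M with injective derivative and range in U'. glue_smooth,
glue_isEmbedding; skewness: x ≠ x' gives f x ≠ f x', so not PlumbRel, so the pair map of Ψ is injective;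
compose with the two injective maps L; skew_of_injective_pairMap.
-/

open scoped Manifold ContDiff Quaternion Topology
open Function Set

namespace Pool.Agent.TotallySkew.Ori

variable {E H M M' V : Type*} [NormedAddCommGroup E] [NormedSpace ℝ E]
  [TopologicalSpace H] {I : ModelWithCorners ℝ E H}
  [TopologicalSpace M] [ChartedSpace H M] [TopologicalSpace M'] [ChartedSpace H M']
  [NormedAddCommGroup V] [NormedSpace ℝ V]

theorem exists_embedding_of_model [IsManifold I ∞ M] [IsManifold I ∞ M'] {S : Set ℕ}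
    (hM' : IsAnnularChain I M' S) (hM : EmbedsIn I M M') {Ψ : ℕ → ℝ × ℝ → V} {ε : ℝ}
    (hΨ : IsChainModel Ψ ε) : ∃ φ : M → V, IsTotallySkewEmbedding I φ := by
  obtain ⟨A, δ, hδ, hl, hA, hsh⟩ := hM'
  obtain ⟨f₀, g1, g2, g3⟩ := hM
  have hmin : 0 < min δ ε := lt_min hδ hΨ.pos
  set ε' := min δ ε / 3 with hε'
  set ε'' := min δ ε / 2 with hε''
  have e0 : 0 < ε' := by positivity
  have e1 : ε' < ε'' := by rw [hε', hε'']; linarith
  have e2 : ε'' < δ := by
    have := min_le_left δ ε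
    rw [hε'']; linarith
  have e3 : ε'' < ε := by
    have := min_le_right δ ε
    rw [hε'']; linarith
  set U : Set M' := ⋃ j ∈ S, A j '' {p | |p.2| < ε'} with hU
  have hUo : IsOpen U := by
    refine isOpen_biUnion fun j hj => ?_
    refine (hl j hj).isOpenMap _ ?_
    exact isOpen_lt (by fun_prop) continuous_const
  have hKU : (⋃ j ∈ S, Set.range fun t : ℝ => A j (t, 0)) ⊆ U := by
    refine iUnion₂_mono fun j hj => ?_
    rintro _ ⟨t, rfl⟩
    exact ⟨(t, 0), by simpa using e0, rfl⟩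
  obtain ⟨f₁, k1, k2, k3, k4⟩ := hsh U hUo hKU
  have hf : ContMDiff I I ∞ (f₁ ∘ f₀) := k1.comp g1
  have hfe : Topology.IsEmbedding (f₁ ∘ f₀) := k2.comp g2
  have hfi : ∀ x, Injective (mfderiv I I (f₁ ∘ f₀) x) := by
    intro x
    have hc := mfderiv_comp x ((k1 (f₀ x)).mdifferentiableAt (by simp))
      ((g1 x).mdifferentiableAt (by simp))
    rw [hc]
    exact (k3 (f₀ x)).comp (g3 x)
  have hr : ∀ x, ∃ j ∈ S, ∃ p : ℝ × ℝ, |p.2| < ε' ∧ A j p = (f₁ ∘ f₀) x := by
    intro x
    have h := k4 (mem_range_self (f₀ x))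
    simp only [hU, mem_iUnion, mem_image, mem_ofPred_eq] at h
    obtain ⟨j, hj, p, hp, hp'⟩ := h
    exact ⟨j, hj, p, hp, hp'⟩
  obtain ⟨φ, hφ1, hφ2⟩ := glue_smooth hl hA hΨ (e1.trans e2) (e1.trans e3) hf hfi hr
  refine ⟨φ, hφ1, ?_, ?_, ?_⟩
  · refine glue_isEmbedding (fun j hj => (hl j hj).contMDiff.continuous)
      (fun j hj => (hl j hj).isOpenMap) hA hΨ e0 e1 e2 e3 hfe ?_
    intro x
    obtain ⟨j, hj, p, hp, hp', hp'', -⟩ := hφ2 x
    exact ⟨j, hj, p, hp, hp', hp''⟩
  · intro x u v huv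
    obtain ⟨j, hj, p, hp, -, -, L, hL, hL'⟩ := hφ2 x
    rw [hL', hL'] at huv
    exact hL (hΨ.imm j p (hp.trans (e1.trans e3)) huv)
  · intro x y hxy
    obtain ⟨j, hj, p, hp, hp', hp'', L, hL, hL'⟩ := hφ2 x
    obtain ⟨k, hk, q, hq, hq', hq'', L₁, hL₁, hL₁'⟩ := hφ2 y
    have hne : A j p ≠ A k q := by
      rw [hp', hq']
      exact fun h => hxy (hfe.injective h)
    have hrel : ¬ PlumbRel j p k q := fun h =>
      hne ((hA j hj k hk p q (hp.trans (e1.trans e2)) (hq.trans (e1.trans e2))).2 h)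
    have h1 := hΨ.skew j k p q (hp.trans (e1.trans e3)) (hq.trans (e1.trans e3)) hrel
    have h2 : Injective (pairMap (mvfderiv I φ x) (mvfderiv I φ y) (φ x - φ y)) := by
      rw [injective_pairMap_iff]
      intro a b c habc
      rw [hL', hL₁', hp'', hq''] at habc
      obtain ⟨ha, hb, hc⟩ := injective_pairMap_iff.1 h1 _ _ c habc
      exact ⟨(injective_iff_map_eq_zero _).1 hL a ha,
        (injective_iff_map_eq_zero _).1 hL₁ b hb, hc⟩
    exact skew_of_injective_pairMap h2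

theorem exists_embedding_six [IsManifold I ∞ M] [IsManifold I ∞ M'] {S : Set ℕ}
    (hM' : IsAnnularChain I M' S) (hM : EmbedsIn I M M') :
    ∃ φ : M → EuclideanSpace ℝ (Fin 6), IsTotallySkewEmbedding I φ := by
  obtain ⟨Ψ, ε, hΨ⟩ := exists_model6
  exact exists_embedding_of_model hM' hM hΨ

end Pool.Agent.TotallySkew.Ori
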