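import Pool.Agent.TotallySkew.Open.MT
import Pool.Agent.TotallySkew.Open.MB

/-!
L6: no surface has a totally skew embedding in dimension 5.

Let φ : M → ℝ^N be one, N ≤ 5; compose with an injective linear map into ℝ^5
(exists_injective_linearMap in MB). Take a chart at a point; F = φ ∘ (inverse chart) is smooth on a
ball of ℝ × ℝ and all pairs x ≠ y in the ball have injective pairMap
(injective_pairMap_of_skew). Let D (x, y) be the determinant of the five vectors
DF(x) e₁, DF(x) e₂, DF(y) e₁, DF(y) e₂, F x - F y: continuous, nonzero for x ≠ y, and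
D (y, x) = - D (x, y) (an even permutation and one sign). Along x t = c + r (cos t, sin t),
y t = c - r (cos t, sin t), 0 ≤ t ≤ π, it changes sign: contradiction with the intermediate value
theorem.
-/

open scoped Manifold ContDiff Topology
open Function Set

namespace Pool.Agent.TotallySkew

/-- The matrix with the given columns. -/
private def L6mat (u1 u2 v1 v2 w : EuclideanSpace ℝ (Fin 5)) : Matrix (Fin 5) (Fin 5) ℝ :=
  Matrix.of fun i j => ![u1 i, u2 i, v1 i, v2 i, w i] j

private theorem L6mat_mulVec (u1 u2 v1 v2 w : EuclideanSpace ℝ (Fin 5)) (z : Fin 5 → ℝ)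
    (i : Fin 5) : (L6mat u1 u2 v1 v2 w).mulVec z i =
      z 0 * u1 i + z 1 * u2 i + z 2 * v1 i + z 3 * v2 i + z 4 * w i := by
  simp [L6mat, Matrix.mulVec, dotProduct, Fin.sum_univ_five]
  ring

private def L6P : Matrix (Fin 5) (Fin 5) ℝ :=
  !![0, 0, 1, 0, 0; 0, 0, 0, 1, 0; 1, 0, 0, 0, 0; 0, 1, 0, 0, 0; 0, 0, 0, 0, -1]

private theorem L6P_det : L6P.det = -1 := by
  simp [L6P, Matrix.det_succ_row_zero, Fin.sum_univ_succ, Fin.succAbove]

private theorem L6mat_swap (u1 u2 v1 v2 w : EuclideanSpace ℝ (Fin 5)) :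
    (L6mat v1 v2 u1 u2 (-w)).det = -(L6mat u1 u2 v1 v2 w).det := by
  have h : L6mat v1 v2 u1 u2 (-w) = L6mat u1 u2 v1 v2 w * L6P := by
    ext i j
    fin_cases j <;> simp [L6mat, L6P, Matrix.mul_apply, Fin.sum_univ_five]
  rw [h, Matrix.det_mul, L6P_det]
  ring

private theorem L6mat_ne {A B : ℝ × ℝ →L[ℝ] EuclideanSpace ℝ (Fin 5)}
    {w : EuclideanSpace ℝ (Fin 5)} (h : Injective (pairMap A B w)) :
    (L6mat (A (1, 0)) (A (0, 1)) (B (1, 0)) (B (0, 1)) w).det ≠ 0 := by
  intro h0
  obtain ⟨z, hz, hz0⟩ := Matrix.exists_mulVec_eq_zero_iff.2 h0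
  apply hz
  have h1 : pairMap A B w ((z 0, z 1), (z 2, z 3), z 4) = 0 := by
    have hA : A (z 0, z 1) = z 0 • A (1, 0) + z 1 • A (0, 1) := by
      rw [← map_smul, ← map_smul, ← map_add]
      simp
    have hB : B (z 2, z 3) = z 2 • B (1, 0) + z 3 • B (0, 1) := by
      rw [← map_smul, ← map_smul, ← map_add]
      simp
    rw [pairMap_apply]
    simp only
    rw [hA, hB]
    ext i
    have h2 := L6mat_mulVec (A (1, 0)) (A (0, 1)) (B (1, 0)) (B (0, 1)) w z i
    rw [hz0] at h2
    simp only [Pi.zero_apply] at h2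
    simp only [PiLp.add_apply, PiLp.smul_apply, smul_eq_mul, PiLp.zero_apply]
    linarith
  have h2 := h (h1.trans (map_zero _).symm)
  simp only [Prod.mk_eq_zero] at h2
  obtain ⟨⟨h3, h4⟩, ⟨h5, h6⟩, h7⟩ := h2
  ext i
  fin_cases i <;> simp [h3, h4, h5, h6, h7]

/-- Local form: a map which is smooth on a neighbourhood of a circle and skew there. -/
private theorem L6_local {F : ℝ × ℝ → EuclideanSpace ℝ (Fin 5)} {S : Set (ℝ × ℝ)} (hS : IsOpen S)
    (hF : ContDiffOn ℝ ∞ F S) {c : ℝ × ℝ} (hc : c ∈ S)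
    (h : ∀ p ∈ S, ∀ q ∈ S, p ≠ q → Injective (pairMap (fderiv ℝ F p) (fderiv ℝ F q) (F p - F q))) :
    False := by
  obtain ⟨r₀, hr₀, hball⟩ := Metric.isOpen_iff.1 hS c hc
  set r := r₀ / 2 with hr
  have hrpos : 0 < r := by positivity
  set x : ℝ → ℝ × ℝ := fun t => (c.1 + r * Real.cos t, c.2 + r * Real.sin t) with hx
  have hxS : ∀ t, x t ∈ S := by
    intro t
    apply hball
    rw [Metric.mem_ball, Prod.dist_eq]
    simp only [hx]
    rw [Real.dist_eq, Real.dist_eq, add_sub_cancel_left, add_sub_cancel_left, abs_mul, abs_mul,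
      abs_of_pos hrpos]
    have h1 := Real.abs_cos_le_one t
    have h2 := Real.abs_sin_le_one t
    apply max_lt <;> nlinarith
  have hxc : Continuous x := by
    simp only [hx]
    fun_prop
  have hFx : Continuous fun t => F (x t) :=
    hF.continuousOn.comp_continuous hxc hxS
  have hDx : Continuous fun t => fderiv ℝ F (x t) :=
    (hF.continuousOn_fderiv_of_isOpen hS (by simp)).comp_continuous hxc hxS
  have hne : ∀ t, x t ≠ x (t + Real.pi) := by
    intro t ht
    simp only [hx, Real.cos_add_pi, Real.sin_add_pi, Prod.mk.injEq] at ht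
    obtain ⟨h1, h2⟩ := ht
    have h3 : Real.cos t = 0 := by
      have : r * Real.cos t = 0 := by linarith
      rcases mul_eq_zero.1 this with h | h
      · exact absurd h hrpos.ne'
      · exact h
    have h4 : Real.sin t = 0 := by
      have : r * Real.sin t = 0 := by linarith
      rcases mul_eq_zero.1 this with h | h
      · exact absurd h hrpos.ne'
      · exact h
    have h5 := Real.sin_sq_add_cos_sq t
    rw [h3, h4] at h5
    norm_num at h5
  set g : ℝ → ℝ := fun t => (L6mat (fderiv ℝ F (x t) (1, 0)) (fderiv ℝ F (x t) (0, 1))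
    (fderiv ℝ F (x (t + Real.pi)) (1, 0)) (fderiv ℝ F (x (t + Real.pi)) (0, 1))
    (F (x t) - F (x (t + Real.pi)))).det with hg
  have hsh : Continuous fun t : ℝ => t + Real.pi := by fun_prop
  have hcomp : ∀ (u : ℝ → EuclideanSpace ℝ (Fin 5)), Continuous u → ∀ i, Continuous fun t => u t i :=
    fun u hu i => by
      have := (EuclideanSpace.proj (𝕜 := ℝ) i).continuous.comp hu
      exact this
  have hgc : Continuous g := by
    have hD1 : ∀ v : ℝ × ℝ, Continuous fun t => fderiv ℝ F (x t) v := fun v =>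
      hDx.clm_apply continuous_const
    have hD2 : ∀ v : ℝ × ℝ, Continuous fun t => fderiv ℝ F (x (t + Real.pi)) v := fun v =>
      (hD1 v).comp hsh
    have hw : Continuous fun t => F (x t) - F (x (t + Real.pi)) := hFx.sub (hFx.comp hsh)
    refine Continuous.matrix_det ?_
    refine continuous_matrix fun i j => ?_
    fin_cases j
    · exact hcomp _ (hD1 _) i
    · exact hcomp _ (hD1 _) i
    · exact hcomp _ (hD2 _) i
    · exact hcomp _ (hD2 _) i
    · exact hcomp _ hw i
  have hgne : ∀ t, g t ≠ 0 := fun t => L6mat_ne (h _ (hxS t) _ (hxS _) (hne t))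
  have hgpi : g Real.pi = -g 0 := by
    have h1 : x (Real.pi + Real.pi) = x 0 := by
      simp only [hx]
      rw [← two_mul, Real.cos_two_pi, Real.sin_two_pi, Real.cos_zero, Real.sin_zero]
    simp only [hg]
    rw [h1, zero_add, ← L6mat_swap, neg_sub]
  have hivt := intermediate_value_uIcc (a := (0 : ℝ)) (b := Real.pi) hgc.continuousOn
  have h0 : (0 : ℝ) ∈ uIcc (g 0) (g Real.pi) := by
    rw [hgpi, mem_uIcc]
    rcases le_total 0 (g 0) with h | h
    · right; constructor <;> linarith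
    · left; constructor <;> linarith
  obtain ⟨t, -, ht⟩ := hivt h0
  exact hgne t ht

theorem six_le {M : Type*} [TopologicalSpace M] [ChartedSpace (EuclideanSpace ℝ (Fin 2)) M]
    [IsManifold (𝓡 2) ∞ M] [Nonempty M] {N : ℕ} {φ : M → EuclideanSpace ℝ (Fin N)}
    (hφ : IsTotallySkewEmbedding (𝓡 2) φ) : 6 ≤ N := by
  by_contra hN
  have hN' : N ≤ 5 := by omega
  obtain ⟨x₀⟩ := ‹Nonempty M›
  obtain ⟨hsm, -, hinj, hsk⟩ := hφ
  obtain ⟨L, hL⟩ : ∃ L : EuclideanSpace ℝ (Fin N) →ₗ[ℝ] EuclideanSpace ℝ (Fin 5), Injective L :=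
    exists_injective_linearMap hN'
  set L' : EuclideanSpace ℝ (Fin N) →L[ℝ] EuclideanSpace ℝ (Fin 5) :=
    LinearMap.toContinuousLinearMap L with hL'
  have hL'i : Injective L' := hL
  let A : (ℝ × ℝ) ≃L[ℝ] EuclideanSpace ℝ (Fin 2) := ContinuousLinearEquiv.ofFinrankEq (by simp)
  let e := chartAt (EuclideanSpace ℝ (Fin 2)) x₀
  let β : ℝ × ℝ → M := fun p => e.symm (A p)
  let S : Set (ℝ × ℝ) := A ⁻¹' e.target
  have hS : IsOpen S := e.open_target.preimage A.continuous
  have hβS : ContMDiffOn 𝓘(ℝ, ℝ × ℝ) (𝓡 2) ∞ β S :=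
    (contMDiffOn_chart_symm (I := 𝓡 2) (x := x₀)).comp
      (A.contDiff.contMDiff.contMDiffOn (s := S)) (fun p hp => hp)
  let Φ : PartialDiffeomorph 𝓘(ℝ, ℝ × ℝ) (𝓡 2) (ℝ × ℝ) M ∞ :=
    { toFun := β
      invFun := fun m => A.symm (e m)
      source := S
      target := e.source
      map_source' := fun p hp => e.map_target hp
      map_target' := fun m hm => by
        show A (A.symm (e m)) ∈ e.target
        rw [A.apply_symm_apply]
        exact e.map_source hm
      left_inv' := fun p hp => by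
        show A.symm (e (e.symm (A p))) = p
        rw [e.right_inv hp, A.symm_apply_apply]
      right_inv' := fun m hm => by
        show e.symm (A (A.symm (e m))) = m
        rw [A.apply_symm_apply, e.left_inv hm]
      open_source := hS
      open_target := e.open_source
      contMDiffOn_toFun := hβS
      contMDiffOn_invFun :=
        (A.symm.contDiff.contMDiff (n := ∞)).comp_contMDiffOn
          (contMDiffOn_chart (I := 𝓡 2) (x := x₀)) }
  have hloc : ∀ p ∈ S, IsLocalDiffeomorphAt 𝓘(ℝ, ℝ × ℝ) (𝓡 2) ∞ β p := fun p hp =>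
    ⟨Φ, hp, fun _ _ => rfl⟩
  have hφβ : ContDiffOn ℝ ∞ (φ ∘ β) S :=
    contMDiffOn_iff_contDiffOn.1 (hsm.comp_contMDiffOn hβS)
  set F : ℝ × ℝ → EuclideanSpace ℝ (Fin 5) := fun p => L' (φ (β p)) with hFdef
  have hF : ContDiffOn ℝ ∞ F S := L'.contDiff.comp_contDiffOn hφβ
  have hfd : ∀ p ∈ S, fderiv ℝ F p = L'.comp (fderiv ℝ (φ ∘ β) p) := by
    intro p hp
    have h1 : HasFDerivAt (φ ∘ β) (fderiv ℝ (φ ∘ β) p) p :=
      ((hφβ.contDiffAt (hS.mem_nhds hp)).differentiableAt (by simp)).hasFDerivAt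
    exact (L'.hasFDerivAt.comp p h1).fderiv
  have hβinj : InjOn β S := fun p hp q hq hpq => by
    have h1 := congrArg (fun m => A.symm (e m)) hpq
    have h2 : A.symm (e (β p)) = p := Φ.left_inv' hp
    have h3 : A.symm (e (β q)) = q := Φ.left_inv' hq
    rw [← h2, ← h3]
    exact h1
  have hc : A.symm (e x₀) ∈ S := by
    show A (A.symm (e x₀)) ∈ e.target
    rw [A.apply_symm_apply]
    exact e.map_source (mem_chart_source _ x₀)
  refine L6_local hS hF hc fun p hp q hq hpq => ?_
  have hne : β p ≠ β q := fun hh => hpq (hβinj hp hq hh)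
  obtain ⟨s1, s2⟩ := hsk _ _ hne
  have h1 : SkewPair (𝓡 2) φ (β p) (β q) := injective_pairMap_of_skew (hinj _) (hinj _) s1 s2
  rw [skewPair_iff_strip (hloc p hp) (hloc q hq) hsm] at h1
  rw [hfd p hp, hfd q hq]
  have h2 : F p - F q = L' (φ (β p) - φ (β q)) := by
    simp only [hFdef, map_sub]
  rw [h2, comp_pairMap]
  exact hL'i.comp h1

end Pool.Agent.TotallySkew
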