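import Pool.Agent.TotallySkew.Ori.QA

/-!
MM: the moving plane Mm p w s = ∫ (0..s) dM p w, for continuous p, w.
-/

open scoped Quaternion ContDiff
open Function Set

namespace Pool.Agent.TotallySkew.Ori

variable {p : ℝ → ℍ[ℝ]} {w : ℝ → ℂ}

theorem dM_apply (s : ℝ) (v : ℝ × ℂ) : dM p w s v = p s * Pm (w s) v := rfl

theorem continuous_dM (hp : Continuous p) (hw : Continuous w) : Continuous (dM p w) := by
  have h1 : Continuous fun s => ContinuousLinearMap.mul ℝ ℍ[ℝ] (p s) :=
    (ContinuousLinearMap.mul ℝ ℍ[ℝ]).continuous.comp hp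
  have h2 : Continuous fun s => Pm (w s) := continuous_Pm.comp hw
  exact h1.clm_comp h2

theorem contDiff_dM (hp : ContDiff ℝ ∞ p) (hw : ContDiff ℝ ∞ w) : ContDiff ℝ ∞ (dM p w) := by
  have h1 : ContDiff ℝ ∞ fun s => ContinuousLinearMap.mul ℝ ℍ[ℝ] (p s) :=
    (ContinuousLinearMap.mul ℝ ℍ[ℝ]).contDiff.comp hp
  have h2 : ContDiff ℝ ∞ fun s => Pm (w s) := contDiff_Pm.comp hw
  exact h1.clm_comp h2

theorem Mm_zero : Mm p w 0 = 0 := by
  unfold Mm
  rw [intervalIntegral.integral_same]

theorem hasDerivAt_Mm (hp : Continuous p) (hw : Continuous w) (s : ℝ) :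
    HasDerivAt (Mm p w) (dM p w s) s := by
  have h := continuous_dM hp hw
  exact intervalIntegral.integral_hasDerivAt_right (h.intervalIntegrable _ _)
    (h.stronglyMeasurableAtFilter _ _) h.continuousAt

theorem contDiff_Mm (hp : ContDiff ℝ ∞ p) (hw : ContDiff ℝ ∞ w) : ContDiff ℝ ∞ (Mm p w) := by
  rw [contDiff_infty_iff_deriv]
  refine ⟨fun s => (hasDerivAt_Mm hp.continuous hw.continuous s).differentiableAt, ?_⟩
  have h : deriv (Mm p w) = dM p w := by
    funext s
    exact HasDerivAt.deriv (𝕜 := ℝ) (F := ℝ × ℂ →L[ℝ] ℍ[ℝ])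
      (hasDerivAt_Mm hp.continuous hw.continuous s)
  rw [h]
  exact contDiff_dM hp hw

theorem Mm_apply (hp : Continuous p) (hw : Continuous w) (s : ℝ) (v : ℝ × ℂ) :
    Mm p w s v = ∫ σ in (0 : ℝ)..s, p σ * Pm (w σ) v := by
  unfold Mm
  rw [ContinuousLinearMap.intervalIntegral_apply
    ((continuous_dM hp hw).intervalIntegrable _ _)]
  rfl

theorem Mm_sub_apply (hp : Continuous p) (hw : Continuous w) (s s' : ℝ) (v : ℝ × ℂ) :
    Mm p w s' v - Mm p w s v = ∫ σ in s..s', p σ * Pm (w σ) v := by
  rw [Mm_apply hp hw, Mm_apply hp hw]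
  have hc : Continuous fun σ => p σ * Pm (w σ) v := by
    have h1 := continuous_dM hp hw
    exact h1.clm_apply continuous_const
  exact intervalIntegral.integral_interval_sub_left (hc.intervalIntegrable _ _)
    (hc.intervalIntegrable _ _)

theorem hasDerivAt_xx (hp : Continuous p) (s : ℝ) : HasDerivAt (xx p) (p s) s :=
  intervalIntegral.integral_hasDerivAt_right (hp.intervalIntegrable _ _)
    (hp.stronglyMeasurableAtFilter _ _) hp.continuousAt

theorem xx_sub (hp : Continuous p) (s s' : ℝ) : xx p s' - xx p s = ∫ σ in s..s', p σ := by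
  unfold xx
  exact intervalIntegral.integral_interval_sub_left (hp.intervalIntegrable _ _)
    (hp.intervalIntegrable _ _)

variable {P : ℝ}

theorem Mm_shift (hp : Continuous p) (hw : Continuous w) (hpP : ∀ s, p (s + P) = -p s)
    (hwP : ∀ s, w (s + P) = w s) (s : ℝ) : Mm p w (s + P) = Mm p w P - Mm p w s := by
  refine ContinuousLinearMap.ext fun v => ?_
  have hc : Continuous fun σ => p σ * Pm (w σ) v := by
    have h1 := continuous_dM hp hw
    exact h1.clm_apply continuous_const
  have h1 : Mm p w (s + P) v - Mm p w P v = -Mm p w s v := by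
    rw [Mm_sub_apply hp hw P (s + P) v, Mm_apply hp hw s v, ← intervalIntegral.integral_neg]
    have h2 := intervalIntegral.integral_comp_add_right (a := 0) (b := s)
      (fun σ => p σ * Pm (w σ) v) P
    rw [zero_add] at h2
    rw [← h2]
    apply intervalIntegral.integral_congr
    intro σ _
    show p (σ + P) * Pm (w (σ + P)) v = -(p σ * Pm (w σ) v)
    rw [hpP, hwP, neg_mul]
  show Mm p w (s + P) v = Mm p w P v - Mm p w s v
  rw [sub_eq_iff_eq_add] at h1
  rw [h1]
  abel

theorem xx_shift (hp : Continuous p) (hpP : ∀ s, p (s + P) = -p s) (s : ℝ) :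
    xx p (s + P) = xx p P - xx p s := by
  have hd : ∀ s, HasDerivAt (fun s => xx p (s + P) + xx p s) 0 s := by
    intro s
    have h1 : HasDerivAt (fun s => xx p (s + P)) (p (s + P)) s :=
      HasDerivAt.comp_add_const s P (hasDerivAt_xx hp (s + P))
    have h2 := h1.add (hasDerivAt_xx hp s)
    rw [hpP, neg_add_cancel] at h2
    exact h2
  have hconst := is_const_of_deriv_eq_zero (fun s => (hd s).differentiableAt)
    (fun s => (hd s).deriv) s 0
  have hx0 : xx p 0 = 0 := by
    unfold xx
    rw [intervalIntegral.integral_same]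
  simp only [zero_add, hx0, add_zero] at hconst
  rw [eq_sub_iff_add_eq]
  exact hconst

theorem Mm_per (hp : Continuous p) (hw : Continuous w) (hpP : ∀ s, p (s + P) = -p s)
    (hwP : ∀ s, w (s + P) = w s) (s : ℝ) (m : ℤ) : Mm p w (s + m * (2 * P)) = Mm p w s := by
  have h : Function.Periodic (Mm p w) (2 * P) := by
    intro s
    have e : s + 2 * P = (s + P) + P := by ring
    rw [e, Mm_shift hp hw hpP hwP, Mm_shift hp hw hpP hwP]
    abel
  exact h.int_mul m s

theorem xx_per (hp : Continuous p) (hpP : ∀ s, p (s + P) = -p s) (s : ℝ) (m : ℤ) :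
    xx p (s + m * (2 * P)) = xx p s := by
  have h : Function.Periodic (xx p) (2 * P) := by
    intro s
    have e : s + 2 * P = (s + P) + P := by ring
    rw [e, xx_shift hp hpP, xx_shift hp hpP]
    abel
  exact h.int_mul m s

end Pool.Agent.TotallySkew.Ori
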