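import Pool.Agent.TotallySkew.Ori.PX
import Pool.Agent.TotallySkew.Ori.MM

/-!
CH: the slow curve xx (pp K) s = ∫ (0..s) pp K = K • X (s / K), X = xx (pp 1).

xx_half: Re X (π) = ∫ (0..π) Re pp 1 = 0 by pp_re_symm, D = Im X (π) = ∫ (0..π) Im > 0 (pp_imI_nonneg,
pp_imI_pos). imI in [0, K D]: X is periodic (xx_per), Im X is even, and on [0, π] it is monotone
from 0 to D.
chord: (1) X is injective modulo 2π. (2) For |s - s'| ≤ δ: |X s - X s'| ≥ |s - s'| / 2 by
exists_pp_lip. (3) On the compact set 0 ≤ s ≤ 2π, δ ≤ |s - s'| ≤ π the continuous function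
|X s - X s'| is positive. (4) scaling and periodicity.
-/

open scoped ContDiff Quaternion
open Function Set

namespace Pool.Agent.TotallySkew.Ori

theorem xx_scale {K : ℕ} (hK : 0 < K) (s : ℝ) : xx (pp K) s = (K : ℝ) • xx (pp 1) (s / K) := by
  have hK' : (K : ℝ) ≠ 0 := by positivity
  unfold xx
  have h1 : (∫ σ in (0 : ℝ)..s, pp K σ) = ∫ σ in (0 : ℝ)..s, pp 1 (σ / K) := by
    congr 1
    funext σ
    exact pp_scale K σ
  rw [h1, intervalIntegral.integral_comp_div (fun x => pp 1 x) hK', zero_div]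

/-! ### Coordinates -/

private noncomputable def CHre : ℍ[ℝ] →L[ℝ] ℝ :=
  LinearMap.toContinuousLinearMap
    { toFun := fun h => h.re
      map_add' := by intros; simp
      map_smul' := by intros; simp }

private noncomputable def CHi : ℍ[ℝ] →L[ℝ] ℝ :=
  LinearMap.toContinuousLinearMap
    { toFun := fun h => h.imI
      map_add' := by intros; simp
      map_smul' := by intros; simp }

private noncomputable def CHj : ℍ[ℝ] →L[ℝ] ℝ :=
  LinearMap.toContinuousLinearMap
    { toFun := fun h => h.imJ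
      map_add' := by intros; simp
      map_smul' := by intros; simp }

private noncomputable def CHk : ℍ[ℝ] →L[ℝ] ℝ :=
  LinearMap.toContinuousLinearMap
    { toFun := fun h => h.imK
      map_add' := by intros; simp
      map_smul' := by intros; simp }

private theorem CH_hX (s : ℝ) : HasDerivAt (xx (pp 1)) (pp 1 s) s :=
  hasDerivAt_xx (contDiff_pp 1).continuous s

private theorem CH_re (s : ℝ) : HasDerivAt (fun s => (xx (pp 1) s).re) (pp 1 s).re s :=
  (CHre.hasFDerivAt (x := xx (pp 1) s)).comp_hasDerivAt s (CH_hX s)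

private theorem CH_imI (s : ℝ) : HasDerivAt (fun s => (xx (pp 1) s).imI) (pp 1 s).imI s :=
  (CHi.hasFDerivAt (x := xx (pp 1) s)).comp_hasDerivAt s (CH_hX s)

private theorem CH_imJ (s : ℝ) : HasDerivAt (fun s => (xx (pp 1) s).imJ) (pp 1 s).imJ s :=
  (CHj.hasFDerivAt (x := xx (pp 1) s)).comp_hasDerivAt s (CH_hX s)

private theorem CH_imK (s : ℝ) : HasDerivAt (fun s => (xx (pp 1) s).imK) (pp 1 s).imK s :=
  (CHk.hasFDerivAt (x := xx (pp 1) s)).comp_hasDerivAt s (CH_hX s)

private theorem CH_zero : xx (pp 1) 0 = 0 := by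
  simp [xx]

private theorem CH_const {f f' : ℝ → ℝ} (hf : ∀ s, HasDerivAt f (f' s) s) (h0 : ∀ s, f' s = 0)
    (s t : ℝ) : f s = f t := by
  refine is_const_of_deriv_eq_zero (fun s => (hf s).differentiableAt) (fun s => ?_) s t
  rw [(hf s).deriv, h0]

private theorem CH_J (s : ℝ) : (xx (pp 1) s).imJ = 0 := by
  rw [CH_const CH_imJ (fun s => rfl) s 0, CH_zero]
  rfl

private theorem CH_K (s : ℝ) : (xx (pp 1) s).imK = 0 := by
  rw [CH_const CH_imK (fun s => rfl) s 0, CH_zero]
  rfl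

/-- The real part is odd. -/
private theorem CH_re_neg (s : ℝ) : (xx (pp 1) (-s)).re = -(xx (pp 1) s).re := by
  have h : ∀ s, HasDerivAt (fun s => (xx (pp 1) (-s)).re + (xx (pp 1) s).re)
      ((pp 1 (-s)).re * (-1) + (pp 1 s).re) s := fun s =>
    ((CH_re (-s)).comp s (hasDerivAt_neg s)).add (CH_re s)
  have h0 := CH_const h (fun s => by rw [(pp_conj s).1]; ring) s 0
  simp only [neg_zero, CH_zero] at h0
  have : (0 : ℍ[ℝ]).re = 0 := rfl
  rw [this] at h0
  linarith

/-- The imaginary part is even. -/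
private theorem CH_imI_neg (s : ℝ) : (xx (pp 1) (-s)).imI = (xx (pp 1) s).imI := by
  have h : ∀ s, HasDerivAt (fun s => (xx (pp 1) (-s)).imI - (xx (pp 1) s).imI)
      ((pp 1 (-s)).imI * (-1) - (pp 1 s).imI) s := fun s =>
    ((CH_imI (-s)).comp s (hasDerivAt_neg s)).sub (CH_imI s)
  have h0 := CH_const h (fun s => by rw [(pp_conj s).2]; ring) s 0
  simp only [neg_zero, CH_zero] at h0
  linarith

/-- The real part is symmetric with respect to `π / 2`. -/
private theorem CH_re_symm (s : ℝ) : (xx (pp 1) (Real.pi - s)).re = (xx (pp 1) s).re := by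
  have h : ∀ s, HasDerivAt (fun s => (xx (pp 1) (Real.pi - s)).re - (xx (pp 1) s).re)
      ((pp 1 (Real.pi - s)).re * (-1) - (pp 1 s).re) s := fun s =>
    ((CH_re (Real.pi - s)).comp s (by simpa using (hasDerivAt_id s).const_sub Real.pi)).sub
      (CH_re s)
  have h0 := CH_const h (fun s => by rw [pp_re_symm s]; ring) s (Real.pi / 2)
  have h1 : Real.pi - Real.pi / 2 = Real.pi / 2 := by ring
  simp only [h1] at h0
  linarith

private theorem CH_re_mono : StrictMonoOn (fun s => (xx (pp 1) s).re) (Icc 0 (Real.pi / 2)) := by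
  refine strictMonoOn_of_deriv_pos (convex_Icc _ _)
    (fun s _ => (CH_re s).continuousAt.continuousWithinAt) (fun s hs => ?_)
  rw [interior_Icc] at hs
  rw [(CH_re s).deriv]
  exact pp_re_pos hs.1.le hs.2

private theorem CH_imI_mono : MonotoneOn (fun s => (xx (pp 1) s).imI) (Icc 0 Real.pi) := by
  refine monotoneOn_of_deriv_nonneg (convex_Icc _ _)
    (fun s _ => (CH_imI s).continuousAt.continuousWithinAt)
    (fun s _ => (CH_imI s).differentiableAt.differentiableWithinAt) (fun s hs => ?_)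
  rw [interior_Icc] at hs
  rw [(CH_imI s).deriv]
  exact pp_imI_nonneg one_pos hs.1.le (by simpa using hs.2.le)

private theorem CH_imI_strict :
    StrictMonoOn (fun s => (xx (pp 1) s).imI) (Icc (Real.pi / 3) (2 * Real.pi / 3)) := by
  refine strictMonoOn_of_deriv_pos (convex_Icc _ _)
    (fun s _ => (CH_imI s).continuousAt.continuousWithinAt) (fun s hs => ?_)
  rw [interior_Icc] at hs
  rw [(CH_imI s).deriv]
  exact pp_imI_pos hs.1 hs.2

private theorem CH_re_pos {s : ℝ} (h0 : 0 < s) (h1 : s < Real.pi) : 0 < (xx (pp 1) s).re := by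
  have hz : (xx (pp 1) 0).re = 0 := by rw [CH_zero]; rfl
  have hpi := Real.pi_pos
  rcases le_total s (Real.pi / 2) with h | h
  · have := CH_re_mono (show (0 : ℝ) ∈ Icc 0 (Real.pi / 2) from ⟨le_rfl, by linarith⟩)
      (show s ∈ Icc 0 (Real.pi / 2) from ⟨h0.le, h⟩) h0
    simp only [hz] at this
    exact this
  · have := CH_re_mono (show (0 : ℝ) ∈ Icc 0 (Real.pi / 2) from ⟨le_rfl, by linarith⟩)
      (show Real.pi - s ∈ Icc 0 (Real.pi / 2) from ⟨by linarith, by linarith⟩) (by linarith)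
    simp only [hz] at this
    rw [CH_re_symm] at this
    exact this

private theorem CH_re_pi : (xx (pp 1) Real.pi).re = 0 := by
  have := CH_re_symm Real.pi
  rw [sub_self, CH_zero] at this
  rw [← this]
  rfl

private theorem CH_D_pos : 0 < (xx (pp 1) Real.pi).imI := by
  have hz : (xx (pp 1) 0).imI = 0 := by rw [CH_zero]; rfl
  have hpi := Real.pi_pos
  have h1 := CH_imI_mono (show (0 : ℝ) ∈ Icc 0 Real.pi from ⟨le_rfl, hpi.le⟩)
    (show Real.pi / 3 ∈ Icc 0 Real.pi from ⟨by linarith, by linarith⟩) (by linarith)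
  have h2 := CH_imI_strict (show Real.pi / 3 ∈ Icc (Real.pi / 3) (2 * Real.pi / 3) from
    ⟨le_rfl, by linarith⟩) (show 2 * Real.pi / 3 ∈ Icc (Real.pi / 3) (2 * Real.pi / 3) from
    ⟨by linarith, le_rfl⟩) (by linarith)
  have h3 := CH_imI_mono (show 2 * Real.pi / 3 ∈ Icc 0 Real.pi from ⟨by linarith, by linarith⟩)
    (show Real.pi ∈ Icc 0 Real.pi from ⟨hpi.le, le_rfl⟩) (by linarith)
  simp only [hz] at h1
  simp only at h2 h3
  linarith

/-- Injectivity on `[0, π]`. -/
private theorem CH_inj0 {s s' : ℝ} (hs0 : 0 ≤ s) (hs1 : s ≤ Real.pi) (hs0' : 0 ≤ s')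
    (hs1' : s' ≤ Real.pi) (hr : (xx (pp 1) s).re = (xx (pp 1) s').re)
    (hi : (xx (pp 1) s).imI = (xx (pp 1) s').imI) : s = s' := by
  have hpi := Real.pi_pos
  wlog hle : s ≤ s' generalizing s s'
  · exact (this hs0' hs1' hs0 hs1 hr.symm hi.symm (le_of_not_ge hle)).symm
  rcases eq_or_lt_of_le hle with h | hlt
  · exact h
  exfalso
  rcases le_or_gt s' (Real.pi / 2) with h | h
  · have := CH_re_mono (show s ∈ Icc 0 (Real.pi / 2) from ⟨hs0, by linarith⟩)
      (show s' ∈ Icc 0 (Real.pi / 2) from ⟨hs0', h⟩) hlt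
    simp only at this
    linarith
  rcases le_or_gt (Real.pi / 2) s with h2 | h2
  · have := CH_re_mono (show Real.pi - s' ∈ Icc 0 (Real.pi / 2) from ⟨by linarith, by linarith⟩)
      (show Real.pi - s ∈ Icc 0 (Real.pi / 2) from ⟨by linarith, by linarith⟩) (by linarith)
    simp only [CH_re_symm] at this
    linarith
  · have h3 := CH_imI_mono (show s ∈ Icc 0 Real.pi from ⟨hs0, hs1⟩)
      (show max s (Real.pi / 3) ∈ Icc 0 Real.pi from
        ⟨le_trans hs0 (le_max_left _ _), max_le hs1 (by linarith)⟩) (le_max_left _ _)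
    have h4 := CH_imI_strict (show max s (Real.pi / 3) ∈ Icc (Real.pi / 3) (2 * Real.pi / 3) from
        ⟨le_max_right _ _, max_le (by linarith) (by linarith)⟩)
      (show Real.pi / 2 ∈ Icc (Real.pi / 3) (2 * Real.pi / 3) from ⟨by linarith, by linarith⟩)
      (max_lt h2 (by linarith))
    have h5 := CH_imI_mono (show Real.pi / 2 ∈ Icc 0 Real.pi from ⟨by linarith, by linarith⟩)
      (show s' ∈ Icc 0 Real.pi from ⟨hs0', hs1'⟩) h.le
    simp only at h3 h4 h5
    linarith

private theorem CH_per (s : ℝ) (m : ℤ) :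
    xx (pp 1) (s + m * (2 * Real.pi)) = xx (pp 1) s := by
  refine xx_per (contDiff_pp 1).continuous (fun s => ?_) s m
  have := pp_shift (K := 1) one_pos s
  simpa using this

private theorem CH_reduce (s : ℝ) : ∃ m : ℤ, ∃ t : ℝ, s = t + m * (2 * Real.pi) ∧
    -Real.pi < t ∧ t ≤ Real.pi := by
  obtain ⟨n, hn, -⟩ := existsUnique_sub_zsmul_mem_Ioc (show (0 : ℝ) < 2 * Real.pi by
    positivity) s (-Real.pi)
  refine ⟨n, s - n • (2 * Real.pi), by simp, hn.1, ?_⟩
  have := hn.2
  linarith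

theorem xx_inj {s s' : ℝ} (h : xx (pp 1) s = xx (pp 1) s') : ∃ m : ℤ, s' = s + m * (2 * Real.pi) := by
  obtain ⟨m, t, rfl, h1, h2⟩ := CH_reduce s
  obtain ⟨m', t', rfl, h1', h2'⟩ := CH_reduce s'
  rw [CH_per, CH_per] at h
  have hr : (xx (pp 1) t).re = (xx (pp 1) t').re := by rw [h]
  have hi : (xx (pp 1) t).imI = (xx (pp 1) t').imI := by rw [h]
  have hz : (xx (pp 1) 0).re = 0 := by rw [CH_zero]; rfl
  have key : t = t' := by
    rcases le_or_gt 0 t with ht | ht <;> rcases le_or_gt 0 t' with ht' | ht'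
    · exact CH_inj0 ht h2 ht' h2' hr hi
    · exfalso
      have h3 : 0 < (xx (pp 1) (-t')).re := CH_re_pos (by linarith) (by linarith)
      rw [CH_re_neg] at h3
      have h4 : 0 ≤ (xx (pp 1) t).re := by
        rcases eq_or_lt_of_le ht with h5 | h5
        · rw [← h5, hz]
        · rcases eq_or_lt_of_le h2 with h6 | h6
          · rw [h6, CH_re_pi]
          · exact (CH_re_pos h5 h6).le
      linarith
    · exfalso
      have h3 : 0 < (xx (pp 1) (-t)).re := CH_re_pos (by linarith) (by linarith)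
      rw [CH_re_neg] at h3
      have h4 : 0 ≤ (xx (pp 1) t').re := by
        rcases eq_or_lt_of_le ht' with h5 | h5
        · rw [← h5, hz]
        · rcases eq_or_lt_of_le h2' with h6 | h6
          · rw [h6, CH_re_pi]
          · exact (CH_re_pos h5 h6).le
      linarith
    · have := CH_inj0 (s := -t) (s' := -t') (by linarith) (by linarith) (by linarith) (by linarith)
        (by rw [CH_re_neg, CH_re_neg, hr]) (by rw [CH_imI_neg, CH_imI_neg, hi])
      linarith
  refine ⟨m' - m, ?_⟩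
  rw [key]
  push_cast
  ring

private theorem CH_cont : Continuous (xx (pp 1)) :=
  continuous_iff_continuousAt.2 fun s => (CH_hX s).continuousAt

/-- The lower bound for small chords. -/
private theorem CH_small : ∃ δ : ℝ, 0 < δ ∧ δ ≤ Real.pi ∧ ∀ s u : ℝ, |u| ≤ δ →
    1 / 2 * |u| ≤ ‖xx (pp 1) (s + u) - xx (pp 1) s‖ := by
  obtain ⟨C, hC, hL⟩ := exists_pp_lip
  refine ⟨min (1 / (2 * C)) Real.pi, lt_min (by positivity) Real.pi_pos, min_le_right _ _, ?_⟩
  intro s u hu
  have hu' : |u| ≤ 1 / (2 * C) := hu.trans (min_le_left _ _)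
  rw [xx_sub (contDiff_pp 1).continuous]
  have hint : ∀ a b : ℝ, IntervalIntegrable (pp 1) MeasureTheory.volume a b := fun a b =>
    (contDiff_pp 1).continuous.intervalIntegrable a b
  have h1 : ∫ σ in s..(s + u), pp 1 σ = u • pp 1 s + ∫ σ in s..(s + u), (pp 1 σ - pp 1 s) := by
    rw [intervalIntegral.integral_sub (hint _ _) intervalIntegrable_const,
      intervalIntegral.integral_const]
    simp
  have h2 : ‖∫ σ in s..(s + u), (pp 1 σ - pp 1 s)‖ ≤ (1 / 2) * |s + u - s| := by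
    refine intervalIntegral.norm_integral_le_of_norm_le_const fun σ hσ => ?_
    have h3 := hL 1 one_pos σ s
    have h4 : |σ - s| ≤ |u| := by
      rcases le_total 0 u with h | h
      · rw [uIoc_of_le (by linarith)] at hσ
        rw [abs_of_nonneg (by linarith [hσ.1]), abs_of_nonneg h]
        linarith [hσ.2]
      · rw [uIoc_of_ge (by linarith)] at hσ
        rw [abs_of_nonpos (by linarith [hσ.2]), abs_of_nonpos h]
        linarith [hσ.1]
    calc ‖pp 1 σ - pp 1 s‖ ≤ C / ((1 : ℕ) : ℝ) * |σ - s| := h3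
      _ = C * |σ - s| := by simp
      _ ≤ C * (1 / (2 * C)) := mul_le_mul_of_nonneg_left (h4.trans hu') hC.le
      _ = 1 / 2 := by field_simp
  have h5 : ‖u • pp 1 s‖ = |u| := by rw [norm_smul, norm_pp, mul_one, Real.norm_eq_abs]
  rw [h1]
  have h6 := norm_sub_norm_le (u • pp 1 s) (-∫ σ in s..(s + u), (pp 1 σ - pp 1 s))
  rw [norm_neg, sub_neg_eq_add, h5] at h6
  have h7 : s + u - s = u := by ring
  rw [h7] at h2
  linarith

private theorem CH_one : ∃ c : ℝ, 0 < c ∧ ∀ s s', ∃ m : ℤ,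
    c * |s' - s - m * (2 * Real.pi)| ≤ ‖xx (pp 1) s - xx (pp 1) s'‖ := by
  obtain ⟨δ, hδ, hδπ, hsm⟩ := CH_small
  have hpi := Real.pi_pos
  let S : Set (ℝ × ℝ) := (Icc (-Real.pi) Real.pi) ×ˢ ((Icc (-Real.pi) Real.pi) ∩ {u | δ ≤ |u|})
  have hS : IsCompact S := by
    refine isCompact_Icc.prod (isCompact_Icc.inter_right ?_)
    exact isClosed_le continuous_const continuous_abs
  have hne : S.Nonempty := ⟨(0, Real.pi), ⟨by constructor <;> linarith, by
    refine ⟨⟨by linarith, le_rfl⟩, ?_⟩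
    show δ ≤ |Real.pi|
    rw [abs_of_pos hpi]
    exact hδπ⟩⟩
  have hcont : ContinuousOn (fun q : ℝ × ℝ => ‖xx (pp 1) (q.1 + q.2) - xx (pp 1) q.1‖) S := by
    refine Continuous.continuousOn ?_
    exact ((CH_cont.comp (continuous_fst.add continuous_snd)).sub
      (CH_cont.comp continuous_fst)).norm
  obtain ⟨q, hq, hmin⟩ := hS.exists_isMinOn hne hcont
  set μ := ‖xx (pp 1) (q.1 + q.2) - xx (pp 1) q.1‖ with hμ
  have hμpos : 0 < μ := by
    rw [hμ, norm_pos_iff]
    intro h0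
    rw [sub_eq_zero] at h0
    obtain ⟨m, hm⟩ := xx_inj h0.symm
    have h1 : q.2 = m * (2 * Real.pi) := by linarith
    obtain ⟨-, ⟨h2, h3⟩, h4⟩ := hq
    have h4' : δ ≤ |q.2| := h4
    have hm0 : m = 0 := by
      have h5 : (m : ℝ) < 1 := by
        by_contra h; push Not at h
        have : 2 * Real.pi ≤ m * (2 * Real.pi) := by nlinarith
        linarith
      have h6 : (-1 : ℝ) < m := by
        by_contra h; push Not at h
        have : m * (2 * Real.pi) ≤ -(2 * Real.pi) := by nlinarith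
        linarith
      have h5' : m < 1 := by exact_mod_cast h5
      have h6' : -1 < m := by exact_mod_cast h6
      omega
    rw [hm0] at h1
    rw [h1] at h4'
    simp at h4'
    linarith
  refine ⟨min (1 / 2) (μ / Real.pi), lt_min (by norm_num) (by positivity), fun s s' => ?_⟩
  obtain ⟨n, t, rfl, ht1, ht2⟩ := CH_reduce s
  obtain ⟨m, u, hu, hu1, hu2⟩ := CH_reduce (s' - t)
  refine ⟨m - n, ?_⟩
  have hs' : s' = t + u + m * (2 * Real.pi) := by linarith
  rw [hs', CH_per, CH_per]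
  have h1 : t + u + m * (2 * Real.pi) - (t + n * (2 * Real.pi)) - ((m - n : ℤ) : ℝ) * (2 * Real.pi)
      = u := by push_cast; ring
  rw [h1, norm_sub_rev]
  rcases le_or_gt |u| δ with h | h
  · refine le_trans ?_ (hsm t u h)
    exact mul_le_mul_of_nonneg_right (min_le_left _ _) (abs_nonneg _)
  · have hmem : (t, u) ∈ S := ⟨⟨ht1.le, ht2⟩, ⟨hu1.le, hu2⟩, h.le⟩
    have h2 : μ ≤ ‖xx (pp 1) (t + u) - xx (pp 1) t‖ := isMinOn_iff.1 hmin (t, u) hmem
    refine le_trans ?_ h2
    have h3 : |u| ≤ Real.pi := abs_le.2 ⟨hu1.le, hu2⟩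
    calc min (1 / 2) (μ / Real.pi) * |u| ≤ μ / Real.pi * Real.pi :=
          mul_le_mul (min_le_right _ _) h3 (abs_nonneg _) (by positivity)
      _ = μ := by field_simp

theorem chord : ∃ c : ℝ, 0 < c ∧ ∀ K : ℕ, 0 < K → ∀ s s', ∃ m : ℤ,
    c * |s' - s - m * (2 * (K * Real.pi))| ≤ ‖xx (pp K) s - xx (pp K) s'‖ := by
  obtain ⟨c, hc, h⟩ := CH_one
  refine ⟨c, hc, fun K hK s s' => ?_⟩
  have hK' : (0 : ℝ) < K := by exact_mod_cast hK
  obtain ⟨m, hm⟩ := h (s / K) (s' / K)
  refine ⟨m, ?_⟩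
  rw [xx_scale hK s, xx_scale hK s', ← smul_sub, norm_smul, Real.norm_eq_abs, abs_of_pos hK']
  have h1 : s' - s - m * (2 * (K * Real.pi)) = K * (s' / K - s / K - m * (2 * Real.pi)) := by
    field_simp
  rw [h1, abs_mul, abs_of_pos hK']
  calc c * (K * |s' / K - s / K - m * (2 * Real.pi)|)
      = K * (c * |s' / K - s / K - m * (2 * Real.pi)|) := by ring
    _ ≤ K * ‖xx (pp 1) (s / K) - xx (pp 1) (s' / K)‖ := mul_le_mul_of_nonneg_left hm hK'.le

/-- The slow curve lies in the plane of `1` and `i`, in the strip `0 ≤ imI ≤ K D`. -/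
theorem xx_half : ∃ D : ℝ, 0 < D ∧ ∀ K : ℕ, 0 < K →
    xx (pp K) (K * Real.pi) = ⟨0, K * D, 0, 0⟩ ∧
    ∀ s, 0 ≤ (xx (pp K) s).imI ∧ (xx (pp K) s).imI ≤ K * D ∧
      (xx (pp K) s).imJ = 0 ∧ (xx (pp K) s).imK = 0 := by
  refine ⟨(xx (pp 1) Real.pi).imI, CH_D_pos, fun K hK => ?_⟩
  have hK' : (0 : ℝ) < K := by exact_mod_cast hK
  have hrange : ∀ t : ℝ, 0 ≤ (xx (pp 1) t).imI ∧ (xx (pp 1) t).imI ≤ (xx (pp 1) Real.pi).imI := by
    intro t
    obtain ⟨m, u, rfl, h1, h2⟩ := CH_reduce t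
    rw [CH_per]
    have habs : (xx (pp 1) u).imI = (xx (pp 1) |u|).imI := by
      rcases abs_cases u with h | h
      · rw [h.1]
      · rw [h.1, CH_imI_neg]
    have h3 : |u| ≤ Real.pi := abs_le.2 ⟨h1.le, h2⟩
    have hz : (xx (pp 1) 0).imI = 0 := by rw [CH_zero]; rfl
    rw [habs]
    constructor
    · have := CH_imI_mono (show (0 : ℝ) ∈ Icc 0 Real.pi from ⟨le_rfl, Real.pi_pos.le⟩)
        (show |u| ∈ Icc 0 Real.pi from ⟨abs_nonneg _, h3⟩) (abs_nonneg _)
      simp only [hz] at this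
      exact this
    · exact CH_imI_mono (show |u| ∈ Icc 0 Real.pi from ⟨abs_nonneg _, h3⟩)
        (show Real.pi ∈ Icc 0 Real.pi from ⟨Real.pi_pos.le, le_rfl⟩) h3
  constructor
  · have hKp : (K : ℝ) * Real.pi / K = Real.pi := by field_simp
    rw [xx_scale hK, hKp]
    ext
    · simp [CH_re_pi]
    · simp
    · simp [CH_J]
    · simp [CH_K]
  · intro s
    rw [xx_scale hK]
    obtain ⟨h1, h2⟩ := hrange (s / K)
    refine ⟨?_, ?_, ?_, ?_⟩
    · simp only [Quaternion.imI_smul, smul_eq_mul]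
      positivity
    · simp only [Quaternion.imI_smul, smul_eq_mul]
      exact mul_le_mul_of_nonneg_left h2 hK'.le
    · simp [CH_J]
    · simp [CH_K]

end Pool.Agent.TotallySkew.Ori
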