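import Pool.Agent.TotallySkew.Ori.WW

/-!
W2: the periodic fast curve ww K, P = K π.
ww_eq: 21 K is odd, so exp (21 i (s + P)) = - exp (21 i s). With k = round (s / P) and
|s - m P| ≤ P - 1 one has |k - m| ≤ 1, and if k = m ± 1 both sides are ± exp (winf_of_one_le,
winf_of_le_neg_one; P ≥ π > 2).
contDiff_ww: near every point ww K s = winf (s - m P) for one fixed m, by ww_eq.
ww_jet: r = s - m P if |s - m P| ≤ 2, otherwise (|r| ≥ 2) winf near r is ± exp (21 i r), and r may be
changed by a multiple of 2 π / 21 into the interval [1, 2] or [-2, -1].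
-/

open scoped ContDiff
open Function Set

namespace Pool.Agent.TotallySkew.Ori

variable {K : ℕ}

theorem W2_exp (hK : Odd K) (r : ℝ) :
    Complex.exp ((21 * (r + K * Real.pi) : ℝ) * Complex.I) =
      -Complex.exp ((21 * r : ℝ) * Complex.I) := by
  obtain ⟨j, hj⟩ : Odd (21 * K) := Odd.mul (by decide) hK
  have e : ((21 * (r + K * Real.pi) : ℝ) : ℂ) * Complex.I =
      ((21 * r : ℝ) : ℂ) * Complex.I + (j * (2 * Real.pi * Complex.I) + Real.pi * Complex.I) := by
    have hj' : (21 : ℂ) * K = 2 * j + 1 := by exact_mod_cast hj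
    push_cast
    linear_combination (Real.pi * Complex.I : ℂ) * hj'
  rw [e, Complex.exp_add, Complex.exp_add, Complex.exp_pi_mul_I]
  have : Complex.exp (j * (2 * Real.pi * Complex.I)) = 1 := by
    have := Complex.exp_int_mul_two_pi_mul_I (j : ℤ)
    rwa [Int.cast_natCast] at this
  rw [this]
  ring

theorem W2_P (hK : Odd K) : 3 < (K : ℝ) * Real.pi := by
  have hK1 : (1 : ℝ) ≤ K := by exact_mod_cast hK.pos
  nlinarith [Real.pi_gt_three]

theorem ww_eq (hK : Odd K) (m : ℤ) {s : ℝ} (h : |s - m * (K * Real.pi)| ≤ K * Real.pi - 1) :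
    ww K s = winf (s - m * (K * Real.pi)) := by
  have hP := W2_P hK
  have hex := fun r => W2_exp hK r
  unfold ww
  set P : ℝ := K * Real.pi with hPd
  set k : ℤ := round (s / P) with hk
  have hP0 : 0 < P := by linarith
  have h1 : |s - k * P| ≤ P / 2 := by
    have h2 := abs_sub_round (s / P)
    have h3 : s - k * P = (s / P - k) * P := by field_simp
    rw [h3, abs_mul, abs_of_pos hP0]
    nlinarith
  have h1' := abs_le.mp h1
  have h' := abs_le.mp h
  have h4 : |((k - m : ℤ) : ℝ)| < 2 := by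
    push_cast
    rw [abs_lt]
    constructor
    · by_contra hc
      push Not at hc
      nlinarith
    · by_contra hc
      push Not at hc
      nlinarith
  have h5 : |k - m| < 2 := by exact_mod_cast h4
  have h6 : k = m ∨ k = m + 1 ∨ k = m - 1 := by
    rw [abs_lt] at h5
    omega
  rcases h6 with h6 | h6 | h6
  · rw [h6]
  · have e : s - (k : ℝ) * P = (s - m * P) - P := by rw [h6]; push_cast; ring
    rw [e] at h1' ⊢
    rw [winf_of_one_le (s := s - m * P) (by linarith), winf_of_le_neg_one (by linarith)]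
    have := hex (s - m * P - P)
    rw [← this]
    congr 3
    ring
  · have e : s - (k : ℝ) * P = (s - m * P) + P := by rw [h6]; push_cast; ring
    rw [e] at h1' ⊢
    rw [winf_of_le_neg_one (s := s - m * P) (by linarith), winf_of_one_le (by linarith), hex]

theorem ww_shift (hK : Odd K) (s : ℝ) : ww K (s + K * Real.pi) = ww K s := by
  have hP := W2_P hK
  unfold ww
  have h1 : (s + K * Real.pi) / (K * Real.pi) = s / (K * Real.pi) + 1 := by
    rw [add_div, div_self (by linarith)]
  rw [h1, round_add_one]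
  congr 1
  push_cast
  ring

theorem W2_near (hK : Odd K) (s : ℝ) : ∃ m : ℤ,
    ww K =ᶠ[nhds s] fun u => winf (u - m * (K * Real.pi)) := by
  have hP := W2_P hK
  refine ⟨round (s / (K * Real.pi)), ?_⟩
  set P : ℝ := K * Real.pi with hPd
  set k : ℤ := round (s / P) with hk
  have hP0 : 0 < P := by linarith
  have h1 : |s - k * P| ≤ P / 2 := by
    have h2 := abs_sub_round (s / P)
    have h3 : s - k * P = (s / P - k) * P := by field_simp
    rw [h3, abs_mul, abs_of_pos hP0]
    nlinarith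
  have hc : Continuous fun u : ℝ => |u - k * P| := by fun_prop
  have h2 : ∀ᶠ u in nhds s, |u - k * P| < P - 1 :=
    (hc.tendsto s).eventually (gt_mem_nhds (by linarith))
  filter_upwards [h2] with u hu
  exact ww_eq hK k hu.le

theorem contDiff_ww (hK : Odd K) : ContDiff ℝ ∞ (ww K) := by
  rw [contDiff_iff_contDiffAt]
  intro s
  obtain ⟨m, hm⟩ := W2_near hK s
  refine ContDiffAt.congr_of_eventuallyEq ?_ hm
  have : ContDiff ℝ ∞ fun u : ℝ => winf (u - m * (K * Real.pi)) :=
    contDiff_winf.comp (by fun_prop)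
  exact this.contDiffAt

theorem norm_ww_le (_hK : Odd K) (s : ℝ) : ‖ww K s‖ ≤ 1 := by
  unfold ww
  rw [norm_winf]
  exact abs_gg_le_one _

theorem W2_deriv_exp (c : ℂ) :
    (deriv fun s : ℝ => c * Complex.exp ((21 * s : ℝ) * Complex.I)) =
      fun s : ℝ => c * (21 * Complex.I) * Complex.exp ((21 * s : ℝ) * Complex.I) := by
  funext s
  have h2 : HasDerivAt (fun s : ℝ => 21 * s) 21 s := by
    simpa using (hasDerivAt_id s).const_mul (21 : ℝ)
  have h3 := ((h2.ofReal_comp.mul_const Complex.I).cexp).const_mul c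
  rw [h3.deriv]
  push_cast
  ring

theorem W2_jet_one {x : ℝ} (h : 1 < x) :
    winf x = 1 * Complex.exp ((21 * x : ℝ) * Complex.I) ∧
    deriv winf x = 1 * (21 * Complex.I) * Complex.exp ((21 * x : ℝ) * Complex.I) ∧
    deriv (deriv winf) x =
      1 * (21 * Complex.I) * (21 * Complex.I) * Complex.exp ((21 * x : ℝ) * Complex.I) := by
  have e : winf =ᶠ[nhds x] fun s : ℝ => 1 * Complex.exp ((21 * s : ℝ) * Complex.I) := by
    filter_upwards [lt_mem_nhds h] with u hu
    rw [winf_of_one_le hu.le, one_mul]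
  refine ⟨by rw [winf_of_one_le h.le, one_mul], ?_, ?_⟩
  · rw [e.deriv_eq, W2_deriv_exp]
  · rw [e.deriv.deriv_eq, W2_deriv_exp, W2_deriv_exp]

theorem W2_jet_neg {x : ℝ} (h : x < -1) :
    winf x = (-1) * Complex.exp ((21 * x : ℝ) * Complex.I) ∧
    deriv winf x = (-1) * (21 * Complex.I) * Complex.exp ((21 * x : ℝ) * Complex.I) ∧
    deriv (deriv winf) x =
      (-1) * (21 * Complex.I) * (21 * Complex.I) * Complex.exp ((21 * x : ℝ) * Complex.I) := by
  have e : winf =ᶠ[nhds x] fun s : ℝ => (-1) * Complex.exp ((21 * s : ℝ) * Complex.I) := by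
    filter_upwards [gt_mem_nhds h] with u hu
    rw [winf_of_le_neg_one hu.le, neg_one_mul]
  refine ⟨by rw [winf_of_le_neg_one h.le, neg_one_mul], ?_, ?_⟩
  · rw [e.deriv_eq, W2_deriv_exp]
  · rw [e.deriv.deriv_eq, W2_deriv_exp, W2_deriv_exp]

theorem W2_move (x y : ℝ) : ∃ r ∈ Ico y (y + 2 * Real.pi / 21),
    Complex.exp ((21 * x : ℝ) * Complex.I) = Complex.exp ((21 * r : ℝ) * Complex.I) := by
  have hpi := Real.pi_pos
  set c : ℝ := 2 * Real.pi / 21 with hc
  have hc0 : 0 < c := by positivity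
  set j : ℤ := ⌊(x - y) / c⌋ with hj
  have h1 : (j : ℝ) ≤ (x - y) / c := Int.floor_le _
  have h2 : (x - y) / c < j + 1 := Int.lt_floor_add_one _
  rw [le_div_iff₀ hc0] at h1
  rw [div_lt_iff₀ hc0] at h2
  refine ⟨x - j * c, ⟨by linarith, by linarith⟩, ?_⟩
  have e : ((21 * x : ℝ) : ℂ) * Complex.I =
      ((21 * (x - j * c) : ℝ) : ℂ) * Complex.I + j * (2 * Real.pi * Complex.I) := by
    rw [hc]
    push_cast
    ring
  rw [e, Complex.exp_add, Complex.exp_int_mul_two_pi_mul_I, mul_one]

/-- The 2-jets of all the curves `ww K` are 2-jets of `winf` on `[-2, 2]`. -/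
theorem ww_jet (hK : Odd K) (s : ℝ) : ∃ r ∈ Icc (-2 : ℝ) 2, ww K s = winf r ∧
    deriv (ww K) s = deriv winf r ∧ deriv (deriv (ww K)) s = deriv (deriv winf) r := by
  obtain ⟨m, hm⟩ := W2_near hK s
  have hpi := Real.pi_gt_three
  have hpi' := Real.pi_lt_four
  set x : ℝ := s - m * (K * Real.pi) with hx
  have j0 : ww K s = winf x := hm.eq_of_nhds
  have j1 : deriv (ww K) s = deriv winf x := by
    rw [hm.deriv_eq, deriv_comp_sub_const]
  have j2 : deriv (deriv (ww K)) s = deriv (deriv winf) x := by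
    rw [hm.deriv.deriv_eq]
    have : (deriv fun u => winf (u - m * (K * Real.pi))) =
        fun u => deriv winf (u - m * (K * Real.pi)) := by
      funext u
      rw [deriv_comp_sub_const]
    rw [this, deriv_comp_sub_const]
  rw [j0, j1, j2]
  rcases lt_or_ge 1 x with h | h
  · obtain ⟨r, hr, he⟩ := W2_move x (11 / 10)
    have hr1 : 1 < r := by linarith [hr.1]
    have hr2 : r ≤ 2 := by linarith [hr.2]
    obtain ⟨a1, a2, a3⟩ := W2_jet_one h
    obtain ⟨b1, b2, b3⟩ := W2_jet_one hr1
    exact ⟨r, ⟨by linarith, hr2⟩, by rw [a1, b1, he], by rw [a2, b2, he], by rw [a3, b3, he]⟩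
  · rcases lt_or_ge x (-1) with h' | h'
    · obtain ⟨r, hr, he⟩ := W2_move x (-(19 / 10))
      have hr1 : r < -1 := by linarith [hr.2]
      obtain ⟨a1, a2, a3⟩ := W2_jet_neg h'
      obtain ⟨b1, b2, b3⟩ := W2_jet_neg hr1
      exact ⟨r, ⟨by linarith [hr.1], by linarith⟩, by rw [a1, b1, he], by rw [a2, b2, he],
        by rw [a3, b3, he]⟩
    · exact ⟨x, ⟨by linarith, by linarith⟩, rfl, rfl, rfl⟩

end Pool.Agent.TotallySkew.Ori
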