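import Pool.Agent.TotallySkew.Ori.PX
import Pool.Agent.TotallySkew.Ori.MM
import Pool.Agent.TotallySkew.Ori.W2

/-!
ER: Mm (pp K) (ww K) s v stays within C₀ ‖qv v‖ of xx (pp K) s * qv v, uniformly in K and s.

e s v = Mm s v - xx s * qv v = ∫ (0..s) p σ * (Pm (w σ) v - qv v). Let P = K π. As
e (s + P) v = e P v - e s v (Mm_shift, xx_shift), it is enough to bound e s for 0 ≤ s ≤ P (then
‖e‖ ≤ 2 sup, since e (s + 2P) = e s). For ‖w‖ ≤ 1 the integrand is at most 5 ‖qv v‖, which settles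
the parts [0, 1] and [P - 1, P]. On [1, P - 1] one has w σ = exp (21 i σ) and the integrand is the
derivative of p σ * (sin (21 σ) / 21 • A - cos (21 σ) / 21 • B) up to p' σ * (the same factor).
-/

open scoped ContDiff Quaternion
open Function Set

namespace Pool.Agent.TotallySkew.Ori

/-- The error. -/
private noncomputable def erE (K : ℕ) (v : ℝ × ℂ) (s : ℝ) : ℍ[ℝ] :=
  Mm (pp K) (ww K) s v - xx (pp K) s * qv v

private theorem er_hasDeriv {K : ℕ} (hK : Odd K) (v : ℝ × ℂ) (s : ℝ) :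
    HasDerivAt (erE K v) (pp K s * (Pm (ww K s) v - qv v)) s := by
  have hp : Continuous (pp K) := (contDiff_pp K).continuous
  have hw : Continuous (ww K) := (contDiff_ww hK).continuous
  have h1 : HasDerivAt (fun s => Mm (pp K) (ww K) s v) (dM (pp K) (ww K) s v) s := by
    have h := (hasDerivAt_Mm hp hw s).clm_apply (hasDerivAt_const s v)
    simpa using h
  have h2 : HasDerivAt (fun s => xx (pp K) s * qv v) (pp K s * qv v) s :=
    (hasDerivAt_xx hp s).mul_const (qv v)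
  have h3 := h1.sub h2
  rw [dM_apply] at h3
  rw [mul_sub]
  exact h3

private theorem er_qv_parts (v : ℝ × ℂ) : |v.1| ≤ ‖qv v‖ ∧ ‖v.2‖ ≤ ‖qv v‖ := by
  have h := norm_qv_sq v
  constructor
  · apply abs_le_of_sq_le_sq _ (norm_nonneg _)
    rw [h]; nlinarith [sq_nonneg ‖v.2‖]
  · have h2 : |‖v.2‖| ≤ ‖qv v‖ := by
      apply abs_le_of_sq_le_sq _ (norm_nonneg _)
      rw [h]; nlinarith [sq_nonneg v.1]
    rwa [abs_of_nonneg (norm_nonneg _)] at h2

private theorem er_rough {K : ℕ} (hK : Odd K) (v : ℝ × ℂ) (s : ℝ) :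
    ‖pp K s * (Pm (ww K s) v - qv v)‖ ≤ 5 * ‖qv v‖ := by
  obtain ⟨h1, h2⟩ := er_qv_parts v
  have hw := norm_ww_le hK s
  have h3 : ‖v.2 - v.1 • ww K s‖ ≤ 2 * ‖qv v‖ := by
    calc ‖v.2 - v.1 • ww K s‖ ≤ ‖v.2‖ + ‖v.1 • ww K s‖ := norm_sub_le _ _
      _ = ‖v.2‖ + |v.1| * ‖ww K s‖ := by rw [norm_smul, Real.norm_eq_abs]
      _ ≤ ‖v.2‖ + |v.1| * 1 := by gcongr
      _ ≤ 2 * ‖qv v‖ := by linarith
  calc ‖pp K s * (Pm (ww K s) v - qv v)‖ = ‖Pm (ww K s) v - qv v‖ := by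
        rw [norm_mul, norm_pp, one_mul]
    _ ≤ ‖Pm (ww K s) v‖ + ‖qv v‖ := norm_sub_le _ _
    _ ≤ 2 * ‖v.2 - v.1 • ww K s‖ + ‖qv v‖ := by gcongr; exact norm_Pm_le hw v
    _ ≤ 5 * ‖qv v‖ := by linarith

private theorem er_step {K : ℕ} (hK : Odd K) (v : ℝ × ℂ) (a b : ℝ) (hab : a ≤ b)
    (hb : b ≤ a + 1) : ‖erE K v b - erE K v a‖ ≤ 5 * ‖qv v‖ := by
  have h := Convex.norm_image_sub_le_of_norm_hasDerivWithin_le (s := univ) (x := a) (y := b)
    (fun x _ => (er_hasDeriv hK v x).hasDerivWithinAt) (fun x _ => er_rough hK v x) convex_univ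
    (mem_univ a) (mem_univ b)
  refine h.trans ?_
  have h1 : ‖b - a‖ ≤ 1 := by
    rw [Real.norm_eq_abs, abs_of_nonneg (by linarith)]; linarith
  have h2 : 0 ≤ 5 * ‖qv v‖ := by positivity
  nlinarith

/-- First auxiliary quaternion. -/
private def erA (v : ℝ × ℂ) : ℍ[ℝ] := ⟨0, -v.1, 0, -v.2.re⟩

/-- Second auxiliary quaternion. -/
private def erB (v : ℝ × ℂ) : ℍ[ℝ] := ⟨0, 0, -v.1, -v.2.im⟩

private theorem er_norm_A (v : ℝ × ℂ) : ‖erA v‖ ≤ ‖qv v‖ := by
  have h2 : |‖erA v‖| ≤ ‖qv v‖ := by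
    apply abs_le_of_sq_le_sq _ (norm_nonneg _)
    rw [norm_sq_eq, norm_qv_sq, norm_sq_complex]
    simp only [erA]
    nlinarith [sq_nonneg v.2.im]
  rwa [abs_of_nonneg (norm_nonneg _)] at h2

private theorem er_norm_B (v : ℝ × ℂ) : ‖erB v‖ ≤ ‖qv v‖ := by
  have h2 : |‖erB v‖| ≤ ‖qv v‖ := by
    apply abs_le_of_sq_le_sq _ (norm_nonneg _)
    rw [norm_sq_eq, norm_qv_sq, norm_sq_complex]
    simp only [erB]
    nlinarith [sq_nonneg v.2.re]
  rwa [abs_of_nonneg (norm_nonneg _)] at h2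

private theorem er_formula (v : ℝ × ℂ) (x : ℝ) :
    Pm (Complex.exp ((x : ℝ) * Complex.I)) v - qv v =
      Real.cos x • erA v + Real.sin x • erB v := by
  have h1 : (Complex.exp ((x : ℝ) * Complex.I)).re = Real.cos x := Complex.exp_ofReal_mul_I_re x
  have h2 : (Complex.exp ((x : ℝ) * Complex.I)).im = Real.sin x := Complex.exp_ofReal_mul_I_im x
  have h3 := Real.sin_sq_add_cos_sq x
  apply Quaternion.ext
  · rw [Quaternion.re_sub, Quaternion.re_add, Quaternion.re_smul, Quaternion.re_smul, Pm_apply]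
    simp [qv, erA, erB]
  · rw [Quaternion.imI_sub, Quaternion.imI_add, Quaternion.imI_smul, Quaternion.imI_smul, Pm_apply]
    simp [qv, erA, erB, h1]; ring
  · rw [Quaternion.imJ_sub, Quaternion.imJ_add, Quaternion.imJ_smul, Quaternion.imJ_smul, Pm_apply]
    simp [qv, erA, erB, h2]; ring
  · rw [Quaternion.imK_sub, Quaternion.imK_add, Quaternion.imK_smul, Quaternion.imK_smul, Pm_apply]
    simp [qv, erA, erB, h1, h2, ip]
    linear_combination v.1 * h3

/-- The primitive. -/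
private noncomputable def erQ (v : ℝ × ℂ) (s : ℝ) : ℍ[ℝ] :=
  (Real.sin (21 * s) / 21) • erA v - (Real.cos (21 * s) / 21) • erB v

private theorem er_Q_deriv (v : ℝ × ℂ) (s : ℝ) :
    HasDerivAt (erQ v) (Real.cos (21 * s) • erA v + Real.sin (21 * s) • erB v) s := by
  have h0 : HasDerivAt (fun s : ℝ => 21 * s) 21 s := by
    simpa using (hasDerivAt_id s).const_mul (21 : ℝ)
  have h1 : HasDerivAt (fun s : ℝ => Real.sin (21 * s) / 21) (Real.cos (21 * s)) s := by
    have h := (h0.sin).div_const 21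
    rwa [mul_div_assoc, div_self (by norm_num : (21 : ℝ) ≠ 0), mul_one] at h
  have h2 : HasDerivAt (fun s : ℝ => Real.cos (21 * s) / 21) (-Real.sin (21 * s)) s := by
    have h := (h0.cos).div_const 21
    rwa [mul_div_assoc, div_self (by norm_num : (21 : ℝ) ≠ 0), mul_one] at h
  have h3 := (h1.smul_const (erA v)).sub (h2.smul_const (erB v))
  rw [neg_smul, sub_neg_eq_add] at h3
  exact h3

private theorem er_Q_norm (v : ℝ × ℂ) (s : ℝ) : ‖erQ v s‖ ≤ (1 / 2) * ‖qv v‖ := by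
  have h1 := er_norm_A v
  have h2 := er_norm_B v
  have h3 : |Real.sin (21 * s) / 21| ≤ 1 / 21 := by
    rw [abs_div, abs_of_pos (by norm_num : (0 : ℝ) < 21)]
    have := Real.abs_sin_le_one (21 * s)
    gcongr
  have h4 : |Real.cos (21 * s) / 21| ≤ 1 / 21 := by
    rw [abs_div, abs_of_pos (by norm_num : (0 : ℝ) < 21)]
    have := Real.abs_cos_le_one (21 * s)
    gcongr
  calc ‖erQ v s‖ ≤ ‖(Real.sin (21 * s) / 21) • erA v‖ + ‖(Real.cos (21 * s) / 21) • erB v‖ :=
        norm_sub_le _ _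
    _ = |Real.sin (21 * s) / 21| * ‖erA v‖ + |Real.cos (21 * s) / 21| * ‖erB v‖ := by
        rw [norm_smul, norm_smul, Real.norm_eq_abs, Real.norm_eq_abs]
    _ ≤ 1 / 21 * ‖qv v‖ + 1 / 21 * ‖qv v‖ := by gcongr
    _ ≤ (1 / 2) * ‖qv v‖ := by nlinarith [norm_nonneg (qv v)]

private theorem er_middle {C : ℝ} (hC : 0 < C) (hCp : ∀ K : ℕ, 0 < K → ∀ s, ‖deriv (pp K) s‖ ≤ C / K)
    {K : ℕ} (hK : Odd K) (v : ℝ × ℂ) (a b : ℝ) (ha : 1 ≤ a) (hab : a ≤ b)
    (hb : b ≤ K * Real.pi - 1) :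
    ‖erE K v b - erE K v a‖ ≤ (C * Real.pi + 1) * ‖qv v‖ := by
  have hK0 : 0 < K := hK.pos
  have hKR : (0 : ℝ) < K := by exact_mod_cast hK0
  have hder : ∀ x ∈ Icc a b, HasDerivWithinAt (fun s => erE K v s - pp K s * erQ v s)
      (-(deriv (pp K) x * erQ v x)) (Icc a b) x := by
    intro x hx
    have h1 := er_hasDeriv hK v x
    have h2 : HasDerivAt (pp K) (deriv (pp K) x) x :=
      ((contDiff_pp K).differentiable (by simp)).differentiableAt.hasDerivAt
    have h3 := h2.mul (er_Q_deriv v x)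
    have h4 := (h1.sub h3).hasDerivWithinAt (s := Icc a b)
    have hw : ww K x = Complex.exp ((21 * x : ℝ) * Complex.I) := by
      rw [ww_eq hK 0 (by
        have h5 : |x - ((0 : ℤ) : ℝ) * (K * Real.pi)| = x := by
          simp only [Int.cast_zero, zero_mul, sub_zero]
          exact abs_of_nonneg (by linarith [hx.1])
        rw [h5]; linarith [hx.2])]
      simp only [Int.cast_zero, zero_mul, sub_zero]
      exact winf_of_one_le (by linarith [hx.1])
    rw [hw, er_formula] at h4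
    have h6 : ∀ y z : ℍ[ℝ], y - (z + y) = -z := fun y z => by abel
    rw [h6] at h4
    exact h4
  have hbd : ∀ x ∈ Icc a b, ‖-(deriv (pp K) x * erQ v x)‖ ≤ C / K * ‖qv v‖ := by
    intro x _
    rw [norm_neg, norm_mul]
    have h1 := hCp K hK0 x
    have h2 := er_Q_norm v x
    have h3 : 0 ≤ C / K := by positivity
    calc ‖deriv (pp K) x‖ * ‖erQ v x‖ ≤ C / K * ((1 / 2) * ‖qv v‖) := by gcongr
      _ ≤ C / K * ‖qv v‖ := by
          gcongr
          linarith [norm_nonneg (qv v)]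
  have h := Convex.norm_image_sub_le_of_norm_hasDerivWithin_le (s := Icc a b) (x := a) (y := b)
    hder hbd (convex_Icc a b) (left_mem_Icc.mpr hab) (right_mem_Icc.mpr hab)
  have hlen : C / K * ‖qv v‖ * ‖b - a‖ ≤ C * Real.pi * ‖qv v‖ := by
    have h1 : ‖b - a‖ ≤ K * Real.pi := by
      rw [Real.norm_eq_abs, abs_of_nonneg (by linarith)]; linarith
    calc C / K * ‖qv v‖ * ‖b - a‖ ≤ C / K * ‖qv v‖ * (K * Real.pi) := by gcongr
      _ = C * Real.pi * ‖qv v‖ := by field_simp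
  have h5 : erE K v b - erE K v a = ((erE K v b - pp K b * erQ v b) -
      (erE K v a - pp K a * erQ v a)) + (pp K b * erQ v b - pp K a * erQ v a) := by abel
  have h6 : ‖pp K b * erQ v b‖ ≤ (1 / 2) * ‖qv v‖ := by
    rw [norm_mul, norm_pp, one_mul]; exact er_Q_norm v b
  have h7 : ‖pp K a * erQ v a‖ ≤ (1 / 2) * ‖qv v‖ := by
    rw [norm_mul, norm_pp, one_mul]; exact er_Q_norm v a
  rw [h5]
  calc _ ≤ ‖(erE K v b - pp K b * erQ v b) - (erE K v a - pp K a * erQ v a)‖ +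
        ‖pp K b * erQ v b - pp K a * erQ v a‖ := norm_add_le _ _
    _ ≤ C * Real.pi * ‖qv v‖ + (‖pp K b * erQ v b‖ + ‖pp K a * erQ v a‖) := by
        gcongr
        · exact h.trans hlen
        · exact norm_sub_le _ _
    _ ≤ (C * Real.pi + 1) * ‖qv v‖ := by linarith

private theorem er_zero (K : ℕ) (v : ℝ × ℂ) : erE K v 0 = 0 := by
  simp [erE, Mm_zero, xx]

private theorem er_half {C : ℝ} (hC : 0 < C)
    (hCp : ∀ K : ℕ, 0 < K → ∀ s, ‖deriv (pp K) s‖ ≤ C / K)
    {K : ℕ} (hK : Odd K) (v : ℝ × ℂ) (s : ℝ) (h0 : 0 ≤ s) (h1 : s ≤ K * Real.pi) :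
    ‖erE K v s‖ ≤ (C * Real.pi + 11) * ‖qv v‖ := by
  have hK0 : 0 < K := hK.pos
  have hK1 : (1 : ℝ) ≤ K := by exact_mod_cast hK0
  have hpi := Real.pi_gt_three
  have hP : 3 < K * Real.pi := by nlinarith
  have hq := norm_nonneg (qv v)
  have hCpi : 0 ≤ C * Real.pi * ‖qv v‖ := by positivity
  rcases le_total s 1 with h | h
  · have h2 := er_step hK v 0 s h0 (by linarith)
    rw [er_zero, sub_zero] at h2
    nlinarith
  · have h2 := er_step hK v 0 1 zero_le_one (by linarith)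
    rw [er_zero, sub_zero] at h2
    rcases le_total s (K * Real.pi - 1) with h3 | h3
    · have h4 := er_middle hC hCp hK v 1 s le_rfl h h3
      have h5 : erE K v s = (erE K v s - erE K v 1) + erE K v 1 := by abel
      rw [h5]
      calc _ ≤ ‖erE K v s - erE K v 1‖ + ‖erE K v 1‖ := norm_add_le _ _
        _ ≤ (C * Real.pi + 1) * ‖qv v‖ + 5 * ‖qv v‖ := by gcongr
        _ ≤ _ := by nlinarith
    · have h4 := er_middle hC hCp hK v 1 (K * Real.pi - 1) le_rfl (by linarith) le_rfl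
      have h6 := er_step hK v (K * Real.pi - 1) s h3 (by linarith)
      have h5 : erE K v s = (erE K v s - erE K v (K * Real.pi - 1)) +
        (erE K v (K * Real.pi - 1) - erE K v 1) + erE K v 1 := by abel
      rw [h5]
      calc _ ≤ ‖erE K v s - erE K v (K * Real.pi - 1)‖ +
            ‖erE K v (K * Real.pi - 1) - erE K v 1‖ + ‖erE K v 1‖ := norm_add₃_le
        _ ≤ 5 * ‖qv v‖ + (C * Real.pi + 1) * ‖qv v‖ + 5 * ‖qv v‖ := by gcongr
        _ ≤ _ := by nlinarith

theorem error_bound : ∃ C₀ : ℝ, 0 < C₀ ∧ ∀ K : ℕ, Odd K → ∀ s (v : ℝ × ℂ),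
    ‖Mm (pp K) (ww K) s v - xx (pp K) s * qv v‖ ≤ C₀ * ‖qv v‖ := by
  obtain ⟨C, hC, hCp⟩ := exists_pp_deriv
  have hpi := Real.pi_pos
  refine ⟨2 * (C * Real.pi + 11), by positivity, ?_⟩
  intro K hK s v
  have hK0 : 0 < K := hK.pos
  have hKR : (0 : ℝ) < K := by exact_mod_cast hK0
  have hp : Continuous (pp K) := (contDiff_pp K).continuous
  have hw : Continuous (ww K) := (contDiff_ww hK).continuous
  have hpP : ∀ s, pp K (s + K * Real.pi) = -pp K s := pp_shift hK0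
  have hwP : ∀ s, ww K (s + K * Real.pi) = ww K s := ww_shift hK
  have hP : 0 < K * Real.pi := by positivity
  have hP2 : 0 < 2 * (K * Real.pi) := by positivity
  have hq := norm_nonneg (qv v)
  -- the second half
  have hfull : ∀ r, 0 ≤ r → r ≤ 2 * (K * Real.pi) →
      ‖erE K v r‖ ≤ 2 * (C * Real.pi + 11) * ‖qv v‖ := by
    intro r hr0 hr1
    rcases le_total r (K * Real.pi) with h | h
    · have h1 := er_half hC hCp hK v r hr0 h
      have h2 : 0 ≤ (C * Real.pi + 11) * ‖qv v‖ := by positivity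
      linarith
    · have h1 := er_half hC hCp hK v (r - K * Real.pi) (by linarith) (by linarith)
      have h2 := er_half hC hCp hK v (K * Real.pi) hP.le le_rfl
      have h3 : erE K v r = erE K v (K * Real.pi) - erE K v (r - K * Real.pi) := by
        have h4 := Mm_shift hp hw hpP hwP (r - K * Real.pi)
        have h5 := xx_shift hp hpP (r - K * Real.pi)
        rw [sub_add_cancel] at h4 h5
        unfold erE
        rw [h4, h5, sub_apply, sub_mul]
        abel
      rw [h3]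
      calc _ ≤ ‖erE K v (K * Real.pi)‖ + ‖erE K v (r - K * Real.pi)‖ := norm_sub_le _ _
        _ ≤ (C * Real.pi + 11) * ‖qv v‖ + (C * Real.pi + 11) * ‖qv v‖ := by gcongr
        _ = _ := by ring
  -- reduction modulo the period
  obtain ⟨m, hm0, hm1⟩ : ∃ m : ℤ, 0 ≤ s - m * (2 * (K * Real.pi)) ∧
      s - m * (2 * (K * Real.pi)) ≤ 2 * (K * Real.pi) := by
    refine ⟨⌊s / (2 * (K * Real.pi))⌋, ?_, ?_⟩
    · have h := Int.floor_le (s / (2 * (K * Real.pi)))
      rw [le_div_iff₀ hP2] at h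
      linarith
    · have h := (Int.lt_floor_add_one (s / (2 * (K * Real.pi)))).le
      rw [div_le_iff₀ hP2] at h
      linarith
  have h1 := hfull _ hm0 hm1
  have h2 := Mm_per hp hw hpP hwP (s - m * (2 * (K * Real.pi))) m
  have h3 := xx_per hp hpP (s - m * (2 * (K * Real.pi))) m
  rw [sub_add_cancel] at h2 h3
  rw [h2, h3]
  exact h1

end Pool.Agent.TotallySkew.Ori
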