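import Pool.Agent.TotallySkew.Ori.QA

/-!
VR: lower bound for ∫ |x - t w σ|² over an interval of length ℓ ≤ C₁.
-/

open scoped ContDiff Quaternion
open Function Set

namespace Pool.Agent.TotallySkew.Ori

/-- On one of the two halves of a short interval the integrand is large. -/
theorem vr_half {C₂ : ℝ} {w : ℝ → ℂ} (hw : ContDiff ℝ 2 w)
    (h1 : ∀ s, 1 ≤ ‖deriv w s‖) (h2 : ∀ s, ‖deriv (deriv w) s‖ ≤ C₂)
    {s s' : ℝ} (hs : s < s') (hl : C₂ * (s' - s) ≤ 1 / 2) (t : ℝ) (x : ℂ) :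
    (∀ σ ∈ Icc ((s + s') / 2) s', t ^ 2 / 4 * (σ - (s + s') / 2) ^ 2 ≤ ‖x - t • w σ‖ ^ 2) ∨
    (∀ σ ∈ Icc s ((s + s') / 2), t ^ 2 / 4 * (σ - (s + s') / 2) ^ 2 ≤ ‖x - t • w σ‖ ^ 2) := by
  have hwd : Differentiable ℝ w := hw.differentiable (by norm_num)
  have hw1 : ContDiff ℝ 1 (deriv w) := by
    have : ContDiff ℝ (1 + 1) w := by rw [one_add_one_eq_two]; exact hw
    exact (contDiff_succ_iff_deriv.1 this).2.2
  have hwdd : Differentiable ℝ (deriv w) := hw1.differentiable (by norm_num)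
  set e : ℂ := deriv w s with he
  set n : ℝ := ‖e‖ with hn
  have hn1 : 1 ≤ n := h1 s
  have hC : 0 ≤ C₂ := (norm_nonneg _).trans (h2 s)
  -- the real function
  set h : ℝ → ℝ := fun σ => e.re * (w σ).re + e.im * (w σ).im with hh
  have hder : ∀ σ, HasDerivAt h (e.re * (deriv w σ).re + e.im * (deriv w σ).im) σ := by
    intro σ
    have hd : HasDerivAt w (deriv w σ) σ := (hwd σ).hasDerivAt
    have hre : HasDerivAt (fun σ => (w σ).re) (deriv w σ).re σ :=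
      (Complex.reCLM.hasFDerivAt.comp_hasDerivAt σ hd)
    have him : HasDerivAt (fun σ => (w σ).im) (deriv w σ).im σ :=
      (Complex.imCLM.hasFDerivAt.comp_hasDerivAt σ hd)
    exact (hre.const_mul _).add (him.const_mul _)
  have hnsq : n ^ 2 = e.re ^ 2 + e.im ^ 2 := norm_sq_complex e
  have hlow : ∀ σ ∈ Icc s s', n ^ 2 / 2 ≤ e.re * (deriv w σ).re + e.im * (deriv w σ).im := by
    intro σ hσ
    have hb : ‖deriv w σ - deriv w s‖ ≤ C₂ * ‖σ - s‖ :=
      Convex.norm_image_sub_le_of_norm_deriv_le (s := univ) (fun x _ => hwdd x)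
        (fun x _ => h2 x) convex_univ (mem_univ _) (mem_univ _)
    have hb2 : ‖deriv w σ - deriv w s‖ ≤ 1 / 2 := by
      refine hb.trans ?_
      rw [Real.norm_eq_abs, abs_of_nonneg (by linarith [hσ.1])]
      refine le_trans ?_ hl
      exact mul_le_mul_of_nonneg_left (by linarith [hσ.2]) hC
    set d : ℂ := deriv w σ - e with hd
    have hdw : deriv w σ = e + d := by rw [hd]; ring
    have hd2 : ‖d‖ ≤ 1 / 2 := hb2
    have hdsq : ‖d‖ ^ 2 = d.re ^ 2 + d.im ^ 2 := norm_sq_complex d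
    have hcs : |e.re * d.re + e.im * d.im| ≤ n * ‖d‖ := by
      apply abs_le_of_sq_le_sq
      · rw [mul_pow, hnsq, hdsq]
        nlinarith [sq_nonneg (e.re * d.im - e.im * d.re)]
      · positivity
    have hcs2 : -(n * ‖d‖) ≤ e.re * d.re + e.im * d.im := (abs_le.1 hcs).1
    rw [hdw, Complex.add_re, Complex.add_im]
    have : n * ‖d‖ ≤ n ^ 2 / 2 := by nlinarith [norm_nonneg d]
    nlinarith
  have hmono : ∀ a ∈ Icc s s', ∀ b ∈ Icc s s', a ≤ b → n ^ 2 / 2 * (b - a) ≤ h b - h a := by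
    intro a ha b hb hab
    refine Convex.mul_sub_le_image_sub_of_le_deriv (convex_Icc s s')
      (fun x _ => (hder x).continuousAt.continuousWithinAt)
      (fun x _ => (hder x).differentiableAt.differentiableWithinAt) ?_ a ha b hb hab
    intro y hy
    rw [(hder y).deriv]
    exact hlow y (interior_subset hy)
  set m : ℝ := (s + s') / 2 with hm
  have hmI : m ∈ Icc s s' := ⟨by rw [hm]; linarith, by rw [hm]; linarith⟩
  set A : ℝ := e.re * x.re + e.im * x.im with hA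
  -- the square of the component is at most the square of the norm
  have hcomp : ∀ σ, (A - t * h σ) ^ 2 ≤ n ^ 2 * ‖x - t • w σ‖ ^ 2 := by
    intro σ
    have h3 : ‖x - t • w σ‖ ^ 2 = (x.re - t * (w σ).re) ^ 2 + (x.im - t * (w σ).im) ^ 2 := by
      rw [norm_sq_complex]; simp
    rw [h3, hnsq, hA, hh]
    nlinarith [sq_nonneg (e.re * (x.im - t * (w σ).im) - e.im * (x.re - t * (w σ).re))]
  have hn2 : 0 < n ^ 2 := by positivity
  have key : ∀ σ δ, h σ = h m + δ → (A - t * h m) * t * δ ≤ 0 →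
      n ^ 2 / 2 * |σ - m| ≤ |δ| → t ^ 2 / 4 * (σ - m) ^ 2 ≤ ‖x - t • w σ‖ ^ 2 := by
    intro σ δ hδ hsgn hbig
    have h4 := hcomp σ
    have h5 : t ^ 2 * δ ^ 2 ≤ (A - t * h σ) ^ 2 := by
      rw [hδ]
      nlinarith [sq_nonneg (A - t * h m)]
    have h6 : (n ^ 2 / 2 * |σ - m|) ^ 2 ≤ δ ^ 2 := by
      rw [← sq_abs δ]
      exact pow_le_pow_left₀ (by positivity) hbig 2
    have h7 : (n ^ 2 / 2 * |σ - m|) ^ 2 = n ^ 2 * (n ^ 2 / 4 * (σ - m) ^ 2) := by
      rw [mul_pow, sq_abs]; ring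
    rw [h7] at h6
    have h8 : n ^ 2 * (t ^ 2 * (n ^ 2 / 4 * (σ - m) ^ 2)) ≤ n ^ 2 * ‖x - t • w σ‖ ^ 2 := by
      calc n ^ 2 * (t ^ 2 * (n ^ 2 / 4 * (σ - m) ^ 2))
          = t ^ 2 * (n ^ 2 * (n ^ 2 / 4 * (σ - m) ^ 2)) := by ring
        _ ≤ t ^ 2 * δ ^ 2 := mul_le_mul_of_nonneg_left h6 (sq_nonneg t)
        _ ≤ _ := h5.trans h4
    have h9 := le_of_mul_le_mul_left h8 hn2
    refine le_trans ?_ h9
    have : 1 ≤ n ^ 2 := by nlinarith
    have h10 : 0 ≤ t ^ 2 * (σ - m) ^ 2 := by positivity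
    nlinarith
  rcases le_total ((A - t * h m) * t) 0 with hc | hc
  · left
    intro σ hσ
    have hσI : σ ∈ Icc s s' := ⟨hmI.1.trans hσ.1, hσ.2⟩
    have h5 := hmono m hmI σ hσI hσ.1
    have h6 : 0 ≤ n ^ 2 / 2 * (σ - m) := mul_nonneg (by positivity) (by linarith [hσ.1])
    refine key σ (h σ - h m) (by ring) ?_ ?_
    · exact mul_nonpos_of_nonpos_of_nonneg hc (by linarith)
    · rw [abs_of_nonneg (by linarith [hσ.1] : 0 ≤ σ - m), abs_of_nonneg (by linarith)]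
      exact h5
  · right
    intro σ hσ
    have hσI : σ ∈ Icc s s' := ⟨hσ.1, hσ.2.trans hmI.2⟩
    have h5 := hmono σ hσI m hmI hσ.2
    have h6 : 0 ≤ n ^ 2 / 2 * (m - σ) := mul_nonneg (by positivity) (by linarith [hσ.2])
    refine key σ (h σ - h m) (by ring) ?_ ?_
    · exact mul_nonpos_of_nonneg_of_nonpos hc (by linarith)
    · rw [abs_of_nonpos (by linarith [hσ.2] : σ - m ≤ 0), abs_of_nonpos (by linarith)]
      nlinarith

theorem vr_int {a b m : ℝ} (k : ℝ) :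
    ∫ σ in a..b, k * (σ - m) ^ 2 = k * (((b - m) ^ 3 - (a - m) ^ 3) / 3) := by
  have hd : ∀ σ ∈ uIcc a b, HasDerivAt (fun σ => k * ((σ - m) ^ 3 / 3)) (k * (σ - m) ^ 2) σ := by
    intro σ _
    have h1 : HasDerivAt (fun σ : ℝ => σ - m) 1 σ := (hasDerivAt_id σ).sub_const m
    have h2 := ((h1.pow 3).div_const 3).const_mul k
    refine h2.congr_deriv ?_
    norm_num
    try ring
  rw [intervalIntegral.integral_eq_sub_of_hasDerivAt hd]
  · ring
  · exact (Continuous.intervalIntegrable (by fun_prop) _ _)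

theorem vr_short {C₂ : ℝ} {w : ℝ → ℂ} (hw : ContDiff ℝ 2 w) (h0 : ∀ s, ‖w s‖ ≤ 1)
    (h1 : ∀ s, 1 ≤ ‖deriv w s‖) (h2 : ∀ s, ‖deriv (deriv w) s‖ ≤ C₂)
    {s s' : ℝ} (hs : s < s') (hl1 : s' - s ≤ 1) (hl : C₂ * (s' - s) ≤ 1 / 2) (v : ℝ × ℂ) :
    1 / 480 * (s' - s) ^ 3 * ‖qv v‖ ^ 2 ≤ ∫ σ in s..s', ‖v.2 - v.1 • w σ‖ ^ 2 := by
  obtain ⟨t, x⟩ := v
  have hwc : Continuous w := hw.continuous
  have hfc : Continuous fun σ => ‖x - t • w σ‖ ^ 2 := by fun_prop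
  have hint : ∀ a b : ℝ, IntervalIntegrable (fun σ => ‖x - t • w σ‖ ^ 2) MeasureTheory.volume a b :=
    fun a b => hfc.intervalIntegrable a b
  rw [norm_qv_sq]
  show 1 / 480 * (s' - s) ^ 3 * (t ^ 2 + ‖x‖ ^ 2) ≤ ∫ σ in s..s', ‖x - t • w σ‖ ^ 2
  have hℓ : 0 < s' - s := by linarith
  rcases le_or_gt (2 * |t|) ‖x‖ with hx | hx
  · -- large x
    have hpt : ∀ σ ∈ Icc s s', (t ^ 2 + ‖x‖ ^ 2) / 5 ≤ ‖x - t • w σ‖ ^ 2 := by
      intro σ _
      have h3 : ‖t • w σ‖ ≤ |t| := by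
        rw [norm_smul, Real.norm_eq_abs]
        exact mul_le_of_le_one_right (abs_nonneg t) (h0 σ)
      have h4 : ‖x‖ - ‖t • w σ‖ ≤ ‖x - t • w σ‖ := norm_sub_norm_le _ _
      have h5 : ‖x‖ / 2 ≤ ‖x - t • w σ‖ := by linarith
      have h6 : (‖x‖ / 2) ^ 2 ≤ ‖x - t • w σ‖ ^ 2 := pow_le_pow_left₀ (by positivity) h5 2
      have h7 : t ^ 2 ≤ ‖x‖ ^ 2 / 4 := by
        have := pow_le_pow_left₀ (by positivity) hx 2
        rw [mul_pow, sq_abs] at this
        linarith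
      nlinarith
    have h3 : ∫ σ in s..s', (t ^ 2 + ‖x‖ ^ 2) / 5 ≤ ∫ σ in s..s', ‖x - t • w σ‖ ^ 2 :=
      intervalIntegral.integral_mono_on hs.le (by simp) (hint _ _) hpt
    rw [intervalIntegral.integral_const, smul_eq_mul] at h3
    refine le_trans ?_ h3
    have h4 : (s' - s) ^ 3 ≤ s' - s := by nlinarith [mul_nonneg hℓ.le hℓ.le]
    have h5 : 0 ≤ t ^ 2 + ‖x‖ ^ 2 := by positivity
    nlinarith [mul_nonneg h5 hℓ.le, mul_nonneg h5 (by linarith : 0 ≤ (s' - s) - (s' - s) ^ 3)]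
  · -- large t
    have hq : t ^ 2 + ‖x‖ ^ 2 ≤ 5 * t ^ 2 := by
      have := pow_le_pow_left₀ (norm_nonneg x) hx.le 2
      rw [mul_pow, sq_abs] at this
      linarith
    have hmain : t ^ 2 / 96 * (s' - s) ^ 3 ≤ ∫ σ in s..s', ‖x - t • w σ‖ ^ 2 := by
      have hsplit : ∫ σ in s..s', ‖x - t • w σ‖ ^ 2 =
          (∫ σ in s..((s + s') / 2), ‖x - t • w σ‖ ^ 2) +
            ∫ σ in ((s + s') / 2)..s', ‖x - t • w σ‖ ^ 2 :=
        (intervalIntegral.integral_add_adjacent_intervals (hint _ _) (hint _ _)).symm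
      have hn1 : 0 ≤ ∫ σ in s..((s + s') / 2), ‖x - t • w σ‖ ^ 2 :=
        intervalIntegral.integral_nonneg (by linarith) (fun _ _ => by positivity)
      have hn2 : 0 ≤ ∫ σ in ((s + s') / 2)..s', ‖x - t • w σ‖ ^ 2 :=
        intervalIntegral.integral_nonneg (by linarith) (fun _ _ => by positivity)
      rw [hsplit]
      rcases vr_half hw h1 h2 hs hl t x with h3 | h3
      · have h4 : ∫ σ in ((s + s') / 2)..s', t ^ 2 / 4 * (σ - (s + s') / 2) ^ 2 ≤
            ∫ σ in ((s + s') / 2)..s', ‖x - t • w σ‖ ^ 2 :=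
          intervalIntegral.integral_mono_on (by linarith)
            (Continuous.intervalIntegrable (by fun_prop) _ _) (hint _ _) h3
        rw [vr_int] at h4
        have h5 : t ^ 2 / 4 * (((s' - (s + s') / 2) ^ 3 - ((s + s') / 2 - (s + s') / 2) ^ 3) / 3) =
            t ^ 2 / 96 * (s' - s) ^ 3 := by ring
        rw [h5] at h4
        linarith
      · have h4 : ∫ σ in s..((s + s') / 2), t ^ 2 / 4 * (σ - (s + s') / 2) ^ 2 ≤
            ∫ σ in s..((s + s') / 2), ‖x - t • w σ‖ ^ 2 :=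
          intervalIntegral.integral_mono_on (by linarith)
            (Continuous.intervalIntegrable (by fun_prop) _ _) (hint _ _) h3
        rw [vr_int] at h4
        have h5 : t ^ 2 / 4 * ((((s + s') / 2 - (s + s') / 2) ^ 3 - (s - (s + s') / 2) ^ 3) / 3) =
            t ^ 2 / 96 * (s' - s) ^ 3 := by ring
        rw [h5] at h4
        linarith
    refine le_trans ?_ hmain
    have h5 : 0 ≤ (s' - s) ^ 3 := by positivity
    nlinarith [mul_le_mul_of_nonneg_left hq h5]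

theorem variance_bound (C₁ C₂ : ℝ) : ∃ c : ℝ, 0 < c ∧ ∀ w : ℝ → ℂ, ContDiff ℝ 2 w →
    (∀ s, ‖w s‖ ≤ 1) → (∀ s, 1 ≤ ‖deriv w s‖) → (∀ s, ‖deriv (deriv w) s‖ ≤ C₂) →
    ∀ s s' : ℝ, s < s' → s' - s ≤ C₁ → ∀ v : ℝ × ℂ,
      c * (s' - s) ^ 3 * ‖qv v‖ ^ 2 ≤ ∫ σ in s..s', ‖v.2 - v.1 • w σ‖ ^ 2 := by
  set l₀ : ℝ := 1 / (2 * (|C₂| + 1)) with hl₀
  have hC2 : 0 ≤ |C₂| := abs_nonneg C₂
  have hl₀pos : 0 < l₀ := by rw [hl₀]; positivity
  have hl₀1 : l₀ ≤ 1 := by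
    rw [hl₀, div_le_one (by positivity)]
    linarith
  have hl₀C : |C₂| * l₀ ≤ 1 / 2 := by
    rw [hl₀, mul_one_div, div_le_div_iff₀ (by positivity) (by norm_num)]
    linarith
  set M : ℝ := max C₁ l₀ with hM
  have hMpos : 0 < M := lt_of_lt_of_le hl₀pos (le_max_right _ _)
  refine ⟨1 / 480 * (l₀ / M) ^ 3, by positivity, ?_⟩
  intro w hw h0 h1 h2 s s' hs hss v
  set l : ℝ := min (s' - s) l₀ with hl
  have hlpos : 0 < l := lt_min (by linarith) hl₀pos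
  have hll : l ≤ l₀ := min_le_right _ _
  have hls : l ≤ s' - s := min_le_left _ _
  have hshort := vr_short hw h0 h1 h2 (s := s) (s' := s + l) (by linarith) (by linarith)
    (by
      have : C₂ * l ≤ |C₂| * l₀ :=
        mul_le_mul (le_abs_self C₂) hll hlpos.le hC2
      simpa using this.trans hl₀C) v
  have hfc : Continuous fun σ => ‖v.2 - v.1 • w σ‖ ^ 2 := by
    have := hw.continuous
    fun_prop
  have hmono : ∫ σ in s..(s + l), ‖v.2 - v.1 • w σ‖ ^ 2 ≤ ∫ σ in s..s', ‖v.2 - v.1 • w σ‖ ^ 2 := by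
    rw [← intervalIntegral.integral_add_adjacent_intervals
      (hfc.intervalIntegrable s (s + l)) (hfc.intervalIntegrable (s + l) s')]
    have : 0 ≤ ∫ σ in (s + l)..s', ‖v.2 - v.1 • w σ‖ ^ 2 :=
      intervalIntegral.integral_nonneg (by linarith) (fun _ _ => by positivity)
    linarith
  refine le_trans ?_ (hshort.trans hmono)
  have hkey : l₀ / M * (s' - s) ≤ l := by
    rw [hl, le_min_iff]
    constructor
    · apply mul_le_of_le_one_left (by linarith)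
      rw [div_le_one hMpos]
      exact le_max_right _ _
    · rw [div_mul_eq_mul_div, div_le_iff₀ hMpos]
      exact mul_le_mul_of_nonneg_left (hss.trans (le_max_left _ _)) hl₀pos.le
  have hk0 : 0 ≤ l₀ / M * (s' - s) := mul_nonneg (by positivity) (by linarith)
  have h3 : (l₀ / M * (s' - s)) ^ 3 ≤ l ^ 3 := pow_le_pow_left₀ hk0 hkey 3
  have h4 : (s + l - s) ^ 3 = l ^ 3 := by ring
  rw [h4]
  have h5 : 0 ≤ ‖qv v‖ ^ 2 := by positivity
  calc 1 / 480 * (l₀ / M) ^ 3 * (s' - s) ^ 3 * ‖qv v‖ ^ 2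
      = 1 / 480 * (l₀ / M * (s' - s)) ^ 3 * ‖qv v‖ ^ 2 := by ring
    _ ≤ 1 / 480 * l ^ 3 * ‖qv v‖ ^ 2 := by
        apply mul_le_mul_of_nonneg_right _ h5
        linarith

end Pool.Agent.TotallySkew.Ori
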