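import Pool.Agent.TotallySkew.Ori.PX
import Pool.Agent.TotallySkew.Ori.MM
import Pool.Agent.TotallySkew.Ori.W2
import Pool.Agent.TotallySkew.Ori.VR

/-!
NR: near pairs on one annulus.

Let ℓ = s' - s, b σ = v.2 - v.1 • w σ, p = pp K, w = ww K. If Mm s' v = Mm s v then
∫ (s..s') p σ * Pm (w σ) v = 0 (Mm_sub_apply). Multiply from the left by star (p s) (norm one, so
star (p s) * p s = 1) and take the inner product with qv v: by inner_qv_Pm
∫ ‖b‖² = - ∫ inner (qv v) ((star (p s) * p σ - 1) * Pm (w σ) v) ≤ ∫ ‖qv v‖ (C/K) ℓ 2 ‖b‖ by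
exists_pp_lip and norm_Pm_le. As 2 C/K ℓ ‖qv v‖ ‖b‖ ≤ ‖b‖²/2 + 2 (C/K)² ℓ² ‖qv v‖² pointwise,
∫ ‖b‖² ≤ (2 C/K)² ℓ³ ‖qv v‖². With variance_bound (its constant c for C₁ and C₂ a bound of
‖deriv² (ww K)‖ from ww_jet and exists_bound_deriv2_winf) and (2 C/K)² < c we get qv v = 0.
-/

open scoped ContDiff Quaternion
open Function Set

namespace Pool.Agent.TotallySkew.Ori

private theorem nr_pointwise {C : ℝ} (hlip : ∀ K : ℕ, 0 < K → ∀ s s',
      ‖pp K s - pp K s'‖ ≤ C / K * |s - s'|) {K : ℕ} (hK : Odd K) {s s' σ : ℝ}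
    (h0 : s ≤ σ) (h1 : σ ≤ s') (hC : 0 < C) (v : ℝ × ℂ) :
    ‖v.2 - v.1 • ww K σ‖ ^ 2 / 2 - 2 * (C / K) ^ 2 * (s' - s) ^ 2 * ‖qv v‖ ^ 2 ≤
      inner ℝ (qv v) (star (pp K s) * (pp K σ * Pm (ww K σ) v)) := by
  have hK0 : 0 < K := hK.pos
  have hKR : (0 : ℝ) < K := by exact_mod_cast hK0
  have hone : star (pp K s) * pp K s = 1 := by
    rw [Quaternion.star_mul_self, Quaternion.normSq_eq_norm_mul_self, norm_pp]
    simp
  have hsplit : star (pp K s) * (pp K σ * Pm (ww K σ) v) =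
      Pm (ww K σ) v + star (pp K s) * ((pp K σ - pp K s) * Pm (ww K σ) v) := by
    have h : star (pp K s) * (pp K s * Pm (ww K σ) v) = Pm (ww K σ) v := by
      rw [← mul_assoc, hone, one_mul]
    rw [sub_mul, mul_sub, h]
    abel
  rw [hsplit, inner_add_right, inner_qv_Pm]
  have hP := norm_Pm_le (norm_ww_le hK σ) v
  have hL := hlip K hK0 σ s
  have hCK : 0 ≤ C / K := by positivity
  have hl : |σ - s| ≤ s' - s := by
    rw [abs_of_nonneg (by linarith)]; linarith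
  have hq := norm_nonneg (qv v)
  have hb := norm_nonneg (v.2 - v.1 • ww K σ)
  have hin : |inner ℝ (qv v) (star (pp K s) * ((pp K σ - pp K s) * Pm (ww K σ) v))| ≤
      ‖qv v‖ * (C / K * (s' - s) * (2 * ‖v.2 - v.1 • ww K σ‖)) := by
    refine (abs_real_inner_le_norm _ _).trans ?_
    rw [norm_mul, norm_star, norm_pp, one_mul, norm_mul]
    have h2 : ‖pp K σ - pp K s‖ ≤ C / K * (s' - s) := hL.trans (by gcongr)
    have h3 : 0 ≤ C / K * (s' - s) := by
      have : 0 ≤ s' - s := by linarith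
      positivity
    gcongr
  have h4 := (abs_le.mp hin).1
  have h5 : ‖qv v‖ * (C / K * (s' - s) * (2 * ‖v.2 - v.1 • ww K σ‖)) ≤
      ‖v.2 - v.1 • ww K σ‖ ^ 2 / 2 + 2 * (C / K) ^ 2 * (s' - s) ^ 2 * ‖qv v‖ ^ 2 := by
    nlinarith [sq_nonneg (‖v.2 - v.1 • ww K σ‖ - 2 * (C / K) * (s' - s) * ‖qv v‖)]
  linarith

theorem near_pairs (C₁ : ℝ) : ∃ K₀ : ℕ, ∀ K : ℕ, K₀ ≤ K → Odd K → ∀ s s' : ℝ, s < s' →
    s' - s ≤ C₁ → ∀ v : ℝ × ℂ, Mm (pp K) (ww K) s' v = Mm (pp K) (ww K) s v → v = 0 := by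
  obtain ⟨C₂, hC₂⟩ := exists_bound_deriv2_winf
  obtain ⟨c, hc, hvar⟩ := variance_bound C₁ C₂
  obtain ⟨C, hC, hlip⟩ := exists_pp_lip
  obtain ⟨K₀, hK₀⟩ := exists_nat_gt (4 * C ^ 2 / c)
  refine ⟨K₀, ?_⟩
  intro K hKK hK s s' hss hC₁ v hv
  have hK0 : 0 < K := hK.pos
  have hKR : (0 : ℝ) < K := by exact_mod_cast hK0
  have hK1 : (1 : ℝ) ≤ K := by exact_mod_cast hK0
  have hKK' : (K₀ : ℝ) ≤ K := by exact_mod_cast hKK
  have hsmall : 4 * (C / K) ^ 2 < c := by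
    rw [div_pow, ← mul_div_assoc, div_lt_iff₀ (by positivity)]
    rw [div_lt_iff₀ hc] at hK₀
    have h1 : (K₀ : ℝ) * c ≤ K * c := by gcongr
    have h2 : (K : ℝ) * c ≤ K ^ 2 * c := by
      have h3 : (K : ℝ) ≤ K ^ 2 := by nlinarith
      gcongr
    linarith
  have hp : Continuous (pp K) := (contDiff_pp K).continuous
  have hw : Continuous (ww K) := (contDiff_ww hK).continuous
  have hcP : Continuous fun σ => Pm (ww K σ) v :=
    ((continuous_Pm.comp hw).clm_apply continuous_const)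
  have hcF : Continuous fun σ => pp K σ * Pm (ww K σ) v := hp.mul hcP
  have hzero : (∫ σ in s..s', pp K σ * Pm (ww K σ) v) = 0 := by
    rw [← Mm_sub_apply hp hw, hv, sub_self]
  -- variance bound
  have hv2 := hvar (ww K) (contDiff_infty.mp (contDiff_ww hK) 2) (norm_ww_le hK)
    (fun r => by
      obtain ⟨x, _, _, h2, _⟩ := ww_jet hK r
      rw [h2]; exact one_le_norm_deriv_winf x)
    (fun r => by
      obtain ⟨x, _, _, _, h3⟩ := ww_jet hK r
      rw [h3]; exact hC₂ x) s s' hss hC₁ v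
  -- the integrated inequality
  let L : ℍ[ℝ] →L[ℝ] ℝ := (innerSL ℝ (qv v)).comp (ContinuousLinearMap.mul ℝ ℍ[ℝ] (star (pp K s)))
  have hL : ∀ x, L x = inner ℝ (qv v) (star (pp K s) * x) := fun x => rfl
  have hint : (∫ σ in s..s', inner ℝ (qv v) (star (pp K s) * (pp K σ * Pm (ww K σ) v))) = 0 := by
    have h := ContinuousLinearMap.intervalIntegral_comp_comm L
      (hcF.intervalIntegrable (μ := MeasureTheory.volume) s s')
    rw [hzero, map_zero] at h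
    exact h
  have hcb : Continuous fun σ => ‖v.2 - v.1 • ww K σ‖ ^ 2 := by fun_prop
  have hcL : Continuous fun σ => L (pp K σ * Pm (ww K σ) v) := L.continuous.comp hcF
  have hmono := intervalIntegral.integral_mono_on (μ := MeasureTheory.volume) hss.le
    (f := fun σ => ‖v.2 - v.1 • ww K σ‖ ^ 2 / 2 -
      2 * (C / K) ^ 2 * (s' - s) ^ 2 * ‖qv v‖ ^ 2)
    (g := fun σ => L (pp K σ * Pm (ww K σ) v))
    ((hcb.div_const 2).sub continuous_const |>.intervalIntegrable s s')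
    (hcL.intervalIntegrable s s')
    (fun σ hσ => nr_pointwise hlip hK hσ.1 hσ.2 hC v)
  rw [intervalIntegral.integral_sub ((hcb.div_const 2).intervalIntegrable s s')
    (continuous_const.intervalIntegrable s s'), intervalIntegral.integral_div,
    intervalIntegral.integral_const] at hmono
  have hmono2 : (∫ σ in s..s', ‖v.2 - v.1 • ww K σ‖ ^ 2) / 2 -
      (s' - s) * (2 * (C / K) ^ 2 * (s' - s) ^ 2 * ‖qv v‖ ^ 2) ≤ 0 := by
    rw [← hint]
    exact hmono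
  have hl3 : 0 < (s' - s) ^ 3 := by
    have : 0 < s' - s := by linarith
    positivity
  have hfin : ‖qv v‖ ^ 2 ≤ 0 := by
    by_contra hne
    push Not at hne
    have h1 : 4 * (C / K) ^ 2 * ((s' - s) ^ 3 * ‖qv v‖ ^ 2) < c * ((s' - s) ^ 3 * ‖qv v‖ ^ 2) :=
      mul_lt_mul_of_pos_right hsmall (by positivity)
    nlinarith
  have hq0 : ‖qv v‖ = 0 := by nlinarith [norm_nonneg (qv v)]
  exact qv_eq_zero (norm_eq_zero.mp hq0)

end Pool.Agent.TotallySkew.Ori
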