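import Pool.Agent.TotallySkew.Ori.CH
import Pool.Agent.TotallySkew.Ori.ER
import Pool.Agent.TotallySkew.Ori.NR

/-!
CO0: all pairs of points of one core. T = Mm (pp K) (ww K), P = K π, N = T P, X = xx (pp K).
Constants: c of chord, D of xx_half, C₀ of error_bound.

core0: by error_bound ‖(T s - T s') v‖ ≥ (‖X s - X s'‖ - 2 C₀) ‖qv v‖, so T s - T s' is injective if
‖X s - X s'‖ > 2 C₀. Otherwise by chord s' = s + m (2P) + r with c |r| ≤ 2 C₀, r ≠ 0, T s' = T (s + r)
(Mm_per) and near_pairs with C₁ = 2 C₀ / c applies (to s, s + r or s + r, s).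
core1: by iterate_Gact_est with j = 1 (hN from error_bound at s = P and xx_half, hT from error_bound)
‖(T s - Gact N (T s')) v‖ ≥ (‖X s - G2 (X s') - qi (K D)‖ - 3 C₀) ‖qv v‖. With X s = ⟨a, b, 0, 0⟩,
X s' = ⟨a', b', 0, 0⟩: G2 (X s') = ⟨0, b', 0, -a'⟩, the squared norm is a² + a'² + (K D - b + b')² ≥
‖X s - X P‖² + ‖X s'‖². If both ‖X s - X P‖ ≤ 3 C₀ and ‖X s'‖ ≤ 3 C₀ then by chord s = P + σ + m (2P),
s' = σ' + n (2P) with c |σ|, c |σ'| ≤ 3 C₀ ≤ c K π / 3 (K large), and T s = T (P + σ) = N - T σ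
(Mm_per, Mm_shift), Gact N (T s') v = G2 (T σ' (Rinv v)) + N v, so the difference applied to v is
-(T σ v + G2 (T σ' (Rinv v))) and cross_pairs applies.
core2: imI of X s - G2^[j] (X s') - qi (j K D) is b - b' - j K D ≤ -(j - 1) K D, and the error is at most
(C₀ + C₀ + j C₀) ‖qv v‖; (j - 1) K D > (j + 2) C₀ for j ≥ 2 as soon as K D > 4 C₀.
far_pairs, far_proper: same estimate with ‖T₁ v‖ ≤ C ‖v‖ ≤ C ‖qv v‖.
-/

open scoped ContDiff Quaternion
open Function Set

namespace Pool.Agent.TotallySkew.Ori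

theorem core0 : ∃ K₀ : ℕ, ∀ K : ℕ, K₀ ≤ K → Odd K → ∀ s s' : ℝ,
    (∀ m : ℤ, s' ≠ s + m * (2 * (K * Real.pi))) →
      Injective (Mm (pp K) (ww K) s - Mm (pp K) (ww K) s') := by
  obtain ⟨C₀, hC₀, herr⟩ := error_bound
  obtain ⟨c, hc, hchord⟩ := chord
  obtain ⟨K₀, hnear⟩ := near_pairs (2 * C₀ / c)
  refine ⟨K₀, fun K hKK hK s s' hss => ?_⟩
  have hK0 : 0 < K := hK.pos
  have hp : Continuous (pp K) := (contDiff_pp K).continuous
  have hw : Continuous (ww K) := (contDiff_ww hK).continuous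
  refine (injective_iff_map_eq_zero (Mm (pp K) (ww K) s - Mm (pp K) (ww K) s')).2 fun v hv => ?_
  have hv' : Mm (pp K) (ww K) s v = Mm (pp K) (ww K) s' v := by
    rw [sub_apply] at hv
    exact sub_eq_zero.1 hv
  by_contra hv0
  have hq : 0 < ‖qv v‖ := norm_pos_iff.2 fun h => hv0 (qv_eq_zero h)
  have hX : ‖xx (pp K) s - xx (pp K) s'‖ ≤ 2 * C₀ := by
    have h1 := herr K hK s v
    have h2 := herr K hK s' v
    rw [hv'] at h1
    have h3 : (xx (pp K) s - xx (pp K) s') * qv v =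
        (Mm (pp K) (ww K) s' v - xx (pp K) s' * qv v) -
          (Mm (pp K) (ww K) s' v - xx (pp K) s * qv v) := by
      rw [sub_mul]; abel
    have h4 : ‖xx (pp K) s - xx (pp K) s'‖ * ‖qv v‖ ≤ 2 * C₀ * ‖qv v‖ := by
      rw [← norm_mul, h3]
      refine (norm_sub_le _ _).trans ?_
      linarith
    exact le_of_mul_le_mul_right h4 hq
  obtain ⟨m, hm⟩ := hchord K hK0 s s'
  set r : ℝ := s' - s - m * (2 * (K * Real.pi)) with hr
  have hr0 : r ≠ 0 := by
    intro h0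
    refine hss m ?_
    linarith
  have hrC : |r| ≤ 2 * C₀ / c := by
    rw [le_div_iff₀ hc]
    linarith
  have hper : Mm (pp K) (ww K) s' = Mm (pp K) (ww K) (s + r) := by
    have h1 := Mm_per hp hw (pp_shift hK0) (ww_shift hK) (s + r) m
    rw [← h1]
    congr 1
    rw [hr]; ring
  rw [hper] at hv'
  rcases lt_or_gt_of_ne hr0 with h | h
  · refine hv0 (hnear K hKK hK (s + r) s (by linarith) ?_ v hv')
    have := neg_abs_le r
    linarith
  · refine hv0 (hnear K hKK hK s (s + r) (by linarith) ?_ v hv'.symm)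
    have := le_abs_self r
    linarith

end Pool.Agent.TotallySkew.Ori
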