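import Pool.Agent.TotallySkew.Ori.WW

/-!
ST: (4/3) |∫ winf|² ≤ s ∫ |winf|².

Case 0 < s ≤ 1/2: |winf σ| = σ, so |∫ winf| ≤ s²/2 and ∫ |winf|² = s³/3: equality of
(4/3) s⁴/4 = s · s³/3.
Case s ≥ 1/2: ∫ |winf|² ≥ ∫ (0..1/2) σ² = 1/24, so the right side is ≥ 1/48. And
|∫ winf| ≤ ∫ (0..1/5) σ + |∫ (1/5..s) gg exp(21 i σ)| ≤ 1/50 + 2/21 by parts
(∫ gg e = [gg e/(21 i)] - ∫ gg' e/(21 i), and ∫ |gg'| = gg s - gg (1/5) as gg is monotone, so the
second integral is ≤ (gg s + gg (1/5) + gg s - gg (1/5)) / 21 ≤ 2/21). Finally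
(4/3) (1/50 + 2/21)² < 1/48 (0.0177 < 0.0208).
star_neg: substitution σ ↦ -σ and winf_neg.
-/

open scoped ContDiff
open Function Set

namespace Pool.Agent.TotallySkew.Ori

private theorem ST_norm_small {σ : ℝ} (h0 : 0 ≤ σ) (h : σ ≤ 1 / 2) : ‖winf σ‖ = σ := by
  rw [norm_winf, gg_of_le (by rw [abs_of_nonneg h0]; exact h), abs_of_nonneg h0]

private theorem ST_int_small {s : ℝ} (h0 : 0 ≤ s) (h : s ≤ 1 / 2) :
    ‖∫ σ in (0 : ℝ)..s, winf σ‖ ≤ s ^ 2 / 2 := by
  refine (intervalIntegral.norm_integral_le_integral_norm h0).trans (le_of_eq ?_)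
  rw [intervalIntegral.integral_congr (g := fun σ : ℝ => σ)]
  · rw [integral_id]; ring
  · intro σ hσ
    rw [uIcc_of_le h0] at hσ
    exact ST_norm_small hσ.1 (hσ.2.trans h)

private theorem ST_sq_small {s : ℝ} (h0 : 0 ≤ s) (h : s ≤ 1 / 2) :
    ∫ σ in (0 : ℝ)..s, ‖winf σ‖ ^ 2 = s ^ 3 / 3 := by
  rw [intervalIntegral.integral_congr (g := fun σ : ℝ => σ ^ 2)]
  · rw [integral_pow]; norm_num
  · intro σ hσ
    rw [uIcc_of_le h0] at hσ
    simp only [ST_norm_small hσ.1 (hσ.2.trans h)]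

private theorem ST_cont : Continuous winf := contDiff_winf.continuous

private theorem ST_gg_deriv_nonneg (x : ℝ) : 0 ≤ deriv gg x := gg_monotone.deriv_nonneg

private theorem ST_gg_hasDeriv (x : ℝ) : HasDerivAt gg (deriv gg x) x :=
  ((contDiff_gg.differentiable (by simp)) x).hasDerivAt

private theorem ST_gg_deriv_cont : Continuous (deriv gg) :=
  contDiff_gg.continuous_deriv (by exact_mod_cast le_top)

private theorem ST_osc {s : ℝ} (hs : 1 / 5 ≤ s) :
    ‖∫ σ in (1 / 5 : ℝ)..s, winf σ‖ ≤ 2 / 21 := by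
  have e1 : ∫ σ in (1 / 5 : ℝ)..s, winf σ
      = ∫ σ in (1 / 5 : ℝ)..s, (gg σ : ℂ) * Complex.exp ((21 * σ : ℝ) * Complex.I) := by
    refine intervalIntegral.integral_congr ?_
    intro σ hσ
    rw [uIcc_of_le hs] at hσ
    exact winf_of_fifth_le hσ.1
  have hv : ∀ x ∈ uIcc (1 / 5 : ℝ) s, HasDerivAt
      (fun σ : ℝ => Complex.exp ((21 * σ : ℝ) * Complex.I) / (21 * Complex.I))
      (Complex.exp ((21 * x : ℝ) * Complex.I)) x := by
    intro x _
    have h1 : HasDerivAt (fun σ : ℝ => ((21 * σ : ℝ) : ℂ) * Complex.I) (21 * Complex.I) x := by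
      have h2 : HasDerivAt (fun σ : ℝ => ((21 * σ : ℝ) : ℂ)) ((21 : ℝ) : ℂ) x := by
        have h3 : HasDerivAt (fun σ : ℝ => 21 * σ) (21 : ℝ) x := by
          simpa using (hasDerivAt_id x).const_mul (21:ℝ)
        exact h3.ofReal_comp
      have := h2.mul_const Complex.I
      simpa using this
    have h3 := h1.cexp
    have h4 := h3.div_const (21 * Complex.I)
    have h5 : (21 * Complex.I : ℂ) ≠ 0 := by simp [Complex.I_ne_zero]
    rwa [mul_div_assoc, div_self h5, mul_one] at h4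
  have hu : ∀ x ∈ uIcc (1 / 5 : ℝ) s, HasDerivAt (fun σ : ℝ => (gg σ : ℂ))
      ((deriv gg x : ℝ) : ℂ) x := fun x _ => (ST_gg_hasDeriv x).ofReal_comp
  have hu' : IntervalIntegrable (fun x => ((deriv gg x : ℝ) : ℂ)) MeasureTheory.volume (1 / 5) s :=
    (Complex.continuous_ofReal.comp ST_gg_deriv_cont).intervalIntegrable _ _
  have hv' : IntervalIntegrable (fun x : ℝ => Complex.exp ((21 * x : ℝ) * Complex.I))
      MeasureTheory.volume (1 / 5) s := by
    apply Continuous.intervalIntegrable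
    fun_prop
  have key := intervalIntegral.integral_mul_deriv_eq_deriv_mul hu hv hu' hv'
  have hn : ∀ x : ℝ, ‖Complex.exp ((21 * x : ℝ) * Complex.I) / (21 * Complex.I)‖ = 1 / 21 := by
    intro x
    rw [norm_div, Complex.norm_exp_ofReal_mul_I]
    simp
  have h6 : ‖∫ x in (1 / 5 : ℝ)..s, ((deriv gg x : ℝ) : ℂ) *
      (Complex.exp ((21 * x : ℝ) * Complex.I) / (21 * Complex.I))‖
      ≤ (gg s - gg (1 / 5)) * (1 / 21) := by
    refine (intervalIntegral.norm_integral_le_integral_norm hs).trans (le_of_eq ?_)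
    have h7 : ∫ x in (1 / 5 : ℝ)..s, ‖((deriv gg x : ℝ) : ℂ) *
        (Complex.exp ((21 * x : ℝ) * Complex.I) / (21 * Complex.I))‖
        = ∫ x in (1 / 5 : ℝ)..s, deriv gg x * (1 / 21) := by
      refine intervalIntegral.integral_congr ?_
      intro x _
      simp only
      rw [norm_mul, hn, Complex.norm_real, Real.norm_eq_abs, abs_of_nonneg (ST_gg_deriv_nonneg x)]
    rw [h7, intervalIntegral.integral_mul_const]
    congr 1
    exact intervalIntegral.integral_eq_sub_of_hasDerivAt (fun x _ => ST_gg_hasDeriv x)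
      (ST_gg_deriv_cont.intervalIntegrable _ _)
  rw [e1, key]
  have h8 : ‖(gg s : ℂ) * (Complex.exp ((21 * s : ℝ) * Complex.I) / (21 * Complex.I))‖
      = |gg s| * (1 / 21) := by
    rw [norm_mul, hn, Complex.norm_real, Real.norm_eq_abs]
  have h9 : ‖(gg (1 / 5) : ℂ) * (Complex.exp ((21 * (1 / 5) : ℝ) * Complex.I) / (21 * Complex.I))‖
      = |gg (1 / 5)| * (1 / 21) := by
    rw [norm_mul, hn, Complex.norm_real, Real.norm_eq_abs]
  have h10 : gg (1 / 5) = 1 / 5 := gg_of_le (by rw [abs_of_nonneg (by norm_num)]; norm_num)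
  have h11 : gg (1 / 5) ≤ gg s := gg_monotone hs
  have h12 := abs_gg_le_one s
  have h13 : |gg s| = gg s := abs_of_nonneg (by rw [h10] at h11; linarith)
  have h14 : |gg (1 / 5)| = gg (1 / 5) := abs_of_nonneg (by rw [h10]; norm_num)
  refine (norm_sub_le _ _).trans ?_
  have h15 := norm_sub_le ((gg s : ℂ) * (Complex.exp ((21 * s : ℝ) * Complex.I) / (21 * Complex.I)))
    ((gg (1 / 5) : ℂ) * (Complex.exp ((21 * (1 / 5) : ℝ) * Complex.I) / (21 * Complex.I)))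
  rw [h8, h9, h13, h14] at h15
  rw [h13] at h12
  linarith

theorem star_pos {s : ℝ} (hs : 0 ≤ s) :
    4 / 3 * ‖∫ σ in (0 : ℝ)..s, winf σ‖ ^ 2 ≤ s * ∫ σ in (0 : ℝ)..s, ‖winf σ‖ ^ 2 := by
  rcases le_or_gt s (1 / 2) with h | h
  · rw [ST_sq_small hs h]
    have h1 := ST_int_small hs h
    have h2 : 0 ≤ ‖∫ σ in (0 : ℝ)..s, winf σ‖ := norm_nonneg _
    have h3 : ‖∫ σ in (0 : ℝ)..s, winf σ‖ ^ 2 ≤ (s ^ 2 / 2) ^ 2 := pow_le_pow_left₀ h2 h1 2
    nlinarith
  · have hint : ∀ a b : ℝ, IntervalIntegrable winf MeasureTheory.volume a b :=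
      fun a b => ST_cont.intervalIntegrable a b
    have hint2 : ∀ a b : ℝ, IntervalIntegrable (fun σ => ‖winf σ‖ ^ 2) MeasureTheory.volume a b :=
      fun a b => (ST_cont.norm.pow 2).intervalIntegrable a b
    have h1 : ‖∫ σ in (0 : ℝ)..s, winf σ‖ ≤ 1 / 50 + 2 / 21 := by
      rw [← intervalIntegral.integral_add_adjacent_intervals (hint 0 (1 / 5)) (hint (1 / 5) s)]
      refine (norm_add_le _ _).trans (add_le_add ?_ (ST_osc (by linarith)))
      have := ST_int_small (s := 1 / 5) (by norm_num) (by norm_num)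
      norm_num at this ⊢
      exact this
    have h2 : 1 / 24 ≤ ∫ σ in (0 : ℝ)..s, ‖winf σ‖ ^ 2 := by
      rw [← intervalIntegral.integral_add_adjacent_intervals (hint2 0 (1 / 2)) (hint2 (1 / 2) s)]
      have h3 := ST_sq_small (s := 1 / 2) (by norm_num) (by norm_num)
      have h4 : 0 ≤ ∫ σ in (1 / 2 : ℝ)..s, ‖winf σ‖ ^ 2 :=
        intervalIntegral.integral_nonneg h.le (fun x _ => by positivity)
      rw [h3]
      norm_num at h4 ⊢
      exact h4
    have h3 : 0 ≤ ‖∫ σ in (0 : ℝ)..s, winf σ‖ := norm_nonneg _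
    have h4 : ‖∫ σ in (0 : ℝ)..s, winf σ‖ ^ 2 ≤ (1 / 50 + 2 / 21) ^ 2 := pow_le_pow_left₀ h3 h1 2
    have h5 : 1 / 2 * (1 / 24) ≤ s * ∫ σ in (0 : ℝ)..s, ‖winf σ‖ ^ 2 :=
      mul_le_mul h.le h2 (by norm_num) (by linarith)
    have h6 : (4:ℝ) / 3 * (1 / 50 + 2 / 21) ^ 2 ≤ 1 / 2 * (1 / 24) := by norm_num
    linarith

theorem star_neg {s : ℝ} (hs : s ≤ 0) :
    4 / 3 * ‖∫ σ in s..(0 : ℝ), winf σ‖ ^ 2 ≤ -s * ∫ σ in s..(0 : ℝ), ‖winf σ‖ ^ 2 := by
  have h := star_pos (s := -s) (by linarith)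
  have e1 : ∫ σ in s..(0 : ℝ), winf σ = ∫ σ in (0 : ℝ)..(-s), -(starRingEnd ℂ) (winf σ) := by
    have := intervalIntegral.integral_comp_neg (a := 0) (b := -s) winf
    rw [neg_neg, neg_zero] at this
    rw [← this]
    refine intervalIntegral.integral_congr ?_
    intro σ _
    exact winf_neg σ
  have e2 : ‖∫ σ in s..(0 : ℝ), winf σ‖ = ‖∫ σ in (0 : ℝ)..(-s), winf σ‖ := by
    rw [e1, intervalIntegral.integral_neg, norm_neg, intervalIntegral.intervalIntegral_conj]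
    exact RCLike.norm_conj _
  have e3 : ∫ σ in s..(0 : ℝ), ‖winf σ‖ ^ 2 = ∫ σ in (0 : ℝ)..(-s), ‖winf σ‖ ^ 2 := by
    have := intervalIntegral.integral_comp_neg (a := 0) (b := -s) (fun σ => ‖winf σ‖ ^ 2)
    rw [neg_neg, neg_zero] at this
    rw [← this]
    refine intervalIntegral.integral_congr ?_
    intro σ _
    simp only
    rw [winf_neg, norm_neg, RCLike.norm_conj]
  rw [e2, e3]
  exact h

end Pool.Agent.TotallySkew.Ori
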