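import Pool.Agent.TotallySkew.Ori.PX
import Pool.Agent.TotallySkew.Ori.MM
import Pool.Agent.TotallySkew.Ori.ST
import Pool.Agent.TotallySkew.Ori.W2

/-!
CR: pairs near a crossing.

For |σ| ≤ K π/3 one has pp K = 1 and ww K = winf on [0, σ] (pp_one, ww_eq with m = 0; note
K π / 3 ≤ K π - 1), so Mm σ v = ∫ (0..σ) Pm (winf τ) v, which is computed with
m = ∫ (0..σ) winf and A = ∫ (0..σ) |winf|² (signed integrals). The key inequality comes from
4/3 |m|² ≤ σ A by completing the square.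
-/

open scoped ContDiff Quaternion
open Function Set

namespace Pool.Agent.TotallySkew.Ori

/-- the integral of the fast curve -/
noncomputable def crI (σ : ℝ) : ℂ := ∫ τ in (0 : ℝ)..σ, winf τ

/-- the integral of the square of the norm of the fast curve -/
noncomputable def crJ (σ : ℝ) : ℝ := ∫ τ in (0 : ℝ)..σ, ‖winf τ‖ ^ 2

theorem cr_star (σ : ℝ) : 4 / 3 * ‖crI σ‖ ^ 2 ≤ σ * crJ σ := by
  unfold crI crJ
  rcases le_total 0 σ with h | h
  · exact star_pos h
  · have := star_neg h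
    rw [intervalIntegral.integral_symm σ 0, intervalIntegral.integral_symm σ 0, norm_neg]
    linarith

theorem cr_norm_pos {τ : ℝ} (h : τ ≠ 0) : 0 < ‖winf τ‖ := by
  have key : ∀ s : ℝ, 0 < s → 0 < gg s := by
    intro s hs
    have h1 : gg (min s (1 / 2)) ≤ gg s := gg_monotone (min_le_left _ _)
    have h2 : 0 < min s (1 / 2) := lt_min hs (by norm_num)
    rw [gg_of_le (by rw [abs_of_pos h2]; exact min_le_right _ _)] at h1
    linarith
  rw [norm_winf]
  rcases lt_or_gt_of_ne h with h | h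
  · have := key (-τ) (by linarith)
    rw [gg_neg] at this
    rw [abs_pos]
    linarith
  · exact abs_pos.mpr (key τ h).ne'

theorem cr_continuous : Continuous winf := contDiff_winf.continuous

theorem cr_pos {σ : ℝ} (h : σ ≠ 0) : 0 < σ * crJ σ := by
  have hc : Continuous fun τ => ‖winf τ‖ ^ 2 := (cr_continuous.norm).pow 2
  unfold crJ
  rcases lt_or_gt_of_ne h with h | h
  · rw [intervalIntegral.integral_symm σ 0]
    have : 0 < ∫ τ in σ..(0 : ℝ), ‖winf τ‖ ^ 2 :=
      intervalIntegral.intervalIntegral_pos_of_pos_on (hc.intervalIntegrable _ _)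
        (fun τ hτ => by have := cr_norm_pos (ne_of_lt hτ.2); positivity) h
    nlinarith
  · have : 0 < ∫ τ in (0 : ℝ)..σ, ‖winf τ‖ ^ 2 :=
      intervalIntegral.intervalIntegral_pos_of_pos_on (hc.intervalIntegrable _ _)
        (fun τ hτ => by have := cr_norm_pos (ne_of_gt hτ.1); positivity) h
    positivity

/-- `qv` as a continuous linear map -/
noncomputable def crQ : ℝ × ℂ →L[ℝ] ℍ[ℝ] :=
  LinearMap.toContinuousLinearMap
    { toFun := qv
      map_add' := qv_add
      map_smul' := fun r v => qv_smul r v }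

theorem crQ_apply (v : ℝ × ℂ) : crQ v = qv v := rfl

/-- the inner product as a continuous linear map -/
noncomputable def crP (z : ℂ) : ℂ →L[ℝ] ℝ :=
  LinearMap.toContinuousLinearMap
    { toFun := fun w => ip w z
      map_add' := by intro v v'; simp [ip]; ring
      map_smul' := by intro r v; simp [ip]; ring }

theorem crP_apply (z w : ℂ) : crP z w = ip w z := rfl

theorem cr_Pm (c : ℂ) (v : ℝ × ℂ) :
    Pm c v = crQ (-(ip c v.2) + v.1 * ‖c‖ ^ 2, v.2 - v.1 • c) := by
  rw [Pm_apply, crQ_apply]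
  unfold qv
  ext
  · rfl
  · rfl
  · rfl
  · simp only [ip]
    rw [norm_sq_complex]
    simp
    ring

theorem cr_int (σ : ℝ) (v : ℝ × ℂ) : ∫ τ in (0 : ℝ)..σ, Pm (winf τ) v =
    qv (-(ip (crI σ) v.2) + v.1 * crJ σ, σ • v.2 - v.1 • crI σ) := by
  have hw := cr_continuous
  have hα : Continuous fun τ => -(crP v.2 (winf τ)) + v.1 * ‖winf τ‖ ^ 2 := by fun_prop
  have hβ : Continuous fun τ => v.2 - v.1 • winf τ := by fun_prop
  have hf : Continuous fun τ =>
      ((-(crP v.2 (winf τ)) + v.1 * ‖winf τ‖ ^ 2, v.2 - v.1 • winf τ) : ℝ × ℂ) := hα.prodMk hβ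
  have e1 : ∀ τ, Pm (winf τ) v =
      crQ (-(crP v.2 (winf τ)) + v.1 * ‖winf τ‖ ^ 2, v.2 - v.1 • winf τ) := fun τ => cr_Pm _ _
  simp only [e1]
  rw [crQ.intervalIntegral_comp_comm (hf.intervalIntegrable _ _), crQ_apply]
  congr 1
  have hfi := hf.intervalIntegrable (μ := MeasureTheory.volume) 0 σ
  have a1 := (ContinuousLinearMap.fst ℝ ℝ ℂ).intervalIntegral_comp_comm hfi
  have a2 := (ContinuousLinearMap.snd ℝ ℝ ℂ).intervalIntegral_comp_comm hfi
  refine Prod.ext ?_ ?_
  · change _ = _ at a1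
    rw [ContinuousLinearMap.coe_fst'] at a1
    rw [← a1]
    change ∫ τ in (0 : ℝ)..σ, (-(crP v.2 (winf τ)) + v.1 * ‖winf τ‖ ^ 2) = _
    have h1 : Continuous fun τ => -(crP v.2 (winf τ)) := by fun_prop
    have h2 : Continuous fun τ => v.1 * ‖winf τ‖ ^ 2 := by fun_prop
    rw [intervalIntegral.integral_add (h1.intervalIntegrable _ _) (h2.intervalIntegrable _ _),
      intervalIntegral.integral_neg, intervalIntegral.integral_const_mul,
      (crP v.2).intervalIntegral_comp_comm (hw.intervalIntegrable _ _)]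
    rfl
  · rw [ContinuousLinearMap.coe_snd'] at a2
    rw [← a2]
    change ∫ τ in (0 : ℝ)..σ, (v.2 - v.1 • winf τ) = _
    have h2 : Continuous fun τ => v.1 • winf τ := by fun_prop
    rw [intervalIntegral.integral_sub (continuous_const.intervalIntegrable _ _)
      (h2.intervalIntegrable _ _), intervalIntegral.integral_const,
      intervalIntegral.integral_smul, sub_zero]
    rfl

theorem cr_Mm {K : ℕ} (hK : Odd K) {σ : ℝ} (h : |σ| ≤ K * (Real.pi / 3)) (v : ℝ × ℂ) :
    Mm (pp K) (ww K) σ v = qv (-(ip (crI σ) v.2) + v.1 * crJ σ, σ • v.2 - v.1 • crI σ) := by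
  have hK0 : 0 < K := hK.pos
  have hK1 : (1 : ℝ) ≤ K := by exact_mod_cast hK0
  rw [Mm_apply (contDiff_pp K).continuous (contDiff_ww hK).continuous, ← cr_int]
  refine intervalIntegral.integral_congr fun τ hτ => ?_
  have hτ' : |τ| ≤ |σ| := by
    have := abs_sub_left_of_mem_uIcc hτ
    simpa using this
  have hpi := Real.pi_gt_three
  have e1 : pp K τ = 1 := pp_one hK0 (hτ'.trans h)
  have e2 : ww K τ = winf τ := by
    have := ww_eq hK 0 (s := τ) (by
      simp only [Int.cast_zero, zero_mul, sub_zero]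
      have h3 := hτ'.trans h
      nlinarith)
    simpa using this
  simp only [e1, e2, one_mul]

/-- the key inequality -/
theorem cr_key {σ t J a b p q : ℝ} (hs : 4 / 3 * (p ^ 2 + q ^ 2) ≤ σ * J)
    (h1 : p * a + q * b = t * J) :
    |t * (σ * (a * q - b * p))| ≤ 3 / 4 * (σ * (σ * (a ^ 2 + b ^ 2) - t * (p * a + q * b))) := by
  have h2 : t * (σ * (p * a + q * b)) = t ^ 2 * (σ * J) := by rw [h1]; ring
  have h3 : t ^ 2 * (4 / 3 * (p ^ 2 + q ^ 2)) ≤ t ^ 2 * (σ * J) :=
    mul_le_mul_of_nonneg_left hs (sq_nonneg t)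
  rw [abs_le]
  constructor
  · nlinarith [sq_nonneg (3 * (σ * a) - 4 * t * p + 2 * t * q),
      sq_nonneg (3 * (σ * b) - 4 * t * q - 2 * t * p)]
  · nlinarith [sq_nonneg (3 * (σ * a) - 4 * t * p - 2 * t * q),
      sq_nonneg (3 * (σ * b) - 4 * t * q + 2 * t * p)]

/-- nondegeneracy -/
theorem cr_zero {σ t J a b p q : ℝ} (hσ : σ ≠ 0) (hJ : 0 < σ * J)
    (hs : 4 / 3 * (p ^ 2 + q ^ 2) ≤ σ * J) (h1 : p * a + q * b = t * J)
    (hQ : σ * (a ^ 2 + b ^ 2) - t * (p * a + q * b) = 0) : t = 0 ∧ a = 0 ∧ b = 0 := by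
  have h2 : t * (σ * (p * a + q * b)) = t ^ 2 * (σ * J) := by rw [h1]; ring
  have h3 : t ^ 2 * (4 / 3 * (p ^ 2 + q ^ 2)) ≤ t ^ 2 * (σ * J) :=
    mul_le_mul_of_nonneg_left hs (sq_nonneg t)
  have h4 : σ ^ 2 * (a ^ 2 + b ^ 2) - t * (σ * (p * a + q * b)) = 0 := by
    have : σ * (σ * (a ^ 2 + b ^ 2) - t * (p * a + q * b)) = 0 := by rw [hQ, mul_zero]
    linarith
  have h5 : σ ^ 2 * (a ^ 2 + b ^ 2) ≤ 0 := by
    nlinarith [sq_nonneg (3 * (σ * a) - 4 * t * p), sq_nonneg (3 * (σ * b) - 4 * t * q)]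
  have hσ2 : 0 < σ ^ 2 := by positivity
  have h6 : a ^ 2 + b ^ 2 ≤ 0 := by
    by_contra hc
    push Not at hc
    nlinarith [mul_pos hσ2 hc]
  have ha : a = 0 := by nlinarith [sq_nonneg a, sq_nonneg b]
  have hb : b = 0 := by nlinarith [sq_nonneg a, sq_nonneg b]
  refine ⟨?_, ha, hb⟩
  have h7 : t ^ 2 * (σ * J) = 0 := by rw [← h2, ha, hb]; ring
  rcases mul_eq_zero.mp h7 with h | h
  · exact pow_eq_zero_iff (two_ne_zero) |>.mp h
  · exact absurd h hJ.ne'

theorem cross_pairs {K : ℕ} (hK : Odd K) {σ σ' : ℝ} (h : |σ| ≤ K * (Real.pi / 3))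
    (h' : |σ'| ≤ K * (Real.pi / 3)) (hne : σ ≠ 0 ∨ σ' ≠ 0) {v : ℝ × ℂ}
    (hv : Mm (pp K) (ww K) σ v + G2 (Mm (pp K) (ww K) σ' (Rinv v)) = 0) : v = 0 := by
  rw [cr_Mm hK h, cr_Mm hK h', G2_apply] at hv
  obtain ⟨t, z⟩ := v
  have s1 := cr_star σ
  have s2 := cr_star σ'
  rw [norm_sq_complex] at s1 s2
  have eR := congrArg (fun h : ℍ[ℝ] => h.re) hv
  have eI := congrArg (fun h : ℍ[ℝ] => h.imI) hv
  have eJ := congrArg (fun h : ℍ[ℝ] => h.imJ) hv
  have eK := congrArg (fun h : ℍ[ℝ] => h.imK) hv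
  simp [qv, ip] at eR eI eJ eK
  have fR : (0 : ℝ) + ((crI σ').im * z.re + -((crI σ').re * z.im) + t * crJ σ') = 0 := by
    simpa using eR
  have fI : σ * z.re - t * (crI σ).re + (σ' * z.im - t * (crI σ').re) = 0 := eI
  have fJ : σ * z.im - t * (crI σ).im + (-(σ' * z.re) - t * (crI σ').im) = 0 := eJ
  have fK : -((crI σ).im * z.im) + -((crI σ).re * z.re) + t * crJ σ + 0 = 0 := by
    simpa using eK
  have g1 : (crI σ).re * z.re + (crI σ).im * z.im = t * crJ σ := by linarith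
  have g2 : (crI σ').re * z.im + (crI σ').im * (-z.re) = t * crJ σ' := by linarith
  have k1 := cr_key s1 g1
  have k2 := cr_key s2 g2
  have z1 : σ = 0 → crI σ = 0 := by rintro rfl; simp [crI]
  have z2 : σ' = 0 → crI σ' = 0 := by rintro rfl; simp [crI]
  set a := z.re with ha
  set b := z.im with hb
  set p := (crI σ).re with hp
  set q := (crI σ).im with hq
  set p' := (crI σ').re with hp'
  set q' := (crI σ').im with hq'
  have r1 : σ' * (b ^ 2 + (-a) ^ 2) - t * (p' * b + q' * -a) = t * (b * p - a * q) := by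
    linear_combination b * fI - a * fJ
  have r2 : σ * (a ^ 2 + b ^ 2) - t * (p * a + q * b) = t * (a * p' + b * q') := by
    linear_combination a * fI + b * fJ
  have hQ : σ * (a ^ 2 + b ^ 2) - t * (p * a + q * b) = 0 ∧
      σ' * (b ^ 2 + (-a) ^ 2) - t * (p' * b + q' * -a) = 0 := by
    by_cases hσ : σ = 0
    · have hp0 : p = 0 := by rw [hp, z1 hσ]; rfl
      have hq0 : q = 0 := by rw [hq, z1 hσ]; rfl
      constructor
      · rw [hσ, hp0, hq0]; ring
      · rw [r1, hp0, hq0]; ring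
    · by_cases hσ' : σ' = 0
      · have hp0 : p' = 0 := by rw [hp', z2 hσ']; rfl
        have hq0 : q' = 0 := by rw [hq', z2 hσ']; rfl
        constructor
        · rw [r2, hp0, hq0]; ring
        · rw [hσ', hp0, hq0]; ring
      · set Q := σ * (a ^ 2 + b ^ 2) - t * (p * a + q * b) with hQd
        set Q' := σ' * (b ^ 2 + (-a) ^ 2) - t * (p' * b + q' * -a) with hQd'
        have e1 : t * (σ * (a * q - b * p)) = -(σ * Q') := by rw [r1]; ring
        have e2 : t * (σ' * (b * q' - -a * p')) = σ' * Q := by rw [r2]; ring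
        rw [e1, abs_neg, abs_mul] at k1
        rw [e2, abs_mul] at k2
        have l1 : σ * Q ≤ |σ| * |Q| := by rw [← abs_mul]; exact le_abs_self _
        have l2 : σ' * Q' ≤ |σ'| * |Q'| := by rw [← abs_mul]; exact le_abs_self _
        have p1 : 0 < |σ| := abs_pos.mpr hσ
        have p2 : 0 < |σ'| := abs_pos.mpr hσ'
        have m1 : |Q'| ≤ 3 / 4 * |Q| := by
          refine le_of_mul_le_mul_left ?_ p1
          linarith
        have m2 : |Q| ≤ 3 / 4 * |Q'| := by
          refine le_of_mul_le_mul_left ?_ p2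
          linarith
        have n1 : |Q| = 0 := by linarith [abs_nonneg Q, abs_nonneg Q']
        have n2 : |Q'| = 0 := by linarith [abs_nonneg Q, abs_nonneg Q']
        exact ⟨abs_eq_zero.mp n1, abs_eq_zero.mp n2⟩
  have fin : t = 0 ∧ a = 0 ∧ b = 0 := by
    rcases hne with hσ | hσ
    · exact cr_zero hσ (cr_pos hσ) s1 g1 hQ.1
    · obtain ⟨h1, h2, h3⟩ := cr_zero hσ (cr_pos hσ) s2 g2 hQ.2
      exact ⟨h1, by linarith, h2⟩
  refine Prod.ext fin.1 (Complex.ext fin.2.1 fin.2.2)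

end Pool.Agent.TotallySkew.Ori
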