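import Pool.Agent.TotallySkew.Ori.QA
import Pool.Agent.TotallySkew.Open.LA

/-!
GA: planes carried by maps, and the affine map Gmap N.

injective_pairMap_of_carries: let A = fderiv Φ q, B = fderiv Φ' q', (W, h) = Φ q, (W', h') = Φ' q'.
If A a + B b + c (Φ q - Φ' q') = 0 then, with x = (A a).1, x' = (B b).1: x + x' + c (W - W') = 0 and
T (0, x) + T' (0, x') + c (T (1, W) - T' (1, W')) = 0, that is (T - T') (c, c W' - x') = 0. So c = 0,
x' = 0, x = 0, and a = b = 0 by the third part of Carries.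
carries_Gmap: chain rule; Rinv (1, i z) = (1, z).
iterate_Gact_est: induction on j: for v, Rinv v =: u has v = (u.1, i u.2), so by G2_mul_qv
G2 (q * qv u) = G2 q * qv v, and ‖qv u‖ = ‖qv v‖; G2 fixes the quaternion D i.
-/

open scoped Quaternion ContDiff
open Function Set

namespace Pool.Agent.TotallySkew.Ori

theorem injective_pairMap_of_carries {Φ Φ' : ℝ × ℝ → ℂ × ℍ[ℝ]} {q q' : ℝ × ℝ}
    {T T' : ℝ × ℂ →L[ℝ] ℍ[ℝ]} (h : Carries Φ q T) (h' : Carries Φ' q' T')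
    (hT : Injective (T - T')) :
    Injective (pairMap (fderiv ℝ Φ q) (fderiv ℝ Φ' q') (Φ q - Φ' q')) := by
  rw [injective_pairMap_iff]
  intro a b c hab
  obtain ⟨h1, h2, h3⟩ := h
  obtain ⟨h1', h2', h3'⟩ := h'
  have e1 := congrArg Prod.fst hab
  have e2 := congrArg Prod.snd hab
  simp only [Prod.fst_add, Prod.snd_add, Prod.smul_fst, Prod.smul_snd, Prod.fst_sub, Prod.snd_sub,
    Prod.fst_zero, Prod.snd_zero] at e1 e2
  rw [h1, h1', h2, h2'] at e2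
  have ex : ((fderiv ℝ Φ q) a).1 = (c • (Φ' q').1 - ((fderiv ℝ Φ' q') b).1) - c • (Φ q).1 := by
    have : ((fderiv ℝ Φ q) a).1 = -(((fderiv ℝ Φ' q') b).1 + c • ((Φ q).1 - (Φ' q').1)) :=
      eq_neg_of_add_eq_zero_left e1
    rw [this, smul_sub]
    abel
  set X : ℂ := c • (Φ' q').1 - ((fderiv ℝ Φ' q') b).1 with hX
  have eT : T (0, ((fderiv ℝ Φ q) a).1) + c • T (1, (Φ q).1) = T (c, X) := by
    rw [← map_smul, ← map_add, ex]
    congr 1
    simp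
  have eT' : T' (0, ((fderiv ℝ Φ' q') b).1) - c • T' (1, (Φ' q').1) = - T' (c, X) := by
    rw [← map_smul, ← map_sub, ← map_neg]
    congr 1
    simp [hX]
  have key : (T - T') (c, X) = 0 := by
    rw [ContinuousLinearMap.sub_apply, sub_eq_add_neg, ← eT, ← eT', ← e2, smul_sub]
    abel
  have hz : (c, X) = (0 : ℝ × ℂ) := hT (by rw [key, map_zero])
  have hc : c = 0 := congrArg Prod.fst hz
  have hX0 : X = 0 := congrArg Prod.snd hz
  have hx' : ((fderiv ℝ Φ' q') b).1 = 0 := by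
    have := hX0
    rw [hX, hc, zero_smul, zero_sub, neg_eq_zero] at this
    exact this
  have hx : ((fderiv ℝ Φ q) a).1 = 0 := by
    rw [ex, hX0, hc, zero_smul, sub_zero]
  refine ⟨h3 ?_, h3' ?_, hc⟩
  · simp [hx]
  · simp [hx']

/-- The linear part of `Gmap N`. -/
noncomputable def Glin (N : ℝ × ℂ →L[ℝ] ℍ[ℝ]) : ℂ × ℍ[ℝ] →L[ℝ] ℂ × ℍ[ℝ] :=
  ((ContinuousLinearMap.mul ℝ ℂ Complex.I).comp (ContinuousLinearMap.fst ℝ ℂ ℍ[ℝ])).prod
    (G2.comp (ContinuousLinearMap.snd ℝ ℂ ℍ[ℝ]) +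
      N.comp ((0 : ℂ × ℍ[ℝ] →L[ℝ] ℝ).prod
        ((ContinuousLinearMap.mul ℝ ℂ Complex.I).comp (ContinuousLinearMap.fst ℝ ℂ ℍ[ℝ]))))

theorem Glin_apply (N : ℝ × ℂ →L[ℝ] ℍ[ℝ]) (z : ℂ × ℍ[ℝ]) :
    Glin N z = (Complex.I * z.1, G2 z.2 + N (0, Complex.I * z.1)) := rfl

theorem Gmap_eq_Glin (N : ℝ × ℂ →L[ℝ] ℍ[ℝ]) (z : ℂ × ℍ[ℝ]) :
    Gmap N z = Glin N z + (0, N (1, 0)) := by
  rw [Glin_apply, Gmap]
  refine Prod.ext ?_ ?_
  · simp
  · simp only [Prod.snd_add]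
    rw [add_assoc, ← map_add]
    simp

theorem G2_injective : Injective G2 := by
  intro x y hxy
  have : G2 (x - y) = 0 := by rw [map_sub, hxy, sub_self]
  have h0 : ‖x - y‖ = 0 := by rw [← norm_G2, this, norm_zero]
  exact sub_eq_zero.1 (norm_eq_zero.1 h0)

theorem Glin_injective (N : ℝ × ℂ →L[ℝ] ℍ[ℝ]) : Injective (Glin N) := by
  intro x y hxy
  rw [Glin_apply, Glin_apply] at hxy
  have h1 : Complex.I * x.1 = Complex.I * y.1 := congrArg Prod.fst hxy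
  have h2 : G2 x.2 + N (0, Complex.I * x.1) = G2 y.2 + N (0, Complex.I * y.1) :=
    congrArg Prod.snd hxy
  have h3 : x.1 = y.1 := mul_left_cancel₀ Complex.I_ne_zero h1
  rw [h1] at h2
  exact Prod.ext h3 (G2_injective (add_right_cancel h2))

theorem hasFDerivAt_Gmap (N : ℝ × ℂ →L[ℝ] ℍ[ℝ]) (z : ℂ × ℍ[ℝ]) :
    HasFDerivAt (Gmap N) (Glin N) z := by
  have h : Gmap N = fun z => Glin N z + (0, N (1, 0)) := funext (Gmap_eq_Glin N)
  rw [h]
  exact (Glin N).hasFDerivAt.add_const _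

theorem contDiff_Gmap (N : ℝ × ℂ →L[ℝ] ℍ[ℝ]) : ContDiff ℝ ∞ (Gmap N) := by
  have h : Gmap N = fun z => Glin N z + (0, N (1, 0)) := funext (Gmap_eq_Glin N)
  rw [h]
  exact (Glin N).contDiff.add contDiff_const

/-- `Gmap N` is affine with injective linear part. -/
theorem exists_linear_iterate_Gmap (N : ℝ × ℂ →L[ℝ] ℍ[ℝ]) (j : ℕ) :
    ∃ A : ℂ × ℍ[ℝ] →L[ℝ] ℂ × ℍ[ℝ], Injective A ∧
      ∀ x y, (Gmap N)^[j] x - (Gmap N)^[j] y = A (x - y) := by
  induction j with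
  | zero => exact ⟨ContinuousLinearMap.id ℝ _, injective_id, fun x y => rfl⟩
  | succ j ih =>
    obtain ⟨A, hA, hxy⟩ := ih
    refine ⟨(Glin N).comp A, (Glin_injective N).comp hA, fun x y => ?_⟩
    rw [iterate_succ_apply', iterate_succ_apply', Gmap_eq_Glin, Gmap_eq_Glin,
      add_sub_add_right_eq_sub, ← map_sub, hxy]
    rfl

theorem carries_Gmap {Φ : ℝ × ℝ → ℂ × ℍ[ℝ]} {q : ℝ × ℝ} {T : ℝ × ℂ →L[ℝ] ℍ[ℝ]}
    (hΦ : DifferentiableAt ℝ Φ q) (h : Carries Φ q T) (N : ℝ × ℂ →L[ℝ] ℍ[ℝ]) :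
    Carries (fun x => Gmap N (Φ x)) q (Gact N T) := by
  obtain ⟨h1, h2, h3⟩ := h
  have hR : ∀ (r : ℝ) (w : ℂ), Rinv (r, Complex.I * w) = (r, w) := by
    intro r w
    rw [Rinv_apply]
    refine Prod.ext rfl ?_
    change -Complex.I * (Complex.I * w) = w
    rw [← mul_assoc, neg_mul, Complex.I_mul_I, neg_neg, one_mul]
  have hd : fderiv ℝ (fun x => Gmap N (Φ x)) q = (Glin N).comp (fderiv ℝ Φ q) :=
    ((hasFDerivAt_Gmap N (Φ q)).comp q hΦ.hasFDerivAt).fderiv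
  refine ⟨?_, fun v => ?_, ?_⟩
  · change G2 (Φ q).2 + N (1, Complex.I * (Φ q).1) =
      G2 (T (Rinv (1, Complex.I * (Φ q).1))) + N (1, Complex.I * (Φ q).1)
    rw [hR, ← h1]
  · rw [hd]
    change G2 (fderiv ℝ Φ q v).2 + N (0, Complex.I * (fderiv ℝ Φ q v).1) =
      G2 (T (Rinv (0, Complex.I * (fderiv ℝ Φ q v).1))) +
        N (0, Complex.I * (fderiv ℝ Φ q v).1)
    rw [hR, ← h2]
  · rw [hd]
    intro v v' hvv
    have : Complex.I * (fderiv ℝ Φ q v).1 = Complex.I * (fderiv ℝ Φ q v').1 := hvv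
    exact h3 (mul_left_cancel₀ Complex.I_ne_zero this)

theorem carries_iterate_Gmap {Φ : ℝ × ℝ → ℂ × ℍ[ℝ]} {q : ℝ × ℝ} {T : ℝ × ℂ →L[ℝ] ℍ[ℝ]}
    (hΦ : DifferentiableAt ℝ Φ q) (h : Carries Φ q T) (N : ℝ × ℂ →L[ℝ] ℍ[ℝ]) (j : ℕ) :
    Carries ((Gmap N)^[j] ∘ Φ) q ((Gact N)^[j] T) := by
  have hdiff : ∀ j : ℕ, DifferentiableAt ℝ ((Gmap N)^[j] ∘ Φ) q := by
    intro j
    induction j with
    | zero => exact hΦ
    | succ j ih =>
      have : (Gmap N)^[j + 1] ∘ Φ = fun x => Gmap N (((Gmap N)^[j] ∘ Φ) x) := by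
        funext x
        exact iterate_succ_apply' _ _ _
      rw [this]
      exact (hasFDerivAt_Gmap N _).differentiableAt.comp q ih
  induction j with
  | zero => exact h
  | succ j ih =>
    have e : (Gmap N)^[j + 1] ∘ Φ = fun x => Gmap N (((Gmap N)^[j] ∘ Φ) x) := by
      funext x
      exact iterate_succ_apply' _ _ _
    rw [e, iterate_succ_apply']
    exact carries_Gmap (hdiff j) ih N

/-- The quaternion `D i`. -/
def qi (D : ℝ) : ℍ[ℝ] := ⟨0, D, 0, 0⟩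

theorem qi_add (D D' : ℝ) : qi (D + D') = qi D + qi D' := by
  ext <;> simp [qi]

theorem G2_qi (D : ℝ) : G2 (qi D) = qi D := by
  rw [G2_apply]
  ext <;> simp [qi]

theorem iterate_Gact_est {N T : ℝ × ℂ →L[ℝ] ℍ[ℝ]} {D C₀ C : ℝ} {q : ℍ[ℝ]}
    (hN : ∀ v, ‖N v - qi D * qv v‖ ≤ C₀ * ‖qv v‖)
    (hT : ∀ v, ‖T v - q * qv v‖ ≤ C * ‖qv v‖) (j : ℕ) (v : ℝ × ℂ) :
    ‖((Gact N)^[j] T) v - ((G2^[j]) q + qi (j * D)) * qv v‖ ≤ (C + j * C₀) * ‖qv v‖ := by
  induction j generalizing v with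
  | zero =>
    have h0 : qi ((0 : ℕ) * D) = 0 := by
      ext <;> simp [qi]
    rw [h0, add_zero]
    simpa using hT v
  | succ j ih =>
    have h1 := ih (Rinv v)
    have hv : ((Rinv v).1, Complex.I * (Rinv v).2) = v := by
      rw [Rinv_apply]
      refine Prod.ext rfl ?_
      change Complex.I * (-Complex.I * v.2) = v.2
      rw [← mul_assoc, mul_neg, Complex.I_mul_I, neg_neg, one_mul]
    rw [norm_qv_Rinv, ← norm_G2, map_sub, G2_mul_qv, hv, map_add, G2_qi] at h1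
    have h2 := hN v
    have e : ((Gact N)^[j + 1] T) v - ((G2^[j + 1]) q + qi ((j + 1 : ℕ) * D)) * qv v =
        (G2 (((Gact N)^[j] T) (Rinv v)) - (G2 ((G2^[j]) q) + qi (j * D)) * qv v) +
          (N v - qi D * qv v) := by
      have e1 : qi ((j + 1 : ℕ) * D) = qi (j * D) + qi D := by
        rw [← qi_add]
        congr 1
        push_cast
        ring
      have e2 : ((Gact N)^[j + 1] T) v = G2 (((Gact N)^[j] T) (Rinv v)) + N v := by
        rw [iterate_succ_apply']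
        rfl
      rw [e1, e2, iterate_succ_apply' (f := G2), add_mul, add_mul, add_mul]
      abel
    rw [e]
    refine (norm_add_le _ _).trans ((add_le_add h1 h2).trans (le_of_eq ?_))
    push_cast
    ring

end Pool.Agent.TotallySkew.Ori
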