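import Pool.Agent.TotallySkew.Ori.CH
import Pool.Agent.TotallySkew.Ori.ER
import Pool.Agent.TotallySkew.Ori.CR
import Pool.Agent.TotallySkew.Ori.GA

/-!
CO1: pairs of points of two consecutive cores. T = Mm (pp K) (ww K), P = K π, N = T P, X = xx (pp K).
Constants: c of chord, D of xx_half, C₀ of error_bound.

core0: by error_bound ‖(T s - T s') v‖ ≥ (‖X s - X s'‖ - 2 C₀) ‖qv v‖, so T s - T s' is injective if
‖X s - X s'‖ > 2 C₀. Otherwise by chord s' = s + m (2P) + r with c |r| ≤ 2 C₀, r ≠ 0, T s' = T (s + r)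
(Mm_per) and near_pairs with C₁ = 2 C₀ / c applies (to s, s + r or s + r, s).
core1: by iterate_Gact_est with j = 1 (hN from error_bound at s = P and xx_half, hT from error_bound)
‖(T s - Gact N (T s')) v‖ ≥ (‖X s - G2 (X s') - qi (K D)‖ - 3 C₀) ‖qv v‖. With X s = ⟨a, b, 0, 0⟩,
X s' = ⟨a', b', 0, 0⟩: G2 (X s') = ⟨0, b', 0, -a'⟩, the squared norm is a² + a'² + (K D - b + b')² ≥
‖X s - X P‖² + ‖X s'‖². If both ‖X s - X P‖ ≤ 3 C₀ and ‖X s'‖ ≤ 3 C₀ then by chord s = P + σ + m (2P),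
s' = σ' + n (2P) with c |σ|, c |σ'| ≤ 3 C₀ ≤ c K π / 3 (K large), and T s = T (P + σ) = N - T σ
(Mm_per, Mm_shift), Gact N (T s') v = G2 (T σ' (Rinv v)) + N v, so the difference applied to v is
-(T σ v + G2 (T σ' (Rinv v))) and cross_pairs applies.
core2: imI of X s - G2^[j] (X s') - qi (j K D) is b - b' - j K D ≤ -(j - 1) K D, and the error is at most
(C₀ + C₀ + j C₀) ‖qv v‖; (j - 1) K D > (j + 2) C₀ for j ≥ 2 as soon as K D > 4 C₀.
far_pairs, far_proper: same estimate with ‖T₁ v‖ ≤ C ‖v‖ ≤ C ‖qv v‖.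
-/

open scoped ContDiff Quaternion
open Function Set

namespace Pool.Agent.TotallySkew.Ori

theorem CO1_norm {x y : ℍ[ℝ]} {E M : ℝ} (hxJ : x.imJ = 0) (hxK : x.imK = 0) (hyJ : y.imJ = 0)
    (hyK : y.imK = 0) (hb : x.imI ≤ E) (hb' : 0 ≤ y.imI) (hM : 0 ≤ M)
    (h : ‖x - G2 y - qi E‖ ≤ M) : ‖qi E - x‖ ≤ M ∧ ‖y‖ ≤ M := by
  have h1 : ‖x - G2 y - qi E‖ ^ 2 ≤ M ^ 2 := pow_le_pow_left₀ (norm_nonneg _) h 2
  rw [norm_sq_eq] at h1
  simp only [G2_apply, qi, Quaternion.re_sub, Quaternion.imI_sub, Quaternion.imJ_sub,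
    Quaternion.imK_sub, hxJ, hxK, hyJ, hyK] at h1
  have h2 : 0 ≤ (E - x.imI) * y.imI := mul_nonneg (by linarith) hb'
  constructor
  · refine (abs_le_of_sq_le_sq' ?_ hM).2
    rw [norm_sq_eq]
    simp only [qi, Quaternion.re_sub, Quaternion.imI_sub, Quaternion.imJ_sub,
      Quaternion.imK_sub, hxJ, hxK]
    nlinarith [sq_nonneg x.re, sq_nonneg y.re, sq_nonneg y.imI]
  · refine (abs_le_of_sq_le_sq' ?_ hM).2
    rw [norm_sq_eq, hyJ, hyK]
    nlinarith [sq_nonneg x.re, sq_nonneg y.re, sq_nonneg y.imI, sq_nonneg (E - x.imI)]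

theorem core1 : ∃ K₀ : ℕ, ∀ K : ℕ, K₀ ≤ K → Odd K → ∀ s s' : ℝ,
    (¬ ∃ m n : ℤ, s = K * Real.pi + m * (2 * (K * Real.pi)) ∧ s' = n * (2 * (K * Real.pi))) →
      Injective (Mm (pp K) (ww K) s -
        Gact (Mm (pp K) (ww K) (K * Real.pi)) (Mm (pp K) (ww K) s')) := by
  obtain ⟨C₀, hC₀, herr⟩ := error_bound
  obtain ⟨c, hc, hchord⟩ := chord
  obtain ⟨D, hD, hhalf⟩ := xx_half
  obtain ⟨K₀, hK₀⟩ := exists_nat_ge (9 * C₀ / c)
  refine ⟨K₀, fun K hKK hK s s' hss => ?_⟩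
  have hK0 : 0 < K := hK.pos
  have hKr : (0 : ℝ) < K := by exact_mod_cast hK0
  have hKC : 9 * C₀ / c ≤ K := hK₀.trans (by exact_mod_cast hKK)
  have hp : Continuous (pp K) := (contDiff_pp K).continuous
  have hw : Continuous (ww K) := (contDiff_ww hK).continuous
  have hsmall : ∀ x : ℝ, c * |x| ≤ 3 * C₀ → |x| ≤ K * (Real.pi / 3) := by
    intro x hx
    have hpi : 1 ≤ Real.pi := by linarith [Real.two_le_pi]
    rw [div_le_iff₀ hc] at hKC
    have h1 : c * |x| ≤ c * (K * (Real.pi / 3)) := by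
      have h2 : K * c * 1 ≤ K * c * Real.pi := mul_le_mul_of_nonneg_left hpi (by positivity)
      nlinarith
    exact le_of_mul_le_mul_left h1 hc
  refine (injective_iff_map_eq_zero (Mm (pp K) (ww K) s -
    Gact (Mm (pp K) (ww K) (K * Real.pi)) (Mm (pp K) (ww K) s'))).2 fun v hv => ?_
  by_contra hv0
  have hq : 0 < ‖qv v‖ := norm_pos_iff.2 fun h => hv0 (qv_eq_zero h)
  obtain ⟨hP, hXs⟩ := hhalf K hK0
  obtain ⟨hb0, hb1, hJ, hKk⟩ := hXs s
  obtain ⟨hb0', hb1', hJ', hKk'⟩ := hXs s'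
  have hest := iterate_Gact_est (N := Mm (pp K) (ww K) (K * Real.pi)) (T := Mm (pp K) (ww K) s')
    (D := K * D) (C₀ := C₀) (C := C₀) (q := xx (pp K) s')
    (fun v => by
      have h := herr K hK (K * Real.pi) v
      rw [hP] at h
      exact h) (herr K hK s') 1 v
  simp only [Function.iterate_one, Nat.cast_one, one_mul] at hest
  have hv' : Mm (pp K) (ww K) s v =
      (Gact (Mm (pp K) (ww K) (K * Real.pi)) (Mm (pp K) (ww K) s')) v := by
    rw [sub_apply] at hv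
    exact sub_eq_zero.1 hv
  have hX : ‖xx (pp K) s - G2 (xx (pp K) s') - qi (K * D)‖ ≤ 3 * C₀ := by
    have h1 := herr K hK s v
    rw [hv'] at h1
    set g := (Gact (Mm (pp K) (ww K) (K * Real.pi)) (Mm (pp K) (ww K) s')) v with hg
    have h3 : (xx (pp K) s - G2 (xx (pp K) s') - qi (K * D)) * qv v =
        (g - (G2 (xx (pp K) s') + qi (K * D)) * qv v) - (g - xx (pp K) s * qv v) := by
      rw [sub_mul, sub_mul, add_mul]; abel
    have h4 : ‖xx (pp K) s - G2 (xx (pp K) s') - qi (K * D)‖ * ‖qv v‖ ≤ 3 * C₀ * ‖qv v‖ := by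
      rw [← norm_mul, h3]
      refine (norm_sub_le _ _).trans ?_
      linarith
    exact le_of_mul_le_mul_right h4 hq
  obtain ⟨hXa, hXb⟩ := CO1_norm hJ hKk hJ' hKk' hb1 hb0' (by positivity) hX
  have hPq : qi (K * D) = xx (pp K) (K * Real.pi) := hP.symm
  rw [hPq] at hXa
  obtain ⟨m, hm⟩ := hchord K hK0 (K * Real.pi) s
  obtain ⟨n, hn⟩ := hchord K hK0 0 s'
  have hx0 : xx (pp K) 0 = 0 := by
    unfold xx
    exact intervalIntegral.integral_same
  rw [hx0, zero_sub, norm_neg, sub_zero] at hn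
  set σ : ℝ := s - K * Real.pi - m * (2 * (K * Real.pi)) with hσ
  set σ' : ℝ := s' - n * (2 * (K * Real.pi)) with hσ'
  have h1 : |σ| ≤ K * (Real.pi / 3) := hsmall σ (hm.trans hXa)
  have h2 : |σ'| ≤ K * (Real.pi / 3) := hsmall σ' (hn.trans hXb)
  have hne : σ ≠ 0 ∨ σ' ≠ 0 := by
    by_contra hcon
    push Not at hcon
    refine hss ⟨m, n, ?_, ?_⟩
    · linarith [hcon.1]
    · linarith [hcon.2]
  have e1 : Mm (pp K) (ww K) s =
      Mm (pp K) (ww K) (K * Real.pi) - Mm (pp K) (ww K) σ := by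
    rw [← Mm_shift hp hw (pp_shift hK0) (ww_shift hK) σ,
      ← Mm_per hp hw (pp_shift hK0) (ww_shift hK) (σ + K * Real.pi) m]
    congr 1
    rw [hσ]; ring
  have e2 : Mm (pp K) (ww K) s' = Mm (pp K) (ww K) σ' := by
    rw [← Mm_per hp hw (pp_shift hK0) (ww_shift hK) σ' n]
    congr 1
    rw [hσ']; ring
  refine hv0 (cross_pairs hK h1 h2 hne (v := v) ?_)
  rw [e1, e2] at hv
  rw [sub_apply, sub_apply, Gact,
    add_apply, ContinuousLinearMap.comp_apply,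
    ContinuousLinearMap.comp_apply] at hv
  rw [← neg_eq_zero, ← hv]
  abel

end Pool.Agent.TotallySkew.Ori
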