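import Pool.Agent.TotallySkew.Ori.CH
import Pool.Agent.TotallySkew.Ori.ER
import Pool.Agent.TotallySkew.Ori.GA

/-!
CO2: pairs of far strips. T = Mm (pp K) (ww K), P = K π, N = T P, X = xx (pp K).
Constants: c of chord, D of xx_half, C₀ of error_bound.

core0: by error_bound ‖(T s - T s') v‖ ≥ (‖X s - X s'‖ - 2 C₀) ‖qv v‖, so T s - T s' is injective if
‖X s - X s'‖ > 2 C₀. Otherwise by chord s' = s + m (2P) + r with c |r| ≤ 2 C₀, r ≠ 0, T s' = T (s + r)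
(Mm_per) and near_pairs with C₁ = 2 C₀ / c applies (to s, s + r or s + r, s).
core1: by iterate_Gact_est with j = 1 (hN from error_bound at s = P and xx_half, hT from error_bound)
‖(T s - Gact N (T s')) v‖ ≥ (‖X s - G2 (X s') - qi (K D)‖ - 3 C₀) ‖qv v‖. With X s = ⟨a, b, 0, 0⟩,
X s' = ⟨a', b', 0, 0⟩: G2 (X s') = ⟨0, b', 0, -a'⟩, the squared norm is a² + a'² + (K D - b + b')² ≥
‖X s - X P‖² + ‖X s'‖². If both ‖X s - X P‖ ≤ 3 C₀ and ‖X s'‖ ≤ 3 C₀ then by chord s = P + σ + m (2P),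
s' = σ' + n (2P) with c |σ|, c |σ'| ≤ 3 C₀ ≤ c K π / 3 (K large), and T s = T (P + σ) = N - T σ
(Mm_per, Mm_shift), Gact N (T s') v = G2 (T σ' (Rinv v)) + N v, so the difference applied to v is
-(T σ v + G2 (T σ' (Rinv v))) and cross_pairs applies.
core2: imI of X s - G2^[j] (X s') - qi (j K D) is b - b' - j K D ≤ -(j - 1) K D, and the error is at most
(C₀ + C₀ + j C₀) ‖qv v‖; (j - 1) K D > (j + 2) C₀ for j ≥ 2 as soon as K D > 4 C₀.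
far_pairs, far_proper: same estimate with ‖T₁ v‖ ≤ C ‖v‖ ≤ C ‖qv v‖.
-/

open scoped ContDiff Quaternion
open Function Set

namespace Pool.Agent.TotallySkew.Ori

theorem CO2_imI (j : ℕ) (h : ℍ[ℝ]) : (G2^[j] h).imI = h.imI := by
  induction j with
  | zero => rfl
  | succ n ih => rw [Function.iterate_succ_apply', G2_apply]; exact ih

theorem CO2_zero (j : ℕ) : G2^[j] (0 : ℍ[ℝ]) = 0 := by
  induction j with
  | zero => rfl
  | succ n ih => rw [Function.iterate_succ_apply', ih, map_zero]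

theorem CO2_abs (h : ℍ[ℝ]) : |h.imI| ≤ ‖h‖ := by
  refine abs_le_of_sq_le_sq ?_ (norm_nonneg _)
  rw [norm_sq_eq]
  nlinarith [sq_nonneg h.re, sq_nonneg h.imJ, sq_nonneg h.imK]

theorem CO2_norm_qi {x : ℝ} (hx : 0 ≤ x) : ‖qi x‖ = x := by
  have h1 : ‖qi x‖ ^ 2 = x ^ 2 := by
    rw [norm_sq_eq]; simp [qi]
  exact (sq_eq_sq₀ (norm_nonneg _) hx).1 h1

/-- the constants of the module. -/
theorem CO2_const : ∃ (C₀ D : ℝ) (K₀ : ℕ), 0 < C₀ ∧ 0 < D ∧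
    (∀ K : ℕ, Odd K → ∀ s (v : ℝ × ℂ),
      ‖Mm (pp K) (ww K) s v - xx (pp K) s * qv v‖ ≤ C₀ * ‖qv v‖) ∧
    (∀ K : ℕ, 0 < K → ∀ s, 0 ≤ (xx (pp K) s).imI ∧ (xx (pp K) s).imI ≤ K * D) ∧
    ∀ K : ℕ, K₀ ≤ K → Odd K → 4 * C₀ < K * D ∧
      ∀ v : ℝ × ℂ, ‖Mm (pp K) (ww K) (K * Real.pi) v - qi (K * D) * qv v‖ ≤ C₀ * ‖qv v‖ := by
  obtain ⟨C₀, hC₀, herr⟩ := error_bound
  obtain ⟨D, hD, hhalf⟩ := xx_half
  obtain ⟨K₀, hK₀⟩ := exists_nat_gt (4 * C₀ / D)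
  refine ⟨C₀, D, K₀, hC₀, hD, herr, fun K hK s => ⟨((hhalf K hK).2 s).1, ((hhalf K hK).2 s).2.1⟩,
    fun K hKK hK => ⟨?_, fun v => ?_⟩⟩
  · rw [div_lt_iff₀ hD] at hK₀
    have : (K₀ : ℝ) ≤ K := by exact_mod_cast hKK
    nlinarith
  · have h := herr K hK (K * Real.pi) v
    rw [(hhalf K hK.pos).1] at h
    exact h

theorem core2 : ∃ K₀ : ℕ, ∀ K : ℕ, K₀ ≤ K → Odd K → ∀ j : ℕ, 2 ≤ j → ∀ s s' : ℝ,
    Injective (Mm (pp K) (ww K) s -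
      (Gact (Mm (pp K) (ww K) (K * Real.pi)))^[j] (Mm (pp K) (ww K) s')) := by
  obtain ⟨C₀, D, K₀, hC₀, hD, herr, hhalf, hK₀⟩ := CO2_const
  refine ⟨K₀, fun K hKK hK j hj s s' => ?_⟩
  obtain ⟨hKD, hN⟩ := hK₀ K hKK hK
  refine (injective_iff_map_eq_zero (Mm (pp K) (ww K) s -
      (Gact (Mm (pp K) (ww K) (K * Real.pi)))^[j] (Mm (pp K) (ww K) s'))).2 fun v hv => ?_
  by_contra hv0
  have hq : 0 < ‖qv v‖ := norm_pos_iff.2 fun h => hv0 (qv_eq_zero h)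
  have hest := iterate_Gact_est (N := Mm (pp K) (ww K) (K * Real.pi)) (T := Mm (pp K) (ww K) s')
    (D := K * D) (C₀ := C₀) (C := C₀) (q := xx (pp K) s') hN (herr K hK s') j v
  set g := ((Gact (Mm (pp K) (ww K) (K * Real.pi)))^[j] (Mm (pp K) (ww K) s')) v with hg
  have hv' : Mm (pp K) (ww K) s v = g := by
    rw [sub_apply] at hv
    exact sub_eq_zero.1 hv
  have h1 := herr K hK s v
  rw [hv'] at h1
  have hX : ‖xx (pp K) s - G2^[j] (xx (pp K) s') - qi (j * (K * D))‖ ≤ C₀ + (C₀ + j * C₀) := by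
    have h3 : (xx (pp K) s - G2^[j] (xx (pp K) s') - qi (j * (K * D))) * qv v =
        (g - (G2^[j] (xx (pp K) s') + qi (j * (K * D))) * qv v) - (g - xx (pp K) s * qv v) := by
      rw [sub_mul, sub_mul, add_mul]; abel
    have h4 : ‖xx (pp K) s - G2^[j] (xx (pp K) s') - qi (j * (K * D))‖ * ‖qv v‖ ≤
        (C₀ + (C₀ + j * C₀)) * ‖qv v‖ := by
      rw [← norm_mul, h3]
      refine (norm_sub_le _ _).trans ?_
      linarith
    exact le_of_mul_le_mul_right h4 hq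
  have h5 := (CO2_abs _).trans hX
  have h6 : (xx (pp K) s - G2^[j] (xx (pp K) s') - qi (j * (K * D))).imI =
      (xx (pp K) s).imI - (xx (pp K) s').imI - j * (K * D) := by
    rw [Quaternion.imI_sub, Quaternion.imI_sub, CO2_imI]
    rfl
  rw [h6] at h5
  have h7 := (abs_le.1 h5).1
  have h8 := (hhalf K hK.pos s).2
  have h9 := (hhalf K hK.pos s').1
  have hj2 : (2 : ℝ) ≤ j := by exact_mod_cast hj
  have h10 : (j - 1 : ℝ) * (4 * C₀) < (j - 1 : ℝ) * (K * D) :=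
    mul_lt_mul_of_pos_left hKD (by linarith)
  nlinarith

/-- the basic estimate for far strips. -/
theorem CO2_far {C₀ D C : ℝ} {K : ℕ} (hKD : 0 ≤ K * D) (hC : 0 ≤ C)
    (hN : ∀ v : ℝ × ℂ, ‖Mm (pp K) (ww K) (K * Real.pi) v - qi (K * D) * qv v‖ ≤ C₀ * ‖qv v‖)
    {T₂ : ℝ × ℂ →L[ℝ] ℍ[ℝ]} (hT : ‖T₂‖ ≤ C) (j : ℕ) (v : ℝ × ℂ) :
    (j * (K * D) - C - j * C₀) * ‖qv v‖ ≤
      ‖((Gact (Mm (pp K) (ww K) (K * Real.pi)))^[j] T₂) v‖ := by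
  have hest := iterate_Gact_est (N := Mm (pp K) (ww K) (K * Real.pi)) (T := T₂)
    (D := K * D) (C₀ := C₀) (C := C) (q := 0) hN (fun v => by
      rw [zero_mul, sub_zero]
      calc ‖T₂ v‖ ≤ ‖T₂‖ * ‖v‖ := T₂.le_opNorm v
        _ ≤ C * ‖qv v‖ := mul_le_mul hT (norm_le_norm_qv v) (norm_nonneg _) hC) j v
  rw [CO2_zero, zero_add] at hest
  have h1 : ‖qi (j * (K * D)) * qv v‖ = j * (K * D) * ‖qv v‖ := by
    rw [norm_mul, CO2_norm_qi (by positivity)]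
  have h2 := norm_sub_norm_le (qi (j * (K * D)) * qv v)
    (((Gact (Mm (pp K) (ww K) (K * Real.pi)))^[j] T₂) v)
  rw [norm_sub_rev] at h2
  nlinarith

theorem far_pairs : ∃ K₀ : ℕ, ∀ K : ℕ, K₀ ≤ K → Odd K → ∀ C : ℝ, ∃ J : ℕ, ∀ j : ℕ, J ≤ j →
    ∀ T₁ T₂ : ℝ × ℂ →L[ℝ] ℍ[ℝ], ‖T₁‖ ≤ C → ‖T₂‖ ≤ C →
      Injective (T₁ - (Gact (Mm (pp K) (ww K) (K * Real.pi)))^[j] T₂) := by
  obtain ⟨C₀, D, K₀, hC₀, hD, herr, hhalf, hK₀⟩ := CO2_const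
  refine ⟨K₀, fun K hKK hK C => ?_⟩
  obtain ⟨hKD, hN⟩ := hK₀ K hKK hK
  obtain ⟨J, hJ⟩ := exists_nat_gt (2 * C / (3 * C₀))
  refine ⟨J, fun j hj T₁ T₂ h1 h2 => ?_⟩
  have hC : 0 ≤ C := T₁.opNorm_nonneg.trans h1
  refine (injective_iff_map_eq_zero
    (T₁ - (Gact (Mm (pp K) (ww K) (K * Real.pi)))^[j] T₂)).2 fun v hv => ?_
  by_contra hv0
  have hq : 0 < ‖qv v‖ := norm_pos_iff.2 fun h => hv0 (qv_eq_zero h)
  have hfar := CO2_far (C₀ := C₀) (D := D) (by linarith) hC hN h2 j v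
  have hv' : T₁ v = ((Gact (Mm (pp K) (ww K) (K * Real.pi)))^[j] T₂) v := by
    rw [sub_apply] at hv
    exact sub_eq_zero.1 hv
  rw [← hv'] at hfar
  have h3 : ‖T₁ v‖ ≤ C * ‖qv v‖ :=
    (T₁.le_opNorm v).trans (mul_le_mul h1 (norm_le_norm_qv v) (norm_nonneg _) hC)
  have h4 : j * (K * D) - C - j * C₀ ≤ C := le_of_mul_le_mul_right (hfar.trans h3) hq
  have hjJ : (J : ℝ) ≤ j := by exact_mod_cast hj
  have h5 : 2 * C < j * (3 * C₀) := by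
    rw [div_lt_iff₀ (by positivity)] at hJ
    nlinarith
  have h6 : (j : ℝ) * (4 * C₀) ≤ j * (K * D) :=
    mul_le_mul_of_nonneg_left hKD.le (Nat.cast_nonneg j)
  nlinarith

theorem far_proper : ∃ K₀ : ℕ, ∀ K : ℕ, K₀ ≤ K → Odd K → ∀ C R : ℝ, ∃ J : ℕ, ∀ j : ℕ, J ≤ j →
    ∀ T₂ : ℝ × ℂ →L[ℝ] ℍ[ℝ], ‖T₂‖ ≤ C → ∀ z : ℂ,
      R < ‖((Gact (Mm (pp K) (ww K) (K * Real.pi)))^[j] T₂) (1, z)‖ := by
  obtain ⟨C₀, D, K₀, hC₀, hD, herr, hhalf, hK₀⟩ := CO2_const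
  refine ⟨K₀, fun K hKK hK C R => ?_⟩
  obtain ⟨hKD, hN⟩ := hK₀ K hKK hK
  obtain ⟨J, hJ⟩ := exists_nat_gt ((C + |R|) / (3 * C₀))
  refine ⟨J, fun j hj T₂ h2 z => ?_⟩
  have hC : 0 ≤ C := T₂.opNorm_nonneg.trans h2
  have hfar := CO2_far (C₀ := C₀) (D := D) (by linarith) hC hN h2 j (1, z)
  have hq : 1 ≤ ‖qv (1, z)‖ := by
    have h1 := norm_qv_sq (1, z)
    simp only at h1
    nlinarith [sq_nonneg ‖z‖, norm_nonneg (qv (1, z))]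
  have hjJ : (J : ℝ) ≤ j := by exact_mod_cast hj
  have h5 : C + |R| < j * (3 * C₀) := by
    rw [div_lt_iff₀ (by positivity)] at hJ
    nlinarith
  have h6 : (j : ℝ) * (4 * C₀) ≤ j * (K * D) :=
    mul_le_mul_of_nonneg_left hKD.le (Nat.cast_nonneg j)
  have h7 : |R| < j * (K * D) - C - j * C₀ := by nlinarith
  have h8 := le_abs_self R
  have h9 : 0 ≤ |R| := abs_nonneg R
  calc R ≤ |R| := h8
    _ < j * (K * D) - C - j * C₀ := h7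
    _ ≤ (j * (K * D) - C - j * C₀) * ‖qv (1, z)‖ := by
      have h10 : 0 ≤ j * (K * D) - C - j * C₀ := by linarith
      nlinarith
    _ ≤ _ := hfar

end Pool.Agent.TotallySkew.Ori
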