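import Pool.Agent.TotallySkew.Ori.RM
import Pool.Agent.TotallySkew.Open.ND

/-!
CP: from the cores to thin strips, for one pair (0, j).

cp_local: centre z₀ = ((s, 0), (s', 0)).
(a) If T s - (Gact N)^[j] (T s') is injective: carries, carries_iterate_Gmap (GA) and
injective_pairMap_of_carries give SkewJ at the centre, and eventually_injective_pairMap (LA) near it.
(b) j = 0, s' = s + m (2P): nearDiag_id for Φ at (s, 0) (from cub) gives U; for q near (s, 0),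
q' near (s', 0) put q'' = q' - (m (2P), 0) ∈ U: Φ and fderiv Φ agree at q', q'' (per, iterated), so
either q = q'' (RelJ) or SkewJ.
(c) j = 1, s = P + m (2P), s' = n (2P): let q' = (n (2P) + s₁, y₁). Near that point
Gmap N ∘ Φ = Φ ∘ κ with κ q' = (P - y₁, s₁) (cross with x = -y₁, y = s₁, and per), so
fderiv (Gmap N ∘ Φ) q' = (fderiv Φ (κ q')).comp κ' with κ' (a, b) = (-b, a) invertible; and with
q₀ = q - (m (2P), 0), Φ q = Φ q₀. nearDiag_id at (P, 0): q₀ = κ q' (RelJ) or the pair (q₀, κ q') is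
skew, hence SkewJ.
(d) j ≥ 2 or the other cases: core0, core1, core2 give (a).
cp_uniform: (s, s') ranges over the compact set [0, 2P]², IsCompact.induction or the tube lemma
gives ε for s, s' in [0, 2P]; all other q, q' by periodicity.
-/

open scoped ContDiff Quaternion Topology
open Function Set

namespace Pool.Agent.TotallySkew.Ori

/-- The pair `q` in the strip `0`, `q'` in the strip `j` is skew. -/
def SkewJ (N : ℝ × ℂ →L[ℝ] ℍ[ℝ]) (Φ : ℝ × ℝ → ℂ × ℍ[ℝ]) (j : ℕ) (q q' : ℝ × ℝ) : Prop :=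
  Injective (pairMap (fderiv ℝ Φ q) (fderiv ℝ ((Gmap N)^[j] ∘ Φ) q')
    (Φ q - ((Gmap N)^[j] ∘ Φ) q'))

/-- `q` in the strip `0` and `q'` in the strip `j` are the same point. -/
def RelJ (P : ℝ) (j : ℕ) (q q' : ℝ × ℝ) : Prop :=
  (j = 0 ∧ ∃ m : ℤ, q' = (q.1 + m * (2 * P), q.2)) ∨
  (j = 1 ∧ ∃ m n : ℤ, q.1 = P + m * (2 * P) - q'.2 ∧ q'.1 = n * (2 * P) + q.2)

variable {P : ℝ} {Φ : ℝ × ℝ → ℂ × ℍ[ℝ]} {T : ℝ → ℝ × ℂ →L[ℝ] ℍ[ℝ]} {N : ℝ × ℂ →L[ℝ] ℍ[ℝ]}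

theorem cp_per_int (h : IsRModel P Φ T N) (m : ℤ) (q : ℝ × ℝ) :
    Φ (q + (m * (2 * P), 0)) = Φ q := by
  have h1 : ∀ (n : ℕ) (q : ℝ × ℝ), Φ (q + ((n : ℝ) * (2 * P), 0)) = Φ q := by
    intro n
    induction n with
    | zero =>
      intro q
      congr 1
      ext <;> simp
    | succ n ih =>
      intro q
      have h2 := ih (q + (2 * P, 0))
      have h3 : q + (2 * P, 0) + ((n : ℝ) * (2 * P), 0) = q + (((n + 1 : ℕ) : ℝ) * (2 * P), 0) := by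
        ext
        · simp; ring
        · simp
      rw [h3] at h2
      rw [h2]
      have h4 := h.per q.1 q.2
      rw [← h4]
      congr 1
      ext <;> simp
  rcases Int.eq_nat_or_neg m with ⟨n, rfl | rfl⟩
  · exact_mod_cast h1 n q
  · have h2 := h1 n (q + (((-(n : ℤ) : ℤ) : ℝ) * (2 * P), 0))
    rw [← h2]
    congr 1
    ext <;> simp

theorem cp_fderiv_per {g : ℝ × ℝ → ℂ × ℍ[ℝ]}
    (hg : ∀ (m : ℤ) (q : ℝ × ℝ), g (q + (m * (2 * P), 0)) = g q) (m : ℤ) (q : ℝ × ℝ) :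
    fderiv ℝ g (q + (m * (2 * P), 0)) = fderiv ℝ g q := by
  rw [← fderiv_comp_add_right]
  congr 1
  funext x
  exact hg m x

theorem cp_contDiff (h : IsRModel P Φ T N) (j : ℕ) : ContDiff ℝ ∞ ((Gmap N)^[j] ∘ Φ) := by
  induction j with
  | zero => exact h.smooth
  | succ j ih =>
    rw [Function.iterate_succ', Function.comp_assoc]
    exact (contDiff_Gmap N).comp ih

theorem cp_skew_per (h : IsRModel P Φ T N) (j : ℕ) (m n : ℤ) (q q' : ℝ × ℝ) :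
    SkewJ N Φ j (q + (m * (2 * P), 0)) (q' + (n * (2 * P), 0)) ↔ SkewJ N Φ j q q' := by
  have hg : ∀ (m : ℤ) (q : ℝ × ℝ), ((Gmap N)^[j] ∘ Φ) (q + (m * (2 * P), 0)) =
      ((Gmap N)^[j] ∘ Φ) q := by
    intro m q
    simp only [Function.comp_apply, cp_per_int h]
  unfold SkewJ
  rw [cp_fderiv_per (cp_per_int h) m q, cp_fderiv_per hg n q', cp_per_int h m q, hg n q']

theorem cp_rel_per (j : ℕ) (m n : ℤ) (q q' : ℝ × ℝ)
    (h : RelJ P j q q') : RelJ P j (q + (m * (2 * P), 0)) (q' + (n * (2 * P), 0)) := by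
  rcases h with ⟨h0, k, hk⟩ | ⟨h0, k, l, hk, hl⟩
  · left
    refine ⟨h0, k + n - m, ?_⟩
    rw [hk]
    ext
    · simp
      ring
    · simp
  · right
    refine ⟨h0, k + m, l + n, ?_, ?_⟩
    · simp
      rw [hk]
      ring
    · simp
      rw [hl]
      ring

/-- (a) -/
theorem cp_a (h : IsRModel P Φ T N) (j : ℕ) (s s' : ℝ)
    (hi : Injective (T s - (Gact N)^[j] (T s'))) :
    ∀ᶠ z : (ℝ × ℝ) × (ℝ × ℝ) in 𝓝 ((s, 0), (s', 0)), SkewJ N Φ j z.1 z.2 := by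
  have hd : DifferentiableAt ℝ Φ (s', 0) := h.smooth.differentiable (by simp) _
  have h1 := injective_pairMap_of_carries (h.carries s)
    (carries_iterate_Gmap hd (h.carries s') N j) hi
  have c1 : Continuous (fderiv ℝ Φ) := h.smooth.continuous_fderiv (by simp)
  have c2 : Continuous (fderiv ℝ ((Gmap N)^[j] ∘ Φ)) :=
    (cp_contDiff h j).continuous_fderiv (by simp)
  have c3 : Continuous Φ := h.smooth.continuous
  have c4 : Continuous ((Gmap N)^[j] ∘ Φ) := (cp_contDiff h j).continuous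
  exact eventually_injective_pairMap
    (A := fun z : (ℝ × ℝ) × (ℝ × ℝ) => fderiv ℝ Φ z.1)
    (B := fun z : (ℝ × ℝ) × (ℝ × ℝ) => fderiv ℝ ((Gmap N)^[j] ∘ Φ) z.2)
    (w := fun z : (ℝ × ℝ) × (ℝ × ℝ) => Φ z.1 - ((Gmap N)^[j] ∘ Φ) z.2)
    (c1.comp continuous_fst).continuousAt (c2.comp continuous_snd).continuousAt
    ((c3.comp continuous_fst).sub (c4.comp continuous_snd)).continuousAt h1

/-- (b) -/
theorem cp_b (h : IsRModel P Φ T N) (s : ℝ) (m : ℤ) :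
    ∀ᶠ z : (ℝ × ℝ) × (ℝ × ℝ) in 𝓝 ((s, 0), (s + m * (2 * P), 0)),
      SkewJ N Φ 0 z.1 z.2 ∨ RelJ P 0 z.1 z.2 := by
  obtain ⟨U, hU, hU'⟩ := nearDiag_id h.smooth (s, 0) (h.cub s)
  have e1 : ∀ᶠ z : (ℝ × ℝ) × (ℝ × ℝ) in 𝓝 ((s, 0), (s + m * (2 * P), 0)), z.1 ∈ U :=
    continuousAt_fst.eventually hU
  have e2 : ∀ᶠ z : (ℝ × ℝ) × (ℝ × ℝ) in 𝓝 ((s, 0), (s + m * (2 * P), 0)),
      z.2 + (((-m : ℤ) : ℝ) * (2 * P), 0) ∈ U := by
    have hcont : ContinuousAt (fun z : (ℝ × ℝ) × (ℝ × ℝ) => z.2 + (((-m : ℤ) : ℝ) * (2 * P), (0 : ℝ)))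
        ((s, 0), (s + m * (2 * P), 0)) := by fun_prop
    apply hcont.eventually
    have : ((s + m * (2 * P), 0) : ℝ × ℝ) + (((-m : ℤ) : ℝ) * (2 * P), 0) = (s, 0) := by
      ext
      · push_cast
        simp
      · simp
    simp only [this]
    exact hU
  filter_upwards [e1, e2] with z h1 h2
  by_cases hne : z.1 = z.2 + (((-m : ℤ) : ℝ) * (2 * P), 0)
  · right
    left
    refine ⟨rfl, m, ?_⟩
    rw [hne]
    ext
    · push_cast
      simp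
    · simp
  · left
    have h3 := hU' _ h1 _ h2 hne
    have h4 : SkewJ N Φ 0 z.1 (z.2 + (((-m : ℤ) : ℝ) * (2 * P), 0)) := h3
    have h5 := cp_skew_per h 0 0 (-m) z.1 z.2
    rw [← h5]
    have h6 : z.1 + (((0 : ℤ) : ℝ) * (2 * P), (0 : ℝ)) = z.1 := by
      ext <;> simp
    rw [h6]
    exact h4

/-- The rotation `(a, b) ↦ (-b, a)`. -/
noncomputable def cpL : ℝ × ℝ →L[ℝ] ℝ × ℝ :=
  (-(ContinuousLinearMap.snd ℝ ℝ ℝ)).prod (ContinuousLinearMap.fst ℝ ℝ ℝ)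

theorem cpL_apply (v : ℝ × ℝ) : cpL v = (-v.2, v.1) := rfl

theorem cp_comp_inj {A B : ℝ × ℝ →L[ℝ] ℂ × ℍ[ℝ]} {w : ℂ × ℍ[ℝ]}
    (h : Injective (pairMap A B w)) : Injective (pairMap A (B.comp cpL) w) := by
  rw [injective_pairMap_iff] at h ⊢
  intro a b c habc
  obtain ⟨h1, h2, h3⟩ := h a (cpL b) c habc
  refine ⟨h1, ?_, h3⟩
  rw [cpL_apply, Prod.mk_eq_zero] at h2
  ext
  · exact h2.2
  · have := h2.1
    simpa using this

/-- (c) -/
theorem cp_c (h : IsRModel P Φ T N) (m n : ℤ) :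
    ∀ᶠ z : (ℝ × ℝ) × (ℝ × ℝ) in 𝓝 ((P + m * (2 * P), 0), (n * (2 * P), 0)),
      SkewJ N Φ 1 z.1 z.2 ∨ RelJ P 1 z.1 z.2 := by
  obtain ⟨U, hU, hU'⟩ := nearDiag_id h.smooth (P, 0) (h.cub P)
  obtain ⟨a, ha, hcross⟩ := h.cross
  -- the crossing
  let κ : ℝ × ℝ → ℝ × ℝ := fun q => cpL q + (P, -(n * (2 * P)))
  have hκ : ∀ q, κ q = (P - q.2, q.1 - n * (2 * P)) := by
    intro q
    ext
    · show -q.2 + P = P - q.2
      ring
    · show q.1 + -(n * (2 * P)) = q.1 - n * (2 * P)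
      ring
  let W : Set (ℝ × ℝ) := {q | |q.1 - n * (2 * P)| < a ∧ |q.2| < a}
  have hWo : IsOpen W := by
    exact (isOpen_lt (f := fun q : ℝ × ℝ => |q.1 - n * (2 * P)|) (by fun_prop)
      continuous_const).inter (isOpen_lt (f := fun q : ℝ × ℝ => |q.2|) (by fun_prop)
      continuous_const)
  have hWeq : ∀ q ∈ W, Gmap N (Φ q) = Φ (κ q) := by
    intro q hq
    have h1 := hcross (-q.2) (q.1 - n * (2 * P)) (by rw [abs_neg]; exact hq.2) hq.1
    have h2 := cp_per_int h (-n) q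
    rw [hκ, ← h2]
    have h3 : q + (((-n : ℤ) : ℝ) * (2 * P), 0) = (q.1 - n * (2 * P), - -q.2) := by
      ext
      · push_cast
        simp
        ring
      · simp
    rw [h3, ← h1, ← sub_eq_add_neg]
  have hWd : ∀ q ∈ W, fderiv ℝ (Gmap N ∘ Φ) q = (fderiv ℝ Φ (κ q)).comp cpL := by
    intro q hq
    have h1 : (Gmap N ∘ Φ) =ᶠ[𝓝 q] (Φ ∘ κ) := by
      filter_upwards [hWo.mem_nhds hq] with x hx
      exact hWeq x hx
    rw [h1.fderiv_eq]
    have h2 : HasFDerivAt κ cpL q := cpL.hasFDerivAt.add_const _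
    have h3 : HasFDerivAt Φ (fderiv ℝ Φ (κ q)) (κ q) :=
      (h.smooth.differentiable (by simp) _).hasFDerivAt
    exact (h3.comp q h2).fderiv
  have e1 : ∀ᶠ z : (ℝ × ℝ) × (ℝ × ℝ) in 𝓝 ((P + m * (2 * P), 0), (n * (2 * P), 0)),
      z.1 + (((-m : ℤ) : ℝ) * (2 * P), 0) ∈ U := by
    have hcont : ContinuousAt (fun z : (ℝ × ℝ) × (ℝ × ℝ) => z.1 + (((-m : ℤ) : ℝ) * (2 * P), (0 : ℝ)))
        ((P + m * (2 * P), 0), (n * (2 * P), 0)) := by fun_prop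
    apply hcont.eventually
    have : ((P + m * (2 * P), 0) : ℝ × ℝ) + (((-m : ℤ) : ℝ) * (2 * P), 0) = (P, 0) := by
      ext
      · push_cast
        simp
      · simp
    simp only [this]
    exact hU
  have e2 : ∀ᶠ z : (ℝ × ℝ) × (ℝ × ℝ) in 𝓝 ((P + m * (2 * P), 0), (n * (2 * P), 0)),
      κ z.2 ∈ U := by
    have hcont : ContinuousAt (fun z : (ℝ × ℝ) × (ℝ × ℝ) => κ z.2)
        ((P + m * (2 * P), 0), (n * (2 * P), 0)) := by
      have : Continuous κ := cpL.continuous.add continuous_const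
      exact (this.comp continuous_snd).continuousAt
    apply hcont.eventually
    have : κ ((n : ℝ) * (2 * P), 0) = (P, 0) := by
      rw [hκ]
      ext <;> simp
    simp only [this]
    exact hU
  have e3 : ∀ᶠ z : (ℝ × ℝ) × (ℝ × ℝ) in 𝓝 ((P + m * (2 * P), 0), (n * (2 * P), 0)),
      z.2 ∈ W := by
    apply continuousAt_snd.eventually
    apply hWo.mem_nhds
    constructor
    · simpa using ha
    · simpa using ha
  filter_upwards [e1, e2, e3] with z h1 h2 h3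
  by_cases hne : z.1 + (((-m : ℤ) : ℝ) * (2 * P), 0) = κ z.2
  · right
    right
    rw [hκ] at hne
    have h4 := congrArg Prod.fst hne
    have h5 := congrArg Prod.snd hne
    simp only [Prod.fst_add, Prod.snd_add, add_zero] at h4 h5
    push_cast at h4
    refine ⟨rfl, m, n, by linarith, by linarith⟩
  · left
    have h4 := cp_comp_inj (hU' _ h1 _ h2 hne)
    rw [← hWd z.2 h3, ← hWeq z.2 h3] at h4
    have h5 : SkewJ N Φ 1 (z.1 + (((-m : ℤ) : ℝ) * (2 * P), 0)) z.2 := h4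
    have h6 := cp_skew_per h 1 (-m) 0 z.1 z.2
    rw [← h6]
    have h7 : z.2 + (((0 : ℤ) : ℝ) * (2 * P), (0 : ℝ)) = z.2 := by
      ext <;> simp
    rw [h7]
    exact h5

theorem cp_local (h : IsRModel P Φ T N) (j : ℕ) (s s' : ℝ) :
    ∀ᶠ z : (ℝ × ℝ) × (ℝ × ℝ) in 𝓝 ((s, 0), (s', 0)), SkewJ N Φ j z.1 z.2 ∨ RelJ P j z.1 z.2 := by
  have key : Injective (T s - (Gact N)^[j] (T s')) →
      ∀ᶠ z : (ℝ × ℝ) × (ℝ × ℝ) in 𝓝 ((s, 0), (s', 0)),
        SkewJ N Φ j z.1 z.2 ∨ RelJ P j z.1 z.2 :=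
    fun hi => (cp_a h j s s' hi).mono fun z hz => Or.inl hz
  match j with
  | 0 =>
    by_cases hm : ∃ m : ℤ, s' = s + m * (2 * P)
    · obtain ⟨m, rfl⟩ := hm
      exact cp_b h s m
    · apply key
      exact h.core0 s s' fun m hm' => hm ⟨m, hm'⟩
  | 1 =>
    by_cases hm : ∃ m n : ℤ, s = P + m * (2 * P) ∧ s' = n * (2 * P)
    · obtain ⟨m, n, rfl, rfl⟩ := hm
      exact cp_c h m n
    · exact key (h.core1 s s' hm)
  | j + 2 => exact key (h.core2 (j + 2) (by omega) s s')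

theorem cp_uniform (h : IsRModel P Φ T N) (j : ℕ) : ∃ ε : ℝ, 0 < ε ∧ ∀ q q' : ℝ × ℝ,
    |q.2| < ε → |q'.2| < ε → SkewJ N Φ j q q' ∨ RelJ P j q q' := by
  have hP := h.P_pos
  have hK : IsCompact (Icc (0 : ℝ) (2 * P) ×ˢ Icc (0 : ℝ) (2 * P)) :=
    isCompact_Icc.prod isCompact_Icc
  have h1 : ∀ᶠ y : ℝ × ℝ in 𝓝 ((0 : ℝ), (0 : ℝ)),
      ∀ s ∈ Icc (0 : ℝ) (2 * P) ×ˢ Icc (0 : ℝ) (2 * P),
      SkewJ N Φ j (s.1, y.1) (s.2, y.2) ∨ RelJ P j (s.1, y.1) (s.2, y.2) := by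
    apply hK.eventually_forall_of_forall_eventually
    intro s _
    have h2 := cp_local h j s.1 s.2
    have h3 : ContinuousAt (fun z : (ℝ × ℝ) × (ℝ × ℝ) => (((z.2.1, z.1.1), (z.2.2, z.1.2)) :
        (ℝ × ℝ) × (ℝ × ℝ))) ((0, 0), s) := by fun_prop
    exact h3.eventually h2
  rw [Metric.eventually_nhds_iff] at h1
  obtain ⟨ε, hε, h1⟩ := h1
  refine ⟨ε, hε, fun q q' hq hq' => ?_⟩
  set m : ℤ := ⌊q.1 / (2 * P)⌋ with hm
  set n : ℤ := ⌊q'.1 / (2 * P)⌋ with hn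
  have h2P : 0 < 2 * P := by linarith
  have hmem : ∀ x : ℝ, x - (⌊x / (2 * P)⌋ : ℝ) * (2 * P) ∈ Icc (0 : ℝ) (2 * P) := by
    intro x
    have h3 := Int.floor_le (x / (2 * P))
    have h4 := Int.lt_floor_add_one (x / (2 * P))
    rw [le_div_iff₀ h2P] at h3
    rw [div_lt_iff₀ h2P] at h4
    constructor
    · linarith
    · linarith
  have h3 := h1 (y := (q.2, q'.2)) (by
    change dist (q.2, q'.2) (0 : ℝ × ℝ) < ε
    rw [dist_zero_right, Prod.norm_def, max_lt_iff, Real.norm_eq_abs, Real.norm_eq_abs]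
    exact ⟨hq, hq'⟩) (q.1 - m * (2 * P), q'.1 - n * (2 * P)) ⟨hmem q.1, hmem q'.1⟩
  have e1 : q = ((q.1 - m * (2 * P), q.2) : ℝ × ℝ) + (m * (2 * P), 0) := by
    ext <;> simp
  have e2 : q' = ((q'.1 - n * (2 * P), q'.2) : ℝ × ℝ) + (n * (2 * P), 0) := by
    ext <;> simp
  rw [e1, e2]
  rcases h3 with h3 | h3
  · left
    rw [cp_skew_per h]
    exact h3
  · right
    exact cp_rel_per j m n _ _ h3

end Pool.Agent.TotallySkew.Ori
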