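import Pool.Agent.TotallySkew.Open.Defs

/-!
Orientable open surfaces: chains of annuli, and the model in `ℂ × ℍ`.
-/

open scoped Manifold ContDiff Topology Quaternion
open Function Set

namespace Pool.Agent.TotallySkew

section chain

/-- The identifications in a chain of annuli `A j : ℝ × ℝ → M` (`A j` has period `1` in the first
variable, and the core `ℝ × {0}` of `A j` crosses the core of `A (j + 1)` at the point of
parameter `1 / 2` of the former and `0` of the latter): `p` in the `j`-th strip and `q` in the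
`k`-th strip give the same point. -/
def PlumbRel (j : ℕ) (p : ℝ × ℝ) (k : ℕ) (q : ℝ × ℝ) : Prop :=
  (k = j ∧ ∃ m : ℤ, q = (p.1 + m, p.2)) ∨
  (k = j + 1 ∧ ∃ m n : ℤ, p.1 = 1 / 2 + m - q.2 ∧ q.1 = n + p.2) ∨
  (j = k + 1 ∧ ∃ m n : ℤ, q.1 = 1 / 2 + m - p.2 ∧ p.1 = n + q.2)

variable {E H : Type*} [NormedAddCommGroup E] [NormedSpace ℝ E] [TopologicalSpace H]

/-- The surface `M` is a chain of annuli, numbered by `S ⊆ ℕ`, consecutive ones plumbed once: there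
are local diffeomorphisms `A j : ℝ × ℝ → M`, `j ∈ S`, whose restrictions to the strips
`|y| < δ` have exactly the identifications `PlumbRel` (so these strips are embedded annuli, the
`j`-th and the `(j + 1)`-st meet in one square, in which the two cores cross, and they are disjoint
otherwise), and `M` embeds smoothly in every neighbourhood of the union of the cores. -/
def IsAnnularChain (I : ModelWithCorners ℝ E H) (M : Type*) [TopologicalSpace M]
    [ChartedSpace H M] (S : Set ℕ) : Prop :=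
  ∃ (A : ℕ → ℝ × ℝ → M) (δ : ℝ), 0 < δ ∧
    (∀ j ∈ S, IsLocalDiffeomorph 𝓘(ℝ, ℝ × ℝ) I ∞ (A j)) ∧
    (∀ j ∈ S, ∀ k ∈ S, ∀ p q : ℝ × ℝ, |p.2| < δ → |q.2| < δ →
      (A j p = A k q ↔ PlumbRel j p k q)) ∧
    ShrinksTo I (⋃ j ∈ S, Set.range fun t : ℝ => A j (t, 0))

/-- `M` embeds smoothly in `M'`. -/
def EmbedsIn (I : ModelWithCorners ℝ E H) (M M' : Type*) [TopologicalSpace M] [ChartedSpace H M]
    [TopologicalSpace M'] [ChartedSpace H M'] : Prop :=
  ∃ f : M → M', ContMDiff I I ∞ f ∧ Topology.IsEmbedding f ∧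
    ∀ x, Function.Injective (mfderiv I I f x)

end chain

namespace Ori

/-- The inner product of the plane. -/
def ip (z w : ℂ) : ℝ := z.re * w.re + z.im * w.im

/-- `(t, w) ↦ w + t k`, where the complex number `w` is the quaternion `w.re i + w.im j`. -/
def qv (v : ℝ × ℂ) : ℍ[ℝ] := ⟨0, v.2.re, v.2.im, v.1⟩

/-- The linear map `(t, w) ↦ x - ⟨c, x⟩ k`, `x = w - t c`; its kernel is spanned by `(1, c)`. -/
noncomputable def Pm (c : ℂ) : ℝ × ℂ →L[ℝ] ℍ[ℝ] :=
  LinearMap.toContinuousLinearMap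
    { toFun := fun v => ⟨0, (v.2 - v.1 • c).re, (v.2 - v.1 • c).im, -ip c (v.2 - v.1 • c)⟩
      map_add' := by
        intro v v'
        ext <;> simp [ip] <;> ring
      map_smul' := by
        intro r v
        ext <;> simp [ip] <;> ring }

theorem Pm_apply (c : ℂ) (v : ℝ × ℂ) :
    Pm c v = ⟨0, (v.2 - v.1 • c).re, (v.2 - v.1 • c).im, -ip c (v.2 - v.1 • c)⟩ := rfl

/-- The velocity of the moving plane. -/
noncomputable def dM (p : ℝ → ℍ[ℝ]) (w : ℝ → ℂ) (s : ℝ) : ℝ × ℂ →L[ℝ] ℍ[ℝ] :=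
  (ContinuousLinearMap.mul ℝ ℍ[ℝ] (p s)).comp (Pm (w s))

/-- The moving plane: at time `s` it is the graph of `z ↦ Mm p w s (1, z)`. -/
noncomputable def Mm (p : ℝ → ℍ[ℝ]) (w : ℝ → ℂ) (s : ℝ) : ℝ × ℂ →L[ℝ] ℍ[ℝ] :=
  ∫ σ in (0 : ℝ)..s, dM p w σ

/-- The slow curve. -/
noncomputable def xx (p : ℝ → ℍ[ℝ]) (s : ℝ) : ℍ[ℝ] := ∫ σ in (0 : ℝ)..s, p σ

/-- The linear isometry of `ℍ` with `1 ↦ -k`, `k ↦ 1`, `i ↦ i`, `j ↦ j`. -/
noncomputable def G2 : ℍ[ℝ] →L[ℝ] ℍ[ℝ] :=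
  LinearMap.toContinuousLinearMap
    { toFun := fun h => ⟨h.imK, h.imI, h.imJ, -h.re⟩
      map_add' := by
        intro v v'
        ext <;> simp <;> ring
      map_smul' := by
        intro r v
        ext <;> simp }

theorem G2_apply (h : ℍ[ℝ]) : G2 h = ⟨h.imK, h.imI, h.imJ, -h.re⟩ := rfl

/-- The map `(t, w) ↦ (t, -i w)`. -/
noncomputable def Rinv : ℝ × ℂ →L[ℝ] ℝ × ℂ :=
  (ContinuousLinearMap.fst ℝ ℝ ℂ).prod
    ((ContinuousLinearMap.mul ℝ ℂ (-Complex.I)).comp (ContinuousLinearMap.snd ℝ ℝ ℂ))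

@[simp] theorem Rinv_apply (v : ℝ × ℂ) : Rinv v = (v.1, -Complex.I * v.2) := rfl

/-- The action on planes of the affine map `Gmap N`. -/
noncomputable def Gact (N T : ℝ × ℂ →L[ℝ] ℍ[ℝ]) : ℝ × ℂ →L[ℝ] ℍ[ℝ] :=
  G2.comp (T.comp Rinv) + N

/-- The affine map which carries each annulus of the chain to the next one. -/
noncomputable def Gmap (N : ℝ × ℂ →L[ℝ] ℍ[ℝ]) (z : ℂ × ℍ[ℝ]) : ℂ × ℍ[ℝ] :=
  (Complex.I * z.1, G2 z.2 + N (1, Complex.I * z.1))

/-- The strip around the core `s ↦ (w s, Mm p w s (1, w s))`. -/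
noncomputable def strip (p : ℝ → ℍ[ℝ]) (w : ℝ → ℂ) (q : ℝ × ℝ) : ℂ × ℍ[ℝ] :=
  (w q.1 + q.2 • (Complex.I * deriv w q.1),
    Mm p w q.1 (1, w q.1 + q.2 • (Complex.I * deriv w q.1)) +
      p q.1 * (qv (0, (-(1 / 2) * q.2 ^ 2) • deriv w q.1) + ((1 / 6) * q.2 ^ 3 : ℝ)))

/-- The tangent plane of `Φ` at `q` is the graph of `z ↦ T (1, z)`. -/
def Carries (Φ : ℝ × ℝ → ℂ × ℍ[ℝ]) (q : ℝ × ℝ) (T : ℝ × ℂ →L[ℝ] ℍ[ℝ]) : Prop :=
  (Φ q).2 = T (1, (Φ q).1) ∧ (∀ v, (fderiv ℝ Φ q v).2 = T (0, (fderiv ℝ Φ q v).1)) ∧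
    Injective fun v => (fderiv ℝ Φ q v).1

/-- An odd smooth function with `gg s = s` for `|s| ≤ 1 / 2` and `gg s = ± 1` for `|s| ≥ 1`. -/
noncomputable def gg (s : ℝ) : ℝ :=
  s + (1 - s) * Real.smoothTransition (2 * s - 1) -
    (1 + s) * Real.smoothTransition (-(2 * s) - 1)

/-- An even smooth function which is `0` for `|s| ≤ 1 / 10` and `1` for `|s| ≥ 1 / 5`. -/
noncomputable def chi (s : ℝ) : ℝ :=
  Real.smoothTransition (10 * s - 1) + Real.smoothTransition (-(10 * s) - 1)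

/-- The fast curve near a passage through `0`. -/
noncomputable def winf (s : ℝ) : ℂ :=
  gg s * Complex.exp ((21 * (s * chi s) : ℝ) * Complex.I)

/-- The fast curve, of period `K π`. -/
noncomputable def ww (K : ℕ) (s : ℝ) : ℂ :=
  winf (s - round (s / (K * Real.pi)) * (K * Real.pi))

/-- The direction of the slow curve (a complex unit in the plane of `1` and `i`). -/
noncomputable def pp (K : ℕ) (s : ℝ) : ℍ[ℝ] :=
  ⟨-Real.cos (Real.pi * Real.smoothTransition (Real.cos (s / K) + 1 / 2)),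
    gg (2 * Real.sin (s / K)) *
      Real.sin (Real.pi * Real.smoothTransition (Real.cos (s / K) + 1 / 2)), 0, 0⟩

end Ori

end Pool.Agent.TotallySkew
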