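import Pool.Agent.TotallySkew.Ori.CP

/-!
FP: planes carried near the core, and the pairs of far strips.

fp_plane: at a point q where the first component W of Φ has invertible derivative D, the plane
T (t, x) = t (h - D_h D⁻¹ W) + D_h D⁻¹ x is carried (D_h = derivative of the second component). The
derivative D is invertible on the core (carries), hence near it, and T depends continuously on q
there, so ‖T‖ is locally bounded; compactness of [0, 2P] and periodicity.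
(One way: near (s, 0) take the continuous linear equivalence D q, inverse continuous in q:
ContinuousLinearEquiv / Ring.inverse, or explicit 2 × 2 matrices.)
fp_far: far and injective_pairMap_of_carries, carries_iterate_Gmap.
fp_proper: proper; ((Gmap N)^[j] ∘ Φ) q has second component ((Gact N)^[j] T) (1, first component) by
carries_iterate_Gmap.
-/

open scoped ContDiff Quaternion Topology
open Function Set

namespace Pool.Agent.TotallySkew.Ori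

variable {P : ℝ} {Φ : ℝ × ℝ → ℂ × ℍ[ℝ]} {T : ℝ → ℝ × ℂ →L[ℝ] ℍ[ℝ]} {N : ℝ × ℂ →L[ℝ] ℍ[ℝ]}

/-- The derivative of the first component. -/
noncomputable def fpD (Φ : ℝ × ℝ → ℂ × ℍ[ℝ]) (q : ℝ × ℝ) : ℝ × ℝ →L[ℝ] ℂ :=
  (ContinuousLinearMap.fst ℝ ℂ ℍ[ℝ]).comp (fderiv ℝ Φ q)

/-- The slope. -/
noncomputable def fpG (Φ : ℝ × ℝ → ℂ × ℍ[ℝ]) (q : ℝ × ℝ) : ℂ →L[ℝ] ℍ[ℝ] :=
  ((ContinuousLinearMap.snd ℝ ℂ ℍ[ℝ]).comp (fderiv ℝ Φ q)).comp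
    (ContinuousLinearMap.inverse (fpD Φ q))

/-- The plane. -/
noncomputable def fpT (Φ : ℝ × ℝ → ℂ × ℍ[ℝ]) (q : ℝ × ℝ) : ℝ × ℂ →L[ℝ] ℍ[ℝ] :=
  (fpG Φ q).comp (ContinuousLinearMap.snd ℝ ℝ ℂ) +
    (ContinuousLinearMap.fst ℝ ℝ ℂ).smulRight ((Φ q).2 - fpG Φ q (Φ q).1)

theorem fpT_carries (Φ : ℝ × ℝ → ℂ × ℍ[ℝ]) (q : ℝ × ℝ) (e : (ℝ × ℝ) ≃L[ℝ] ℂ)
    (he : (e : ℝ × ℝ →L[ℝ] ℂ) = fpD Φ q) : Carries Φ q (fpT Φ q) := by
  have h1 : ∀ v, e v = (fderiv ℝ Φ q v).1 := fun v => congrArg (fun L : ℝ × ℝ →L[ℝ] ℂ => L v) he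
  have h2 : ∀ x, fpG Φ q x = (fderiv ℝ Φ q (e.symm x)).2 := by
    intro x
    unfold fpG
    rw [← he, ContinuousLinearMap.inverse_equiv]
    rfl
  refine ⟨?_, ?_, ?_⟩
  · simp [fpT]
  · intro v
    simp only [fpT, _root_.add_apply, ContinuousLinearMap.comp_apply,
      ContinuousLinearMap.coe_snd', ContinuousLinearMap.smulRight_apply,
      ContinuousLinearMap.coe_fst', zero_smul, add_zero]
    rw [h2, ← h1, e.symm_apply_apply]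
  · intro v w hvw
    have h3 : (fderiv ℝ Φ q v).1 = (fderiv ℝ Φ q w).1 := hvw
    rw [← h1, ← h1] at h3
    exact e.injective h3

theorem fp_plane_local (h : IsRModel P Φ T N) (s : ℝ) :
    ∃ C : ℝ, ∀ᶠ q : ℝ × ℝ in 𝓝 (s, 0), ∃ T₁ : ℝ × ℂ →L[ℝ] ℍ[ℝ], ‖T₁‖ ≤ C ∧ Carries Φ q T₁ := by
  have hinj : Injective (fpD Φ (s, 0)) := (h.carries s).2.2
  have hfin : Module.finrank ℝ (ℝ × ℝ) = Module.finrank ℝ ℂ := by
    rw [Complex.finrank_real_complex, Module.finrank_prod, Module.finrank_self]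
  let e : (ℝ × ℝ) ≃L[ℝ] ℂ :=
    (LinearEquiv.ofInjectiveOfFinrankEq (fpD Φ (s, 0) : ℝ × ℝ →ₗ[ℝ] ℂ) hinj hfin).toContinuousLinearEquiv
  have he : (e : ℝ × ℝ →L[ℝ] ℂ) = fpD Φ (s, 0) := by
    exact ContinuousLinearMap.ext fun v => rfl
  have c1 : Continuous (fderiv ℝ Φ) := h.smooth.continuous_fderiv (by simp)
  have c2 : Continuous (fpD Φ) := continuous_const.clm_comp c1
  have c3 : ContinuousAt (fun q => ContinuousLinearMap.inverse (fpD Φ q)) (s, 0) := by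
    have h1 : ContinuousAt (ContinuousLinearMap.inverse : (ℝ × ℝ →L[ℝ] ℂ) → (ℂ →L[ℝ] ℝ × ℝ))
        (fpD Φ (s, 0)) := by
      rw [← he]
      exact (contDiffAt_map_inverse (n := 0) e).continuousAt
    exact ContinuousAt.comp (f := fpD Φ) h1 c2.continuousAt
  have c4 : ContinuousAt (fpG Φ) (s, 0) :=
    (continuous_const.clm_comp c1).continuousAt.clm_comp c3
  have c5 : ContinuousAt (fpT Φ) (s, 0) := by
    have h2 : ContinuousAt (fun q => (Φ q).2 - fpG Φ q (Φ q).1) (s, 0) :=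
      (continuous_snd.comp h.smooth.continuous).continuousAt.sub
        (c4.clm_apply (continuous_fst.comp h.smooth.continuous).continuousAt)
    have h3 : ContinuousAt (fun q => (ContinuousLinearMap.fst ℝ ℝ ℂ).smulRight
        ((Φ q).2 - fpG Φ q (Φ q).1)) (s, 0) :=
      ((ContinuousLinearMap.smulRightL ℝ (ℝ × ℂ) ℍ[ℝ]
        (ContinuousLinearMap.fst ℝ ℝ ℂ)).continuous.continuousAt).comp h2
    exact (c4.clm_comp continuousAt_const).add h3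
  refine ⟨‖fpT Φ (s, 0)‖ + 1, ?_⟩
  have e1 : ∀ᶠ q : ℝ × ℝ in 𝓝 (s, 0), fpD Φ q ∈ range ((↑) : ((ℝ × ℝ) ≃L[ℝ] ℂ) → _) := by
    apply c2.continuousAt.eventually
    rw [← he]
    exact e.nhds
  have c7 : Continuous fun T : ℝ × ℂ →L[ℝ] ℍ[ℝ] => ‖T‖ :=
    continuous_norm (E := ℝ × ℂ →L[ℝ] ℍ[ℝ])
  have c6 : ContinuousAt (fun q => ‖fpT Φ q‖) (s, 0) :=
    ContinuousAt.comp (f := fpT Φ) c7.continuousAt c5
  have e2 : ∀ᶠ q : ℝ × ℝ in 𝓝 (s, 0), ‖fpT Φ q‖ < ‖fpT Φ (s, 0)‖ + 1 :=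
    c6.eventually (gt_mem_nhds (lt_add_one _))
  filter_upwards [e1, e2] with q h1 h2
  obtain ⟨e', he'⟩ := h1
  exact ⟨fpT Φ q, h2.le, fpT_carries Φ q e' he'⟩

theorem fp_carries_per (h : IsRModel P Φ T N) (m : ℤ) (q : ℝ × ℝ) {T₁ : ℝ × ℂ →L[ℝ] ℍ[ℝ]}
    (hT : Carries Φ q T₁) : Carries Φ (q + (m * (2 * P), 0)) T₁ := by
  unfold Carries at hT ⊢
  rw [cp_fderiv_per (cp_per_int h) m q, cp_per_int h m q]
  exact hT

theorem fp_plane (h : IsRModel P Φ T N) : ∃ ε C : ℝ, 0 < ε ∧ ∀ q : ℝ × ℝ, |q.2| < ε →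
    ∃ T₁ : ℝ × ℂ →L[ℝ] ℍ[ℝ], ‖T₁‖ ≤ C ∧ Carries Φ q T₁ := by
  have hP := h.P_pos
  have h2P : 0 < 2 * P := by linarith
  have key : ∃ ε C : ℝ, 0 < ε ∧ ∀ s ∈ Icc (0 : ℝ) (2 * P), ∀ y : ℝ, |y| < ε →
      ∃ T₁ : ℝ × ℂ →L[ℝ] ℍ[ℝ], ‖T₁‖ ≤ C ∧ Carries Φ (s, y) T₁ := by
    refine isCompact_Icc.induction_on (p := fun S => ∃ ε C : ℝ, 0 < ε ∧ ∀ s ∈ S, ∀ y : ℝ, |y| < ε →
      ∃ T₁ : ℝ × ℂ →L[ℝ] ℍ[ℝ], ‖T₁‖ ≤ C ∧ Carries Φ (s, y) T₁) ?_ ?_ ?_ ?_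
    · exact ⟨1, 0, one_pos, fun s hs => absurd hs (Set.notMem_empty s)⟩
    · rintro S S' hSS ⟨ε, C, hε, hS⟩
      exact ⟨ε, C, hε, fun s hs => hS s (hSS hs)⟩
    · rintro S S' ⟨ε, C, hε, hS⟩ ⟨ε', C', hε', hS'⟩
      refine ⟨min ε ε', max C C', lt_min hε hε', ?_⟩
      rintro s (hs | hs) y hy
      · obtain ⟨T₁, h1, h2⟩ := hS s hs y (hy.trans_le (min_le_left _ _))
        exact ⟨T₁, h1.trans (le_max_left _ _), h2⟩
      · obtain ⟨T₁, h1, h2⟩ := hS' s hs y (hy.trans_le (min_le_right _ _))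
        exact ⟨T₁, h1.trans (le_max_right _ _), h2⟩
    · intro s _
      obtain ⟨C, hC⟩ := fp_plane_local h s
      rw [nhds_prod_eq] at hC
      obtain ⟨pa, ha, pb, hb, hab⟩ := Filter.eventually_prod_iff.1 hC
      obtain ⟨ε, hε, hb⟩ := Metric.eventually_nhds_iff.1 hb
      refine ⟨{s | pa s}, mem_nhdsWithin_of_mem_nhds ha, ε, C, hε, ?_⟩
      intro x hx y hy
      exact hab hx (hb (by rw [Real.dist_eq, sub_zero]; exact hy))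
  obtain ⟨ε, C, hε, key⟩ := key
  refine ⟨ε, C, hε, fun q hq => ?_⟩
  set m : ℤ := ⌊q.1 / (2 * P)⌋ with hm
  have h3 := Int.floor_le (q.1 / (2 * P))
  have h4 := Int.lt_floor_add_one (q.1 / (2 * P))
  rw [le_div_iff₀ h2P] at h3
  rw [div_lt_iff₀ h2P] at h4
  obtain ⟨T₁, h5, h6⟩ := key (q.1 - m * (2 * P)) ⟨by linarith, by linarith⟩ q.2 hq
  refine ⟨T₁, h5, ?_⟩
  have h7 := fp_carries_per h m _ h6
  have e1 : q = ((q.1 - m * (2 * P), q.2) : ℝ × ℝ) + (m * (2 * P), 0) := by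
    ext <;> simp
  rw [e1]
  exact h7

theorem fp_far (h : IsRModel P Φ T N) : ∃ (ε : ℝ) (J : ℕ), 0 < ε ∧ ∀ j : ℕ, J ≤ j →
    ∀ q q' : ℝ × ℝ, |q.2| < ε → |q'.2| < ε → SkewJ N Φ j q q' := by
  obtain ⟨ε, C, hε, hp⟩ := fp_plane h
  obtain ⟨J, hJ⟩ := h.far C
  refine ⟨ε, J, hε, fun j hj q q' hq hq' => ?_⟩
  obtain ⟨T₁, h1, h2⟩ := hp q hq
  obtain ⟨T₂, h3, h4⟩ := hp q' hq'
  exact injective_pairMap_of_carries h2
    (carries_iterate_Gmap (h.smooth.differentiable (by simp) _) h4 N j) (hJ j hj T₁ T₂ h1 h3)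

theorem fp_proper (h : IsRModel P Φ T N) : ∃ ε : ℝ, 0 < ε ∧ ∀ R : ℝ, ∃ J : ℕ, ∀ j : ℕ, J ≤ j →
    ∀ q : ℝ × ℝ, |q.2| < ε → R < ‖((Gmap N)^[j] ∘ Φ) q‖ := by
  obtain ⟨ε, C, hε, hp⟩ := fp_plane h
  refine ⟨ε, hε, fun R => ?_⟩
  obtain ⟨J, hJ⟩ := h.proper C R
  refine ⟨J, fun j hj q hq => ?_⟩
  obtain ⟨T₂, h3, h4⟩ := hp q hq
  have h5 := (carries_iterate_Gmap (h.smooth.differentiable (by simp) _) h4 N j).1
  have h6 := hJ j hj T₂ h3 (((Gmap N)^[j] ∘ Φ) q).1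
  rw [← h5] at h6
  exact h6.trans_le (norm_snd_le _)

end Pool.Agent.TotallySkew.Ori
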