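import Pool.Agent.TotallySkew.Ori.MO

/-!
GE: the glued map is a topological embedding.

Let ψ : M' → V be 0 outside the strips |y| < ε'' and Ψ j p at A j p (well defined by the
identifications and IsChainModel.eq). Injective on the strips: A j p ≠ A k q gives not PlumbRel, so the
pair map is injective, so Ψ j p ≠ Ψ k q. Continuous at every A j p, |p.2| < ε'', since A j is an open
continuous map there (ψ ∘ A j = Ψ j). Let u = A j₀ p₀, |p₀.2| < ε', O a neighbourhood of u. Choose J from
proper with R = ‖ψ u‖ + 1 and the compact set C = ⋃ (j ∈ S, j < J) A j '' ([0,1] × [-ε', ε']); by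
periodicity every A j p with |p.2| < ε' and ‖Ψ j p‖ ≤ R lies in C. ψ '' (C \ O) is compact (C \ O is
compact, IsCompact.diff) and does not contain ψ u, so some neighbourhood B of ψ u, inside the ball of
radius 1, is disjoint from it: a point of the ε'-strips with image in B lies in O. Hence φ = ψ ∘ f is
inducing (f is) and injective.
-/

open scoped Manifold ContDiff Quaternion Topology
open Function Set

namespace Pool.Agent.TotallySkew.Ori

theorem ge_eq {M' V : Type*} [TopologicalSpace M']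
    [NormedAddCommGroup V] [NormedSpace ℝ V] {S : Set ℕ} {A : ℕ → ℝ × ℝ → M'} {δ ε : ℝ}
    (hA : ∀ j ∈ S, ∀ k ∈ S, ∀ p q : ℝ × ℝ, |p.2| < δ → |q.2| < δ →
      (A j p = A k q ↔ PlumbRel j p k q))
    {Ψ : ℕ → ℝ × ℝ → V} (hΨ : IsChainModel Ψ ε) {j k : ℕ} (hj : j ∈ S) (hk : k ∈ S)
    {p q : ℝ × ℝ} (hp : |p.2| < δ) (hp' : |p.2| < ε) (hq : |q.2| < δ) (hq' : |q.2| < ε) :
    A j p = A k q ↔ Ψ j p = Ψ k q := by
  constructor
  · intro h
    exact hΨ.eq j k p q hp' hq' ((hA j hj k hk p q hp hq).1 h)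
  · intro h
    by_contra hne
    have h1 : ¬ PlumbRel j p k q := fun h2 => hne ((hA j hj k hk p q hp hq).2 h2)
    have h2 := hΨ.skew j k p q hp' hq' h1
    have h3 : (pairMap (fderiv ℝ (Ψ j) p) (fderiv ℝ (Ψ k) q) (Ψ j p - Ψ k q)) (0, 0, 1) =
        (pairMap (fderiv ℝ (Ψ j) p) (fderiv ℝ (Ψ k) q) (Ψ j p - Ψ k q)) 0 := by
      rw [map_zero, h, sub_self]
      simp [pairMap]
    have h4 := h2 h3
    have h5 : (1 : ℝ) = 0 := congrArg (fun z : (ℝ × ℝ) × (ℝ × ℝ) × ℝ => z.2.2) h4
    exact one_ne_zero h5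

theorem glue_isEmbedding {M M' V : Type*} [TopologicalSpace M] [TopologicalSpace M']
    [NormedAddCommGroup V] [NormedSpace ℝ V] {S : Set ℕ} {A : ℕ → ℝ × ℝ → M'} {δ ε ε' ε'' : ℝ}
    (hc : ∀ j ∈ S, Continuous (A j)) (ho : ∀ j ∈ S, IsOpenMap (A j))
    (hA : ∀ j ∈ S, ∀ k ∈ S, ∀ p q : ℝ × ℝ, |p.2| < δ → |q.2| < δ →
      (A j p = A k q ↔ PlumbRel j p k q))
    {Ψ : ℕ → ℝ × ℝ → V} (hΨ : IsChainModel Ψ ε) (h0 : 0 < ε') (h1 : ε' < ε'') (h2 : ε'' < δ)
    (h3 : ε'' < ε) {f : M → M'} (hf : Topology.IsEmbedding f) {φ : M → V}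
    (hφ : ∀ x, ∃ j ∈ S, ∃ p : ℝ × ℝ, |p.2| < ε' ∧ A j p = f x ∧ φ x = Ψ j p) :
    Topology.IsEmbedding φ := by
  have heq : ∀ {j k : ℕ} (_ : j ∈ S) (_ : k ∈ S) {p q : ℝ × ℝ} (_ : |p.2| < ε'')
      (_ : |q.2| < ε''), A j p = A k q ↔ Ψ j p = Ψ k q := by
    intro j k hj hk p q hp hq
    exact ge_eq hA hΨ hj hk (by linarith) (by linarith) (by linarith) (by linarith)
  refine ⟨⟨?_⟩, ?_⟩
  · -- inducing
    have : Topology.IsInducing φ := by
      rw [Topology.isInducing_iff_nhds]
      intro x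
      obtain ⟨j, hj, p, hp, hpx, hφx⟩ := hφ x
      apply le_antisymm
      · rw [← Filter.tendsto_iff_comap, hφx]
        intro W hW
        have e1 : Ψ j ⁻¹' W ∩ {z : ℝ × ℝ | |z.2| < ε''} ∈ 𝓝 p := by
          apply Filter.inter_mem
          · exact (hΨ.smooth j).continuous.continuousAt.preimage_mem_nhds hW
          · apply IsOpen.mem_nhds
            · exact isOpen_lt (by fun_prop) continuous_const
            · exact lt_trans hp h1
        have e2 := (ho j hj).image_mem_nhds e1
        rw [hpx] at e2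
        have e3 := hf.continuous.continuousAt.preimage_mem_nhds e2
        apply Filter.mem_map.2
        refine Filter.mem_of_superset e3 ?_
        rintro y ⟨p', ⟨hp1, hp2⟩, hp3⟩
        obtain ⟨k, hk, q, hq, hqy, hφy⟩ := hφ y
        have e4 : Ψ k q = Ψ j p' := by
          rw [← heq hk hj (lt_trans hq h1) hp2, hqy, hp3]
        change φ y ∈ W
        rw [hφy, e4]
        exact hp1
      · intro O hO
        rw [hf.isInducing.nhds_eq_comap, Filter.mem_comap] at hO
        obtain ⟨O', hO', hOO⟩ := hO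
        obtain ⟨O₁, hO₁, hO₁o, hxO₁⟩ := mem_nhds_iff.1 hO'
        obtain ⟨J, hJ⟩ := hΨ.proper (‖φ x‖ + 1)
        -- the compact sets
        let K : ℕ → Set (ℝ × ℝ) := fun j => (Icc (0 : ℝ) 1 ×ˢ Icc (-ε') ε') ∩ A j ⁻¹' O₁ᶜ
        have hK : ∀ j ∈ S, IsCompact (K j) := by
          intro j hj
          exact (isCompact_Icc.prod isCompact_Icc).inter_right
            (hO₁o.isClosed_compl.preimage (hc j hj))
        have hout : ∀ k ∈ S, φ x ∉ Ψ k '' K k := by
          rintro k hk ⟨q, ⟨hq1, hq2⟩, hq3⟩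
          have hqε : |q.2| < ε'' := by
            have := hq1.2
            rw [mem_Icc, ← abs_le] at this
            linarith
          rw [hφx] at hq3
          have := (heq hk hj hqε (lt_trans hp h1)).2 hq3
          apply hq2
          rw [this, hpx]
          exact hxO₁
        have hB : Metric.ball (φ x) 1 ∩ ⋂ k ∈ {k | k ∈ S ∧ k < J}, (Ψ k '' K k)ᶜ ∈ 𝓝 (φ x) := by
          apply Filter.inter_mem (Metric.ball_mem_nhds _ one_pos)
          have hfin : {k | k ∈ S ∧ k < J}.Finite :=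
            (Set.finite_lt_nat J).subset fun k hk => hk.2
          rw [Filter.biInter_mem hfin]
          intro k hk
          apply IsOpen.mem_nhds
          · exact ((hK k hk.1).image (hΨ.smooth k).continuous).isClosed.isOpen_compl
          · exact hout k hk.1
        rw [Filter.mem_comap]
        refine ⟨_, hB, ?_⟩
        rintro y ⟨hy1, hy2⟩
        apply hOO
        apply hO₁
        obtain ⟨k, hk, q, hq, hqy, hφy⟩ := hφ y
        by_contra hcon
        -- shift to the fundamental domain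
        let q' : ℝ × ℝ := (q.1 + ((-⌊q.1⌋ : ℤ) : ℝ), q.2)
        have hq' : A k q = A k q' :=
          (hA k hk k hk q q' (by linarith) (by show |q.2| < δ; linarith)).2
            (Or.inl ⟨rfl, -⌊q.1⌋, rfl⟩)
        have hΨq' : Ψ k q = Ψ k q' :=
          (heq hk hk (lt_trans hq h1) (by show |q.2| < ε''; exact lt_trans hq h1)).1 hq'
        have hkJ : k < J := by
          by_contra hkJ
          push Not at hkJ
          have e1 := hJ k hkJ q (by linarith)
          rw [← hφy] at e1
          have e2 : ‖φ y‖ ≤ ‖φ x‖ + 1 := by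
            have := Metric.mem_ball.1 hy1
            rw [dist_eq_norm] at this
            have := norm_le_norm_add_norm_sub' (φ y) (φ x)
            linarith [norm_sub_rev (φ y) (φ x)]
          linarith
        have e3 := Set.mem_iInter₂.1 hy2 k ⟨hk, hkJ⟩
        apply e3
        refine ⟨q', ⟨⟨?_, ?_⟩, ?_⟩, ?_⟩
        · constructor
          · show 0 ≤ q.1 + ((-⌊q.1⌋ : ℤ) : ℝ)
            push_cast
            linarith [Int.floor_le q.1]
          · show q.1 + ((-⌊q.1⌋ : ℤ) : ℝ) ≤ 1
            push_cast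
            linarith [Int.lt_floor_add_one q.1]
        · show q.2 ∈ Icc (-ε') ε'
          rw [mem_Icc, ← abs_le]
          exact hq.le
        · show A k q' ∈ O₁ᶜ
          rw [← hq', hqy]
          exact hcon
        · rw [← hΨq', hφy]
    exact this.eq_induced
  · intro x y hxy
    obtain ⟨j, hj, p, hp, hpx, hφx⟩ := hφ x
    obtain ⟨k, hk, q, hq, hqy, hφy⟩ := hφ y
    apply hf.injective
    rw [← hpx, ← hqy]
    apply (heq hj hk (lt_trans hp h1) (lt_trans hq h1)).2
    rw [← hφx, ← hφy, hxy]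

end Pool.Agent.TotallySkew.Ori
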