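import Pool.Agent.TotallySkew.Open.NC

/-!
JT: the cubic jet of a map which is a polynomial of degree 3 in the second variable.
For F (s, y) = f₀ s + y f₁ s + y² f₂ s + y³ f₃ s, compute fderiv F, fderiv (fderiv F),
fderiv (fderiv (fderiv F)) at (s, 0) by composing with lines, for instance: for smooth F the
directional derivatives satisfy fderiv F (s, y) (a, b) = a ∂F/∂s + b ∂F/∂y with ∂F/∂s, ∂F/∂y again of
the same form (polynomials in y with smooth coefficients); iterate.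
-/

open scoped ContDiff
open Function Set

namespace Pool.Agent.TotallySkew.Ori

variable {V : Type*} [NormedAddCommGroup V] [NormedSpace ℝ V]

theorem contDiff_polyStrip {f₀ f₁ f₂ f₃ : ℝ → V} (h₀ : ContDiff ℝ ∞ f₀) (h₁ : ContDiff ℝ ∞ f₁)
    (h₂ : ContDiff ℝ ∞ f₂) (h₃ : ContDiff ℝ ∞ f₃) :
    ContDiff ℝ ∞ fun q : ℝ × ℝ => f₀ q.1 + q.2 • f₁ q.1 + q.2 ^ 2 • f₂ q.1 + q.2 ^ 3 • f₃ q.1 := by
  have e0 : ContDiff ℝ ∞ fun q : ℝ × ℝ => f₀ q.1 := h₀.comp contDiff_fst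
  have e1 : ContDiff ℝ ∞ fun q : ℝ × ℝ => f₁ q.1 := h₁.comp contDiff_fst
  have e2 : ContDiff ℝ ∞ fun q : ℝ × ℝ => f₂ q.1 := h₂.comp contDiff_fst
  have e3 : ContDiff ℝ ∞ fun q : ℝ × ℝ => f₃ q.1 := h₃.comp contDiff_fst
  exact ((e0.add (contDiff_snd.smul e1)).add ((contDiff_snd.pow 2).smul e2)).add
    ((contDiff_snd.pow 3).smul e3)

/-- The strip with coefficients `f`. -/
def jtPS (f₀ f₁ f₂ f₃ : ℝ → V) (q : ℝ × ℝ) : V :=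
  f₀ q.1 + q.2 • f₁ q.1 + q.2 ^ 2 • f₂ q.1 + q.2 ^ 3 • f₃ q.1

/-- One coefficient of the directional derivative. -/
noncomputable def jtE (a b : ℝ) (f g : ℝ → V) (s : ℝ) : V := a • deriv f s + b • g s

theorem jt_deriv {f : ℝ → V} (h : ContDiff ℝ ∞ f) : ContDiff ℝ ∞ (deriv f) :=
  (contDiff_infty_iff_deriv.1 h).2

theorem jtE_smooth (a b : ℝ) {f g : ℝ → V} (hf : ContDiff ℝ ∞ f) (hg : ContDiff ℝ ∞ g) :
    ContDiff ℝ ∞ (jtE a b f g) :=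
  ((jt_deriv hf).const_smul a).add (hg.const_smul b)

theorem jtE_deriv (a b : ℝ) {f g : ℝ → V} (hf : ContDiff ℝ ∞ f) (hg : ContDiff ℝ ∞ g) :
    deriv (jtE a b f g) = jtE a b (deriv f) (deriv g) := by
  funext s
  have h1 : HasDerivAt (deriv f) (deriv (deriv f) s) s :=
    ((jt_deriv hf).differentiable (by simp) s).hasDerivAt
  have h2 : HasDerivAt g (deriv g s) s := (hg.differentiable (by simp) s).hasDerivAt
  exact ((h1.const_smul a).add (h2.const_smul b)).deriv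

theorem jtPS_smooth {f₀ f₁ f₂ f₃ : ℝ → V} (h₀ : ContDiff ℝ ∞ f₀) (h₁ : ContDiff ℝ ∞ f₁)
    (h₂ : ContDiff ℝ ∞ f₂) (h₃ : ContDiff ℝ ∞ f₃) : ContDiff ℝ ∞ (jtPS f₀ f₁ f₂ f₃) :=
  contDiff_polyStrip h₀ h₁ h₂ h₃

theorem jtPS_fderiv {f₀ f₁ f₂ f₃ : ℝ → V} (h₀ : ContDiff ℝ ∞ f₀) (h₁ : ContDiff ℝ ∞ f₁)
    (h₂ : ContDiff ℝ ∞ f₂) (h₃ : ContDiff ℝ ∞ f₃) (q v : ℝ × ℝ) :
    fderiv ℝ (jtPS f₀ f₁ f₂ f₃) q v = jtPS (jtE v.1 v.2 f₀ f₁) (jtE v.1 (2 * v.2) f₁ f₂)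
      (jtE v.1 (3 * v.2) f₂ f₃) (jtE v.1 0 f₃ f₃) q := by
  have hd : DifferentiableAt ℝ (jtPS f₀ f₁ f₂ f₃) q :=
    (jtPS_smooth h₀ h₁ h₂ h₃).differentiable (by simp) q
  have hline : HasDerivAt (fun t : ℝ => q + t • v) v 0 := by
    have := ((hasDerivAt_id (0 : ℝ)).smul_const v).const_add q
    simpa using this
  have h1 : HasDerivAt (fun t : ℝ => jtPS f₀ f₁ f₂ f₃ (q + t • v))
      (fderiv ℝ (jtPS f₀ f₁ f₂ f₃) q v) 0 := by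
    have h2 : HasFDerivAt (jtPS f₀ f₁ f₂ f₃) (fderiv ℝ (jtPS f₀ f₁ f₂ f₃) q) (q + (0 : ℝ) • v) := by
      rw [zero_smul, add_zero]
      exact hd.hasFDerivAt
    exact h2.comp_hasDerivAt 0 hline
  have hx : HasDerivAt (fun t : ℝ => q.1 + t * v.1) v.1 0 := by
    have := ((hasDerivAt_id (0 : ℝ)).mul_const v.1).const_add q.1
    simpa using this
  have hy : HasDerivAt (fun t : ℝ => q.2 + t * v.2) v.2 0 := by
    have := ((hasDerivAt_id (0 : ℝ)).mul_const v.2).const_add q.2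
    simpa using this
  have hf : ∀ {f : ℝ → V}, ContDiff ℝ ∞ f →
      HasDerivAt (fun t : ℝ => f (q.1 + t * v.1)) (v.1 • deriv f q.1) 0 := by
    intro f hf
    have h3 : HasDerivAt f (deriv f q.1) (q.1 + 0 * v.1) := by
      rw [zero_mul, add_zero]
      exact (hf.differentiable (by simp) _).hasDerivAt
    exact h3.scomp 0 hx
  have hy2 : HasDerivAt (fun t : ℝ => (q.2 + t * v.2) ^ 2) (2 * q.2 * v.2) 0 := by
    have h := hy.fun_pow 2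
    have e : ((2 : ℕ) : ℝ) * (q.2 + 0 * v.2) ^ (2 - 1) * v.2 = 2 * q.2 * v.2 := by
      norm_num
    rw [e] at h
    exact h
  have hy3 : HasDerivAt (fun t : ℝ => (q.2 + t * v.2) ^ 3) (3 * q.2 ^ 2 * v.2) 0 := by
    have h := hy.fun_pow 3
    have e : ((3 : ℕ) : ℝ) * (q.2 + 0 * v.2) ^ (3 - 1) * v.2 = 3 * q.2 ^ 2 * v.2 := by
      norm_num
    rw [e] at h
    exact h
  have h4 := (((hf h₀).add (hy.smul (hf h₁))).add (hy2.smul (hf h₂))).add (hy3.smul (hf h₃))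
  have h5 : (fun t : ℝ => jtPS f₀ f₁ f₂ f₃ (q + t • v)) = fun t : ℝ =>
      f₀ (q.1 + t * v.1) + (q.2 + t * v.2) • f₁ (q.1 + t * v.1) +
        (q.2 + t * v.2) ^ 2 • f₂ (q.1 + t * v.1) + (q.2 + t * v.2) ^ 3 • f₃ (q.1 + t * v.1) := by
    funext t
    rfl
  rw [h5] at h1
  have h6 := h1.unique h4
  rw [h6]
  simp only [jtPS, jtE, zero_mul, add_zero]
  module

theorem jt_apply2 {F : ℝ × ℝ → V} (hF : ContDiff ℝ ∞ F) (m v b : ℝ × ℝ) :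
    fderiv ℝ (fderiv ℝ F) m v b = fderiv ℝ (fun q => fderiv ℝ F q b) m v := by
  have h1 : DifferentiableAt ℝ (fderiv ℝ F) m :=
    (hF.fderiv_right (m := ∞) (by simp)).differentiable (by simp) m
  rw [fderiv_clm_apply h1 (differentiableAt_const b)]
  simp

theorem jt_apply3 {F : ℝ × ℝ → V} (hF : ContDiff ℝ ∞ F) (m v w b : ℝ × ℝ) :
    fderiv ℝ (fderiv ℝ (fderiv ℝ F)) m v w b =
      fderiv ℝ (fun q => fderiv ℝ (fderiv ℝ F) q w b) m v := by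
  have hF1 : ContDiff ℝ ∞ (fderiv ℝ F) := hF.fderiv_right (by simp)
  have hF2 : ContDiff ℝ ∞ (fderiv ℝ (fderiv ℝ F)) := hF1.fderiv_right (by simp)
  have h1 : DifferentiableAt ℝ (fderiv ℝ (fderiv ℝ F)) m := hF2.differentiable (by simp) m
  have h2 : DifferentiableAt ℝ (fun q => fderiv ℝ (fderiv ℝ F) q w) m :=
    h1.clm_apply (differentiableAt_const w)
  rw [fderiv_clm_apply h2 (differentiableAt_const b)]
  rw [fderiv_clm_apply h1 (differentiableAt_const w)]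
  simp

theorem cubMap_polyStrip {f₀ f₁ f₂ f₃ : ℝ → V} (h₀ : ContDiff ℝ ∞ f₀) (h₁ : ContDiff ℝ ∞ f₁)
    (h₂ : ContDiff ℝ ∞ f₂) (h₃ : ContDiff ℝ ∞ f₃) (s : ℝ) (v a b : ℝ × ℝ) (c : ℝ) :
    cubMap (fun q : ℝ × ℝ => f₀ q.1 + q.2 • f₁ q.1 + q.2 ^ 2 • f₂ q.1 + q.2 ^ 3 • f₃ q.1)
      (ContinuousLinearMap.id ℝ (ℝ × ℝ)) (s, 0) v (a, b, c) =
      (a.1 • deriv f₀ s + a.2 • f₁ s) +
      ((v.1 * b.1) • deriv (deriv f₀) s + (v.1 * b.2 + v.2 * b.1) • deriv f₁ s +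
        (2 * (v.2 * b.2)) • f₂ s) +
      c • ((v.1 ^ 3) • deriv (deriv (deriv f₀)) s + (3 * v.1 ^ 2 * v.2) • deriv (deriv f₁) s +
        (6 * v.1 * v.2 ^ 2) • deriv f₂ s + (6 * v.2 ^ 3) • f₃ s) := by
  have hF : ContDiff ℝ ∞ (jtPS f₀ f₁ f₂ f₃) := jtPS_smooth h₀ h₁ h₂ h₃
  change cubMap (jtPS f₀ f₁ f₂ f₃) (ContinuousLinearMap.id ℝ (ℝ × ℝ)) (s, 0) v (a, b, c) = _
  unfold cubMap
  rw [pairMap_apply]
  simp only [ContinuousLinearMap.comp_apply, ContinuousLinearMap.coe_id', id_eq]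
  have d1 : ∀ w : ℝ × ℝ, (fun q => fderiv ℝ (jtPS f₀ f₁ f₂ f₃) q w) =
      jtPS (jtE w.1 w.2 f₀ f₁) (jtE w.1 (2 * w.2) f₁ f₂)
      (jtE w.1 (3 * w.2) f₂ f₃) (jtE w.1 0 f₃ f₃) := by
    intro w
    funext q
    exact jtPS_fderiv h₀ h₁ h₂ h₃ q w
  have s1 : ∀ w : ℝ × ℝ, ContDiff ℝ ∞ (jtE w.1 w.2 f₀ f₁) := fun w => jtE_smooth _ _ h₀ h₁
  have s2 : ∀ w : ℝ × ℝ, ContDiff ℝ ∞ (jtE w.1 (2 * w.2) f₁ f₂) := fun w => jtE_smooth _ _ h₁ h₂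
  have s3 : ∀ w : ℝ × ℝ, ContDiff ℝ ∞ (jtE w.1 (3 * w.2) f₂ f₃) := fun w => jtE_smooth _ _ h₂ h₃
  have s4 : ∀ w : ℝ × ℝ, ContDiff ℝ ∞ (jtE w.1 0 f₃ f₃) := fun w => jtE_smooth _ _ h₃ h₃
  have d2 : ∀ u w : ℝ × ℝ, (fun q => fderiv ℝ (fderiv ℝ (jtPS f₀ f₁ f₂ f₃)) q u w) =
      jtPS (jtE u.1 u.2 (jtE w.1 w.2 f₀ f₁) (jtE w.1 (2 * w.2) f₁ f₂))
        (jtE u.1 (2 * u.2) (jtE w.1 (2 * w.2) f₁ f₂) (jtE w.1 (3 * w.2) f₂ f₃))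
        (jtE u.1 (3 * u.2) (jtE w.1 (3 * w.2) f₂ f₃) (jtE w.1 0 f₃ f₃))
        (jtE u.1 0 (jtE w.1 0 f₃ f₃) (jtE w.1 0 f₃ f₃)) := by
    intro u w
    funext q
    rw [jt_apply2 hF, d1 w]
    exact jtPS_fderiv (s1 w) (s2 w) (s3 w) (s4 w) q u
  have e1 : fderiv ℝ (jtPS f₀ f₁ f₂ f₃) (s, 0) a = jtE a.1 a.2 f₀ f₁ s := by
    have h := congrFun (d1 a) (s, 0)
    refine h.trans ?_
    simp [jtPS]
  have e2 : fderiv ℝ (fderiv ℝ (jtPS f₀ f₁ f₂ f₃)) (s, 0) v b =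
      jtE v.1 v.2 (jtE b.1 b.2 f₀ f₁) (jtE b.1 (2 * b.2) f₁ f₂) s := by
    have h := congrFun (d2 v b) (s, 0)
    refine h.trans ?_
    simp [jtPS]
  have e3 : fderiv ℝ (fderiv ℝ (fderiv ℝ (jtPS f₀ f₁ f₂ f₃))) (s, 0) v v v =
      jtE v.1 v.2 (jtE v.1 v.2 (jtE v.1 v.2 f₀ f₁) (jtE v.1 (2 * v.2) f₁ f₂))
        (jtE v.1 (2 * v.2) (jtE v.1 (2 * v.2) f₁ f₂) (jtE v.1 (3 * v.2) f₂ f₃)) s := by
    rw [jt_apply3 hF, d2 v v]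
    rw [jtPS_fderiv (jtE_smooth _ _ (s1 v) (s2 v)) (jtE_smooth _ _ (s2 v) (s3 v))
      (jtE_smooth _ _ (s3 v) (s4 v)) (jtE_smooth _ _ (s4 v) (s4 v))]
    simp [jtPS]
  rw [e1, e2, e3]
  have g0 := jt_deriv h₀
  have g1 := jt_deriv h₁
  have g2 := jt_deriv h₂
  have g00 := jt_deriv g0
  have g11 := jt_deriv g1
  have j2 : deriv (jtE b.1 b.2 f₀ f₁) = jtE b.1 b.2 (deriv f₀) (deriv f₁) :=
    jtE_deriv _ _ h₀ h₁
  have j3 : deriv (jtE v.1 v.2 f₀ f₁) = jtE v.1 v.2 (deriv f₀) (deriv f₁) :=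
    jtE_deriv _ _ h₀ h₁
  have j4 : deriv (jtE v.1 (2 * v.2) f₁ f₂) = jtE v.1 (2 * v.2) (deriv f₁) (deriv f₂) :=
    jtE_deriv _ _ h₁ h₂
  have j5 : deriv (jtE v.1 v.2 (jtE v.1 v.2 f₀ f₁) (jtE v.1 (2 * v.2) f₁ f₂)) =
      jtE v.1 v.2 (jtE v.1 v.2 (deriv f₀) (deriv f₁)) (jtE v.1 (2 * v.2) (deriv f₁) (deriv f₂)) := by
    rw [jtE_deriv _ _ (s1 v) (s2 v), j3, j4]
  have j6 : deriv (jtE v.1 v.2 (deriv f₀) (deriv f₁)) =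
      jtE v.1 v.2 (deriv (deriv f₀)) (deriv (deriv f₁)) := jtE_deriv _ _ g0 g1
  have r2 : jtE v.1 v.2 (jtE b.1 b.2 f₀ f₁) (jtE b.1 (2 * b.2) f₁ f₂) s =
      v.1 • (b.1 • deriv (deriv f₀) s + b.2 • deriv f₁ s) +
        v.2 • (b.1 • deriv f₁ s + (2 * b.2) • f₂ s) := by
    show v.1 • deriv (jtE b.1 b.2 f₀ f₁) s + _ = _
    rw [j2]
    rfl
  have r3 : jtE v.1 v.2 (jtE v.1 v.2 (jtE v.1 v.2 f₀ f₁) (jtE v.1 (2 * v.2) f₁ f₂))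
        (jtE v.1 (2 * v.2) (jtE v.1 (2 * v.2) f₁ f₂) (jtE v.1 (3 * v.2) f₂ f₃)) s =
      v.1 • (v.1 • (v.1 • deriv (deriv (deriv f₀)) s + v.2 • deriv (deriv f₁) s) +
        v.2 • (v.1 • deriv (deriv f₁) s + (2 * v.2) • deriv f₂ s)) +
      v.2 • (v.1 • (v.1 • deriv (deriv f₁) s + (2 * v.2) • deriv f₂ s) +
        (2 * v.2) • (v.1 • deriv f₂ s + (3 * v.2) • f₃ s)) := by
    show v.1 • deriv (jtE v.1 v.2 (jtE v.1 v.2 f₀ f₁) (jtE v.1 (2 * v.2) f₁ f₂)) s +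
      v.2 • (v.1 • deriv (jtE v.1 (2 * v.2) f₁ f₂) s + _) = _
    rw [j5, j4]
    show v.1 • (v.1 • deriv (jtE v.1 v.2 (deriv f₀) (deriv f₁)) s + _) + _ = _
    rw [j6]
    rfl
  rw [r2, r3]
  simp only [jtE]
  module

end Pool.Agent.TotallySkew.Ori
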