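import Pool.Agent.TotallySkew.Ori.QA

/-!
LB: the local algebra. w₀, w₁, w₂ are the value, the first and the second derivative of the fast
curve, μ = star p * p' is small, (a, b) is the direction.

locMap w₀ w₁ w₂ μ (a, b) (A, B, c) =
 a A P₁ + (a B + b A) P₂ - b B w₁
 + c (a³ (2 P(w₂) + μ P₁ - |w₁|² k) + 3 a² b (2 P(i w₂) + μ P₂) - 3 a b² (μ w₁ + w₂) + b³),
P(x) = Pm w₀ (0, x), P₁ = P(w₁), P₂ = P(i w₁), complex numbers x as quaternions qv (0, x).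
-/

open scoped ContDiff Quaternion Topology
open Function Set

namespace Pool.Agent.TotallySkew.Ori

/-- See the head of the file. -/
noncomputable def locMap (w₀ w₁ w₂ : ℂ) (μ : ℍ[ℝ]) (v : ℝ × ℝ) (x : ℝ × ℝ × ℝ) : ℍ[ℝ] :=
  (v.1 * x.1) • Pm w₀ (0, w₁) + (v.1 * x.2.1 + v.2 * x.1) • Pm w₀ (0, Complex.I * w₁) -
    (v.2 * x.2.1) • qv (0, w₁) +
    x.2.2 • ((v.1 ^ 3) • ((2 : ℝ) • Pm w₀ (0, w₂) + μ * Pm w₀ (0, w₁) -
        (‖w₁‖ ^ 2) • qv (1, 0)) +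
      (3 * v.1 ^ 2 * v.2) • ((2 : ℝ) • Pm w₀ (0, Complex.I * w₂) +
        μ * Pm w₀ (0, Complex.I * w₁)) -
      (3 * v.1 * v.2 ^ 2) • (μ * qv (0, w₁) + qv (0, w₂)) +
      ((v.2 ^ 3 : ℝ) : ℍ[ℝ]))

section comps

theorem pm_re (c : ℂ) (v : ℝ × ℂ) : (Pm c v).re = 0 := rfl
theorem pm_imI (c : ℂ) (v : ℝ × ℂ) : (Pm c v).imI = v.2.re - v.1 * c.re := by
  rw [Pm_apply]; simp
theorem pm_imJ (c : ℂ) (v : ℝ × ℂ) : (Pm c v).imJ = v.2.im - v.1 * c.im := by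
  rw [Pm_apply]; simp
theorem pm_imK (c : ℂ) (v : ℝ × ℂ) : (Pm c v).imK =
    -(c.re * (v.2.re - v.1 * c.re) + c.im * (v.2.im - v.1 * c.im)) := by
  rw [Pm_apply]; simp [ip]

end comps

theorem loc_zero {w₀ w₁ w₂ : ℂ} (h : w₁ ≠ 0) {v : ℝ × ℝ} (hv : v ≠ 0) {x : ℝ × ℝ × ℝ}
    (hx : locMap w₀ w₁ w₂ 0 v x = 0) : x = 0 := by
  obtain ⟨a, b⟩ := v
  obtain ⟨A, B, c⟩ := x
  have hn : 0 < w₁.re ^ 2 + w₁.im ^ 2 := by
    rw [← norm_sq_complex]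
    have := norm_pos_iff.2 h
    positivity
  have hb3 : ((b ^ 3 : ℝ) : ℍ[ℝ]).re = b ^ 3 := rfl
  have hb3I : ((b ^ 3 : ℝ) : ℍ[ℝ]).imI = 0 := rfl
  have hb3J : ((b ^ 3 : ℝ) : ℍ[ℝ]).imJ = 0 := rfl
  have hb3K : ((b ^ 3 : ℝ) : ℍ[ℝ]).imK = 0 := rfl
  have e0 := congrArg QuaternionAlgebra.re hx
  have e1 := congrArg QuaternionAlgebra.imI hx
  have e2 := congrArg QuaternionAlgebra.imJ hx
  have e3 := congrArg QuaternionAlgebra.imK hx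
  simp only [locMap, zero_mul, add_zero, zero_add, Quaternion.re_add, Quaternion.re_sub,
    Quaternion.re_smul, Quaternion.imI_add, Quaternion.imI_sub, Quaternion.imI_smul,
    Quaternion.imJ_add, Quaternion.imJ_sub, Quaternion.imJ_smul, Quaternion.imK_add,
    Quaternion.imK_sub, Quaternion.imK_smul, pm_re, pm_imI, pm_imJ, pm_imK, qv_re, qv_imI, qv_imJ,
    qv_imK, hb3, hb3I, hb3J, hb3K, smul_eq_mul, norm_sq_complex, Complex.mul_re, Complex.mul_im,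
    Complex.I_re, Complex.I_im] at e0 e1 e2 e3
  have z0 : QuaternionAlgebra.re (0 : ℍ[ℝ]) = 0 := rfl
  have z1 : QuaternionAlgebra.imI (0 : ℍ[ℝ]) = 0 := rfl
  have z2 : QuaternionAlgebra.imJ (0 : ℍ[ℝ]) = 0 := rfl
  have z3 : QuaternionAlgebra.imK (0 : ℍ[ℝ]) = 0 := rfl
  rw [z0] at e0
  rw [z1, Complex.zero_re] at e1
  rw [z2, Complex.zero_im] at e2
  rw [z3] at e3
  generalize w₀.re = x₀ at *
  generalize w₀.im = y₀ at *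
  generalize w₁.re = x₁ at *
  generalize w₁.im = y₁ at *
  generalize w₂.re = x₂ at *
  generalize w₂.im = y₂ at *
  have e0' : c * b ^ 3 = 0 := by linarith
  have fin : ∀ X Y : ℝ, X * x₁ - Y * y₁ = 0 → X * y₁ + Y * x₁ = 0 → X = 0 ∧ Y = 0 := by
    intro X Y h1 h2
    have hX : X * (x₁ ^ 2 + y₁ ^ 2) = 0 := by linear_combination x₁ * h1 + y₁ * h2
    have hY : Y * (x₁ ^ 2 + y₁ ^ 2) = 0 := by linear_combination x₁ * h2 - y₁ * h1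
    exact ⟨(mul_eq_zero.1 hX).resolve_right hn.ne', (mul_eq_zero.1 hY).resolve_right hn.ne'⟩
  rcases mul_eq_zero.1 e0' with hc | hb
  · subst hc
    obtain ⟨hX, hY⟩ := fin (a * A - b * B) (a * B + b * A) (by linear_combination e1)
      (by linear_combination e2)
    have hab : 0 < a ^ 2 + b ^ 2 := by
      rcases eq_or_ne a 0 with ha | ha
      · rcases eq_or_ne b 0 with hb | hb
        · exact absurd (by rw [ha, hb]; rfl) hv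
        · positivity
      · positivity
    have hA : A * (a ^ 2 + b ^ 2) = 0 := by linear_combination a * hX + b * hY
    have hB : B * (a ^ 2 + b ^ 2) = 0 := by linear_combination a * hY - b * hX
    rw [(mul_eq_zero.1 hA).resolve_right hab.ne', (mul_eq_zero.1 hB).resolve_right hab.ne']
    rfl
  · have hb0 : b = 0 := pow_eq_zero_iff (by norm_num) |>.1 hb
    subst hb0
    have ha : a ≠ 0 := fun ha => hv (by rw [ha]; rfl)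
    have hc : c * a ^ 3 * (x₁ ^ 2 + y₁ ^ 2) = 0 := by
      linear_combination -e3 - x₀ * e1 - y₀ * e2
    have hc0 : c = 0 := by
      have h1 := (mul_eq_zero.1 hc).resolve_right hn.ne'
      exact (mul_eq_zero.1 h1).resolve_right (pow_ne_zero 3 ha)
    subst hc0
    obtain ⟨hX, hY⟩ := fin (a * A) (a * B) (by linear_combination e1) (by linear_combination e2)
    rw [(mul_eq_zero.1 hX).resolve_left ha, (mul_eq_zero.1 hY).resolve_left ha]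
    rfl

theorem continuous_locMap : Continuous fun y : (ℂ × ℂ × ℂ) × ℍ[ℝ] × (ℝ × ℝ) × (ℝ × ℝ × ℝ) =>
    locMap y.1.1 y.1.2.1 y.1.2.2 y.2.1 y.2.2.1 y.2.2.2 := by
  have hP : ∀ (f : (ℂ × ℂ × ℂ) × ℍ[ℝ] × (ℝ × ℝ) × (ℝ × ℝ × ℝ) → ℂ)
      (g : (ℂ × ℂ × ℂ) × ℍ[ℝ] × (ℝ × ℝ) × (ℝ × ℝ × ℝ) → ℝ × ℂ), Continuous f → Continuous g →
      Continuous fun y => Pm (f y) (g y) := fun f g hf hg => (continuous_Pm.comp hf).clm_apply hg
  have hqv : Continuous qv := by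
    let L : ℝ × ℂ →ₗ[ℝ] ℍ[ℝ] := ⟨⟨qv, qv_add⟩, qv_smul⟩
    exact (LinearMap.toContinuousLinearMap L).continuous
  have hQ : ∀ g : (ℂ × ℂ × ℂ) × ℍ[ℝ] × (ℝ × ℝ) × (ℝ × ℝ × ℝ) → ℝ × ℂ, Continuous g →
      Continuous fun y => qv (g y) := fun g hg => hqv.comp hg
  have h1 := hP (fun y => y.1.1) (fun y => (0, y.1.2.1)) (by fun_prop) (by fun_prop)
  have h2 := hP (fun y => y.1.1) (fun y => (0, Complex.I * y.1.2.1)) (by fun_prop) (by fun_prop)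
  have h3 := hP (fun y => y.1.1) (fun y => (0, y.1.2.2)) (by fun_prop) (by fun_prop)
  have h4 := hP (fun y => y.1.1) (fun y => (0, Complex.I * y.1.2.2)) (by fun_prop) (by fun_prop)
  have h5 := hQ (fun y => (0, y.1.2.1)) (by fun_prop)
  have h6 := hQ (fun y => (0, y.1.2.2)) (by fun_prop)
  have h7 : Continuous fun y : (ℂ × ℂ × ℂ) × ℍ[ℝ] × (ℝ × ℝ) × (ℝ × ℝ × ℝ) =>
      ((y.2.2.1.2 ^ 3 : ℝ) : ℍ[ℝ]) := by
    have : Continuous fun r : ℝ => (r : ℍ[ℝ]) := Quaternion.continuous_coe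
    exact this.comp (by fun_prop)
  have hμ : Continuous fun y : (ℂ × ℂ × ℂ) × ℍ[ℝ] × (ℝ × ℝ) × (ℝ × ℝ × ℝ) => y.2.1 := by fun_prop
  have ca : Continuous fun y : (ℂ × ℂ × ℂ) × ℍ[ℝ] × (ℝ × ℝ) × (ℝ × ℝ × ℝ) => y.2.2.1.1 := by
    fun_prop
  have cb : Continuous fun y : (ℂ × ℂ × ℂ) × ℍ[ℝ] × (ℝ × ℝ) × (ℝ × ℝ × ℝ) => y.2.2.1.2 := by
    fun_prop
  have cA : Continuous fun y : (ℂ × ℂ × ℂ) × ℍ[ℝ] × (ℝ × ℝ) × (ℝ × ℝ × ℝ) => y.2.2.2.1 := by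
    fun_prop
  have cB : Continuous fun y : (ℂ × ℂ × ℂ) × ℍ[ℝ] × (ℝ × ℝ) × (ℝ × ℝ × ℝ) => y.2.2.2.2.1 := by
    fun_prop
  have cc : Continuous fun y : (ℂ × ℂ × ℂ) × ℍ[ℝ] × (ℝ × ℝ) × (ℝ × ℝ × ℝ) => y.2.2.2.2.2 := by
    fun_prop
  have cn : Continuous fun y : (ℂ × ℂ × ℂ) × ℍ[ℝ] × (ℝ × ℝ) × (ℝ × ℝ × ℝ) => ‖y.1.2.1‖ ^ 2 := by
    fun_prop
  have t1 := (ca.mul cA).smul h1
  have t2 := ((ca.mul cB).add (cb.mul cA)).smul h2
  have t3 := (cb.mul cB).smul h5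
  have t4 := (ca.pow 3).smul (((h3.const_smul (2 : ℝ)).add (hμ.mul h1)).sub
    (cn.smul (continuous_const (y := qv (1, 0)))))
  have t5 := ((continuous_const (y := (3 : ℝ))).mul (ca.pow 2)).mul cb |>.smul
    ((h4.const_smul (2 : ℝ)).add (hμ.mul h2))
  have t6 := ((continuous_const (y := (3 : ℝ))).mul ca).mul (cb.pow 2) |>.smul
    ((hμ.mul h5).add h6)
  exact ((t1.add t2).sub t3).add (cc.smul (((t4.add t5).sub t6).add h7))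

theorem locMap_smul (w₀ w₁ w₂ : ℂ) (μ : ℍ[ℝ]) (v : ℝ × ℝ) (r : ℝ) (x : ℝ × ℝ × ℝ) :
    locMap w₀ w₁ w₂ μ v (r • x) = r • locMap w₀ w₁ w₂ μ v x := by
  unfold locMap
  simp only [Prod.smul_fst, Prod.smul_snd, smul_eq_mul]
  module

theorem locMap_scale (w₀ w₁ w₂ : ℂ) (μ : ℍ[ℝ]) (v : ℝ × ℝ) (r A B c : ℝ) :
    locMap w₀ w₁ w₂ μ (r • v) (A, B, c) = locMap w₀ w₁ w₂ μ v (r * A, r * B, r ^ 3 * c) := by
  have h7 : (((r • v).2 ^ 3 : ℝ) : ℍ[ℝ]) = r ^ 3 • ((v.2 ^ 3 : ℝ) : ℍ[ℝ]) := by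
    rw [Prod.smul_snd, smul_eq_mul, mul_pow, Quaternion.coe_mul, Quaternion.coe_mul_eq_smul]
  unfold locMap
  rw [h7]
  simp only [Prod.smul_fst, Prod.smul_snd, smul_eq_mul]
  module

theorem loc_small {J : Set (ℂ × ℂ × ℂ)} (hJ : IsCompact J) (h : ∀ z ∈ J, z.2.1 ≠ 0) :
    ∃ δ : ℝ, 0 < δ ∧ ∀ z ∈ J, ∀ μ : ℍ[ℝ], ‖μ‖ < δ → ∀ v : ℝ × ℝ, v ≠ 0 → ∀ x : ℝ × ℝ × ℝ,
      locMap z.1 z.2.1 z.2.2 μ v x = 0 → x = 0 := by
  -- the compact set of all the parameters, and the zeros in it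
  set K : Set ((ℂ × ℂ × ℂ) × ℍ[ℝ] × (ℝ × ℝ) × (ℝ × ℝ × ℝ)) :=
    J ×ˢ (Metric.closedBall (0 : ℍ[ℝ]) 1 ×ˢ (Metric.sphere (0 : ℝ × ℝ) 1 ×ˢ
      Metric.sphere (0 : ℝ × ℝ × ℝ) 1)) with hK
  have hKc : IsCompact K :=
    hJ.prod ((isCompact_closedBall _ _).prod ((isCompact_sphere _ _).prod (isCompact_sphere _ _)))
  set Z : Set ((ℂ × ℂ × ℂ) × ℍ[ℝ] × (ℝ × ℝ) × (ℝ × ℝ × ℝ)) :=
    {y | locMap y.1.1 y.1.2.1 y.1.2.2 y.2.1 y.2.2.1 y.2.2.2 = 0} with hZ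
  have hZc : IsClosed Z := isClosed_eq continuous_locMap continuous_const
  have hG : IsCompact (K ∩ Z) := hKc.inter_right hZc
  have hne : ∀ y ∈ K ∩ Z, 0 < ‖y.2.1‖ := by
    rintro ⟨z, μ, v, x⟩ ⟨⟨hz, hμ, hv, hx⟩, hy⟩
    rw [norm_pos_iff]
    intro h0
    have h0' : μ = 0 := h0
    subst h0'
    have hv0 : v ≠ 0 := by
      intro hv0
      have : ‖v‖ = 1 := by simpa using hv
      rw [hv0, norm_zero] at this
      norm_num at this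
    have hx0 : x = 0 := loc_zero (h z hz) hv0 hy
    have : ‖x‖ = 1 := by simpa using hx
    rw [hx0, norm_zero] at this
    norm_num at this
  obtain ⟨δ, hδ, hδ1, hδG⟩ : ∃ δ : ℝ, 0 < δ ∧ δ ≤ 1 ∧ ∀ y ∈ K ∩ Z, δ ≤ ‖y.2.1‖ := by
    rcases (K ∩ Z).eq_empty_or_nonempty with he | he
    · exact ⟨1, one_pos, le_rfl, by rw [he]; simp⟩
    · obtain ⟨y₀, hy₀, hmin⟩ := hG.exists_isMinOn he
        (f := fun y => ‖y.2.1‖) (by fun_prop)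
      refine ⟨min 1 ‖y₀.2.1‖, lt_min one_pos (hne y₀ hy₀), min_le_left _ _, ?_⟩
      intro y hy
      exact (min_le_right _ _).trans (hmin hy)
  refine ⟨δ, hδ, ?_⟩
  intro z hz μ hμ v hv x hx
  by_contra hx0
  obtain ⟨A, B, c⟩ := x
  set r : ℝ := ‖v‖ with hr
  have hr0 : 0 < r := norm_pos_iff.2 hv
  set v' : ℝ × ℝ := r⁻¹ • v with hv'
  have hvv : v = r • v' := by rw [hv', smul_smul, mul_inv_cancel₀ hr0.ne', one_smul]
  have hv'1 : ‖v'‖ = 1 := by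
    rw [hv', norm_smul, Real.norm_eq_abs, abs_of_pos (by positivity), ← hr,
      inv_mul_cancel₀ hr0.ne']
  rw [hvv, locMap_scale] at hx
  set x' : ℝ × ℝ × ℝ := (r * A, r * B, r ^ 3 * c) with hx'
  have hx'0 : x' ≠ 0 := by
    intro h0
    apply hx0
    have h1 : r * A = 0 := congrArg Prod.fst h0
    have h2 : r * B = 0 := congrArg (fun q : ℝ × ℝ × ℝ => q.2.1) h0
    have h3 : r ^ 3 * c = 0 := congrArg (fun q : ℝ × ℝ × ℝ => q.2.2) h0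
    rw [(mul_eq_zero.1 h1).resolve_left hr0.ne', (mul_eq_zero.1 h2).resolve_left hr0.ne',
      (mul_eq_zero.1 h3).resolve_left (pow_ne_zero 3 hr0.ne')]
    rfl
  have hn0 : 0 < ‖x'‖ := norm_pos_iff.2 hx'0
  have hx1 : ‖‖x'‖⁻¹ • x'‖ = 1 := by
    rw [norm_smul, Real.norm_eq_abs, abs_of_pos (by positivity), inv_mul_cancel₀ hn0.ne']
  have hloc : locMap z.1 z.2.1 z.2.2 μ v' (‖x'‖⁻¹ • x') = 0 := by
    rw [locMap_smul, hx, smul_zero]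
  have := hδG (z, μ, v', ‖x'‖⁻¹ • x') ⟨⟨hz, by
    simpa using (hμ.le.trans hδ1), by simpa using hv'1, by simpa using hx1⟩, hloc⟩
  exact absurd hμ (not_lt.2 this)

end Pool.Agent.TotallySkew.Ori
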