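import Pool.Agent.TotallySkew.Ori.PX
import Pool.Agent.TotallySkew.Ori.MM
import Pool.Agent.TotallySkew.Ori.W2

/-!
SM: facts on the strip map strip p w (s, y) =
(W, Mm s (1, W) + p s * (qv (0, -y²/2 w' s) + y³/6)), W = w s + y i w' s.
-/

open scoped ContDiff Quaternion
open Function Set

namespace Pool.Agent.TotallySkew.Ori

section general
variable {p : ℝ → ℍ[ℝ]} {w : ℝ → ℂ}

/-- `qv` as a continuous linear map -/
noncomputable def SM_qvL : ℝ × ℂ →L[ℝ] ℍ[ℝ] :=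
  LinearMap.toContinuousLinearMap
    { toFun := qv
      map_add' := qv_add
      map_smul' := fun r v => qv_smul r v }

theorem SM_qvL_apply (v : ℝ × ℂ) : SM_qvL v = qv v := rfl

/-- the first component of the strip -/
noncomputable def SM_W (w : ℝ → ℂ) (q : ℝ × ℝ) : ℂ := w q.1 + q.2 • (Complex.I * deriv w q.1)

/-- the correction term of the strip -/
noncomputable def SM_C (p : ℝ → ℍ[ℝ]) (w : ℝ → ℂ) (q : ℝ × ℝ) : ℍ[ℝ] :=
  p q.1 * (qv (0, (-(1 / 2) * q.2 ^ 2) • deriv w q.1) + ((1 / 6) * q.2 ^ 3 : ℝ))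

theorem SM_strip_eq (q : ℝ × ℝ) : strip p w q = (SM_W w q,
    Mm p w q.1 (1, SM_W w q) + SM_C p w q) := rfl

theorem SM_contDiff_deriv (hw : ContDiff ℝ ∞ w) : ContDiff ℝ ∞ (deriv w) :=
  (contDiff_infty_iff_deriv.1 hw).2

theorem SM_contDiff_W (hw : ContDiff ℝ ∞ w) : ContDiff ℝ ∞ (SM_W w) := by
  unfold SM_W
  exact (hw.comp contDiff_fst).add
    (contDiff_snd.smul (contDiff_const.mul ((SM_contDiff_deriv hw).comp contDiff_fst)))

theorem SM_contDiff_C (hp : ContDiff ℝ ∞ p) (hw : ContDiff ℝ ∞ w) : ContDiff ℝ ∞ (SM_C p w) := by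
  have h1 : ContDiff ℝ ∞ fun q : ℝ × ℝ => (-(1 / 2) * q.2 ^ 2) • deriv w q.1 :=
    (contDiff_const.mul (contDiff_snd.pow 2)).smul ((SM_contDiff_deriv hw).comp contDiff_fst)
  have h2 : ContDiff ℝ ∞ fun q : ℝ × ℝ => SM_qvL (0, (-(1 / 2) * q.2 ^ 2) • deriv w q.1) :=
    SM_qvL.contDiff.comp (contDiff_const.prodMk h1)
  have h3 : ContDiff ℝ ∞ fun q : ℝ × ℝ => (((1 / 6) * q.2 ^ 3 : ℝ) : ℍ[ℝ]) := by
    have : (fun q : ℝ × ℝ => (((1 / 6) * q.2 ^ 3 : ℝ) : ℍ[ℝ])) =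
        fun q : ℝ × ℝ => ((1 / 6) * q.2 ^ 3 : ℝ) • (1 : ℍ[ℝ]) := by
      funext q
      rw [← Quaternion.coe_mul_eq_smul, mul_one]
    rw [this]
    exact (contDiff_const.mul (contDiff_snd.pow 3)).smul contDiff_const
  have h4 : ContDiff ℝ ∞ fun q : ℝ × ℝ => p q.1 := hp.comp contDiff_fst
  exact h4.mul (h2.add h3)

theorem contDiff_strip (hp : ContDiff ℝ ∞ p) (hw : ContDiff ℝ ∞ w) :
    ContDiff ℝ ∞ (strip p w) := by
  have h1 := SM_contDiff_W hw
  have h2 : ContDiff ℝ ∞ fun q : ℝ × ℝ => Mm p w q.1 := (contDiff_Mm hp hw).comp contDiff_fst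
  have h3 : ContDiff ℝ ∞ fun q : ℝ × ℝ => ((1 : ℝ), SM_W w q) := contDiff_const.prodMk h1
  have h4 : ContDiff ℝ ∞ fun q : ℝ × ℝ => Mm p w q.1 (1, SM_W w q) := h2.clm_apply h3
  have h5 := SM_contDiff_C hp hw
  exact h1.prodMk (h4.add h5)

theorem SM_d1 (hp : ContDiff ℝ ∞ p) (hw : ContDiff ℝ ∞ w) (s : ℝ) :
    fderiv ℝ (strip p w) (s, 0) (1, 0) = (deriv w s, Mm p w s (0, deriv w s)) := by
  have hf : HasFDerivAt (strip p w) (fderiv ℝ (strip p w) (s, 0)) (s, 0) :=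
    ((contDiff_strip hp hw).differentiable (by norm_num) _).hasFDerivAt
  have hc : HasDerivAt (fun t : ℝ => (t, (0 : ℝ))) (1, 0) s :=
    (hasDerivAt_id s).prodMk (hasDerivAt_const s 0)
  have h1 := hf.comp_hasDerivAt s hc
  have e : (strip p w ∘ fun t : ℝ => (t, (0 : ℝ))) = fun t => (w t, Mm p w t (1, w t)) := by
    funext t
    show strip p w (t, 0) = _
    rw [SM_strip_eq]
    have hW : SM_W w (t, 0) = w t := by simp [SM_W]
    have hC : SM_C p w (t, 0) = 0 := by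
      unfold SM_C
      rw [← SM_qvL_apply]
      simp
      exact Or.inr (map_zero SM_qvL)
    rw [hW, hC, add_zero]
  rw [e] at h1
  have hwd : HasDerivAt w (deriv w s) s := (hw.differentiable (by norm_num) s).hasDerivAt
  have h2 : HasDerivAt (fun t : ℝ => ((1 : ℝ), w t)) (0, deriv w s) s :=
    (hasDerivAt_const s (1 : ℝ)).prodMk hwd
  have h3 : HasDerivAt (fun t => Mm p w t (1, w t))
      (dM p w s (1, w s) + Mm p w s (0, deriv w s)) s :=
    HasDerivAt.clm_apply (hasDerivAt_Mm hp.continuous hw.continuous s) h2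
  rw [dM_apply, Pm_self, mul_zero, zero_add] at h3
  exact h1.unique (hwd.prodMk h3)

theorem SM_d2 (hp : ContDiff ℝ ∞ p) (hw : ContDiff ℝ ∞ w) (s : ℝ) :
    fderiv ℝ (strip p w) (s, 0) (0, 1) =
      (Complex.I * deriv w s, Mm p w s (0, Complex.I * deriv w s)) := by
  have hf : HasFDerivAt (strip p w) (fderiv ℝ (strip p w) (s, 0)) (s, 0) :=
    ((contDiff_strip hp hw).differentiable (by norm_num) _).hasFDerivAt
  have hc : HasDerivAt (fun t : ℝ => (s, t)) (0, 1) 0 :=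
    (hasDerivAt_const (0 : ℝ) s).prodMk (hasDerivAt_id 0)
  have h1 := HasFDerivAt.comp_hasDerivAt (0 : ℝ) hf hc
  have hW : HasDerivAt (fun y : ℝ => w s + y • (Complex.I * deriv w s))
      (Complex.I * deriv w s) 0 := by
    have := ((hasDerivAt_id (0 : ℝ)).smul_const (Complex.I * deriv w s)).const_add (w s)
    simpa using this
  have h2 : HasDerivAt (fun y : ℝ => ((1 : ℝ), w s + y • (Complex.I * deriv w s)))
      (0, Complex.I * deriv w s) 0 := (hasDerivAt_const (0 : ℝ) (1 : ℝ)).prodMk hW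
  have h3 : HasDerivAt (fun y : ℝ => Mm p w s (1, w s + y • (Complex.I * deriv w s)))
      (Mm p w s (0, Complex.I * deriv w s)) 0 :=
    HasFDerivAt.comp_hasDerivAt (0 : ℝ) (Mm p w s).hasFDerivAt h2
  have h4 : HasDerivAt (fun y : ℝ => SM_C p w (s, y)) 0 0 := by
    have e : (fun y : ℝ => SM_C p w (s, y)) = fun y : ℝ =>
        y ^ 2 • (p s * SM_qvL (0, (-(1 / 2) : ℝ) • deriv w s)) + y ^ 3 • ((1 / 6 : ℝ) • p s) := by
      funext y
      have e1 : ((0 : ℝ), (-(1 / 2) * y ^ 2) • deriv w s) =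
          y ^ 2 • ((0 : ℝ), (-(1 / 2) : ℝ) • deriv w s) := by
        rw [Prod.smul_mk, smul_zero, smul_smul, mul_comm]
      show p s * (qv (0, (-(1 / 2) * y ^ 2) • deriv w s) + ((1 / 6) * y ^ 3 : ℝ)) = _
      rw [← SM_qvL_apply, e1, map_smul, mul_add, mul_smul_comm, Quaternion.mul_coe_eq_smul,
        smul_smul, mul_comm (y ^ 3)]
    rw [e]
    have h5 : HasDerivAt (fun y : ℝ => y ^ 2) 0 0 := by
      simpa using hasDerivAt_pow 2 (0 : ℝ)
    have h6 : HasDerivAt (fun y : ℝ => y ^ 3) 0 0 := by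
      simpa using hasDerivAt_pow 3 (0 : ℝ)
    have h7 := (h5.smul_const (p s * SM_qvL (0, (-(1 / 2) : ℝ) • deriv w s))).add
      (h6.smul_const ((1 / 6 : ℝ) • p s))
    simp only [zero_smul, add_zero] at h7
    exact h7
  have h8 := hW.prodMk (h3.add h4)
  rw [add_zero] at h8
  exact h1.unique h8

theorem SM_fderiv (hp : ContDiff ℝ ∞ p) (hw : ContDiff ℝ ∞ w) (s : ℝ) (v : ℝ × ℝ) :
    fderiv ℝ (strip p w) (s, 0) v =
      (v.1 • deriv w s + v.2 • (Complex.I * deriv w s),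
        Mm p w s (0, v.1 • deriv w s + v.2 • (Complex.I * deriv w s))) := by
  have e : v = v.1 • ((1 : ℝ), (0 : ℝ)) + v.2 • ((0 : ℝ), (1 : ℝ)) := by
    ext <;> simp
  have e2 : ((0 : ℝ), v.1 • deriv w s + v.2 • (Complex.I * deriv w s)) =
      v.1 • ((0 : ℝ), deriv w s) + v.2 • ((0 : ℝ), Complex.I * deriv w s) := by
    rw [Prod.smul_mk, Prod.smul_mk, Prod.mk_add_mk, smul_zero, smul_zero, add_zero]
  rw [e2, map_add, map_smul, map_smul]
  conv_lhs => rw [e]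
  rw [map_add, map_smul, map_smul, SM_d1 hp hw, SM_d2 hp hw, Prod.smul_mk, Prod.smul_mk,
    Prod.mk_add_mk]

theorem carries_strip (hp : ContDiff ℝ ∞ p) (hw : ContDiff ℝ ∞ w) {s : ℝ}
    (h : deriv w s ≠ 0) : Carries (strip p w) (s, 0) (Mm p w s) := by
  refine ⟨?_, fun v => ?_, fun v v' hv => ?_⟩
  · rw [SM_strip_eq]
    have hC : SM_C p w (s, 0) = 0 := by
      unfold SM_C
      rw [← SM_qvL_apply]
      simp
      exact Or.inr (map_zero SM_qvL)
    rw [hC, add_zero]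
  · rw [SM_fderiv hp hw]
  · simp only [SM_fderiv hp hw] at hv
    have h1 : ((v.1 - v'.1 : ℝ) + (v.2 - v'.2 : ℝ) * Complex.I) * deriv w s = 0 := by
      have h2 : (v.1 : ℂ) * deriv w s + (v.2 : ℂ) * (Complex.I * deriv w s) =
          (v'.1 : ℂ) * deriv w s + (v'.2 : ℂ) * (Complex.I * deriv w s) := by
        simpa [Complex.real_smul] using hv
      push_cast
      linear_combination h2
    rcases mul_eq_zero.1 h1 with h3 | h3
    · have h4 := congrArg Complex.re h3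
      have h5 := congrArg Complex.im h3
      simp at h4 h5
      ext
      · linarith
      · linarith
    · exact absurd h3 h

end general

variable {K : ℕ}

theorem SM_pp_shift2 (hK : Odd K) (s : ℝ) : pp K (s + 2 * (K * Real.pi)) = pp K s := by
  have e : s + 2 * (K * Real.pi) = (s + K * Real.pi) + K * Real.pi := by ring
  rw [e, pp_shift hK.pos, pp_shift hK.pos, neg_neg]

theorem SM_ww_shift2 (hK : Odd K) (s : ℝ) : ww K (s + 2 * (K * Real.pi)) = ww K s := by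
  have e : s + 2 * (K * Real.pi) = (s + K * Real.pi) + K * Real.pi := by ring
  rw [e, ww_shift hK, ww_shift hK]

theorem SM_dww_shift (hK : Odd K) (s : ℝ) :
    deriv (ww K) (s + K * Real.pi) = deriv (ww K) s := by
  have h1 : deriv (fun x => ww K (x + K * Real.pi)) s = deriv (ww K) (s + K * Real.pi) :=
    deriv_comp_add_const _ _ _
  rw [← h1]
  congr 1
  funext x
  exact ww_shift hK x

theorem SM_dww_shift2 (hK : Odd K) (s : ℝ) :
    deriv (ww K) (s + 2 * (K * Real.pi)) = deriv (ww K) s := by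
  have e : s + 2 * (K * Real.pi) = (s + K * Real.pi) + K * Real.pi := by ring
  rw [e, SM_dww_shift hK, SM_dww_shift hK]

theorem strip_per (hK : Odd K) (s y : ℝ) :
    strip (pp K) (ww K) (s + 2 * (K * Real.pi), y) = strip (pp K) (ww K) (s, y) := by
  have h1 := Mm_per (contDiff_pp K).continuous (contDiff_ww hK).continuous
    (pp_shift hK.pos) (ww_shift hK) s 1
  rw [Int.cast_one, one_mul] at h1
  have hW : SM_W (ww K) (s + 2 * (K * Real.pi), y) = SM_W (ww K) (s, y) := by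
    unfold SM_W
    simp only [SM_ww_shift2 hK, SM_dww_shift2 hK]
  have hC : SM_C (pp K) (ww K) (s + 2 * (K * Real.pi), y) = SM_C (pp K) (ww K) (s, y) := by
    unfold SM_C
    simp only [SM_pp_shift2 hK, SM_dww_shift2 hK]
  rw [SM_strip_eq, SM_strip_eq, hW, hC]
  simp only [h1]

theorem SM_Kpi (hK : Odd K) : 3 < K * Real.pi := by
  have h1 : (1 : ℝ) ≤ K := by exact_mod_cast hK.pos
  have h2 := Real.pi_gt_three
  nlinarith

theorem SM_ww_straight (hK : Odd K) {s : ℝ} (hs : |s| < 1 / 10) : ww K s = s := by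
  have h := ww_eq hK 0 (s := s) (by
    have := SM_Kpi hK
    simp only [Int.cast_zero, zero_mul, sub_zero]
    linarith)
  simp only [Int.cast_zero, zero_mul, sub_zero] at h
  rw [h, winf_of_le_tenth hs.le]

theorem SM_dww_straight (hK : Odd K) {s : ℝ} (hs : |s| < 1 / 10) : deriv (ww K) s = 1 := by
  have h : ww K =ᶠ[nhds s] fun t : ℝ => (t : ℂ) := by
    have ho : {t : ℝ | |t| < 1 / 10} ∈ nhds s :=
      (isOpen_lt continuous_abs continuous_const).mem_nhds hs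
    filter_upwards [ho] with t ht
    exact SM_ww_straight hK ht
  rw [h.deriv_eq]
  exact (Complex.ofRealCLM.hasDerivAt (x := s)).deriv

theorem SM_pp_straight (hK : Odd K) {s : ℝ} (hs : |s| < 1 / 10) : pp K s = 1 := by
  apply pp_one hK.pos
  have := SM_Kpi hK
  have e : (K : ℝ) * (Real.pi / 3) = K * Real.pi / 3 := by ring
  rw [e]
  linarith

/-- a quaternion with the given components -/
def SM_q (a b c d : ℝ) : ℍ[ℝ] := ⟨a, b, c, d⟩

theorem SM_q_re (a b c d : ℝ) : (SM_q a b c d).re = a := rfl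
theorem SM_q_imI (a b c d : ℝ) : (SM_q a b c d).imI = b := rfl
theorem SM_q_imJ (a b c d : ℝ) : (SM_q a b c d).imJ = c := rfl
theorem SM_q_imK (a b c d : ℝ) : (SM_q a b c d).imK = d := rfl

theorem SM_q_add (a b c d a' b' c' d' : ℝ) :
    SM_q a b c d + SM_q a' b' c' d' = SM_q (a + a') (b + b') (c + c') (d + d') := by
  apply Quaternion.ext <;> rfl

theorem SM_q_neg (a b c d : ℝ) : -SM_q a b c d = SM_q (-a) (-b) (-c) (-d) := by
  apply Quaternion.ext <;> rfl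

theorem SM_q_smul (r a b c d : ℝ) : r • SM_q a b c d = SM_q (r * a) (r * b) (r * c) (r * d) := by
  apply Quaternion.ext <;> rfl

theorem SM_Mm_straight (hK : Odd K) {s : ℝ} (y : ℝ) (hs : |s| < 1 / 10) :
    Mm (pp K) (ww K) s (1, ⟨s, y⟩) = SM_q 0 (s ^ 2 / 2) (s * y) (-(s ^ 3) / 6) := by
  rw [Mm_apply (contDiff_pp K).continuous (contDiff_ww hK).continuous]
  set A := SM_q 0 s y 0 with hA
  set B := SM_q 0 (-1 / 2) 0 (-s / 2) with hB
  set C := SM_q 0 0 0 (1 / 3) with hC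
  have hG : ∀ σ : ℝ, HasDerivAt (fun σ : ℝ => σ • A + σ ^ 2 • B + σ ^ 3 • C)
      (A + (2 * σ) • B + (3 * σ ^ 2) • C) σ := by
    intro σ
    have h1 : HasDerivAt (fun σ : ℝ => σ • A) A σ := by
      simpa using (hasDerivAt_id σ).smul_const A
    have h2 : HasDerivAt (fun σ : ℝ => σ ^ 2) (2 * σ) σ := by
      simpa using hasDerivAt_pow 2 σ
    have h3 : HasDerivAt (fun σ : ℝ => σ ^ 3) (3 * σ ^ 2) σ := by
      simpa using hasDerivAt_pow 3 σ
    exact (h1.add (h2.smul_const B)).add (h3.smul_const C)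
  have hcongr : ∫ σ in (0 : ℝ)..s, pp K σ * Pm (ww K σ) (1, ⟨s, y⟩) =
      ∫ σ in (0 : ℝ)..s, (A + (2 * σ) • B + (3 * σ ^ 2) • C) := by
    apply intervalIntegral.integral_congr
    intro σ hσ
    have hσ' : |σ| < 1 / 10 := by
      rw [abs_lt] at hs ⊢
      rcases le_total 0 s with h0 | h0
      · rw [uIcc_of_le h0] at hσ
        exact ⟨by linarith [hσ.1], by linarith [hσ.2, hs.2]⟩
      · rw [uIcc_of_ge h0] at hσ
        exact ⟨by linarith [hσ.1, hs.1], by linarith [hσ.2]⟩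
    show pp K σ * Pm (ww K σ) (1, ⟨s, y⟩) = A + (2 * σ) • B + (3 * σ ^ 2) • C
    rw [SM_pp_straight hK hσ', SM_ww_straight hK hσ', one_mul, hA, hB, hC, SM_q_smul, SM_q_smul,
      SM_q_add, SM_q_add]
    rw [Pm_apply]
    apply Quaternion.ext
    · show (0 : ℝ) = 0 + 2 * σ * 0 + 3 * σ ^ 2 * 0
      ring
    · show ((⟨s, y⟩ : ℂ) - (1 : ℝ) • (σ : ℂ)).re = s + 2 * σ * (-1 / 2) + 3 * σ ^ 2 * 0
      simp
      ring
    · show ((⟨s, y⟩ : ℂ) - (1 : ℝ) • (σ : ℂ)).im = y + 2 * σ * 0 + 3 * σ ^ 2 * 0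
      simp
    · show -ip (σ : ℂ) ((⟨s, y⟩ : ℂ) - (1 : ℝ) • (σ : ℂ)) =
        0 + 2 * σ * (-s / 2) + 3 * σ ^ 2 * (1 / 3)
      simp [ip]
      ring
  have hcont : Continuous fun σ : ℝ => (A + (2 * σ) • B + (3 * σ ^ 2) • C) := by
    fun_prop
  rw [hcongr, intervalIntegral.integral_eq_sub_of_hasDerivAt (fun σ _ => hG σ)
    (hcont.intervalIntegrable _ _)]
  rw [hA, hB, hC]
  simp only [SM_q_smul, SM_q_add, SM_q_neg, sub_eq_add_neg]
  apply Quaternion.ext
  · rw [SM_q_re, SM_q_re]; ring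
  · rw [SM_q_imI, SM_q_imI]; ring
  · rw [SM_q_imJ, SM_q_imJ]; ring
  · rw [SM_q_imK, SM_q_imK]; ring

theorem SM_C_straight {p : ℝ → ℍ[ℝ]} {w : ℝ → ℂ} {s : ℝ} (y : ℝ) (h : deriv w s = 1) :
    SM_C p w (s, y) = p s * SM_q (y ^ 3 / 6) (-(y ^ 2) / 2) 0 0 := by
  unfold SM_C
  simp only [h]
  congr 1
  apply Quaternion.ext
  · rw [Quaternion.re_add, Quaternion.re_coe, SM_q_re]
    show (0 : ℝ) + 1 / 6 * y ^ 3 = y ^ 3 / 6
    ring
  · rw [Quaternion.imI_add, Quaternion.imI_coe, SM_q_imI]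
    show ((-(1 / 2) * y ^ 2) • (1 : ℂ)).re + 0 = -(y ^ 2) / 2
    rw [Complex.smul_re, Complex.one_re, smul_eq_mul]
    ring
  · rw [Quaternion.imJ_add, Quaternion.imJ_coe, SM_q_imJ]
    show ((-(1 / 2) * y ^ 2) • (1 : ℂ)).im + 0 = 0
    rw [Complex.smul_im, Complex.one_im, smul_eq_mul]
    ring
  · rw [Quaternion.imK_add, Quaternion.imK_coe, SM_q_imK]
    show (0 : ℝ) + 0 = 0
    ring

theorem SM_W_straight {w : ℝ → ℂ} {s r : ℝ} (y : ℝ) (h0 : w s = r) (h : deriv w s = 1) :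
    SM_W w (s, y) = ⟨r, y⟩ := by
  unfold SM_W
  simp only [h0, h]
  apply Complex.ext
  · simp
  · simp

theorem SM_strip_straight (hK : Odd K) {s y : ℝ} (hs : |s| < 1 / 10) :
    strip (pp K) (ww K) (s, y) =
      (⟨s, y⟩, SM_q (y ^ 3 / 6) ((s ^ 2 - y ^ 2) / 2) (s * y) (-(s ^ 3) / 6)) := by
  rw [SM_strip_eq, SM_W_straight y (SM_ww_straight hK hs) (SM_dww_straight hK hs),
    SM_C_straight y (SM_dww_straight hK hs)]
  simp only
  rw [SM_Mm_straight hK y hs, SM_pp_straight hK hs, one_mul, SM_q_add]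
  congr 2 <;> ring

theorem strip_straight (hK : Odd K) {s y : ℝ} (hs : |s| < 1 / 10) :
    strip (pp K) (ww K) (s, y) =
      (⟨s, y⟩, ⟨y ^ 3 / 6, (s ^ 2 - y ^ 2) / 2, s * y, -(s ^ 3) / 6⟩) :=
  SM_strip_straight hK hs

theorem strip_cross (hK : Odd K) {x y : ℝ} (hx : |x| < 1 / 10) (hy : |y| < 1 / 10) :
    strip (pp K) (ww K) (K * Real.pi + x, y) =
      Gmap (Mm (pp K) (ww K) (K * Real.pi)) (strip (pp K) (ww K) (y, -x)) := by
  have e : (K : ℝ) * Real.pi + x = x + K * Real.pi := by ring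
  have hw1 : ww K (x + K * Real.pi) = x := by rw [ww_shift hK, SM_ww_straight hK hx]
  have hw2 : deriv (ww K) (x + K * Real.pi) = 1 := by
    rw [SM_dww_shift hK, SM_dww_straight hK hx]
  rw [e, SM_strip_eq, SM_W_straight y hw1 hw2, SM_C_straight y hw2, SM_strip_straight hK hy]
  simp only
  rw [Mm_shift (contDiff_pp K).continuous (contDiff_ww hK).continuous
    (pp_shift hK.pos) (ww_shift hK) x, pp_shift hK.pos, SM_pp_straight hK hx]
  unfold Gmap
  have hI : Complex.I * (⟨y, -x⟩ : ℂ) = ⟨x, y⟩ := by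
    apply Complex.ext <;> simp
  simp only [hI]
  have hsub : (Mm (pp K) (ww K) (K * Real.pi) - Mm (pp K) (ww K) x) ((1 : ℝ), (⟨x, y⟩ : ℂ)) =
      Mm (pp K) (ww K) (K * Real.pi) ((1 : ℝ), (⟨x, y⟩ : ℂ)) -
        Mm (pp K) (ww K) x ((1 : ℝ), (⟨x, y⟩ : ℂ)) := rfl
  have hG2 : G2 (SM_q ((-x) ^ 3 / 6) ((y ^ 2 - (-x) ^ 2) / 2) (y * -x) (-(y ^ 3) / 6)) =
      SM_q (-(y ^ 3) / 6) ((y ^ 2 - (-x) ^ 2) / 2) (y * -x) (-((-x) ^ 3 / 6)) := rfl
  rw [hsub, SM_Mm_straight hK y hx, hG2, neg_one_mul, SM_q_neg]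
  congr 1
  rw [add_comm (SM_q (-(y ^ 3) / 6) _ _ _), sub_eq_add_neg, add_assoc, SM_q_neg, SM_q_add]
  congr 2 <;> ring

end Pool.Agent.TotallySkew.Ori
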