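import Pool.Agent.TotallySkew.Ori.LB
import Pool.Agent.TotallySkew.Ori.JT
import Pool.Agent.TotallySkew.Ori.SM

/-!
LO: the third order condition along the core.

strip p w = polynomial strip with f₀ = (w, Mm (1, w)), f₁ = (i w', Mm (0, i w')),
f₂ = (0, -(1/2) p * qv (0, w')), f₃ = (0, (1/6) p). With T = Mm s, T' = dM s, T'' = derivative of dM:
(Mm (1, w))' = T (0, w') since T' (1, w) = 0 (Pm_self). So
f₀' = (w', T w'), f₀'' = (w'', T w'' + T' w'), f₀''' = (w''', T w''' + 2 T' w'' + T'' w'),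
f₁' = (i w'', T i w'' + T' i w'), f₁'' = (i w''', T i w''' + 2 T' i w'' + T'' i w'),
f₂' = (0, -(1/2)(p' w' + p w'')) (with x short for (0, x)), T' x = p * Pm w (0, x),
T'' x = p' * Pm w (0, x) - p * (ip w' x) k.
If cubMap = 0 (cubMap_polyStrip, v = (a, b)), apply the linear map (z, h) ↦ h - T (0, z) to it: all terms
with T disappear, and star p times the rest is locMap w w' w'' (star p * p') v (A, B, c), where (A, B) is
the second argument of the cubMap. So A = B = c = 0 by loc_small (J = the image of [-2, 2] under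
the 2-jet of winf, ww_jet, one_le_norm_deriv_winf; ‖star p * p'‖ ≤ C / K by exists_pp_deriv), and then
the first argument is zero since w', i w' are independent.
-/

open scoped ContDiff Quaternion
open Function Set

namespace Pool.Agent.TotallySkew.Ori

section deriv
variable {p : ℝ → ℍ[ℝ]} {w : ℝ → ℂ}

/-- The derivative of `dM p w` applied to `(0, x)`. -/
theorem lo_hasDerivAt_dM (hp : ContDiff ℝ ∞ p) (hw : ContDiff ℝ ∞ w) (s : ℝ) (x : ℂ) :
    HasDerivAt (fun s => dM p w s (0, x))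
      (deriv p s * Pm (w s) (0, x) + p s * ((-ip (deriv w s) x) • qv (1, 0))) s := by
  have h1 : HasDerivAt p (deriv p s) s := (hp.differentiable (by simp) s).hasDerivAt
  have h2 : HasDerivAt w (deriv w s) s := (hw.differentiable (by simp) s).hasDerivAt
  have h3 : HasDerivAt (fun s => Pm (w s) (0, x)) ((-ip (deriv w s) x) • qv (1, 0)) s := by
    have hre : HasDerivAt (fun s => (w s).re) (deriv w s).re s :=
      (Complex.reCLM.hasFDerivAt.comp_hasDerivAt s h2)
    have him : HasDerivAt (fun s => (w s).im) (deriv w s).im s :=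
      (Complex.imCLM.hasFDerivAt.comp_hasDerivAt s h2)
    have h4 : HasDerivAt (fun s => -(ip (w s) x)) (-(ip (deriv w s) x)) s := by
      unfold ip
      exact ((hre.mul_const x.re).add (him.mul_const x.im)).neg
    have h5 : (fun s => Pm (w s) (0, x)) = fun s => Pm 0 (0, x) + (-(ip (w s) x)) • qv (1, 0) := by
      funext t
      rw [Pm_apply, Pm_apply]
      ext <;> simp [qv, ip]
    rw [h5]
    exact (h4.smul_const (qv (1, 0))).const_add _
  exact h1.mul h3

theorem lo_hasDerivAt_T (hp : ContDiff ℝ ∞ p) (hw : ContDiff ℝ ∞ w) {x : ℝ → ℝ × ℂ} {x' : ℝ × ℂ}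
    {s : ℝ} (hx : HasDerivAt x x' s) :
    HasDerivAt (fun s => Mm p w s (x s)) (dM p w s (x s) + Mm p w s x') s :=
  (hasDerivAt_Mm hp.continuous hw.continuous s).clm_apply hx

theorem lo_hasDerivAt_dM_comp (hp : ContDiff ℝ ∞ p) (hw : ContDiff ℝ ∞ w) {x : ℝ → ℂ} {x' : ℂ}
    {s : ℝ} (hx : HasDerivAt x x' s) :
    HasDerivAt (fun s => dM p w s (0, x s))
      ((deriv p s * Pm (w s) (0, x s) + p s * ((-ip (deriv w s) (x s)) • qv (1, 0))) +
        dM p w s (0, x')) s := by
  have h1 : HasDerivAt (dM p w) (deriv (dM p w) s) s :=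
    ((contDiff_dM hp hw).differentiable (by simp) s).hasDerivAt
  have h2 : HasDerivAt (fun s => ((0 : ℝ), x s)) ((0 : ℝ), x') s := (hasDerivAt_const s 0).prodMk hx
  have h3 := h1.clm_apply h2
  have h4 : deriv (dM p w) s (0, x s) =
      deriv p s * Pm (w s) (0, x s) + p s * ((-ip (deriv w s) (x s)) • qv (1, 0)) := by
    have h5 := h1.clm_apply (hasDerivAt_const s ((0 : ℝ), x s))
    have h6 := lo_hasDerivAt_dM hp hw s (x s)
    have h7 := h5.unique h6
    simpa using h7
  rw [h4] at h3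
  exact h3

theorem lo_dM_self (s : ℝ) : dM p w s (1, w s) = 0 := by
  rw [dM_apply, Pm_self, mul_zero]

end deriv

/-- If `locMap` is injective at `s` then so is the cubic jet of the strip at `(s, 0)`. -/
theorem cubMap_strip_of_loc {p : ℝ → ℍ[ℝ]} {w : ℝ → ℂ} (hp : ContDiff ℝ ∞ p)
    (hw : ContDiff ℝ ∞ w) (hp1 : ∀ s, ‖p s‖ = 1) {s : ℝ} (hs : deriv w s ≠ 0) {v : ℝ × ℝ}
    (h : ∀ x : ℝ × ℝ × ℝ,
      locMap (w s) (deriv w s) (deriv (deriv w) s) (star (p s) * deriv p s) v x = 0 → x = 0) :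
    Injective (cubMap (strip p w) (ContinuousLinearMap.id ℝ (ℝ × ℝ)) (s, 0) v) := by
  have hw1 : ContDiff ℝ ∞ (deriv w) := ((contDiff_infty_iff_deriv).1 hw).2
  have hw2 : ContDiff ℝ ∞ (deriv (deriv w)) := ((contDiff_infty_iff_deriv).1 hw1).2
  have hp' : ContDiff ℝ ∞ (deriv p) := ((contDiff_infty_iff_deriv).1 hp).2
  have hT : ContDiff ℝ ∞ (Mm p w) := contDiff_Mm hp hw
  set f₀ : ℝ → ℂ × ℍ[ℝ] := fun s => (w s, Mm p w s (1, w s)) with hf₀
  set f₁ : ℝ → ℂ × ℍ[ℝ] := fun s => (Complex.I * deriv w s, Mm p w s (0, Complex.I * deriv w s))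
    with hf₁
  set f₂ : ℝ → ℂ × ℍ[ℝ] := fun s => (0, (-(1 / 2) : ℝ) • (p s * qv (0, deriv w s))) with hf₂
  set f₃ : ℝ → ℂ × ℍ[ℝ] := fun s => (0, (1 / 6 : ℝ) • p s) with hf₃
  have hqv : ContDiff ℝ ∞ (fun s => qv (0, deriv w s)) := by
    have : (fun s => qv (0, deriv w s)) = fun s => (deriv w s).re • qv (0, 1) +
        (deriv w s).im • qv (0, Complex.I) := by
      funext t
      ext <;> simp [qv]
    rw [this]
    have hre : ContDiff ℝ ∞ fun s => (deriv w s).re := Complex.reCLM.contDiff.comp hw1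
    have him : ContDiff ℝ ∞ fun s => (deriv w s).im := Complex.imCLM.contDiff.comp hw1
    exact (hre.smul contDiff_const).add (him.smul contDiff_const)
  have s0 : ContDiff ℝ ∞ f₀ := hw.prodMk (hT.clm_apply (contDiff_const.prodMk hw))
  have s1 : ContDiff ℝ ∞ f₁ := (contDiff_const.mul hw1).prodMk
    (hT.clm_apply (contDiff_const.prodMk (contDiff_const.mul hw1)))
  have s2 : ContDiff ℝ ∞ f₂ := contDiff_const.prodMk ((hp.mul hqv).const_smul (-(1 / 2) : ℝ))
  have s3 : ContDiff ℝ ∞ f₃ := contDiff_const.prodMk (hp.const_smul (1 / 6 : ℝ))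
  have hstrip : strip p w = fun q : ℝ × ℝ =>
      f₀ q.1 + q.2 • f₁ q.1 + q.2 ^ 2 • f₂ q.1 + q.2 ^ 3 • f₃ q.1 := by
    funext q
    have e1 : Mm p w q.1 (1, w q.1 + q.2 • (Complex.I * deriv w q.1)) =
        Mm p w q.1 (1, w q.1) + q.2 • Mm p w q.1 (0, Complex.I * deriv w q.1) := by
      rw [← map_smul, ← map_add]
      congr 1
      ext <;> simp
    have e2 : p q.1 * (qv (0, (-(1 / 2) * q.2 ^ 2) • deriv w q.1) +
        ((1 / 6 * q.2 ^ 3 : ℝ) : ℍ[ℝ])) =
        q.2 ^ 2 • ((-(1 / 2) : ℝ) • (p q.1 * qv (0, deriv w q.1))) +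
          q.2 ^ 3 • ((1 / 6 : ℝ) • p q.1) := by
      have e3 : qv (0, (-(1 / 2) * q.2 ^ 2) • deriv w q.1) =
          (-(1 / 2) * q.2 ^ 2) • qv (0, deriv w q.1) := by
        rw [← qv_smul]
        congr 1
        simp
      rw [e3, mul_add, mul_smul_comm, smul_smul, smul_smul]
      congr 1
      · congr 1
        ring
      · rw [Quaternion.mul_coe_eq_smul]
        congr 1
        ring
    rw [strip, e1, e2]
    simp only [hf₀, hf₁, hf₂, hf₃]
    ext : 1
    · simp
    · simp only [Prod.snd_add, Prod.smul_snd]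
      abel
  have d0 : ∀ s, HasDerivAt f₀ (deriv w s, Mm p w s (0, deriv w s)) s := by
    intro s
    have h1 : HasDerivAt w (deriv w s) s := (hw.differentiable (by simp) s).hasDerivAt
    have h2 : HasDerivAt (fun s => ((1 : ℝ), w s)) ((0 : ℝ), deriv w s) s :=
      (hasDerivAt_const s 1).prodMk h1
    have h3 := lo_hasDerivAt_T hp hw h2
    rw [lo_dM_self, zero_add] at h3
    exact h1.prodMk h3
  have e0 : deriv f₀ = fun s => (deriv w s, Mm p w s (0, deriv w s)) :=
    funext fun s => (d0 s).deriv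
  have hdw : ∀ s, HasDerivAt (deriv w) (deriv (deriv w) s) s := fun s =>
    (hw1.differentiable (by simp) s).hasDerivAt
  have hddw : ∀ s, HasDerivAt (deriv (deriv w)) (deriv (deriv (deriv w)) s) s := fun s =>
    (hw2.differentiable (by simp) s).hasDerivAt
  have hpair : ∀ {x : ℝ → ℂ} {x' : ℂ} {s : ℝ}, HasDerivAt x x' s →
      HasDerivAt (fun s => ((0 : ℝ), x s)) ((0 : ℝ), x') s := fun {x x' s} hx =>
    (hasDerivAt_const s 0).prodMk hx
  have d00 : ∀ s, HasDerivAt (deriv f₀) (deriv (deriv w) s,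
      dM p w s (0, deriv w s) + Mm p w s (0, deriv (deriv w) s)) s := by
    intro s
    rw [e0]
    exact (hdw s).prodMk (lo_hasDerivAt_T hp hw (hpair (hdw s)))
  have e00 : deriv (deriv f₀) = fun s => (deriv (deriv w) s,
      dM p w s (0, deriv w s) + Mm p w s (0, deriv (deriv w) s)) :=
    funext fun s => (d00 s).deriv
  have d000 : HasDerivAt (deriv (deriv f₀)) (deriv (deriv (deriv w)) s,
      ((deriv p s * Pm (w s) (0, deriv w s) +
        p s * ((-ip (deriv w s) (deriv w s)) • qv (1, 0))) + dM p w s (0, deriv (deriv w) s)) +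
      (dM p w s (0, deriv (deriv w) s) + Mm p w s (0, deriv (deriv (deriv w)) s))) s := by
    rw [e00]
    exact (hddw s).prodMk ((lo_hasDerivAt_dM_comp hp hw (hdw s)).add
      (lo_hasDerivAt_T hp hw (hpair (hddw s))))
  have hI : ∀ s, HasDerivAt (fun s => Complex.I * deriv w s) (Complex.I * deriv (deriv w) s) s :=
    fun s => (hdw s).const_mul _
  have hII : ∀ s, HasDerivAt (fun s => Complex.I * deriv (deriv w) s)
      (Complex.I * deriv (deriv (deriv w)) s) s := fun s => (hddw s).const_mul _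
  have d1 : ∀ s, HasDerivAt f₁ (Complex.I * deriv (deriv w) s,
      dM p w s (0, Complex.I * deriv w s) + Mm p w s (0, Complex.I * deriv (deriv w) s)) s := by
    intro s
    exact (hI s).prodMk (lo_hasDerivAt_T hp hw (hpair (hI s)))
  have e1 : deriv f₁ = fun s => (Complex.I * deriv (deriv w) s,
      dM p w s (0, Complex.I * deriv w s) + Mm p w s (0, Complex.I * deriv (deriv w) s)) :=
    funext fun s => (d1 s).deriv
  have d11 : HasDerivAt (deriv f₁) (Complex.I * deriv (deriv (deriv w)) s,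
      ((deriv p s * Pm (w s) (0, Complex.I * deriv w s) +
        p s * ((-ip (deriv w s) (Complex.I * deriv w s)) • qv (1, 0))) +
        dM p w s (0, Complex.I * deriv (deriv w) s)) +
      (dM p w s (0, Complex.I * deriv (deriv w) s) +
        Mm p w s (0, Complex.I * deriv (deriv (deriv w)) s))) s := by
    rw [e1]
    exact (hII s).prodMk ((lo_hasDerivAt_dM_comp hp hw (hI s)).add
      (lo_hasDerivAt_T hp hw (hpair (hII s))))
  have d2 : HasDerivAt f₂ (0, (-(1 / 2) : ℝ) • (deriv p s * qv (0, deriv w s) +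
      p s * qv (0, deriv (deriv w) s))) s := by
    have h1 : HasDerivAt p (deriv p s) s := (hp.differentiable (by simp) s).hasDerivAt
    have h2 : HasDerivAt (fun s => qv (0, deriv w s)) (qv (0, deriv (deriv w) s)) s := by
      have e : (fun s => qv (0, deriv w s)) = fun s => (deriv w s).re • qv (0, 1) +
          (deriv w s).im • qv (0, Complex.I) := by
        funext t
        ext <;> simp [qv]
      have e' : qv (0, deriv (deriv w) s) = (deriv (deriv w) s).re • qv (0, 1) +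
          (deriv (deriv w) s).im • qv (0, Complex.I) := by
        ext <;> simp [qv]
      rw [e, e']
      have hre : HasDerivAt (fun s => (deriv w s).re) (deriv (deriv w) s).re s :=
        (Complex.reCLM.hasFDerivAt.comp_hasDerivAt s (hdw s))
      have him : HasDerivAt (fun s => (deriv w s).im) (deriv (deriv w) s).im s :=
        (Complex.imCLM.hasFDerivAt.comp_hasDerivAt s (hdw s))
      exact (hre.smul_const _).add (him.smul_const _)
    exact (hasDerivAt_const s 0).prodMk ((h1.mul h2).const_smul (-(1 / 2) : ℝ))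
  have hstar : star (p s) * p s = 1 := by
    rw [Quaternion.star_mul_self, Quaternion.normSq_eq_norm_mul_self, hp1 s]
    simp
  rw [injective_iff_map_eq_zero]
  rintro ⟨a, b, c⟩ hE
  rw [hstrip, cubMap_polyStrip s0 s1 s2 s3, d000.deriv, d11.deriv, d2.deriv, e00, e1, e0] at hE
  have hE1 := congrArg Prod.fst hE
  have hE2 := congrArg Prod.snd hE
  simp only [hf₁, hf₂, hf₃, Prod.fst_add, Prod.snd_add, Prod.smul_fst, Prod.smul_snd,
    Prod.fst_zero, Prod.snd_zero] at hE1 hE2
  have hTE : Mm p w s (0, a.1 • deriv w s + a.2 • (Complex.I * deriv w s) +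
      ((v.1 * b.1) • deriv (deriv w) s +
        (v.1 * b.2 + v.2 * b.1) • (Complex.I * deriv (deriv w) s) + (2 * (v.2 * b.2)) • (0 : ℂ)) +
      c • ((v.1 ^ 3) • deriv (deriv (deriv w)) s +
        (3 * v.1 ^ 2 * v.2) • (Complex.I * deriv (deriv (deriv w)) s) +
        (6 * v.1 * v.2 ^ 2) • (0 : ℂ) + (6 * v.2 ^ 3) • (0 : ℂ))) = 0 := by
    rw [hE1]
    exact map_zero _
  have hlin : ∀ x y : ℂ, Mm p w s (0, x + y) = Mm p w s (0, x) + Mm p w s (0, y) := by
    intro x y
    rw [← map_add]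
    congr 1
    simp
  have hsm : ∀ (r : ℝ) (x : ℂ), Mm p w s (0, r • x) = r • Mm p w s (0, x) := by
    intro r x
    rw [← map_smul]
    congr 1
    simp
  have hz : Mm p w s ((0 : ℝ), (0 : ℂ)) = 0 := map_zero _
  simp only [hlin, hsm, smul_zero, add_zero] at hTE
  have key : locMap (w s) (deriv w s) (deriv (deriv w) s) (star (p s) * deriv p s) v
      (b.1, b.2, c) = 0 := by
    have h1 : ∀ x : ℂ, star (p s) * dM p w s (0, x) = Pm (w s) (0, x) := by
      intro x
      rw [dM_apply, ← mul_assoc, hstar, one_mul]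
    have h2 : ∀ z : ℍ[ℝ], star (p s) * (p s * z) = z := by
      intro z
      rw [← mul_assoc, hstar, one_mul]
    have hip1 : ip (deriv w s) (deriv w s) = ‖deriv w s‖ ^ 2 := by
      rw [norm_sq_complex]
      unfold ip
      ring
    have hip2 : ip (deriv w s) (Complex.I * deriv w s) = 0 := by
      unfold ip
      simp
      ring
    have h3 := congrArg (fun z => star (p s) * z) (congrArg₂ (fun x y => x - y) hE2 hTE)
    simp only [sub_self, mul_zero] at h3
    rw [← h3]
    unfold locMap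
    have h4' : ∀ r : ℝ, (r : ℍ[ℝ]) = r • (1 : ℍ[ℝ]) := by
      intro r
      ext <;> simp
    have h4 : ((v.2 ^ 3 : ℝ) : ℍ[ℝ]) = (v.2 ^ 3) • (1 : ℍ[ℝ]) := h4' _
    rw [hip1, hip2, h4]
    simp only [neg_zero, zero_smul, mul_zero, add_zero, mul_add, mul_sub, mul_smul_comm, h1, h2,
      hstar, ← mul_assoc (star (p s)) (deriv p s)]
    module
  have hbc := h _ key
  have hb1 : b.1 = 0 := congrArg Prod.fst hbc
  have hb2 : b.2 = 0 := congrArg (fun x : ℝ × ℝ × ℝ => x.2.1) hbc
  have hc : c = 0 := congrArg (fun x : ℝ × ℝ × ℝ => x.2.2) hbc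
  rw [hb1, hb2, hc] at hE1
  simp only [mul_zero, add_zero, zero_smul, smul_zero] at hE1
  have ha : (⟨a.1, a.2⟩ : ℂ) * deriv w s = 0 := by
    rw [← hE1]
    have : (⟨a.1, a.2⟩ : ℂ) = (a.1 : ℂ) + (a.2 : ℂ) * Complex.I := by
      apply Complex.ext <;> simp
    rw [this, Complex.real_smul, Complex.real_smul]
    ring
  have ha' : (⟨a.1, a.2⟩ : ℂ) = 0 := (mul_eq_zero.1 ha).resolve_right hs
  have ha1 : a.1 = 0 := congrArg Complex.re ha'
  have ha2 : a.2 = 0 := congrArg Complex.im ha'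
  exact Prod.ext (Prod.ext ha1 ha2) (Prod.ext (Prod.ext hb1 hb2) hc)

theorem cub_strip : ∃ K₀ : ℕ, ∀ K : ℕ, K₀ ≤ K → Odd K → ∀ (s : ℝ) (v : ℝ × ℝ), v ≠ 0 →
    Injective (cubMap (strip (pp K) (ww K)) (ContinuousLinearMap.id ℝ (ℝ × ℝ)) (s, 0) v) := by
  have hw1 : ContDiff ℝ ∞ (deriv winf) := ((contDiff_infty_iff_deriv).1 contDiff_winf).2
  have hw2 : ContDiff ℝ ∞ (deriv (deriv winf)) := ((contDiff_infty_iff_deriv).1 hw1).2
  set J : Set (ℂ × ℂ × ℂ) :=
    (fun r : ℝ => (winf r, deriv winf r, deriv (deriv winf) r)) '' Icc (-2) 2 with hJ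
  have hJc : IsCompact J := by
    refine isCompact_Icc.image ?_
    exact contDiff_winf.continuous.prodMk (hw1.continuous.prodMk hw2.continuous)
  have hJ1 : ∀ z ∈ J, z.2.1 ≠ 0 := by
    rintro _ ⟨r, -, rfl⟩ h
    have h1 := one_le_norm_deriv_winf r
    simp only at h
    rw [h, norm_zero] at h1
    linarith
  obtain ⟨δ, hδ, hloc⟩ := loc_small hJc hJ1
  obtain ⟨C, hC, hCp⟩ := exists_pp_deriv
  obtain ⟨K₀, hK₀⟩ := exists_nat_gt (C / δ)
  refine ⟨K₀ + 1, fun K hK hodd s v hv => ?_⟩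
  have hKpos : 0 < K := by omega
  have hKR : (0 : ℝ) < K := by exact_mod_cast hKpos
  have hCK : C / K < δ := by
    rw [div_lt_iff₀ hKR]
    rw [div_lt_iff₀ hδ] at hK₀
    have : (K₀ : ℝ) ≤ K := by exact_mod_cast (by omega : K₀ ≤ K)
    nlinarith
  obtain ⟨r, hr, e1, e2, e3⟩ := ww_jet hodd s
  refine cubMap_strip_of_loc (contDiff_pp K) (contDiff_ww hodd) (norm_pp K) ?_ ?_
  · rw [e2]
    exact hJ1 _ ⟨r, hr, rfl⟩
  · intro x hx
    rw [e1, e2, e3] at hx
    refine hloc _ ⟨r, hr, rfl⟩ _ ?_ v hv x hx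
    rw [norm_mul, norm_star, norm_pp, one_mul]
    exact (hCp K hKpos s).trans_lt hCK

end Pool.Agent.TotallySkew.Ori
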