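import Pool.Agent.TotallySkew.Ori.FP

/-!
MO: the model of the chain. Ψ j (θ, y) = (Gmap N)^[j] (Φ (2P θ, 2P y)) for a model from exists_rmodel.

Pairs (j, k), j ≤ k: with the injective linear part A of (Gmap N)^[j] (exists_linear_iterate_Gmap) the
pair map is A ∘ (pair map of the strips 0 and k - j) up to the scaling by 2P of the two first
arguments (comp_pairMap in LA), and RelJ P (k - j) of the scaled points gives PlumbRel. Pairs
with j > k: exchange the two points (pairMap A B w injective iff pairMap B A (-w) injective).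
ε: the minimum of the ε of fp_far, of fp_proper, of cp_uniform for j < J, and of a (cross), divided by
2P. Values: PlumbRel gives Ψ j p = Ψ k q by per and cross (this needs |y| < a / 2P).
exists_model6: compose with a continuous linear equivalence of ℂ × ℍ[ℝ] with
EuclideanSpace ℝ (Fin 6) (finrank = 6, ContinuousLinearEquiv.ofFinrankEq).
-/

open scoped ContDiff Quaternion Topology
open Function Set

namespace Pool.Agent.TotallySkew.Ori

/-- The model of the chain of annuli in the space `V`. -/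
structure IsChainModel {V : Type*} [NormedAddCommGroup V] [NormedSpace ℝ V]
    (Ψ : ℕ → ℝ × ℝ → V) (ε : ℝ) : Prop where
  pos : 0 < ε
  smooth : ∀ j, ContDiff ℝ ∞ (Ψ j)
  eq : ∀ j k p q, |p.2| < ε → |q.2| < ε → PlumbRel j p k q → Ψ j p = Ψ k q
  imm : ∀ j p, |p.2| < ε → Injective (fderiv ℝ (Ψ j) p)
  skew : ∀ j k p q, |p.2| < ε → |q.2| < ε → ¬ PlumbRel j p k q →
    Injective (pairMap (fderiv ℝ (Ψ j) p) (fderiv ℝ (Ψ k) q) (Ψ j p - Ψ k q))
  proper : ∀ R : ℝ, ∃ J : ℕ, ∀ j, J ≤ j → ∀ p, |p.2| < ε → R < ‖Ψ j p‖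

section model
variable {P : ℝ} {Φ : ℝ × ℝ → ℂ × ℍ[ℝ]} {T : ℝ → ℝ × ℂ →L[ℝ] ℍ[ℝ]} {N : ℝ × ℂ →L[ℝ] ℍ[ℝ]}

/-- The scaling. -/
noncomputable def moS (c : ℝ) : ℝ × ℝ →L[ℝ] ℝ × ℝ := c • ContinuousLinearMap.id ℝ (ℝ × ℝ)

theorem moS_apply (c : ℝ) (p : ℝ × ℝ) : moS c p = (c * p.1, c * p.2) := rfl

theorem moS_eq_zero {c : ℝ} (hc : c ≠ 0) {p : ℝ × ℝ} (h : moS c p = 0) : p = 0 := by
  rw [moS_apply, Prod.mk_eq_zero] at h
  ext
  · exact (mul_eq_zero.1 h.1).resolve_left hc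
  · exact (mul_eq_zero.1 h.2).resolve_left hc

/-- The strips. -/
noncomputable def moPsi (P : ℝ) (Φ : ℝ × ℝ → ℂ × ℍ[ℝ]) (N : ℝ × ℂ →L[ℝ] ℍ[ℝ]) (j : ℕ)
    (p : ℝ × ℝ) : ℂ × ℍ[ℝ] :=
  ((Gmap N)^[j] ∘ Φ) (moS (2 * P) p)

theorem mo_linear (N : ℝ × ℂ →L[ℝ] ℍ[ℝ]) (j : ℕ) :
    ∃ A : ℂ × ℍ[ℝ] →L[ℝ] ℂ × ℍ[ℝ], Injective A ∧
      (∀ x y, (Gmap N)^[j] x - (Gmap N)^[j] y = A (x - y)) ∧
      ∀ (F : ℝ × ℝ → ℂ × ℍ[ℝ]) (p : ℝ × ℝ), DifferentiableAt ℝ F p →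
        fderiv ℝ ((Gmap N)^[j] ∘ F) p = A.comp (fderiv ℝ F p) := by
  obtain ⟨A, hA, hA'⟩ := exists_linear_iterate_Gmap N j
  refine ⟨A, hA, hA', fun F p hF => ?_⟩
  have h1 : (Gmap N)^[j] ∘ F = fun x => A (F x) + (Gmap N)^[j] 0 := by
    funext x
    have := hA' (F x) 0
    rw [sub_zero] at this
    rw [← this]
    simp
  rw [h1]
  exact ((A.hasFDerivAt.comp p hF.hasFDerivAt).add_const _).fderiv

theorem mo_skew (h : IsRModel P Φ T N) {j k : ℕ} (hjk : j ≤ k) {p q : ℝ × ℝ}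
    (hs : SkewJ N Φ (k - j) (moS (2 * P) p) (moS (2 * P) q)) :
    Injective (pairMap (fderiv ℝ (moPsi P Φ N j) p) (fderiv ℝ (moPsi P Φ N k) q)
      (moPsi P Φ N j p - moPsi P Φ N k q)) := by
  have hP := h.P_pos
  have h2P : 2 * P ≠ 0 := by positivity
  obtain ⟨A, hA, hA1, hA2⟩ := mo_linear N j
  have d0 : Differentiable ℝ Φ := h.smooth.differentiable (by simp)
  have d1 : Differentiable ℝ ((Gmap N)^[k - j] ∘ Φ) :=
    (cp_contDiff h (k - j)).differentiable (by simp)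
  have hk : (Gmap N)^[k] = (Gmap N)^[j] ∘ (Gmap N)^[k - j] := by
    rw [← Function.iterate_add]
    congr 1
    omega
  have e1 : moPsi P Φ N j = (Gmap N)^[j] ∘ (Φ ∘ moS (2 * P)) := rfl
  have e2 : moPsi P Φ N k = (Gmap N)^[j] ∘ (((Gmap N)^[k - j] ∘ Φ) ∘ moS (2 * P)) := by
    funext x
    simp only [moPsi, hk, Function.comp_apply]
  have f1 : fderiv ℝ (Φ ∘ moS (2 * P)) p = (fderiv ℝ Φ (moS (2 * P) p)).comp (moS (2 * P)) :=
    ((d0 _).hasFDerivAt.comp p (moS (2 * P)).hasFDerivAt).fderiv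
  have f2 : fderiv ℝ (((Gmap N)^[k - j] ∘ Φ) ∘ moS (2 * P)) q =
      (fderiv ℝ ((Gmap N)^[k - j] ∘ Φ) (moS (2 * P) q)).comp (moS (2 * P)) :=
    ((d1 _).hasFDerivAt.comp q (moS (2 * P)).hasFDerivAt).fderiv
  have g1 : fderiv ℝ (moPsi P Φ N j) p =
      A.comp ((fderiv ℝ Φ (moS (2 * P) p)).comp (moS (2 * P))) := by
    rw [e1, hA2 _ _ ((d0 _).comp p (moS (2 * P)).differentiableAt), f1]
  have g2 : fderiv ℝ (moPsi P Φ N k) q =
      A.comp ((fderiv ℝ ((Gmap N)^[k - j] ∘ Φ) (moS (2 * P) q)).comp (moS (2 * P))) := by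
    rw [e2, hA2 _ _ ((d1 _).comp q (moS (2 * P)).differentiableAt), f2]
  have g3 : moPsi P Φ N j p - moPsi P Φ N k q =
      A (Φ (moS (2 * P) p) - ((Gmap N)^[k - j] ∘ Φ) (moS (2 * P) q)) := by
    rw [e1, e2, ← hA1]
    rfl
  rw [g1, g2, g3, comp_pairMap]
  unfold SkewJ at hs
  have h5 : Injective (pairMap ((fderiv ℝ Φ (moS (2 * P) p)).comp (moS (2 * P)))
      ((fderiv ℝ ((Gmap N)^[k - j] ∘ Φ) (moS (2 * P) q)).comp (moS (2 * P)))
      (Φ (moS (2 * P) p) - ((Gmap N)^[k - j] ∘ Φ) (moS (2 * P) q))) := by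
    rw [injective_pairMap_iff] at hs ⊢
    intro a b c habc
    obtain ⟨h1, h2, h3⟩ := hs (moS (2 * P) a) (moS (2 * P) b) c habc
    exact ⟨moS_eq_zero h2P h1, moS_eq_zero h2P h2, h3⟩
  exact hA.comp h5

theorem mo_swap {A B : ℝ × ℝ →L[ℝ] ℂ × ℍ[ℝ]} {w w' : ℂ × ℍ[ℝ]}
    (h : Injective (pairMap A B (w - w'))) : Injective (pairMap B A (w' - w)) := by
  rw [injective_pairMap_iff] at h ⊢
  intro a b c habc
  obtain ⟨h1, h2, h3⟩ := h b a (-c) (by rw [← habc]; module)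
  exact ⟨h2, h1, neg_eq_zero.1 h3⟩

theorem mo_uniform (h : IsRModel P Φ T N) : ∃ ε : ℝ, 0 < ε ∧ ∀ (n : ℕ) (q q' : ℝ × ℝ),
    |q.2| < ε → |q'.2| < ε → SkewJ N Φ n q q' ∨ RelJ P n q q' := by
  obtain ⟨ε₀, J, hε₀, hfar⟩ := fp_far h
  have h1 : ∀ J : ℕ, ∃ ε : ℝ, 0 < ε ∧ ∀ n < J, ∀ (q q' : ℝ × ℝ),
      |q.2| < ε → |q'.2| < ε → SkewJ N Φ n q q' ∨ RelJ P n q q' := by
    intro J
    induction J with
    | zero => exact ⟨1, one_pos, fun n hn => absurd hn (Nat.not_lt_zero n)⟩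
    | succ J ih =>
      obtain ⟨ε, hε, ih⟩ := ih
      obtain ⟨ε', hε', hJ⟩ := cp_uniform h J
      refine ⟨min ε ε', lt_min hε hε', fun n hn q q' hq hq' => ?_⟩
      rcases Nat.lt_succ_iff_lt_or_eq.1 hn with h2 | rfl
      · exact ih n h2 q q' (hq.trans_le (min_le_left _ _)) (hq'.trans_le (min_le_left _ _))
      · exact hJ q q' (hq.trans_le (min_le_right _ _)) (hq'.trans_le (min_le_right _ _))
  obtain ⟨ε, hε, h2⟩ := h1 J
  refine ⟨min ε₀ ε, lt_min hε₀ hε, fun n q q' hq hq' => ?_⟩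
  rcases le_or_gt J n with h3 | h3
  · exact Or.inl (hfar n h3 q q' (hq.trans_le (min_le_left _ _)) (hq'.trans_le (min_le_left _ _)))
  · exact h2 n h3 q q' (hq.trans_le (min_le_right _ _)) (hq'.trans_le (min_le_right _ _))

theorem mo_rel (hP : 0 < P) {j k : ℕ} (hjk : j ≤ k) {p q : ℝ × ℝ}
    (h : RelJ P (k - j) (moS (2 * P) p) (moS (2 * P) q)) : PlumbRel j p k q := by
  have h2P : 2 * P ≠ 0 := by positivity
  rcases h with ⟨h0, m, hm⟩ | ⟨h0, m, n, hm, hn⟩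
  · left
    refine ⟨by omega, m, ?_⟩
    simp only [moS_apply, Prod.mk.injEq] at hm
    ext
    · apply mul_left_cancel₀ h2P
      rw [hm.1]
      ring
    · apply mul_left_cancel₀ h2P
      exact hm.2
  · right
    left
    refine ⟨by omega, m, n, ?_, ?_⟩
    · simp only [moS_apply] at hm
      apply mul_left_cancel₀ h2P
      rw [hm]
      ring
    · simp only [moS_apply] at hn
      apply mul_left_cancel₀ h2P
      rw [hn]
      ring

theorem mo_eq_cross (h : IsRModel P Φ T N) {a : ℝ}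
    (hcross : ∀ x y, |x| < a → |y| < a → Φ (P + x, y) = Gmap N (Φ (y, -x))) (j : ℕ)
    {p q : ℝ × ℝ} (hp : |2 * P * p.2| < a) (hq : |2 * P * q.2| < a) {m n : ℤ}
    (h1 : p.1 = 1 / 2 + m - q.2) (h2 : q.1 = n + p.2) :
    moPsi P Φ N j p = moPsi P Φ N (j + 1) q := by
  have h3 := hcross (-(2 * P * q.2)) (2 * P * p.2) (by rw [abs_neg]; exact hq) hp
  rw [neg_neg] at h3
  have e1 : moS (2 * P) p = ((P + -(2 * P * q.2), 2 * P * p.2) : ℝ × ℝ) + (m * (2 * P), 0) := by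
    rw [moS_apply, h1]
    ext
    · simp
      ring
    · simp
  have e2 : moS (2 * P) q = ((2 * P * p.2, 2 * P * q.2) : ℝ × ℝ) + (n * (2 * P), 0) := by
    rw [moS_apply, h2]
    ext
    · simp
      ring
    · simp
  unfold moPsi
  rw [Function.iterate_succ]
  simp only [Function.comp_apply]
  rw [e1, e2, cp_per_int h, cp_per_int h, h3]

end model

theorem exists_model : ∃ (Ψ : ℕ → ℝ × ℝ → ℂ × ℍ[ℝ]) (ε : ℝ), IsChainModel Ψ ε := by
  obtain ⟨P, Φ, T, N, h⟩ := exists_rmodel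
  have hP := h.P_pos
  have h2P : 0 < 2 * P := by linarith
  obtain ⟨ε₁, hε₁, hu⟩ := mo_uniform h
  obtain ⟨ε₂, C, hε₂, hpl⟩ := fp_plane h
  obtain ⟨ε₃, hε₃, hpr⟩ := fp_proper h
  obtain ⟨a, ha, hcross⟩ := h.cross
  have hmin : 0 < min (min ε₁ ε₂) (min ε₃ a) := lt_min (lt_min hε₁ hε₂) (lt_min hε₃ ha)
  have hsc : ∀ p : ℝ × ℝ, |p.2| < min (min ε₁ ε₂) (min ε₃ a) / (2 * P) →
      |2 * P * p.2| < min (min ε₁ ε₂) (min ε₃ a) := by
    intro p hp
    rw [lt_div_iff₀ h2P] at hp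
    rw [abs_mul, abs_of_pos h2P, mul_comm]
    exact hp
  have l1 : min (min ε₁ ε₂) (min ε₃ a) ≤ ε₁ := (min_le_left _ _).trans (min_le_left _ _)
  have l2 : min (min ε₁ ε₂) (min ε₃ a) ≤ ε₂ := (min_le_left _ _).trans (min_le_right _ _)
  have l3 : min (min ε₁ ε₂) (min ε₃ a) ≤ ε₃ := (min_le_right _ _).trans (min_le_left _ _)
  have l4 : min (min ε₁ ε₂) (min ε₃ a) ≤ a := (min_le_right _ _).trans (min_le_right _ _)
  refine ⟨moPsi P Φ N, min (min ε₁ ε₂) (min ε₃ a) / (2 * P), div_pos hmin h2P, ?_, ?_, ?_, ?_, ?_⟩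
  · intro j
    exact (cp_contDiff h j).comp (moS (2 * P)).contDiff
  · intro j k p q hp hq hR
    have hp' := (hsc p hp).trans_le l4
    have hq' := (hsc q hq).trans_le l4
    rcases hR with ⟨rfl, m, hm⟩ | ⟨rfl, m, n, h1, h2⟩ | ⟨rfl, m, n, h1, h2⟩
    · unfold moPsi
      have e1 : moS (2 * P) q = moS (2 * P) p + (m * (2 * P), 0) := by
        rw [hm, moS_apply, moS_apply]
        ext
        · simp
          ring
        · simp
      simp only [Function.comp_apply]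
      rw [e1, cp_per_int h]
    · exact mo_eq_cross h hcross j hp' hq' h1 h2
    · exact (mo_eq_cross h hcross k hq' hp' h1 h2).symm
  · intro j p hp
    obtain ⟨T₁, -, hT⟩ := hpl (moS (2 * P) p) ((hsc p hp).trans_le l2)
    obtain ⟨A, hA, -, hA2⟩ := mo_linear N j
    have d0 : Differentiable ℝ Φ := h.smooth.differentiable (by simp)
    have f1 : fderiv ℝ (Φ ∘ moS (2 * P)) p = (fderiv ℝ Φ (moS (2 * P) p)).comp (moS (2 * P)) :=
      ((d0 _).hasFDerivAt.comp p (moS (2 * P)).hasFDerivAt).fderiv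
    have g1 : fderiv ℝ (moPsi P Φ N j) p =
        A.comp ((fderiv ℝ Φ (moS (2 * P) p)).comp (moS (2 * P))) := by
      rw [show moPsi P Φ N j = (Gmap N)^[j] ∘ (Φ ∘ moS (2 * P)) from rfl,
        hA2 _ _ ((d0 _).comp p (moS (2 * P)).differentiableAt), f1]
    rw [g1]
    refine hA.comp ?_
    rw [injective_iff_map_eq_zero]
    intro v hv
    have h1 : (fderiv ℝ Φ (moS (2 * P) p) (moS (2 * P) v)).1 =
        (fderiv ℝ Φ (moS (2 * P) p) 0).1 := by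
      rw [map_zero]
      exact congrArg Prod.fst hv
    exact moS_eq_zero h2P.ne' (hT.2.2 h1)
  · intro j k p q hp hq hR
    rcases le_total j k with hjk | hjk
    · rcases hu (k - j) (moS (2 * P) p) (moS (2 * P) q) ((hsc p hp).trans_le l1)
        ((hsc q hq).trans_le l1) with h1 | h1
      · exact mo_skew h hjk h1
      · exact absurd (mo_rel hP hjk h1) hR
    · rcases hu (j - k) (moS (2 * P) q) (moS (2 * P) p) ((hsc q hq).trans_le l1)
        ((hsc p hp).trans_le l1) with h1 | h1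
      · exact mo_swap (mo_skew h hjk h1)
      · exfalso
        apply hR
        rcases mo_rel hP hjk h1 with ⟨rfl, m, hm⟩ | ⟨rfl, m, n, h1, h2⟩ | ⟨rfl, m, n, h1, h2⟩
        · left
          refine ⟨rfl, -m, ?_⟩
          rw [hm]
          ext
          · push_cast
            simp
          · simp
        · right
          right
          exact ⟨rfl, m, n, h1, h2⟩
        · right
          left
          exact ⟨rfl, m, n, h1, h2⟩
  · intro R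
    obtain ⟨J, hJ⟩ := hpr R
    refine ⟨J, fun j hj p hp => ?_⟩
    exact hJ j hj (moS (2 * P) p) ((hsc p hp).trans_le l3)

theorem exists_model6 :
    ∃ (Ψ : ℕ → ℝ × ℝ → EuclideanSpace ℝ (Fin 6)) (ε : ℝ), IsChainModel Ψ ε := by
  obtain ⟨Ψ, ε, h⟩ := exists_model
  have hfin : Module.finrank ℝ (ℂ × ℍ[ℝ]) = Module.finrank ℝ (EuclideanSpace ℝ (Fin 6)) := by
    rw [Module.finrank_prod, Complex.finrank_real_complex, Quaternion.finrank_eq_four,
      finrank_euclideanSpace_fin]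
  let L : (ℂ × ℍ[ℝ]) ≃L[ℝ] EuclideanSpace ℝ (Fin 6) := ContinuousLinearEquiv.ofFinrankEq hfin
  have hd : ∀ j, Differentiable ℝ (Ψ j) := fun j => (h.smooth j).differentiable (by simp)
  have hL : ∀ j p, fderiv ℝ (fun x => L (Ψ j x)) p =
      (L : ℂ × ℍ[ℝ] →L[ℝ] EuclideanSpace ℝ (Fin 6)).comp (fderiv ℝ (Ψ j) p) := by
    intro j p
    exact (L.hasFDerivAt.comp p (hd j p).hasFDerivAt).fderiv
  refine ⟨fun j p => L (Ψ j p), ε, h.pos, ?_, ?_, ?_, ?_, ?_⟩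
  · intro j
    exact L.contDiff.comp (h.smooth j)
  · intro j k p q hp hq hR
    exact congrArg L (h.eq j k p q hp hq hR)
  · intro j p hp
    show Injective (fderiv ℝ (fun x => L (Ψ j x)) p)
    rw [hL]
    exact L.injective.comp (h.imm j p hp)
  · intro j k p q hp hq hR
    show Injective (pairMap (fderiv ℝ (fun x => L (Ψ j x)) p) (fderiv ℝ (fun x => L (Ψ k x)) q)
      (L (Ψ j p) - L (Ψ k q)))
    rw [hL, hL, ← map_sub]
    have h1 := comp_pairMap (L : ℂ × ℍ[ℝ] →L[ℝ] EuclideanSpace ℝ (Fin 6)) (fderiv ℝ (Ψ j) p)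
      (fderiv ℝ (Ψ k) q) (Ψ j p - Ψ k q)
    have h2 : Injective ((L : ℂ × ℍ[ℝ] →L[ℝ] EuclideanSpace ℝ (Fin 6)).comp
        (pairMap (fderiv ℝ (Ψ j) p) (fderiv ℝ (Ψ k) q) (Ψ j p - Ψ k q))) :=
      L.injective.comp (h.skew j k p q hp hq hR)
    rw [← h1] at h2
    exact h2
  · intro R
    obtain ⟨J, hJ⟩ := h.proper
      ((‖(L.symm : EuclideanSpace ℝ (Fin 6) →L[ℝ] ℂ × ℍ[ℝ])‖ + 1) * R)
    refine ⟨J, fun j hj p hp => ?_⟩
    have h1 := hJ j hj p hp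
    have h2 : ‖Ψ j p‖ ≤ ‖(L.symm : EuclideanSpace ℝ (Fin 6) →L[ℝ] ℂ × ℍ[ℝ])‖ * ‖L (Ψ j p)‖ := by
      have h3 := (L.symm : EuclideanSpace ℝ (Fin 6) →L[ℝ] ℂ × ℍ[ℝ]).le_opNorm (L (Ψ j p))
      have h4 : (L.symm : EuclideanSpace ℝ (Fin 6) →L[ℝ] ℂ × ℍ[ℝ]) (L (Ψ j p)) = Ψ j p :=
        L.symm_apply_apply _
      rw [h4] at h3
      exact h3
    have h5 : (‖(L.symm : EuclideanSpace ℝ (Fin 6) →L[ℝ] ℂ × ℍ[ℝ])‖ + 1) * R <
        (‖(L.symm : EuclideanSpace ℝ (Fin 6) →L[ℝ] ℂ × ℍ[ℝ])‖ + 1) * ‖L (Ψ j p)‖ := by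
      have := norm_nonneg (L (Ψ j p))
      linarith
    exact lt_of_mul_lt_mul_left h5 (by positivity)

end Pool.Agent.TotallySkew.Ori
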