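import Pool.Agent.TotallySkew.Ori.Defs

/-!
WW: the fast curve.
winf s = gg s * exp (21 i s chi s). Facts: gg odd, smooth, monotone (Real.smoothTransition.monotone),
gg s = s for |s| ≤ 1/2, gg s = 1 for s ≥ 1, |s| ≤ |gg s| ≤ 1 for |s| ≤ 1, |gg s| ≥ 1/2 for |s| ≥ 1/2;
chi = 0 for |s| ≤ 1/10, chi = 1 for |s| ≥ 1/5.
one_le_norm_deriv_winf: for |s| < 1/2 gg' = 1 and |winf'| ≥ |gg'|; for |s| > 1/5 the phase is 21 s
and |winf'| ≥ 21 |gg|. (winf' = (gg' + i gg β') exp (i β), β = 21 s chi s.)
-/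

open scoped ContDiff
open Function Set

namespace Pool.Agent.TotallySkew.Ori

theorem WW_contDiff_T {f : ℝ → ℝ} (hf : ContDiff ℝ ∞ f) :
    ContDiff ℝ ∞ fun s => Real.smoothTransition (f s) :=
  (Real.smoothTransition.contDiff (n := ⊤)).comp hf

theorem contDiff_gg : ContDiff ℝ ∞ gg := by
  have h1 : ContDiff ℝ ∞ fun s : ℝ => Real.smoothTransition (2 * s - 1) :=
    WW_contDiff_T (by fun_prop)
  have h2 : ContDiff ℝ ∞ fun s : ℝ => Real.smoothTransition (-(2 * s) - 1) :=
    WW_contDiff_T (by fun_prop)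
  have h3 : ContDiff ℝ ∞ fun s : ℝ => s + (1 - s) * Real.smoothTransition (2 * s - 1) -
    (1 + s) * Real.smoothTransition (-(2 * s) - 1) := by fun_prop
  exact h3

theorem gg_neg (s : ℝ) : gg (-s) = -gg s := by
  unfold gg
  have e1 : 2 * -s - 1 = -(2 * s) - 1 := by ring
  have e2 : -(2 * -s) - 1 = 2 * s - 1 := by ring
  rw [e1, e2]
  ring

theorem gg_of_le {s : ℝ} (h : |s| ≤ 1 / 2) : gg s = s := by
  have h' := abs_le.mp h
  unfold gg
  rw [Real.smoothTransition.zero_of_nonpos (by linarith),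
    Real.smoothTransition.zero_of_nonpos (by linarith)]
  ring

theorem gg_of_one_le {s : ℝ} (h : 1 ≤ s) : gg s = 1 := by
  unfold gg
  rw [Real.smoothTransition.one_of_one_le (by linarith),
    Real.smoothTransition.zero_of_nonpos (by linarith)]
  ring

theorem WW_gg_right {s : ℝ} (h : -(1 / 2) ≤ s) :
    gg s = s + (1 - s) * Real.smoothTransition (2 * s - 1) := by
  unfold gg
  rw [Real.smoothTransition.zero_of_nonpos (x := -(2 * s) - 1) (by linarith)]
  ring

theorem WW_mono_right {s s' : ℝ} (h : -(1 / 2) ≤ s) (hs : s ≤ s') : gg s ≤ gg s' := by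
  have h1 := Real.smoothTransition.le_one (2 * s - 1)
  have h0 := Real.smoothTransition.nonneg (2 * s - 1)
  rcases le_total 1 s' with h3 | h3
  · rw [gg_of_one_le h3]
    rcases le_total 1 s with h4 | h4
    · rw [gg_of_one_le h4]
    · rw [WW_gg_right h]
      nlinarith
  · rw [WW_gg_right h, WW_gg_right (h.trans hs)]
    have h2 : Real.smoothTransition (2 * s - 1) ≤ Real.smoothTransition (2 * s' - 1) :=
      Real.smoothTransition.monotone (by linarith)
    nlinarith [mul_nonneg (sub_nonneg.mpr hs) (sub_nonneg.mpr h1),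
      mul_nonneg (sub_nonneg.mpr h3) (sub_nonneg.mpr h2)]

theorem gg_monotone : Monotone gg := by
  intro s s' hs
  rcases le_total (-(1 / 2)) s with h | h
  · exact WW_mono_right h hs
  · rcases le_total s' (1 / 2) with h' | h'
    · have := WW_mono_right (s := -s') (s' := -s) (by linarith) (by linarith)
      rw [gg_neg, gg_neg] at this
      linarith
    · have h1 := WW_mono_right (s := 0) (s' := s') (by norm_num) (by linarith)
      have h2 := WW_mono_right (s := 0) (s' := -s) (by norm_num) (by linarith)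
      have h3 : gg 0 = 0 := gg_of_le (by norm_num)
      rw [gg_neg, h3] at h2
      rw [h3] at h1
      linarith

theorem WW_gg_le_one (s : ℝ) : gg s ≤ 1 := by
  have := gg_monotone (le_max_left s 1)
  rwa [gg_of_one_le (le_max_right s 1)] at this

theorem abs_gg_le_one (s : ℝ) : |gg s| ≤ 1 := by
  rw [abs_le]
  have h := WW_gg_le_one (-s)
  rw [gg_neg] at h
  exact ⟨by linarith, WW_gg_le_one s⟩

theorem half_le_gg {s : ℝ} (h : 1 / 2 ≤ s) : 1 / 2 ≤ gg s := by
  have := gg_monotone h
  rwa [gg_of_le (by norm_num)] at this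

theorem WW_contDiff_chi : ContDiff ℝ ∞ chi := by
  have h1 : ContDiff ℝ ∞ fun s : ℝ => Real.smoothTransition (10 * s - 1) :=
    WW_contDiff_T (by fun_prop)
  have h2 : ContDiff ℝ ∞ fun s : ℝ => Real.smoothTransition (-(10 * s) - 1) :=
    WW_contDiff_T (by fun_prop)
  exact h1.add h2

theorem WW_contDiff_beta : ContDiff ℝ ∞ fun s : ℝ => 21 * (s * chi s) := by
  have := WW_contDiff_chi
  fun_prop

theorem WW_chi_neg (s : ℝ) : chi (-s) = chi s := by
  unfold chi
  have e1 : 10 * -s - 1 = -(10 * s) - 1 := by ring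
  have e2 : -(10 * -s) - 1 = 10 * s - 1 := by ring
  rw [e1, e2, add_comm]

theorem WW_chi_zero {s : ℝ} (h : |s| ≤ 1 / 10) : chi s = 0 := by
  have h' := abs_le.mp h
  unfold chi
  rw [Real.smoothTransition.zero_of_nonpos (by linarith),
    Real.smoothTransition.zero_of_nonpos (by linarith)]
  ring

theorem WW_chi_one {s : ℝ} (h : 1 / 5 ≤ s) : chi s = 1 := by
  unfold chi
  rw [Real.smoothTransition.one_of_one_le (by linarith),
    Real.smoothTransition.zero_of_nonpos (by linarith)]
  ring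

theorem contDiff_winf : ContDiff ℝ ∞ winf := by
  have h1 : ContDiff ℝ ∞ fun s : ℝ => ((gg s : ℝ) : ℂ) :=
    Complex.ofRealCLM.contDiff.comp contDiff_gg
  have h2 : ContDiff ℝ ∞ fun s : ℝ => (((21 * (s * chi s) : ℝ)) : ℂ) :=
    Complex.ofRealCLM.contDiff.comp WW_contDiff_beta
  exact h1.mul ((h2.mul contDiff_const).cexp)

/-- Reflection: `winf (-s)` is minus the conjugate of `winf s`. -/
theorem winf_neg (s : ℝ) : winf (-s) = -(starRingEnd ℂ) (winf s) := by
  unfold winf
  rw [gg_neg, WW_chi_neg, map_mul, Complex.conj_ofReal, ← Complex.exp_conj, map_mul,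
    Complex.conj_ofReal, Complex.conj_I]
  have e : ((21 * (-s * chi s) : ℝ) : ℂ) * Complex.I = ((21 * (s * chi s) : ℝ) : ℂ) * -Complex.I := by
    push_cast; ring
  rw [e]
  push_cast
  ring

theorem winf_of_le_tenth {s : ℝ} (h : |s| ≤ 1 / 10) : winf s = s := by
  unfold winf
  rw [WW_chi_zero h, gg_of_le (h.trans (by norm_num))]
  simp

theorem winf_of_fifth_le {s : ℝ} (h : 1 / 5 ≤ s) :
    winf s = gg s * Complex.exp ((21 * s : ℝ) * Complex.I) := by
  unfold winf
  rw [WW_chi_one h, mul_one]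

theorem winf_of_one_le {s : ℝ} (h : 1 ≤ s) : winf s = Complex.exp ((21 * s : ℝ) * Complex.I) := by
  rw [winf_of_fifth_le (by linarith), gg_of_one_le h]
  simp

theorem winf_of_le_neg_one {s : ℝ} (h : s ≤ -1) :
    winf s = -Complex.exp ((21 * s : ℝ) * Complex.I) := by
  have h1 := winf_neg (-s)
  rw [neg_neg, winf_of_one_le (s := -s) (by linarith), ← Complex.exp_conj, map_mul,
    Complex.conj_ofReal, Complex.conj_I] at h1
  rw [h1]
  congr 2
  push_cast
  ring

theorem norm_winf (s : ℝ) : ‖winf s‖ = |gg s| := by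
  unfold winf
  rw [norm_mul, Complex.norm_exp_ofReal_mul_I, mul_one, Complex.norm_real, Real.norm_eq_abs]

theorem WW_hasDerivAt (s : ℝ) : HasDerivAt winf
    (((deriv gg s : ℝ) + (gg s * deriv (fun s : ℝ => 21 * (s * chi s)) s : ℝ) * Complex.I) *
      Complex.exp ((21 * (s * chi s) : ℝ) * Complex.I)) s := by
  have h1 : HasDerivAt gg (deriv gg s) s :=
    (contDiff_gg.differentiable (by simp)).differentiableAt.hasDerivAt
  have h2 : HasDerivAt (fun s : ℝ => 21 * (s * chi s)) (deriv (fun s : ℝ => 21 * (s * chi s)) s) s :=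
    (WW_contDiff_beta.differentiable (by simp)).differentiableAt.hasDerivAt
  have h3 := h1.ofReal_comp.mul ((h2.ofReal_comp.mul_const Complex.I).cexp)
  refine h3.congr_deriv ?_
  push_cast
  ring

theorem WW_norm_deriv (s : ℝ) : ‖deriv winf s‖ =
    ‖((deriv gg s : ℝ) : ℂ) + (gg s * deriv (fun s : ℝ => 21 * (s * chi s)) s : ℝ) * Complex.I‖ := by
  rw [(WW_hasDerivAt s).deriv, norm_mul, Complex.norm_exp_ofReal_mul_I, mul_one]

theorem WW_beta_right {s : ℝ} (h : 1 / 2 ≤ s) :
    deriv (fun s : ℝ => 21 * (s * chi s)) s = 21 := by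
  have e : (fun s : ℝ => 21 * (s * chi s)) =ᶠ[nhds s] fun s => 21 * s := by
    filter_upwards [lt_mem_nhds (show (1 / 5 : ℝ) < s by linarith)] with u hu
    rw [WW_chi_one hu.le, mul_one]
  rw [e.deriv_eq]
  simp

theorem WW_beta_odd (s : ℝ) : 21 * (-s * chi (-s)) = -(21 * (s * chi s)) := by
  rw [WW_chi_neg]; ring

theorem WW_beta_left {s : ℝ} (h : s ≤ -(1 / 2)) :
    deriv (fun s : ℝ => 21 * (s * chi s)) s = 21 := by
  have e : (fun s : ℝ => 21 * (s * chi s)) =ᶠ[nhds s] fun s => 21 * s := by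
    filter_upwards [gt_mem_nhds (show s < (-(1 / 5) : ℝ) by linarith)] with u hu
    have : chi u = 1 := by rw [← WW_chi_neg]; exact WW_chi_one (by linarith)
    rw [this, mul_one]
  rw [e.deriv_eq]
  simp

theorem one_le_norm_deriv_winf (s : ℝ) : 1 ≤ ‖deriv winf s‖ := by
  rw [WW_norm_deriv]
  set D := deriv (fun s : ℝ => 21 * (s * chi s)) s with hD
  have hre := Complex.abs_re_le_norm
    (((deriv gg s : ℝ) : ℂ) + (gg s * D : ℝ) * Complex.I)
  have him := Complex.abs_im_le_norm
    (((deriv gg s : ℝ) : ℂ) + (gg s * D : ℝ) * Complex.I)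
  simp only [Complex.add_re, Complex.ofReal_re, Complex.mul_re, Complex.I_re, mul_zero,
    Complex.ofReal_im, Complex.I_im, sub_zero, add_zero, Complex.add_im,
    Complex.mul_im, mul_one, zero_add] at hre him
  rcases lt_or_ge |s| (1 / 2) with h | h
  · have e : gg =ᶠ[nhds s] fun u => u := by
      have : ∀ᶠ u in nhds s, |u| < 1 / 2 := (continuous_abs.tendsto s).eventually (gt_mem_nhds h)
      filter_upwards [this] with u hu
      exact gg_of_le hu.le
    have : deriv gg s = 1 := by rw [e.deriv_eq]; simp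
    have h1 : |deriv gg s| = 1 := by rw [this, abs_one]
    linarith
  · have hg : 1 / 2 ≤ |gg s| ∧ D = 21 := by
      rcases le_abs.mp h with h | h
      · exact ⟨(half_le_gg h).trans (le_abs_self _), WW_beta_right h⟩
      · refine ⟨?_, WW_beta_left (by linarith)⟩
        have := half_le_gg h
        rw [gg_neg] at this
        exact this.trans (neg_le_abs _)
    have h21 : |gg s * D| = |gg s| * 21 := by rw [hg.2, abs_mul]; norm_num
    rw [h21] at him
    linarith [hg.1]

theorem WW_deriv2_exp (c : ℂ) (s : ℝ) :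
    ‖deriv (deriv fun s : ℝ => c * Complex.exp ((21 * s : ℝ) * Complex.I)) s‖ = 441 * ‖c‖ := by
  have h : ∀ (c : ℂ) (s : ℝ), HasDerivAt (fun s : ℝ => c * Complex.exp ((21 * s : ℝ) * Complex.I))
      (c * (21 * Complex.I) * Complex.exp ((21 * s : ℝ) * Complex.I)) s := by
    intro c s
    have h2 : HasDerivAt (fun s : ℝ => 21 * s) 21 s := by
      simpa using (hasDerivAt_id s).const_mul (21 : ℝ)
    have h3 := ((h2.ofReal_comp.mul_const Complex.I).cexp).const_mul c
    refine h3.congr_deriv ?_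
    push_cast
    ring
  have e1 : (deriv fun s : ℝ => c * Complex.exp ((21 * s : ℝ) * Complex.I)) =
      fun s : ℝ => c * (21 * Complex.I) * Complex.exp ((21 * s : ℝ) * Complex.I) :=
    funext fun s => (h c s).deriv
  rw [e1, (h _ s).deriv]
  simp only [norm_mul, Complex.norm_exp_ofReal_mul_I, Complex.norm_I, mul_one]
  norm_num
  ring

theorem exists_bound_deriv2_winf : ∃ C : ℝ, ∀ s, ‖deriv (deriv winf) s‖ ≤ C := by
  have hc : Continuous fun s => ‖deriv (deriv winf) s‖ := by
    have h1 : ContDiff ℝ ∞ (deriv winf) := (contDiff_infty_iff_deriv.mp contDiff_winf).2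
    have h2 : ContDiff ℝ ∞ (deriv (deriv winf)) := (contDiff_infty_iff_deriv.mp h1).2
    exact h2.continuous.norm
  obtain ⟨C, hC⟩ := (isCompact_Icc (a := (-2 : ℝ)) (b := 2)).bddAbove_image hc.continuousOn
  refine ⟨max C 441, fun s => ?_⟩
  rcases lt_or_ge 1 s with h | h
  · have e : winf =ᶠ[nhds s] fun s : ℝ => 1 * Complex.exp ((21 * s : ℝ) * Complex.I) := by
      filter_upwards [lt_mem_nhds h] with u hu
      rw [winf_of_one_le hu.le, one_mul]
    rw [e.deriv.deriv_eq, WW_deriv2_exp]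
    simp
  · rcases lt_or_ge s (-1) with h' | h'
    · have e : winf =ᶠ[nhds s] fun s : ℝ => (-1) * Complex.exp ((21 * s : ℝ) * Complex.I) := by
        filter_upwards [gt_mem_nhds h'] with u hu
        rw [winf_of_le_neg_one hu.le, neg_one_mul]
      rw [e.deriv.deriv_eq, WW_deriv2_exp]
      simp
    · exact (hC (mem_image_of_mem _ ⟨by linarith, by linarith⟩)).trans (le_max_left _ _)

end Pool.Agent.TotallySkew.Ori
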