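import Pool.Agent.TotallySkew.Ori.QA
import Pool.Agent.TotallySkew.Ori.WW

/-!
PX: the direction pp K of the slow curve.
pp K s = ⟨-cos (π τ), g sin (π τ), 0, 0⟩ with τ = T (cos θ + 1/2), g = gg (2 sin θ), θ = s / K,
T = Real.smoothTransition, T (1 - x) = 1 - T x.
-/

open scoped ContDiff Quaternion
open Function Set

namespace Pool.Agent.TotallySkew.Ori

variable {K : ℕ}

theorem PX_trans_symm (x : ℝ) :
    Real.smoothTransition (1 - x) = 1 - Real.smoothTransition x := by
  have h := Real.smoothTransition.pos_denom x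
  have h' : expNegInvGlue (1 - x) + expNegInvGlue x ≠ 0 := by
    rw [add_comm]; exact h.ne'
  unfold Real.smoothTransition
  rw [sub_sub_cancel, eq_sub_iff_add_eq, add_comm (expNegInvGlue x) (expNegInvGlue (1 - x)),
    ← add_div, div_self h']

/-- the angle parameter -/
noncomputable def PX_tau (t : ℝ) : ℝ := Real.smoothTransition (Real.cos t + 1 / 2)

theorem PX_tau_nonneg (t : ℝ) : 0 ≤ PX_tau t := Real.smoothTransition.nonneg _

theorem PX_tau_le_one (t : ℝ) : PX_tau t ≤ 1 := Real.smoothTransition.le_one _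

theorem PX_tau_flip {t u : ℝ} (h : Real.cos u = -Real.cos t) : PX_tau u = 1 - PX_tau t := by
  unfold PX_tau
  rw [h, ← PX_trans_symm]
  congr 1
  ring

/-- the quaternion `a + b i` -/
def PX_q (a b : ℝ) : ℍ[ℝ] := ⟨a, b, 0, 0⟩

theorem PX_q_re (a b : ℝ) : (PX_q a b).re = a := rfl
theorem PX_q_imI (a b : ℝ) : (PX_q a b).imI = b := rfl
theorem PX_q_imJ (a b : ℝ) : (PX_q a b).imJ = 0 := rfl
theorem PX_q_imK (a b : ℝ) : (PX_q a b).imK = 0 := rfl

theorem PX_q_neg (a b : ℝ) : PX_q (-a) (-b) = -PX_q a b := by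
  apply Quaternion.ext
  · rw [Quaternion.re_neg]; rfl
  · rw [Quaternion.imI_neg]; rfl
  · rw [Quaternion.imJ_neg, PX_q_imJ, PX_q_imJ, neg_zero]
  · rw [Quaternion.imK_neg, PX_q_imK, PX_q_imK, neg_zero]

theorem PX_q_one : PX_q 1 0 = 1 := by
  apply Quaternion.ext <;> rfl

theorem PX_q_smul (a b : ℝ) : PX_q a b = a • PX_q 1 0 + b • PX_q 0 1 := by
  apply Quaternion.ext
  · rw [Quaternion.re_add, Quaternion.re_smul, Quaternion.re_smul, PX_q_re, PX_q_re, PX_q_re]
    simp
  · rw [Quaternion.imI_add, Quaternion.imI_smul, Quaternion.imI_smul, PX_q_imI, PX_q_imI, PX_q_imI]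
    simp
  · rw [Quaternion.imJ_add, Quaternion.imJ_smul, Quaternion.imJ_smul, PX_q_imJ, PX_q_imJ, PX_q_imJ]
    simp
  · rw [Quaternion.imK_add, Quaternion.imK_smul, Quaternion.imK_smul, PX_q_imK, PX_q_imK, PX_q_imK]
    simp

theorem PX_pp_eq (K : ℕ) (s : ℝ) : pp K s = PX_q (-Real.cos (Real.pi * PX_tau (s / K)))
    (gg (2 * Real.sin (s / K)) * Real.sin (Real.pi * PX_tau (s / K))) := rfl

theorem PX_pp_one (s : ℝ) : pp 1 s = PX_q (-Real.cos (Real.pi * PX_tau s))
    (gg (2 * Real.sin s) * Real.sin (Real.pi * PX_tau s)) := by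
  rw [PX_pp_eq, Nat.cast_one, div_one]

theorem PX_sin_nonneg (t : ℝ) : 0 ≤ Real.sin (Real.pi * PX_tau t) := by
  apply Real.sin_nonneg_of_nonneg_of_le_pi
  · exact mul_nonneg Real.pi_pos.le (PX_tau_nonneg t)
  · calc Real.pi * PX_tau t ≤ Real.pi * 1 :=
        mul_le_mul_of_nonneg_left (PX_tau_le_one t) Real.pi_pos.le
      _ = Real.pi := mul_one _

theorem contDiff_pp (K : ℕ) : ContDiff ℝ ∞ (pp K) := by
  have hT : ContDiff ℝ ∞ Real.smoothTransition := Real.smoothTransition.contDiff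
  have hdiv : ContDiff ℝ ∞ fun s : ℝ => s / K := contDiff_id.div_const _
  have htau : ContDiff ℝ ∞ fun s : ℝ => Real.pi * PX_tau (s / K) :=
    contDiff_const.mul (hT.comp ((Real.contDiff_cos.comp hdiv).add contDiff_const))
  have h1 : ContDiff ℝ ∞ fun s : ℝ => -Real.cos (Real.pi * PX_tau (s / K)) :=
    (Real.contDiff_cos.comp htau).neg
  have h2 : ContDiff ℝ ∞ fun s : ℝ =>
      gg (2 * Real.sin (s / K)) * Real.sin (Real.pi * PX_tau (s / K)) :=
    (contDiff_gg.comp (contDiff_const.mul (Real.contDiff_sin.comp hdiv))).mul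
      (Real.contDiff_sin.comp htau)
  have h3 : pp K = fun s : ℝ => (-Real.cos (Real.pi * PX_tau (s / K))) • PX_q 1 0 +
      (gg (2 * Real.sin (s / K)) * Real.sin (Real.pi * PX_tau (s / K))) • PX_q 0 1 := by
    funext s
    rw [PX_pp_eq, PX_q_smul]
  rw [h3]
  exact (h1.smul contDiff_const).add (h2.smul contDiff_const)

theorem pp_scale (K : ℕ) (s : ℝ) : pp K s = pp 1 (s / K) := by
  rw [PX_pp_one, PX_pp_eq]

theorem PX_norm_one (t : ℝ) : (Real.cos (Real.pi * PX_tau t)) ^ 2 +
    (gg (2 * Real.sin t) * Real.sin (Real.pi * PX_tau t)) ^ 2 = 1 := by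
  by_cases h : Real.sin (Real.pi * PX_tau t) = 0
  · have := Real.sin_sq_add_cos_sq (Real.pi * PX_tau t)
    rw [h] at this
    rw [h]
    nlinarith
  · have h0 : 0 < PX_tau t := by
      rcases (PX_tau_nonneg t).lt_or_eq with h1 | h1
      · exact h1
      · exfalso; apply h; rw [← h1]; simp
    have h1 : PX_tau t < 1 := by
      rcases (PX_tau_le_one t).lt_or_eq with h2 | h2
      · exact h2
      · exfalso; apply h; rw [h2]; simp
    have hc1 : Real.cos t < 1 / 2 := by
      by_contra hc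
      push Not at hc
      have : PX_tau t = 1 := Real.smoothTransition.one_of_one_le (by linarith)
      linarith
    have hc2 : -(1 / 2) < Real.cos t := by
      by_contra hc
      push Not at hc
      have : PX_tau t = 0 := Real.smoothTransition.zero_of_nonpos (by linarith)
      linarith
    have hs : 1 < (2 * Real.sin t) ^ 2 := by
      have := Real.sin_sq_add_cos_sq t
      nlinarith
    have hg : gg (2 * Real.sin t) ^ 2 = 1 := by
      rcases le_total 0 (2 * Real.sin t) with h2 | h2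
      · have h3 : 1 ≤ 2 * Real.sin t := by nlinarith
        rw [gg_of_one_le h3]; norm_num
      · have h3 : 1 ≤ -(2 * Real.sin t) := by nlinarith
        have h4 := gg_neg (2 * Real.sin t)
        rw [gg_of_one_le h3] at h4
        have h5 : gg (2 * Real.sin t) = -1 := by linarith
        rw [h5]; norm_num
    rw [mul_pow, hg, one_mul]
    have := Real.sin_sq_add_cos_sq (Real.pi * PX_tau t)
    linarith

theorem norm_pp (K : ℕ) (s : ℝ) : ‖pp K s‖ = 1 := by
  have h : ‖pp K s‖ ^ 2 = 1 := by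
    rw [norm_sq_eq, PX_pp_eq, PX_q_re, PX_q_imI, PX_q_imJ, PX_q_imK]
    have := PX_norm_one (s / K)
    nlinarith
  have h0 := norm_nonneg (pp K s)
  nlinarith

theorem pp_shift (hK : 0 < K) (s : ℝ) : pp K (s + K * Real.pi) = -pp K s := by
  have hK' : (K : ℝ) ≠ 0 := by positivity
  have e : (s + K * Real.pi) / K = s / K + Real.pi := by field_simp
  have h1 : PX_tau (s / K + Real.pi) = 1 - PX_tau (s / K) := PX_tau_flip (Real.cos_add_pi _)
  have e2 : Real.pi * (1 - PX_tau (s / K)) = Real.pi - Real.pi * PX_tau (s / K) := by ring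
  have e3 : 2 * Real.sin (s / K + Real.pi) = -(2 * Real.sin (s / K)) := by
    rw [Real.sin_add_pi]; ring
  rw [PX_pp_eq, PX_pp_eq, e, h1, e2, Real.cos_pi_sub, Real.sin_pi_sub, e3, gg_neg, ← PX_q_neg,
    neg_mul]

theorem pp_one (hK : 0 < K) {s : ℝ} (h : |s| ≤ K * (Real.pi / 3)) : pp K s = 1 := by
  have hK' : (0 : ℝ) < K := by exact_mod_cast hK
  have h1 : |s / K| ≤ Real.pi / 3 := by
    rw [abs_div, abs_of_pos hK', div_le_iff₀ hK', mul_comm]
    exact h
  have h2 : 1 / 2 ≤ Real.cos (s / K) := by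
    rw [← Real.cos_abs, ← Real.cos_pi_div_three]
    exact Real.cos_le_cos_of_nonneg_of_le_pi (abs_nonneg _) (by linarith [Real.pi_pos]) h1
  have h3 : PX_tau (s / K) = 1 := Real.smoothTransition.one_of_one_le (by linarith)
  rw [PX_pp_eq, h3, mul_one, Real.cos_pi, Real.sin_pi, neg_neg, mul_zero, PX_q_one]

theorem PX_gg_zero : gg 0 = 0 := by
  have := gg_neg 0
  rw [neg_zero] at this
  linarith

theorem PX_gg_nonneg {x : ℝ} (hx : 0 ≤ x) : 0 ≤ gg x := by
  rw [← PX_gg_zero]
  exact gg_monotone hx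

theorem pp_imI_nonneg (hK : 0 < K) {s : ℝ} (h0 : 0 ≤ s) (h1 : s ≤ K * Real.pi) :
    0 ≤ (pp K s).imI := by
  have hK' : (0 : ℝ) < K := by exact_mod_cast hK
  rw [PX_pp_eq]
  show 0 ≤ gg (2 * Real.sin (s / K)) * Real.sin (Real.pi * PX_tau (s / K))
  apply mul_nonneg _ (PX_sin_nonneg _)
  apply PX_gg_nonneg
  have h2 : 0 ≤ Real.sin (s / K) := by
    apply Real.sin_nonneg_of_nonneg_of_le_pi
    · positivity
    · rw [div_le_iff₀ hK', mul_comm]; exact h1
  linarith

/-- In the middle third the imaginary part is positive. -/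
theorem pp_imI_pos {s : ℝ} (h0 : Real.pi / 3 < s) (h1 : s < 2 * Real.pi / 3) :
    0 < (pp 1 s).imI := by
  have hpi := Real.pi_pos
  have hc1 : Real.cos s < 1 / 2 := by
    rw [← Real.cos_pi_div_three]
    exact Real.cos_lt_cos_of_nonneg_of_le_pi (by linarith) (by linarith) h0
  have hc2 : -(1 / 2) < Real.cos s := by
    have h2 : Real.cos (2 * Real.pi / 3) = -(1 / 2) := by
      have e : 2 * Real.pi / 3 = Real.pi - Real.pi / 3 := by ring
      rw [e, Real.cos_pi_sub, Real.cos_pi_div_three]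
    rw [← h2]
    exact Real.cos_lt_cos_of_nonneg_of_le_pi (by linarith) (by linarith) h1
  have hsin : 0 < Real.sin s := Real.sin_pos_of_pos_of_lt_pi (by linarith) (by linarith)
  have ht0 : 0 < PX_tau s := Real.smoothTransition.pos_of_pos (by linarith)
  have ht1 : PX_tau s < 1 := Real.smoothTransition.lt_one_of_lt_one (by linarith)
  rw [PX_pp_one]
  show 0 < gg (2 * Real.sin s) * Real.sin (Real.pi * PX_tau s)
  apply mul_pos
  · have hs : 1 < (2 * Real.sin s) ^ 2 := by
      have := Real.sin_sq_add_cos_sq s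
      nlinarith
    have h3 : 1 ≤ 2 * Real.sin s := by nlinarith
    rw [gg_of_one_le h3]
    norm_num
  · apply Real.sin_pos_of_pos_of_lt_pi
    · positivity
    · nlinarith

/-- Symmetry: the real part is odd with respect to `π / 2`. -/
theorem pp_re_symm (s : ℝ) : (pp 1 (Real.pi - s)).re = -(pp 1 s).re := by
  rw [PX_pp_one, PX_pp_one]
  show -Real.cos (Real.pi * PX_tau (Real.pi - s)) = - -Real.cos (Real.pi * PX_tau s)
  rw [PX_tau_flip (Real.cos_pi_sub s)]
  have e2 : Real.pi * (1 - PX_tau s) = Real.pi - Real.pi * PX_tau s := by ring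
  rw [e2, Real.cos_pi_sub]

theorem PX_half_lt {x : ℝ} (hx : 1 / 2 < x) : 1 / 2 < Real.smoothTransition x := by
  unfold Real.smoothTransition
  have h := Real.smoothTransition.pos_denom x
  rw [lt_div_iff₀ h]
  have h1 : expNegInvGlue (1 - x) < expNegInvGlue x := by
    rcases le_or_gt (1 - x) 0 with h2 | h2
    · rw [expNegInvGlue.zero_of_nonpos h2]
      exact expNegInvGlue.pos_of_pos (by linarith)
    · unfold expNegInvGlue
      rw [if_neg (by linarith), if_neg (by linarith)]
      apply Real.exp_lt_exp.2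
      have : x⁻¹ < (1 - x)⁻¹ := by
        apply (inv_lt_inv₀ (by linarith) h2).2
        linarith
      linarith
  linarith

theorem pp_re_pos {s : ℝ} (h0 : 0 ≤ s) (h1 : s < Real.pi / 2) : 0 < (pp 1 s).re := by
  have hpi := Real.pi_pos
  rw [PX_pp_one]
  show 0 < -Real.cos (Real.pi * PX_tau s)
  have hc : 0 < Real.cos s := Real.cos_pos_of_mem_Ioo ⟨by linarith, h1⟩
  have ht : 1 / 2 < PX_tau s := PX_half_lt (by linarith)
  have ht1 := PX_tau_le_one s
  have h2 : Real.cos (Real.pi * PX_tau s) < 0 := by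
    apply Real.cos_neg_of_pi_div_two_lt_of_lt
    · nlinarith
    · nlinarith
  linarith

theorem pp_conj (s : ℝ) : (pp 1 (-s)).re = (pp 1 s).re ∧ (pp 1 (-s)).imI = -(pp 1 s).imI := by
  rw [PX_pp_one, PX_pp_one]
  have h : PX_tau (-s) = PX_tau s := by
    unfold PX_tau
    rw [Real.cos_neg]
  constructor
  · show -Real.cos (Real.pi * PX_tau (-s)) = -Real.cos (Real.pi * PX_tau s)
    rw [h]
  · show gg (2 * Real.sin (-s)) * Real.sin (Real.pi * PX_tau (-s)) =
      -(gg (2 * Real.sin s) * Real.sin (Real.pi * PX_tau s))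
    rw [h, Real.sin_neg, mul_neg, gg_neg]
    ring

theorem PX_periodic : Function.Periodic (pp 1) (2 * Real.pi) := by
  intro s
  have h : PX_tau (s + 2 * Real.pi) = PX_tau s := by
    unfold PX_tau
    rw [Real.cos_add_two_pi]
  rw [PX_pp_one, PX_pp_one, h, Real.sin_add_two_pi]

theorem PX_deriv_periodic : Function.Periodic (deriv (pp 1)) (2 * Real.pi) := by
  intro s
  have h1 : deriv (fun x => pp 1 (x + 2 * Real.pi)) s = deriv (pp 1) (s + 2 * Real.pi) :=
    deriv_comp_add_const _ _ _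
  rw [← h1]
  congr 1
  funext x
  exact PX_periodic x

theorem exists_pp_deriv : ∃ C : ℝ, 0 < C ∧ ∀ K : ℕ, 0 < K → ∀ s, ‖deriv (pp K) s‖ ≤ C / K := by
  have hc : Continuous (deriv (pp 1)) := (contDiff_pp 1).continuous_deriv (by norm_num)
  have hb := PX_deriv_periodic.isBounded_of_continuous (by positivity) hc
  obtain ⟨C, hC⟩ := hb.exists_norm_le
  refine ⟨max C 1, by positivity, fun K hK s => ?_⟩
  have hK' : (0 : ℝ) < K := by exact_mod_cast hK
  have e : pp K = fun x => pp 1 ((K : ℝ)⁻¹ * x) := by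
    funext x
    rw [pp_scale K x, div_eq_inv_mul]
  rw [e, deriv_comp_mul_left, norm_smul, Real.norm_of_nonneg (by positivity), div_eq_inv_mul]
  apply mul_le_mul_of_nonneg_left _ (by positivity)
  exact (hC _ ⟨_, rfl⟩).trans (le_max_left _ _)

theorem exists_pp_lip :
    ∃ C : ℝ, 0 < C ∧ ∀ K : ℕ, 0 < K → ∀ s s', ‖pp K s - pp K s'‖ ≤ C / K * |s - s'| := by
  obtain ⟨C, hC0, hC⟩ := exists_pp_deriv
  refine ⟨C, hC0, fun K hK s s' => ?_⟩
  have h := Convex.norm_image_sub_le_of_norm_deriv_le (f := pp K) (C := C / K) (s := univ)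
    (x := s') (y := s)
    (fun x _ => (contDiff_pp K).differentiable (by norm_num) x) (fun x _ => hC K hK x)
    convex_univ (mem_univ _) (mem_univ _)
  rwa [Real.norm_eq_abs] at h

end Pool.Agent.TotallySkew.Ori
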