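import Pool.Agent.TotallySkew.Ori.Defs

/-!
QA: quaternion algebra. All statements are componentwise computations.
-/

open scoped Quaternion ContDiff
open Function Set

namespace Pool.Agent.TotallySkew.Ori

theorem norm_sq_eq (h : ℍ[ℝ]) : ‖h‖ ^ 2 = h.re ^ 2 + h.imI ^ 2 + h.imJ ^ 2 + h.imK ^ 2 := by
  rw [← Quaternion.normSq_def', Quaternion.normSq_eq_norm_mul_self, sq]

theorem norm_sq_complex (z : ℂ) : ‖z‖ ^ 2 = z.re ^ 2 + z.im ^ 2 := by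
  rw [Complex.sq_norm, Complex.normSq_apply]; ring

theorem qv_re (v : ℝ × ℂ) : (qv v).re = 0 := rfl

theorem qv_imI (v : ℝ × ℂ) : (qv v).imI = v.2.re := rfl

theorem qv_imJ (v : ℝ × ℂ) : (qv v).imJ = v.2.im := rfl

theorem qv_imK (v : ℝ × ℂ) : (qv v).imK = v.1 := rfl

theorem Pm_re (c : ℂ) (v : ℝ × ℂ) : (Pm c v).re = 0 := rfl

theorem Pm_imI (c : ℂ) (v : ℝ × ℂ) : (Pm c v).imI = v.2.re - v.1 * c.re := by
  rw [Pm_apply]; simp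

theorem Pm_imJ (c : ℂ) (v : ℝ × ℂ) : (Pm c v).imJ = v.2.im - v.1 * c.im := by
  rw [Pm_apply]; simp

theorem Pm_imK (c : ℂ) (v : ℝ × ℂ) : (Pm c v).imK =
    -(c.re * (v.2.re - v.1 * c.re) + c.im * (v.2.im - v.1 * c.im)) := by
  rw [Pm_apply]; simp [ip]

theorem G2_re (h : ℍ[ℝ]) : (G2 h).re = h.imK := rfl

theorem G2_imI (h : ℍ[ℝ]) : (G2 h).imI = h.imI := rfl

theorem G2_imJ (h : ℍ[ℝ]) : (G2 h).imJ = h.imJ := rfl

theorem G2_imK (h : ℍ[ℝ]) : (G2 h).imK = -h.re := rfl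

private theorem le_of_sq {a b : ℝ} (h : a ^ 2 ≤ b ^ 2) (hb : 0 ≤ b) : a ≤ b :=
  le_of_abs_le (abs_le_of_sq_le_sq h hb)

theorem norm_qv_sq (v : ℝ × ℂ) : ‖qv v‖ ^ 2 = v.1 ^ 2 + ‖v.2‖ ^ 2 := by
  rw [norm_sq_eq, norm_sq_complex]
  simp only [qv]
  ring

theorem qv_eq_zero {v : ℝ × ℂ} (h : qv v = 0) : v = 0 := by
  have h2 := norm_qv_sq v
  rw [h, norm_zero] at h2
  have h3 : v.1 ^ 2 = 0 := by nlinarith [sq_nonneg v.1, sq_nonneg ‖v.2‖]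
  have h4 : ‖v.2‖ ^ 2 = 0 := by nlinarith [sq_nonneg v.1, sq_nonneg ‖v.2‖]
  have h5 : v.1 = 0 := by simpa using h3
  have h6 : v.2 = 0 := by simpa using h4
  exact Prod.ext h5 h6

theorem qv_add (v v' : ℝ × ℂ) : qv (v + v') = qv v + qv v' := by
  ext <;> simp [qv_re, qv_imI, qv_imJ, qv_imK]

theorem qv_smul (r : ℝ) (v : ℝ × ℂ) : qv (r • v) = r • qv v := by
  ext <;> simp [qv_re, qv_imI, qv_imJ, qv_imK]

theorem norm_qv_le (v : ℝ × ℂ) : ‖qv v‖ ≤ 2 * ‖v‖ := by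
  have h2 := norm_qv_sq v
  have h3 : |v.1| ≤ ‖v‖ := by
    have := norm_fst_le v
    rwa [Real.norm_eq_abs] at this
  have h4 : ‖v.2‖ ≤ ‖v‖ := norm_snd_le v
  have h5 : v.1 ^ 2 ≤ ‖v‖ ^ 2 := by
    rw [← sq_abs v.1]
    exact pow_le_pow_left₀ (abs_nonneg _) h3 2
  have h6 : ‖v.2‖ ^ 2 ≤ ‖v‖ ^ 2 := pow_le_pow_left₀ (norm_nonneg _) h4 2
  refine le_of_sq ?_ (by positivity)
  nlinarith [sq_nonneg ‖v‖]

theorem norm_le_norm_qv (v : ℝ × ℂ) : ‖v‖ ≤ ‖qv v‖ := by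
  have h2 := norm_qv_sq v
  rw [Prod.norm_def]
  refine max_le ?_ ?_
  · refine le_of_sq ?_ (norm_nonneg _)
    rw [Real.norm_eq_abs, sq_abs]
    nlinarith [sq_nonneg ‖v.2‖]
  · refine le_of_sq ?_ (norm_nonneg _)
    nlinarith [sq_nonneg v.1]

/-- An expansion of `Pm` into a sum of fixed maps with polynomial coefficients. -/
theorem Pm_expand (c : ℂ) : Pm c = Pm 0 + c.re • (Pm 1 - Pm 0) + c.im • (Pm Complex.I - Pm 0) +
    (c.re ^ 2 - c.re) • ((ContinuousLinearMap.fst ℝ ℝ ℂ).smulRight (qv (1, 0))) +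
    (c.im ^ 2 - c.im) • ((ContinuousLinearMap.fst ℝ ℝ ℂ).smulRight (qv (1, 0))) := by
  ext v <;> simp [Pm_re, Pm_imI, Pm_imJ, Pm_imK, qv_re, qv_imI, qv_imJ, qv_imK] <;> ring

private theorem contDiff_aux {F : Type*} [NormedAddCommGroup F] [NormedSpace ℝ F]
    (A0 A1 A2 A3 : F) : ContDiff ℝ ∞ (fun c : ℂ => A0 + c.re • A1 + c.im • A2 +
      (c.re ^ 2 - c.re) • A3 + (c.im ^ 2 - c.im) • A3) := by
  have hre : ContDiff ℝ ∞ (fun c : ℂ => c.re) := Complex.reCLM.contDiff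
  have him : ContDiff ℝ ∞ (fun c : ℂ => c.im) := Complex.imCLM.contDiff
  exact (((contDiff_const.add (hre.smul contDiff_const)).add (him.smul contDiff_const)).add
    (((hre.pow 2).sub hre).smul contDiff_const)).add
    (((him.pow 2).sub him).smul contDiff_const)

theorem contDiff_Pm : ContDiff ℝ ∞ Pm := by
  have h : Pm = fun c : ℂ => Pm 0 + c.re • (Pm 1 - Pm 0) + c.im • (Pm Complex.I - Pm 0) +
    (c.re ^ 2 - c.re) • ((ContinuousLinearMap.fst ℝ ℝ ℂ).smulRight (qv (1, 0))) +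
    (c.im ^ 2 - c.im) • ((ContinuousLinearMap.fst ℝ ℝ ℂ).smulRight (qv (1, 0))) := by
    funext c
    exact Pm_expand c
  rw [h]
  exact contDiff_aux (Pm 0) (Pm 1 - Pm 0) (Pm Complex.I - Pm 0)
    ((ContinuousLinearMap.fst ℝ ℝ ℂ).smulRight (qv (1, 0)))

theorem continuous_Pm : Continuous Pm := contDiff_Pm.continuous

/-- The kernel of `Pm c` is spanned by `(1, c)`. -/
theorem Pm_self (c : ℂ) : Pm c (1, c) = 0 := by
  rw [Pm_apply]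
  ext <;> simp [ip]

theorem norm_Pm_le {c : ℂ} (hc : ‖c‖ ≤ 1) (v : ℝ × ℂ) : ‖Pm c v‖ ≤ 2 * ‖v.2 - v.1 • c‖ := by
  set x := v.2 - v.1 • c with hx
  have hx1 : x.re = v.2.re - v.1 * c.re := by simp [hx]
  have hx2 : x.im = v.2.im - v.1 * c.im := by simp [hx]
  refine le_of_sq ?_ (by positivity)
  rw [norm_sq_eq, Pm_re, Pm_imI, Pm_imJ, Pm_imK, ← hx1, ← hx2]
  have h1 := norm_sq_complex x
  have hip : c.re * x.re + c.im * x.im = ip c x := rfl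
  rw [hip]
  have h2 : ip c x ^ 2 ≤ ‖x‖ ^ 2 := by
    have h3 : ip c x ^ 2 ≤ ‖c‖ ^ 2 * ‖x‖ ^ 2 := by
      rw [norm_sq_complex c, norm_sq_complex x]
      simp only [ip]
      nlinarith [sq_nonneg (c.re * x.im - c.im * x.re)]
    have h4 : ‖c‖ ^ 2 ≤ 1 := by
      have := norm_nonneg c
      nlinarith
    nlinarith [sq_nonneg ‖x‖]
  nlinarith [sq_nonneg ‖x‖]

theorem inner_qv_Pm (c : ℂ) (v : ℝ × ℂ) :
    inner ℝ (qv v) (Pm c v) = ‖v.2 - v.1 • c‖ ^ 2 := by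
  rw [Quaternion.inner_def, norm_sq_complex]
  simp only [qv_re, qv_imI, qv_imJ, qv_imK, Pm_re, Pm_imI, Pm_imJ, Pm_imK,
    Quaternion.re_mul, Quaternion.re_star, Quaternion.imI_star,
    Quaternion.imJ_star, Quaternion.imK_star, Complex.sub_re, Complex.sub_im, Complex.real_smul,
    Complex.mul_re, Complex.mul_im, Complex.ofReal_re, Complex.ofReal_im]
  ring

theorem norm_G2 (h : ℍ[ℝ]) : ‖G2 h‖ = ‖h‖ := by
  have h1 : ‖G2 h‖ ^ 2 = ‖h‖ ^ 2 := by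
    rw [norm_sq_eq, norm_sq_eq, G2_apply]
    ring
  exact (sq_eq_sq₀ (norm_nonneg _) (norm_nonneg _)).1 h1

theorem G2_mul_qv (q : ℍ[ℝ]) (v : ℝ × ℂ) :
    G2 (q * qv v) = G2 q * qv (v.1, Complex.I * v.2) := by
  ext <;> simp [G2_re, G2_imI, G2_imJ, G2_imK, qv_re, qv_imI, qv_imJ, qv_imK] <;> ring

theorem G2_mul_Pm (q : ℍ[ℝ]) (c : ℂ) (v : ℝ × ℂ) :
    G2 (q * Pm c v) = G2 q * Pm (Complex.I * c) (v.1, Complex.I * v.2) := by
  ext <;> simp [G2_re, G2_imI, G2_imJ, G2_imK, Pm_re, Pm_imI, Pm_imJ, Pm_imK] <;> ring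

theorem norm_qv_Rinv (v : ℝ × ℂ) : ‖qv (Rinv v)‖ = ‖qv v‖ := by
  have h1 : ‖qv (Rinv v)‖ ^ 2 = ‖qv v‖ ^ 2 := by
    rw [norm_qv_sq, norm_qv_sq, Rinv_apply]
    simp
  exact (sq_eq_sq₀ (norm_nonneg _) (norm_nonneg _)).1 h1

end Pool.Agent.TotallySkew.Ori
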