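import Pool.Agent.TotallySkew.Ori.CO0
import Pool.Agent.TotallySkew.Ori.CO1
import Pool.Agent.TotallySkew.Ori.CO2
import Pool.Agent.TotallySkew.Ori.LO

/-!
RM: the abstract model and its existence (P = K π, Φ = strip (pp K) (ww K), T = Mm (pp K) (ww K),
N = T P, for one large odd K).
-/

open scoped ContDiff Quaternion
open Function Set

namespace Pool.Agent.TotallySkew.Ori

/-- The strip `Φ` of period `2 P` with tangent planes `T s` along the core, such that the strips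
`(Gmap N)^[j] ∘ Φ` form a chain, totally skew along the cores. -/
structure IsRModel (P : ℝ) (Φ : ℝ × ℝ → ℂ × ℍ[ℝ]) (T : ℝ → ℝ × ℂ →L[ℝ] ℍ[ℝ])
    (N : ℝ × ℂ →L[ℝ] ℍ[ℝ]) : Prop where
  P_pos : 0 < P
  smooth : ContDiff ℝ ∞ Φ
  carries : ∀ s, Carries Φ (s, 0) (T s)
  per : ∀ s y, Φ (s + 2 * P, y) = Φ (s, y)
  cross : ∃ a : ℝ, 0 < a ∧ ∀ x y, |x| < a → |y| < a → Φ (P + x, y) = Gmap N (Φ (y, -x))
  cub : ∀ (s : ℝ) (v : ℝ × ℝ), v ≠ 0 →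
    Injective (cubMap Φ (ContinuousLinearMap.id ℝ (ℝ × ℝ)) (s, 0) v)
  core0 : ∀ s s' : ℝ, (∀ m : ℤ, s' ≠ s + m * (2 * P)) → Injective (T s - T s')
  core1 : ∀ s s' : ℝ, (¬ ∃ m n : ℤ, s = P + m * (2 * P) ∧ s' = n * (2 * P)) →
    Injective (T s - Gact N (T s'))
  core2 : ∀ j : ℕ, 2 ≤ j → ∀ s s' : ℝ, Injective (T s - (Gact N)^[j] (T s'))
  far : ∀ C : ℝ, ∃ J : ℕ, ∀ j : ℕ, J ≤ j → ∀ T₁ T₂ : ℝ × ℂ →L[ℝ] ℍ[ℝ], ‖T₁‖ ≤ C → ‖T₂‖ ≤ C →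
    Injective (T₁ - (Gact N)^[j] T₂)
  proper : ∀ C R : ℝ, ∃ J : ℕ, ∀ j : ℕ, J ≤ j → ∀ T₂ : ℝ × ℂ →L[ℝ] ℍ[ℝ], ‖T₂‖ ≤ C →
    ∀ z : ℂ, R < ‖((Gact N)^[j] T₂) (1, z)‖

theorem exists_rmodel : ∃ (P : ℝ) (Φ : ℝ × ℝ → ℂ × ℍ[ℝ]) (T : ℝ → ℝ × ℂ →L[ℝ] ℍ[ℝ])
    (N : ℝ × ℂ →L[ℝ] ℍ[ℝ]), IsRModel P Φ T N := by
  obtain ⟨K₀, h0⟩ := core0
  obtain ⟨K₁, h1⟩ := core1
  obtain ⟨K₂, h2⟩ := core2
  obtain ⟨K₃, h3⟩ := far_pairs
  obtain ⟨K₄, h4⟩ := far_proper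
  obtain ⟨K₅, h5⟩ := cub_strip
  set K : ℕ := 2 * (K₀ + K₁ + K₂ + K₃ + K₄ + K₅) + 1 with hKdef
  have hK : Odd K := ⟨_, hKdef⟩
  have hK0 : 0 < K := by omega
  have hpos : 0 < (K : ℝ) * Real.pi := by
    have : (0 : ℝ) < K := by exact_mod_cast hK0
    positivity
  refine ⟨K * Real.pi, strip (pp K) (ww K), Mm (pp K) (ww K), Mm (pp K) (ww K) (K * Real.pi), ?_⟩
  refine
    { P_pos := hpos
      smooth := contDiff_strip (contDiff_pp K) (contDiff_ww hK)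
      carries := fun s => carries_strip (contDiff_pp K) (contDiff_ww hK) ?_
      per := fun s y => strip_per hK s y
      cross := ⟨1 / 10, by norm_num, fun x y hx hy => strip_cross hK hx hy⟩
      cub := fun s v hv => h5 K (by omega) hK s v hv
      core0 := fun s s' h => h0 K (by omega) hK s s' h
      core1 := fun s s' h => h1 K (by omega) hK s s' h
      core2 := fun j hj s s' => h2 K (by omega) hK j hj s s'
      far := fun C => h3 K (by omega) hK C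
      proper := fun C R => h4 K (by omega) hK C R }
  intro h
  obtain ⟨r, -, -, hr, -⟩ := ww_jet hK s
  have h6 := one_le_norm_deriv_winf r
  rw [← hr, h, norm_zero] at h6
  linarith

end Pool.Agent.TotallySkew.Ori
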